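import Pool.Agent.Lib.MP_32d917_al_adm.CDefs

/-!
# C01: coded integers

Values and primitive recursion.
-/

set_option autoImplicit false

namespace AdmIso

open LatIso

theorem iv_pmul (x y : PI) : iv (pmul x y) = iv x * iv y := by
  unfold iv pmul
  push_cast
  ring

theorem iv_psub (x y : PI) : iv (psub x y) = iv x - iv y := by
  unfold iv psub
  push_cast
  ring

theorem iv_pdt (x y : PV) : iv (pdt x y) = dt (vv x) (vv y) := by
  unfold pdt dt vv
  rw [iv_psub, iv_pmul, iv_pmul]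

theorem iv_sg (k : ℕ) (x : PI) : iv (sg k x) = (-1) ^ k * iv x := by
  unfold sg
  split_ifs with h
  · have h1 : Odd k := Nat.odd_iff.2 h
    rw [h1.neg_one_pow]
    unfold iv
    ring
  · have h1 : Even k := by
      rw [Nat.even_iff]
      omega
    rw [h1.neg_one_pow, one_mul]

theorem peq_iff (x y : PI) : PEq x y ↔ iv x = iv y := by
  unfold PEq iv
  omega

/-- every integer has a code -/
theorem iv_surj (z : ℤ) : ∃ x : PI, iv x = z := by
  refine ⟨(z.toNat, (-z).toNat), ?_⟩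
  unfold iv
  dsimp only
  omega

theorem vv_surj (z : ℤ × ℤ) : ∃ x : PV, vv x = z := by
  obtain ⟨x, hx⟩ := iv_surj z.1
  obtain ⟨y, hy⟩ := iv_surj z.2
  refine ⟨(x, y), ?_⟩
  unfold vv
  dsimp only
  rw [hx, hy]

section

variable {β : Type} [Primcodable β]

theorem p_pmul {f g : β → PI} (hf : Primrec f) (hg : Primrec g) :
    Primrec fun x => pmul (f x) (g x) := by
  unfold pmul
  exact CB.p_pair
    (CB.p_add (CB.p_mul (CB.p_fst hf) (CB.p_fst hg)) (CB.p_mul (CB.p_snd hf) (CB.p_snd hg)))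
    (CB.p_add (CB.p_mul (CB.p_fst hf) (CB.p_snd hg)) (CB.p_mul (CB.p_snd hf) (CB.p_fst hg)))

theorem p_psub {f g : β → PI} (hf : Primrec f) (hg : Primrec g) :
    Primrec fun x => psub (f x) (g x) := by
  unfold psub
  exact CB.p_pair (CB.p_add (CB.p_fst hf) (CB.p_snd hg)) (CB.p_add (CB.p_snd hf) (CB.p_fst hg))

theorem p_pdt {f g : β → PV} (hf : Primrec f) (hg : Primrec g) :
    Primrec fun x => pdt (f x) (g x) := by
  unfold pdt
  exact p_psub (p_pmul (CB.p_fst hf) (CB.p_snd hg)) (p_pmul (CB.p_snd hf) (CB.p_fst hg))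

theorem p_sg {k : β → ℕ} {f : β → PI} (hk : Primrec k) (hf : Primrec f) :
    Primrec fun x => sg (k x) (f x) := by
  unfold sg
  exact Primrec.ite (CB.pp_eq (CB.p_mod hk (Primrec.const 2)) (Primrec.const 1))
    (CB.p_pair (CB.p_snd hf) (CB.p_fst hf)) hf

theorem pp_PEq {f g : β → PI} (hf : Primrec f) (hg : Primrec g) :
    PrimrecPred fun x => PEq (f x) (g x) := by
  unfold PEq
  exact CB.pp_eq (CB.p_add (CB.p_fst hf) (CB.p_snd hg)) (CB.p_add (CB.p_fst hg) (CB.p_snd hf))

end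

end AdmIso
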