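import Pool.Agent.Lib.MP_32d917_al_adm.CDefs

/-!
# C02: words, basic facts

`dl_of_lt`: for words with letters `< n` the element `dl n l` is `mk l'` where `l'` is the same word with
letters in `Fin n`.

`dl_exp`: both sides are additive in `l`; a letter `(x, true)`, `x < n`, contributes `(τ (of x)).toAdd`,
a letter `(x, false)` its negative, a letter with `x ≥ n` nothing.
-/

set_option autoImplicit false

namespace AdmIso

open LatIso

/-- the value of a letter -/
def c02l (n : ℕ) (p : ℕ × Bool) : FreeGroup (Fin n) :=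
  if h : p.1 < n then FreeGroup.mk [((⟨p.1, h⟩ : Fin n), p.2)] else 1

theorem c02_cons (n : ℕ) (p : ℕ × Bool) (l : Wd) : dl n (p :: l) = c02l n p * dl n l := by
  unfold dl c02l
  rw [List.map_cons, List.prod_cons]

theorem dl_nil (n : ℕ) : dl n [] = 1 := by
  unfold dl
  rw [List.map_nil, List.prod_nil]

theorem dl_append (n : ℕ) (l l' : Wd) : dl n (l ++ l') = dl n l * dl n l' := by
  unfold dl
  rw [List.map_append, List.prod_append]

theorem c02_inv (n : ℕ) (p : ℕ × Bool) : c02l n (p.1, !p.2) = (c02l n p)⁻¹ := by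
  unfold c02l
  by_cases h : p.1 < n
  · simp only [h, dif_pos, FreeGroup.inv_mk, FreeGroup.invRev, List.map_cons, List.map_nil,
      List.reverse_singleton]
  · simp only [h, not_false_eq_true, dif_neg, inv_one]

theorem dl_invRev (n : ℕ) (l : Wd) : dl n (FreeGroup.invRev l) = (dl n l)⁻¹ := by
  induction l with
  | nil => simp [dl_nil]
  | cons p l ih =>
    rw [FreeGroup.invRev_cons, dl_append, ih, c02_cons, mul_inv_rev]
    congr 1
    have : FreeGroup.invRev [p] = [(p.1, !p.2)] := rfl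
    rw [this, c02_cons, dl_nil, mul_one, c02_inv]

theorem dl_map (n : ℕ) (l' : List (Fin n × Bool)) :
    dl n (l'.map fun x => ((x.1 : ℕ), x.2)) = FreeGroup.mk l' := by
  induction l' with
  | nil => rw [List.map_nil, dl_nil, FreeGroup.one_eq_mk]
  | cons p l ih =>
    rw [List.map_cons, c02_cons, ih]
    have : c02l n ((p.1 : ℕ), p.2) = FreeGroup.mk [p] := by
      unfold c02l
      simp
    rw [this, FreeGroup.mul_mk, List.singleton_append]

theorem dl_of_lt (n : ℕ) (l : Wd) (h : ∀ x ∈ l, x.1 < n) : ∃ l' : List (Fin n × Bool),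
    l'.map (fun x => ((x.1 : ℕ), x.2)) = l ∧ dl n l = FreeGroup.mk l' := by
  have hex : ∃ l' : List (Fin n × Bool), l'.map (fun x => ((x.1 : ℕ), x.2)) = l := by
    induction l with
    | nil => exact ⟨[], rfl⟩
    | cons p l ih =>
      obtain ⟨l', hl'⟩ := ih fun x hx => h x (List.mem_cons_of_mem _ hx)
      exact ⟨(⟨p.1, h p List.mem_cons_self⟩, p.2) :: l', by rw [List.map_cons, hl']⟩
  obtain ⟨l', hl'⟩ := hex
  exact ⟨l', hl', by rw [← hl', dl_map]⟩

/-- every element is given by a word with letters `< n` -/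
theorem dl_surj (n : ℕ) (x : FreeGroup (Fin n)) : ∃ l : Wd, dl n l = x ∧ (∀ y ∈ l, y.1 < n) := by
  refine ⟨x.toWord.map fun x => ((x.1 : ℕ), x.2), ?_, ?_⟩
  · rw [dl_map, FreeGroup.mk_toWord]
  · intro y hy
    rw [List.mem_map] at hy
    obtain ⟨z, -, rfl⟩ := hy
    exact z.1.2

theorem c02_iv (x : ℕ) (p : ℕ × Bool) (l : Wd) : iv (exN x (p :: l)) =
    (if p = (x, true) then 1 else 0) - (if p = (x, false) then 1 else 0) + iv (exN x l) := by
  unfold exN iv
  simp only [List.count_cons, beq_iff_eq]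
  split_ifs <;> push_cast <;> ring

theorem c02_exp (n : ℕ) (τ : FreeGroup (Fin n) →* Multiplicative ℤ) (p : ℕ × Bool) :
    (τ (c02l n p)).toAdd = ∑ x : Fin n, ((if p = ((x : ℕ), true) then (1 : ℤ) else 0) -
      (if p = ((x : ℕ), false) then 1 else 0)) * (τ (FreeGroup.of x)).toAdd := by
  by_cases h : p.1 < n
  · rw [Finset.sum_eq_single (⟨p.1, h⟩ : Fin n)]
    · unfold c02l
      rw [dif_pos h]
      obtain ⟨a, s⟩ := p
      cases s
      · have e : FreeGroup.mk [((⟨a, h⟩ : Fin n), false)] = (FreeGroup.of (⟨a, h⟩ : Fin n))⁻¹ :=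
          rfl
        rw [e, map_inv, toAdd_inv]
        simp
      · have e : FreeGroup.mk [((⟨a, h⟩ : Fin n), true)] = FreeGroup.of (⟨a, h⟩ : Fin n) :=
          rfl
        rw [e]
        simp
    · intro x _ hx
      have h1 : ∀ s, p ≠ ((x : ℕ), s) := by
        intro s hs
        apply hx
        ext
        exact (congrArg Prod.fst hs).symm
      rw [if_neg (h1 true), if_neg (h1 false), sub_self, zero_mul]
    · intro h1
      exact absurd (Finset.mem_univ _) h1
  · unfold c02l
    rw [dif_neg h, map_one, toAdd_one]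
    symm
    apply Finset.sum_eq_zero
    intro x _
    have h1 : ∀ s, p ≠ ((x : ℕ), s) := by
      intro s hs
      apply h
      rw [hs]
      exact x.2
    rw [if_neg (h1 true), if_neg (h1 false), sub_self, zero_mul]

theorem dl_exp (n : ℕ) (τ : FreeGroup (Fin n) →* Multiplicative ℤ) (l : Wd) :
    (τ (dl n l)).toAdd = ∑ x : Fin n, iv (exN x l) * (τ (FreeGroup.of x)).toAdd := by
  induction l with
  | nil =>
    rw [dl_nil, map_one, toAdd_one]
    symm
    apply Finset.sum_eq_zero
    intro x _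
    simp [exN, iv]
  | cons p l ih =>
    rw [c02_cons, map_mul, toAdd_mul, ih, c02_exp, ← Finset.sum_add_distrib]
    refine Finset.sum_congr rfl fun x _ => ?_
    rw [c02_iv, add_mul]

theorem c02_red (n : ℕ) (l' : List (Fin n × Bool)) :
    FreeGroup.IsReduced (l'.map fun x => ((x.1 : ℕ), x.2)) ↔ FreeGroup.IsReduced l' := by
  unfold FreeGroup.IsReduced
  rw [List.isChain_map]
  simp only [Fin.val_inj]

/-- cyclically reduced words -/
theorem crn_iff (n : ℕ) (l' : List (Fin n × Bool)) :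
    CRN n (l'.map fun x => ((x.1 : ℕ), x.2)) ↔ FreeGroup.IsCyclicallyReduced l' := by
  unfold CRN
  rw [← FreeGroup.isReduced_iff_reduce_eq, ← List.map_append, c02_red,
    FreeGroup.isCyclicallyReduced_iff]
  have h1 : ∀ x ∈ l'.map (fun x => ((x.1 : ℕ), x.2)), x.1 < n := by
    intro y hy
    rw [List.mem_map] at hy
    obtain ⟨z, -, rfl⟩ := hy
    exact z.1.2
  have h2 : FreeGroup.IsReduced (l' ++ l') ↔ FreeGroup.IsReduced l' ∧
      ∀ a ∈ l'.getLast?, ∀ b ∈ l'.head?, a.1 = b.1 → a.2 = b.2 := by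
    unfold FreeGroup.IsReduced
    rw [List.isChain_append]
    exact ⟨fun h => ⟨h.1, h.2.2⟩, fun h => ⟨h.1, h.1, h.2⟩⟩
  rw [h2]
  exact ⟨fun h => h.1, fun h => ⟨h, h1⟩⟩

/-- a cyclically reduced element has a cyclically reduced code -/
theorem crn_surj (n : ℕ) (x : FreeGroup (Fin n)) (h : FreeGroup.IsCyclicallyReduced x.toWord) :
    ∃ l : Wd, dl n l = x ∧ CRN n l :=
  ⟨x.toWord.map fun x => ((x.1 : ℕ), x.2), by rw [dl_map, FreeGroup.mk_toWord],
    (crn_iff n _).2 h⟩

end AdmIso
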