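import Pool.Agent.Lib.MP_32d917_al_adm.RDefs

/-!
# F01: commuting elements of free groups

`fg_central`: if `a ≠ b` are two generators, `z ≠ 1` central: choose a letter `q` which is different
from the last letter and from the inverse of the first letter... precisely: let `z.toWord = p :: l`.
For a letter `q` with `q ≠ p⁻¹` the word of `q * z` is `q :: z.toWord`, of length `|z| + 1`; so `z * q` has
length `|z| + 1` and its word is `z.toWord ++ [q]`; comparing first letters `q = p`. So `p` and `p⁻¹`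
are the only letters, contradiction.

`fg_cent`: the centraliser `C` of `w` is a free group by Nielsen-Schreier (`subgroupIsFreeOfIsFree`),
isomorphic to a `FreeGroup X`, with the non trivial central element `w`; by `fg_central` the type `X`
has at most one element (and `X` is not empty), so `C` is infinite cyclic, generated by some `r`.

`fg_inv`: if `x w x⁻¹ = w⁻¹` then `x ^ 2` commutes with `w`. If `x ^ 2 = 1` then `x = 1`
(torsion free) and `w = w⁻¹`, `w = 1`. Otherwise `x` and `w` commute with `x ^ 2 ≠ 1`, so `x`, `w`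
commute and `w = w⁻¹`.

`fg_nc2`: map two generators `x, y` to a finite group and the others to `1`, and `decide`; e.g.
`a1 = x, a2 = y, b1 = x ^ 2, b2 = y` or other choices, in `Equiv.Perm (Fin 5)` or `Fin 4`.
-/

set_option autoImplicit false

namespace AdmIso

theorem fg_central {α : Type} (z : FreeGroup α) (hz : z ≠ 1) (h : ∀ x, x * z = z * x) :
    Subsingleton α := by
  classical
  have hkey : ∀ c : α, ∀ p l, z.toWord = p :: l → c = p.1 := by
    intro c p l hp
    by_contra hc
    have hred : FreeGroup.IsReduced ((c, true) :: p :: l) := by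
      rw [FreeGroup.isReduced_cons_cons]
      refine ⟨fun h1 => absurd h1 hc, ?_⟩
      rw [← hp]
      exact FreeGroup.isReduced_toWord
    have e1 : (FreeGroup.mk [(c, true)] * z).toWord = (c, true) :: p :: l := by
      conv_lhs => rw [← FreeGroup.mk_toWord (x := z)]
      rw [FreeGroup.mul_mk, FreeGroup.toWord_mk, hp]
      exact hred.reduce_eq
    have e2 : (z * FreeGroup.mk [(c, true)]).toWord =
        FreeGroup.reduce ((p :: l) ++ [(c, true)]) := by
      conv_lhs => rw [← FreeGroup.mk_toWord (x := z)]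
      rw [FreeGroup.mul_mk, FreeGroup.toWord_mk, hp]
    rw [← h, e1] at e2
    have hR : FreeGroup.Red ((p :: l) ++ [(c, true)])
        (FreeGroup.reduce ((p :: l) ++ [(c, true)])) := FreeGroup.reduce.red
    rw [← e2] at hR
    have h3 := hR.sublist.eq_of_length (by simp)
    rw [List.cons_append, List.cons.injEq] at h3
    exact hc (congrArg Prod.fst h3.1)
  rcases hw : z.toWord with _ | ⟨p, l⟩
  · exact absurd (FreeGroup.toWord_eq_nil_iff.1 hw) hz
  · exact ⟨fun a b => (hkey a p l hw).trans (hkey b p l hw).symm⟩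

theorem f01_unique {X : Type} (hX : Subsingleton X) (x0 : X) (y : FreeGroup X) :
    ∃ k : ℤ, y = FreeGroup.of x0 ^ k := by
  induction y using FreeGroup.induction_on with
  | C1 => exact ⟨0, by simp⟩
  | of i => exact ⟨1, by rw [Subsingleton.elim i x0, zpow_one]⟩
  | inv_of i _ => exact ⟨-1, by rw [Subsingleton.elim i x0, zpow_neg_one]⟩
  | mul a b ha hb =>
    obtain ⟨k, rfl⟩ := ha
    obtain ⟨l, rfl⟩ := hb
    exact ⟨k + l, by rw [zpow_add]⟩

theorem fg_cent {α : Type} (w : FreeGroup α) (hw : w ≠ 1) :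
    ∃ r : FreeGroup α, ∀ x, x * w = w * x ↔ ∃ k : ℤ, x = r ^ k := by
  set C : Subgroup (FreeGroup α) := Subgroup.centralizer {w} with hC
  have hmem : ∀ x, x ∈ C ↔ x * w = w * x := by
    intro x
    rw [hC, Subgroup.mem_centralizer_iff]
    simp only [Set.mem_singleton_iff, forall_eq]
    exact eq_comm
  have hwC : w ∈ C := (hmem w).2 rfl
  let e := IsFreeGroup.toFreeGroup C
  have hz : e ⟨w, hwC⟩ ≠ 1 := by
    intro h1
    apply hw
    have h2 : (⟨w, hwC⟩ : C) = 1 := e.injective (h1.trans (map_one e).symm)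
    exact congrArg Subtype.val h2
  have hcen : ∀ x, x * e ⟨w, hwC⟩ = e ⟨w, hwC⟩ * x := by
    intro x
    obtain ⟨y, rfl⟩ := e.surjective x
    rw [← map_mul, ← map_mul]
    congr 1
    exact Subtype.ext ((hmem y).1 y.2)
  have hsub := fg_central _ hz hcen
  have hne : Nonempty (IsFreeGroup.Generators C) := by
    by_contra hcon
    rw [not_nonempty_iff] at hcon
    exact hz (Subsingleton.elim _ _)
  obtain ⟨x0⟩ := hne
  refine ⟨(e.symm (FreeGroup.of x0)).1, fun x => ⟨fun hx => ?_, ?_⟩⟩
  · obtain ⟨k, hk⟩ := f01_unique hsub x0 (e ⟨x, (hmem x).2 hx⟩)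
    refine ⟨k, ?_⟩
    have h2 : (⟨x, (hmem x).2 hx⟩ : C) = (e.symm (FreeGroup.of x0)) ^ k := by
      rw [← map_zpow, ← hk, MulEquiv.symm_apply_apply]
    exact congrArg Subtype.val h2
  · rintro ⟨k, rfl⟩
    rw [← hmem]
    exact C.zpow_mem (e.symm (FreeGroup.of x0)).2 k

theorem fg_comm_trans {α : Type} {w x y : FreeGroup α} (hw : w ≠ 1) (hx : x * w = w * x)
    (hy : y * w = w * y) : x * y = y * x := by
  obtain ⟨r, hr⟩ := fg_cent w hw
  obtain ⟨k, rfl⟩ := (hr x).1 hx
  obtain ⟨l, rfl⟩ := (hr y).1 hy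
  rw [← zpow_add, ← zpow_add, add_comm]

theorem f01_sq {α : Type} {x : FreeGroup α} (hx : x * x = 1) : x = 1 := by
  have h := pow_left_injective (M := FreeGroup α) (n := 2) (by norm_num)
  apply h
  simp only [pow_two, hx, mul_one]

theorem fg_inv {α : Type} {w x : FreeGroup α} (hw : w ≠ 1) : x * w * x⁻¹ ≠ w⁻¹ := by
  intro h
  have h1 : x * w = w⁻¹ * x := by rw [← h]; group
  have h2 : x * w⁻¹ = w * x := by
    have h3 : x * w⁻¹ * x⁻¹ = w := by
      have h4 := congrArg (fun y => y⁻¹) h
      simp only [mul_inv_rev, inv_inv] at h4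
      rw [← mul_assoc] at h4
      exact h4
    calc x * w⁻¹ = (x * w⁻¹ * x⁻¹) * x := by group
      _ = w * x := by rw [h3]
  have h5 : (x * x) * w = w * (x * x) := by
    rw [mul_assoc, h1, ← mul_assoc, h2, mul_assoc]
  have hcomm : x * w = w * x := by
    by_cases hxx : x * x = 1
    · rw [f01_sq hxx]
      simp
    · exact fg_comm_trans hxx (by rw [mul_assoc]) h5.symm
  have h6 : w = w⁻¹ := by
    have := hcomm.symm.trans h1
    exact mul_right_cancel this
  apply hw
  apply f01_sq
  nth_rewrite 2 [h6]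
  exact mul_inv_cancel w

/-- a homomorphism to the symmetric group of degree four -/
def f01_hom (n : ℕ) : FreeGroup (Fin n) →* Equiv.Perm (Fin 4) :=
  FreeGroup.lift fun i => if i.val = 0 then Equiv.swap 2 3 else
    if i.val = 1 then Equiv.swap 0 1 * Equiv.swap 1 2 else 1

theorem f01_hom0 (n : ℕ) (h : 0 < n) : f01_hom n (FreeGroup.of ⟨0, h⟩) = Equiv.swap 2 3 := by
  simp [f01_hom]

theorem f01_hom1 (n : ℕ) (h : 1 < n) :
    f01_hom n (FreeGroup.of ⟨1, h⟩) = Equiv.swap 0 1 * Equiv.swap 1 2 := by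
  simp [f01_hom]

theorem fg_nc (n : ℕ) (hn : 2 ≤ n) : ∃ a b : FreeGroup (Fin n), a * b ≠ b * a := by
  refine ⟨FreeGroup.of ⟨0, by omega⟩, FreeGroup.of ⟨1, by omega⟩, fun h => ?_⟩
  have h1 := congrArg (f01_hom n) h
  rw [map_mul, map_mul, f01_hom0, f01_hom1] at h1
  exact absurd h1 (by decide)

theorem fg_nc2 (n : ℕ) (hn : 2 ≤ n) : ∃ a1 a2 b1 b2 : FreeGroup (Fin n),
    cmr a1 a2 * cmr b1 b2 ≠ cmr b1 b2 * cmr a1 a2 := by
  refine ⟨FreeGroup.of ⟨0, by omega⟩, FreeGroup.of ⟨1, by omega⟩, FreeGroup.of ⟨0, by omega⟩,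
    (FreeGroup.of ⟨1, by omega⟩)⁻¹, fun h => ?_⟩
  have h1 := congrArg (f01_hom n) h
  simp only [cmr, map_mul, map_inv, f01_hom0, f01_hom1] at h1
  exact absurd h1 (by decide)

end AdmIso
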