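import Pool.Agent.Lib.MP_32d917_al_adm.C02
import Pool.Agent.Lib.MP_32d917_al_adm.F01
import Pool.Agent.Lib.MP_0c2883_lc.All.Conj

/-!
# C03: rotations, conjugacy and roots of cyclically reduced words

Work with `l' : List (Fin n × Bool)` cyclically reduced, `l = l'.map ..` (`crn_iff`, `dl_map`).
`RotK l m k` for `k < l.length` says `m = l.rotate k`.

`rot_iff`. (←) `l = u ++ v`, `m = v ++ u` with `u` the first `k` letters: conjugate by `u⁻¹`. (→) two
cyclically reduced words which are conjugate are rotations of each other.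

`root_iff`. (→) Let `RotK l l k`, `0 < k < l.length`; then with `u` the first `k` letters `u` commutes with
`w = dl n l`, so `u = w ^ j`; the word of `w ^ j` has length `|j| l.length` (`l` cyclically reduced), and that of
`u` has length `k`; contradiction. (←) `fg_cent`: the centraliser of `w` consists of the powers of `r`,
`w = r ^ j` with `j > 0` after replacing `r` by its inverse (`w ≠ 1` since `l ≠ []`). With
`conjugator` and `reduceCyclically` of the word of `r` (`reduce_flatten_replicate`): the word of `r ^ j` is
`c ++ (replicate j r').flatten ++ invRev c`, and it is `l`, cyclically reduced, so `c = []` and `l` is `r'` repeated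
`j` times. If `j ≥ 2` then `RotK l l r'.length`, contradiction. So `j = 1`, `r = w`.
-/

set_option autoImplicit false

namespace AdmIso

open LatIso

theorem rotK_iff {l m : Wd} {k : ℕ} : RotK l m k ↔ m = l.rotate k := by
  constructor
  · rintro ⟨h1, h2⟩
    apply List.ext_getElem
    · rw [h1, List.length_rotate]
    · intro i hi hi'
      have h3 : i < l.length := by rwa [h1] at hi
      have h4 := h2 i h3
      rw [List.getElem_rotate]
      have h5 : (i + k) % l.length < l.length := Nat.mod_lt _ (by omega)
      rwa [List.getD_eq_getElem _ _ hi, List.getD_eq_getElem _ _ h5] at h4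
  · rintro rfl
    refine ⟨List.length_rotate _ _, fun i hi => ?_⟩
    have h5 : (i + k) % l.length < l.length := Nat.mod_lt _ (by omega)
    rw [List.getD_eq_getElem _ _ (by rwa [List.length_rotate]), List.getD_eq_getElem _ _ h5,
      List.getElem_rotate]

theorem crn_out {n : ℕ} {l : Wd} (hl : CRN n l) : ∃ l' : List (Fin n × Bool),
    l'.map (fun x => ((x.1 : ℕ), x.2)) = l ∧ dl n l = FreeGroup.mk l' ∧
      FreeGroup.IsCyclicallyReduced l' := by
  obtain ⟨l', h1, h2⟩ := dl_of_lt n l hl.2
  refine ⟨l', h1, h2, ?_⟩
  rw [← crn_iff, h1]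
  exact hl

theorem rot_iff (n : ℕ) (l m : Wd) (hl : CRN n l) (hm : CRN n m) (h0 : l ≠ []) :
    (∃ x, x * dl n l * x⁻¹ = dl n m) ↔ ∃ k < l.length, RotK l m k := by
  constructor
  · rintro ⟨x, hx⟩
    obtain ⟨l', h1, h2, h3⟩ := crn_out hl
    obtain ⟨m', h4, h5, h6⟩ := crn_out hm
    rw [h2, h5] at hx
    have h7 : FreeGroup.mk m' = FreeGroup.mk x.toWord * FreeGroup.mk l' *
        (FreeGroup.mk x.toWord)⁻¹ := by
      rw [FreeGroup.mk_toWord, hx]
    have h8 := Pool.Agent.Lib.MP_0c2883_lc.All.Conj.main_aux x.toWord.length x.toWord m' l' rfl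
      FreeGroup.isReduced_toWord h6 h3 h7
    have h9 : m ~r l := by
      rw [← h1, ← h4]
      exact h8.map _
    obtain ⟨k, hk⟩ := h9.symm
    have hpos : 0 < l.length := List.length_pos_iff.2 h0
    refine ⟨k % l.length, Nat.mod_lt _ hpos, ?_⟩
    rw [rotK_iff, List.rotate_mod]
    exact hk.symm
  · rintro ⟨k, hk, h⟩
    rw [rotK_iff] at h
    refine ⟨(dl n (l.take k))⁻¹, ?_⟩
    rw [h, List.rotate_eq_drop_append_take hk.le, dl_append]
    conv_lhs => rw [← List.take_append_drop k l]
    rw [dl_append]
    simp only [List.take_append_drop]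
    group

theorem norm_pow_cr {α : Type} [DecidableEq α] {l : List (α × Bool)}
    (h : FreeGroup.IsCyclicallyReduced l) (j : ℕ) :
    ((FreeGroup.mk l) ^ j).norm = j * l.length := by
  have h1 : ((FreeGroup.mk l) ^ j).toWord = (List.replicate j l).flatten := by
    rw [FreeGroup.toWord_pow, FreeGroup.toWord_mk, h.isReduced.reduce_eq]
    exact (h.flatten_replicate j).isReduced.reduce_eq
  rw [FreeGroup.norm, h1]
  simp

theorem norm_zpow_cr {α : Type} [DecidableEq α] {l : List (α × Bool)}
    (h : FreeGroup.IsCyclicallyReduced l) (j : ℤ) :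
    ((FreeGroup.mk l) ^ j).norm = j.natAbs * l.length := by
  rcases Int.natAbs_eq j with h1 | h1
  · nth_rewrite 1 [h1]
    rw [zpow_natCast, norm_pow_cr h]
  · nth_rewrite 1 [h1]
    rw [zpow_neg, zpow_natCast, FreeGroup.norm_inv_eq, norm_pow_cr h]

theorem cr_conj_nil {α : Type} {c r : List (α × Bool)}
    (h : FreeGroup.IsCyclicallyReduced (c ++ r ++ FreeGroup.invRev c)) : c = [] := by
  cases c with
  | nil => rfl
  | cons a c =>
    exfalso
    have h0 : a :: c ++ r ++ FreeGroup.invRev (a :: c) =
        (a :: c ++ r ++ FreeGroup.invRev c) ++ [(a.1, !a.2)] := by simp [FreeGroup.invRev]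
    rw [h0] at h
    have h1 := h.2 (a.1, !a.2) (by rw [List.getLast?_concat]; rfl) a (by simp) rfl
    simp at h1

theorem root_iff (n : ℕ) (l : Wd) (hl : CRN n l) (h0 : l ≠ []) :
    (∀ x, x * dl n l = dl n l * x → ∃ k : ℤ, x = dl n l ^ k) ↔
      ∀ k < l.length, RotK l l k → k = 0 := by
  classical
  obtain ⟨l', h1, h2, h3⟩ := crn_out hl
  have hlen : l'.length = l.length := by rw [← h1, List.length_map]
  have hne : l' ≠ [] := by
    rintro rfl
    exact h0 h1.symm
  constructor
  · intro h k hk hr
    rw [rotK_iff] at hr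
    by_contra hk0
    have h4 : dl n (l.take k) * dl n l = dl n l * dl n (l.take k) := by
      have e1 : dl n l = dl n (l.take k) * dl n (l.drop k) := by
        rw [← dl_append, List.take_append_drop]
      have e2 : dl n l = dl n (l.drop k) * dl n (l.take k) := by
        rw [← dl_append, ← List.rotate_eq_drop_append_take hk.le, ← hr]
      calc dl n (l.take k) * dl n l = dl n (l.take k) * (dl n (l.drop k) * dl n (l.take k)) := by
            rw [← e2]
        _ = dl n (l.take k) * dl n (l.drop k) * dl n (l.take k) := by rw [mul_assoc]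
        _ = dl n l * dl n (l.take k) := by rw [← e1]
    obtain ⟨j, hj⟩ := h _ h4
    have h5 : dl n (l.take k) = FreeGroup.mk (l'.take k) := by
      rw [← dl_map, List.map_take, h1]
    have h6 : (FreeGroup.mk (l'.take k)).norm = k := by
      have h7 : FreeGroup.IsReduced (l'.take k) :=
        List.IsChain.left_of_append (l₂ := l'.drop k) (by
          rw [List.take_append_drop]
          exact h3.isReduced)
      rw [FreeGroup.norm, FreeGroup.toWord_mk, h7.reduce_eq, List.length_take]
      omega
    have h8 := norm_zpow_cr h3 j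
    rw [← h2, ← hj, h5, h6, hlen] at h8
    rcases Nat.eq_zero_or_pos j.natAbs with h9 | h9
    · rw [h9] at h8; omega
    · have : l.length ≤ j.natAbs * l.length := Nat.le_mul_of_pos_left _ h9
      omega
  · intro h
    have hw : dl n l ≠ 1 := by
      rw [h2]
      intro h4
      apply hne
      exact Pool.Agent.Lib.MP_0c2883_lc.All.Conj.eq_of_mk h3.isReduced (by simp) h4
    obtain ⟨r, hr⟩ := fg_cent (dl n l) hw
    obtain ⟨j0, hj0⟩ := (hr (dl n l)).1 rfl
    -- choose the sign
    obtain ⟨s, j, hj, hs⟩ : ∃ (s : FreeGroup (Fin n)) (j : ℕ), dl n l = s ^ j ∧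
        ∀ x, x * dl n l = dl n l * x → ∃ k : ℤ, x = s ^ k := by
      rcases Int.natAbs_eq j0 with h5 | h5
      · refine ⟨r, j0.natAbs, ?_, fun x hx => (hr x).1 hx⟩
        rw [← zpow_natCast, ← h5]
        exact hj0
      · refine ⟨r⁻¹, j0.natAbs, ?_, fun x hx => ?_⟩
        · rw [← zpow_natCast, inv_zpow', ← h5]
          exact hj0
        · obtain ⟨k, hk⟩ := (hr x).1 hx
          exact ⟨-k, by rw [inv_zpow', neg_neg]; exact hk⟩
    have hj1 : j ≠ 0 := by
      rintro rfl
      exact hw (by rw [hj, pow_zero])
    have h6 : l' = FreeGroup.reduceCyclically.conjugator s.toWord ++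
        (List.replicate j (FreeGroup.reduceCyclically s.toWord)).flatten ++
        FreeGroup.invRev (FreeGroup.reduceCyclically.conjugator s.toWord) := by
      have h7 : l' = (s ^ j).toWord := by
        rw [← hj, h2, FreeGroup.toWord_mk, h3.isReduced.reduce_eq]
      rw [h7, FreeGroup.toWord_pow,
        FreeGroup.reduceCyclically.reduce_flatten_replicate FreeGroup.isReduced_toWord,
        if_neg hj1]
    have h7 : FreeGroup.reduceCyclically.conjugator s.toWord = [] := by
      rw [h6] at h3
      exact cr_conj_nil h3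
    rw [h7] at h6
    simp only [List.nil_append, FreeGroup.invRev_empty, List.append_nil] at h6
    set t := FreeGroup.reduceCyclically s.toWord with ht
    have htne : t ≠ [] := by
      intro h8
      apply hne
      rw [h6, h8]
      simp
    obtain ⟨i, rfl⟩ : ∃ i, j = i + 1 := ⟨j - 1, by omega⟩
    have hi : i = 0 := by
      by_contra hi
      have h8 : l'.length = (i + 1) * t.length := by
        rw [h6]; simp
      have h9 : 0 < t.length := List.length_pos_iff.2 htne
      have h10 : t.length < l.length := by
        rw [← hlen, h8]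
        have : 1 * t.length < (i + 1) * t.length := Nat.mul_lt_mul_of_pos_right (by omega) h9
        omega
      have h11 := h t.length h10 (by
        rw [rotK_iff, ← h1, ← List.map_rotate]
        congr 1
        rw [List.rotate_eq_drop_append_take (by omega), h6, List.replicate_succ, List.flatten_cons,
          List.drop_left, List.take_left, ← List.flatten_cons, ← List.replicate_succ,
          List.replicate_succ', List.flatten_append]
        simp)
      omega
    subst hi
    intro x hx
    obtain ⟨k, hk⟩ := hs x hx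
    refine ⟨k, ?_⟩
    rw [hj]
    simpa using hk

theorem crn_invRev (n : ℕ) (l : Wd) (hl : CRN n l) : CRN n (FreeGroup.invRev l) := by
  refine ⟨?_, fun x hx => ?_⟩
  · rw [← FreeGroup.invRev_append, FreeGroup.reduce_invRev, hl.1]
  · simp only [FreeGroup.invRev, List.mem_reverse, List.mem_map] at hx
    obtain ⟨y, hy, rfl⟩ := hx
    exact hl.2 y hy

theorem dl_ne_one (n : ℕ) (l : Wd) (hl : CRN n l) : dl n l = 1 ↔ l = [] := by
  obtain ⟨l', h1, h2, h3⟩ := crn_out hl
  constructor
  · intro h
    rw [h2] at h
    have h4 : l' = [] :=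
      Pool.Agent.Lib.MP_0c2883_lc.All.Conj.eq_of_mk h3.isReduced (by simp) h
    rw [← h1, h4]
    rfl
  · rintro rfl
    exact dl_nil n

end AdmIso
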