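import Pool.Agent.Lib.MP_32d917_al_adm.C01
import Pool.Agent.Lib.MP_32d917_al_adm.C03

/-!
# C04: valid codes

`valN_iff`: translate condition by condition; the direction from right to left is only needed for
cyclically reduced words.
-/

set_option autoImplicit false

namespace AdmIso

open LatIso

theorem c04_iv_one : iv ((1, 0) : PI) = 1 := by simp [iv]

theorem c04_iv_zero : iv ((0, 0) : PI) = 0 := by simp [iv]

theorem valN_iff (c : Cd) (h : ∀ e < cE c + 1, CRN (rkN c (pcN c e)) (wN c e)) :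
    ValN c ↔ (toDat c).Valid ∧
      IsTr (toDat c) (tp0 c) (tep c) (tef c) (fun p => rpN c p) (fun q => rqN c q) := by
  constructor
  · rintro ⟨h1, h2, h3, h4, h5, h6, h7, h8⟩
    refine ⟨⟨?_, ?_, ?_, ?_, ?_, ?_, ?_⟩, ⟨?_, ?_⟩⟩
    · intro p
      exact h1 p p.2
    · intro e
      have := h2 e e.2
      rw [peq_iff, iv_pdt, c04_iv_one] at this
      exact this
    · intro e f hne hfl
      have := h3 e e.2 f f.2 (fun hh => hne (Fin.ext hh)) (Fin.ext_iff.1 hfl)
      rw [peq_iff, iv_pdt, c04_iv_zero] at this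
      exact this
    · intro q
      obtain ⟨e, he, f, hf, hne, h1, h2⟩ := h4 q q.2
      exact ⟨⟨e, he⟩, ⟨f, hf⟩, fun hh => hne (Fin.ext_iff.1 hh), Fin.ext h1, Fin.ext h2⟩
    · intro e hw
      exact (h5 e e.2).2.1 ((dl_ne_one _ _ (h e e.2)).1 hw)
    · intro e
      exact (root_iff _ _ (h e e.2) (h5 e e.2).2.1).2 (h5 e e.2).2.2
    · rintro p e f rfl hf hne x
      have hpc : pcN c f = pcN c e := Fin.ext_iff.1 hf
      have hk := h6 e e.2 f f.2 (fun hh => hne (Fin.ext hh)) hpc.symm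
      have hce := h e e.2
      have hcf : CRN (rkN c (pcN c e)) (wN c f) := by
        have := h f f.2
        rwa [hpc] at this
      constructor
      · intro hx
        obtain ⟨k, hk1, hk2⟩ := (rot_iff _ _ _ hce hcf (h5 e e.2).2.1).1 ⟨x, hx⟩
        exact (hk k hk1).1 hk2
      · intro hx
        obtain ⟨k, hk1, hk2⟩ := (rot_iff _ _ _ hce (crn_invRev _ _ hcf) (h5 e e.2).2.1).1
          ⟨x, by rw [dl_invRev]; exact hx⟩
        exact (hk k hk1).2 hk2
    · intro p hp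
      have := h7 p p.2 (fun hh => hp (Fin.ext hh))
      exact ⟨Fin.ext this.1, this.2⟩
    · intro q
      have := h8 q q.2
      exact ⟨Fin.ext this.1, this.2⟩
  · rintro ⟨hv, ht⟩
    have hne : ∀ e < cE c + 1, ¬ wN c e = [] := by
      intro e he hw
      exact hv.ne ⟨e, he⟩ ((dl_ne_one _ _ (h e he)).2 hw)
    refine ⟨?_, ?_, ?_, ?_, ?_, ?_, ?_, ?_⟩
    · intro p hp
      exact hv.rk ⟨p, hp⟩
    · intro e he
      rw [peq_iff, iv_pdt, c04_iv_one]
      exact hv.det ⟨e, he⟩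
    · intro e he f hf hne hfl
      rw [peq_iff, iv_pdt, c04_iv_zero]
      exact hv.ind ⟨e, he⟩ ⟨f, hf⟩ (fun hh => hne (Fin.ext_iff.1 hh)) (Fin.ext hfl)
    · intro q hq
      obtain ⟨e, f, hne, h1, h2⟩ := hv.two ⟨q, hq⟩
      exact ⟨e, e.2, f, f.2, fun hh => hne (Fin.ext hh), Fin.ext_iff.1 h1, Fin.ext_iff.1 h2⟩
    · intro e he
      exact ⟨h e he, hne e he, (root_iff _ _ (h e he) (hne e he)).1 (hv.root ⟨e, he⟩)⟩
    · intro e he f hf hef hpc k hk
      have hce := h e he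
      have hcf : CRN (rkN c (pcN c e)) (wN c f) := by
        have := h f hf
        rwa [← hpc] at this
      have hs := hv.sep ((toDat c).pc ⟨e, he⟩) ⟨e, he⟩ ⟨f, hf⟩ rfl (Fin.ext hpc.symm)
        (fun hh => hef (Fin.ext_iff.1 hh))
      constructor
      · intro hk2
        obtain ⟨x, hx⟩ := (rot_iff _ _ _ hce hcf (hne e he)).2 ⟨k, hk, hk2⟩
        exact (hs x).1 hx
      · intro hk2
        obtain ⟨x, hx⟩ := (rot_iff _ _ _ hce (crn_invRev _ _ hcf) (hne e he)).2 ⟨k, hk, hk2⟩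
        rw [dl_invRev] at hx
        exact (hs x).2 hx
    · intro p hp hp0
      have := ht.ep ⟨p, hp⟩ (fun hh => hp0 (Fin.ext_iff.1 hh))
      exact ⟨Fin.ext_iff.1 this.1, this.2⟩
    · intro q hq
      have := ht.ef ⟨q, hq⟩
      exact ⟨Fin.ext_iff.1 this.1, this.2⟩

theorem valN_sound (c : Cd) (h : ValN c) : (toDat c).Valid ∧
    IsTr (toDat c) (tp0 c) (tep c) (tef c) (fun p => rpN c p) (fun q => rqN c q) :=
  (valN_iff c fun e he => (h.2.2.2.2.1 e he).1).1 h

theorem c04_getD {α : Type} {n : ℕ} (f : Fin n → α) (x : α) (i : Fin n) :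
    (List.ofFn f).getD i x = f i := by
  rw [List.getD_eq_getElem?_getD, List.getElem?_ofFn]
  simp

/-- existence of codes, for arbitrary data and trees -/
theorem code_exists {a b d : ℕ} (rk : Fin (a + 1) → ℕ) (pc : Fin (d + 1) → Fin (a + 1))
    (fl : Fin (d + 1) → Fin (b + 1)) (l : Fin (d + 1) → Wd) (ze om : Fin (d + 1) → ℤ × ℤ)
    (p0 : Fin (a + 1)) (ep : Fin (a + 1) → Fin (d + 1)) (ef : Fin (b + 1) → Fin (d + 1))
    (rp : Fin (a + 1) → ℕ) (rq : Fin (b + 1) → ℕ) :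
    ∃ r : List ℕ × List EdC × TrC, toDat ((a, b, d), r) = mkD rk pc fl l ze om ∧
      (∀ e : Fin (d + 1), rkN ((a, b, d), r) (pcN ((a, b, d), r) e) = rk (pc e)) ∧
      (∀ e : Fin (d + 1), wN ((a, b, d), r) e = l e) ∧
      tp0 ((a, b, d), r) = p0 ∧ tep ((a, b, d), r) = ep ∧ tef ((a, b, d), r) = ef ∧
      (∀ p : Fin (a + 1), rpN ((a, b, d), r) p = rp p) ∧
      (∀ q : Fin (b + 1), rqN ((a, b, d), r) q = rq q) := by
  choose z hz using fun e => vv_surj (ze e)
  choose o ho using fun e => vv_surj (om e)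
  let r : List ℕ × List EdC × TrC := (List.ofFn rk,
    List.ofFn (fun e => (((pc e : ℕ), (fl e : ℕ), l e, z e, o e) : EdC)),
    ((p0 : ℕ), List.ofFn (fun p => (ep p : ℕ)), List.ofFn (fun q => (ef q : ℕ)), List.ofFn rp,
      List.ofFn rq))
  have hr : r = (List.ofFn rk,
    List.ofFn (fun e => (((pc e : ℕ), (fl e : ℕ), l e, z e, o e) : EdC)),
    ((p0 : ℕ), List.ofFn (fun p => (ep p : ℕ)), List.ofFn (fun q => (ef q : ℕ)), List.ofFn rp,
      List.ofFn rq)) := rfl
  have hrk : ∀ p : Fin (a + 1), rkN ((a, b, d), r) p = rk p := fun p => by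
    rw [hr]
    exact c04_getD rk 0 p
  have hed : ∀ e : Fin (d + 1), edN ((a, b, d), r) e = ((pc e : ℕ), (fl e : ℕ), l e, z e, o e) :=
    fun e => by
      rw [hr]
      exact c04_getD (fun e => (((pc e : ℕ), (fl e : ℕ), l e, z e, o e) : EdC)) dEd e
  have hpc : ∀ e : Fin (d + 1), pcN ((a, b, d), r) e = pc e := fun e => by
    rw [pcN, hed]
    exact Nat.mod_eq_of_lt (pc e).2
  have hfl : ∀ e : Fin (d + 1), flN ((a, b, d), r) e = fl e := fun e => by
    rw [flN, hed]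
    exact Nat.mod_eq_of_lt (fl e).2
  have hw : ∀ e : Fin (d + 1), wN ((a, b, d), r) e = l e := fun e => by rw [wN, hed]
  have hze : ∀ e : Fin (d + 1), vv (zeN ((a, b, d), r) e) = ze e := fun e => by
    rw [zeN, hed]
    exact hz e
  have hom : ∀ e : Fin (d + 1), vv (omN ((a, b, d), r) e) = om e := fun e => by
    rw [omN, hed]
    exact ho e
  refine ⟨r, ?_, ?_, hw, ?_, ?_, ?_, ?_, ?_⟩
  · have e1 : (fun p : Fin (a + 1) => rkN ((a, b, d), r) p) = rk := funext hrk
    have e2 : (fun e : Fin (d + 1) => (⟨pcN ((a, b, d), r) e,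
        Nat.mod_lt _ (Nat.succ_pos _)⟩ : Fin (a + 1))) = pc := funext fun e => Fin.ext (hpc e)
    have e3 : (fun e : Fin (d + 1) => (⟨flN ((a, b, d), r) e,
        Nat.mod_lt _ (Nat.succ_pos _)⟩ : Fin (b + 1))) = fl := funext fun e => Fin.ext (hfl e)
    have e4 : (fun e : Fin (d + 1) => wN ((a, b, d), r) e) = l := funext hw
    have e5 : (fun e : Fin (d + 1) => vv (zeN ((a, b, d), r) e)) = ze := funext hze
    have e6 : (fun e : Fin (d + 1) => vv (omN ((a, b, d), r) e)) = om := funext hom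
    show mkD (fun p : Fin (a + 1) => rkN ((a, b, d), r) p)
      (fun e : Fin (d + 1) => (⟨pcN ((a, b, d), r) e, Nat.mod_lt _ (Nat.succ_pos _)⟩ :
        Fin (a + 1)))
      (fun e : Fin (d + 1) => (⟨flN ((a, b, d), r) e, Nat.mod_lt _ (Nat.succ_pos _)⟩ :
        Fin (b + 1)))
      (fun e : Fin (d + 1) => wN ((a, b, d), r) e)
      (fun e : Fin (d + 1) => vv (zeN ((a, b, d), r) e))
      (fun e : Fin (d + 1) => vv (omN ((a, b, d), r) e)) = _
    rw [e1, e2, e3, e4, e5, e6]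
  · intro e
    rw [hpc, hrk]
  · apply Fin.ext
    exact Nat.mod_eq_of_lt p0.2
  · funext p
    apply Fin.ext
    show (List.ofFn (fun p => (ep p : ℕ))).getD p 0 % (d + 1) = ep p
    rw [c04_getD]
    exact Nat.mod_eq_of_lt (ep p).2
  · funext q
    apply Fin.ext
    show (List.ofFn (fun q => (ef q : ℕ))).getD q 0 % (d + 1) = ef q
    rw [c04_getD]
    exact Nat.mod_eq_of_lt (ef q).2
  · intro p
    exact c04_getD rp 0 p
  · intro q
    exact c04_getD rq 0 q

end AdmIso
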