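import Pool.Agent.Lib.MP_32d917_al_adm.C01
import Pool.Agent.Lib.MP_32d917_al.PRES1
import Pool.Agent.Lib.MP_32d917_al.RE

/-!
# C05: primitive recursion of the entries of codes; validity
-/

set_option autoImplicit false

namespace AdmIso

open LatIso

section

variable {β : Type} [Primcodable β] {f : β → Cd} {g : β → ℕ}

theorem C05_getD {γ : Type} [Primcodable γ] (d : γ) {l : β → List γ} (hl : Primrec l)
    (hg : Primrec g) : Primrec fun x => (l x).getD (g x) d := by
  have h1 : Primrec (fun x => (l x)[g x]?) := Primrec.list_getElem?.comp hl hg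
  refine (Primrec.option_getD.comp h1 (Primrec.const d)).of_eq ?_
  intro x
  rw [List.getD_eq_getElem?_getD]

theorem p_cP (hf : Primrec f) : Primrec fun x => cP (f x) := CB.p_fst (CB.p_fst hf)
theorem p_cQ (hf : Primrec f) : Primrec fun x => cQ (f x) := CB.p_fst (CB.p_snd (CB.p_fst hf))
theorem p_cE (hf : Primrec f) : Primrec fun x => cE (f x) := CB.p_snd (CB.p_snd (CB.p_fst hf))

theorem C05_edN (hf : Primrec f) (hg : Primrec g) : Primrec fun x => edN (f x) (g x) :=
  C05_getD dEd (CB.p_fst (CB.p_snd (CB.p_snd hf))) hg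

theorem p_rkN (hf : Primrec f) (hg : Primrec g) : Primrec fun x => rkN (f x) (g x) :=
  C05_getD 0 (CB.p_fst (CB.p_snd hf)) hg
theorem p_pcN (hf : Primrec f) (hg : Primrec g) : Primrec fun x => pcN (f x) (g x) :=
  CB.p_mod (CB.p_fst (C05_edN hf hg)) (CB.p_add (p_cP hf) (Primrec.const 1))
theorem p_flN (hf : Primrec f) (hg : Primrec g) : Primrec fun x => flN (f x) (g x) :=
  CB.p_mod (CB.p_fst (CB.p_snd (C05_edN hf hg))) (CB.p_add (p_cQ hf) (Primrec.const 1))
theorem p_wN (hf : Primrec f) (hg : Primrec g) : Primrec fun x => wN (f x) (g x) :=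
  CB.p_fst (CB.p_snd (CB.p_snd (C05_edN hf hg)))
theorem p_zeN (hf : Primrec f) (hg : Primrec g) : Primrec fun x => zeN (f x) (g x) :=
  CB.p_fst (CB.p_snd (CB.p_snd (CB.p_snd (C05_edN hf hg))))
theorem p_omN (hf : Primrec f) (hg : Primrec g) : Primrec fun x => omN (f x) (g x) :=
  CB.p_snd (CB.p_snd (CB.p_snd (CB.p_snd (C05_edN hf hg))))
theorem p_p0N (hf : Primrec f) : Primrec fun x => p0N (f x) :=
  CB.p_mod (CB.p_fst (CB.p_snd (CB.p_snd (CB.p_snd hf)))) (CB.p_add (p_cP hf) (Primrec.const 1))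
theorem p_epN (hf : Primrec f) (hg : Primrec g) : Primrec fun x => epN (f x) (g x) :=
  CB.p_mod (C05_getD 0 (CB.p_fst (CB.p_snd (CB.p_snd (CB.p_snd (CB.p_snd hf))))) hg)
    (CB.p_add (p_cE hf) (Primrec.const 1))
theorem p_efN (hf : Primrec f) (hg : Primrec g) : Primrec fun x => efN (f x) (g x) :=
  CB.p_mod (C05_getD 0 (CB.p_fst (CB.p_snd (CB.p_snd (CB.p_snd (CB.p_snd (CB.p_snd hf)))))) hg)
    (CB.p_add (p_cE hf) (Primrec.const 1))
theorem p_rpN (hf : Primrec f) (hg : Primrec g) : Primrec fun x => rpN (f x) (g x) :=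
  C05_getD 0 (CB.p_fst (CB.p_snd (CB.p_snd (CB.p_snd (CB.p_snd (CB.p_snd (CB.p_snd hf))))))) hg
theorem p_rqN (hf : Primrec f) (hg : Primrec g) : Primrec fun x => rqN (f x) (g x) :=
  C05_getD 0 (CB.p_snd (CB.p_snd (CB.p_snd (CB.p_snd (CB.p_snd (CB.p_snd (CB.p_snd hf))))))) hg

theorem pp_CRN {n : β → ℕ} {l : β → Wd} (hn : Primrec n) (hl : Primrec l) :
    PrimrecPred fun x => CRN (n x) (l x) := by
  unfold CRN
  have h1 : Primrec fun x => l x ++ l x := Primrec.list_append.comp hl hl
  refine CB.pp_and (CB.pp_eq (pres1_reduce_p.comp h1) h1) ?_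
  refine CB.pp_all_mem (p := fun x t => t.1 < n x) hl ?_
  exact CB.pp_lt (CB.p_fst Primrec.snd) (hn.comp Primrec.fst)

theorem pp_RotK {l m : β → Wd} {k : β → ℕ} (hl : Primrec l) (hm : Primrec m) (hk : Primrec k) :
    PrimrecPred fun x => RotK (l x) (m x) (k x) := by
  unfold RotK
  refine CB.pp_and (CB.pp_eq (Primrec.list_length.comp hm) (Primrec.list_length.comp hl)) ?_
  refine CB.pp_all (p := fun x i => (m x).getD i (0, true) =
    (l x).getD ((i + k x) % (l x).length) (0, true)) (Primrec.list_length.comp hl) ?_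
  refine CB.pp_eq (C05_getD (0, true) (hm.comp Primrec.fst) Primrec.snd)
    (C05_getD (0, true) (hl.comp Primrec.fst) ?_)
  exact CB.p_mod (CB.p_add Primrec.snd (hk.comp Primrec.fst))
    (Primrec.list_length.comp (hl.comp Primrec.fst))

theorem p_invRev {l : β → Wd} (hl : Primrec l) : Primrec fun x => FreeGroup.invRev (l x) :=
  pres1_invRev_p hl

end

theorem valN_p : PrimrecPred ValN := by
  unfold ValN
  (repeat' (with_reducible first | assumption | exact CB.p_id | exact Primrec.const _ | exact CB.pp_const _ | apply p_rkN | apply p_pcN | apply p_flN | apply p_wN | apply p_zeN | apply p_omN | apply p_p0N | apply p_epN | apply p_efN | apply p_rpN | apply p_rqN | apply p_pdt | apply pp_PEq | apply pp_CRN | apply pp_RotK | apply p_invRev | apply p_cP | apply p_cQ | apply p_cE | apply CB.p_fst | apply CB.p_snd | apply CB.p_pair | apply CB.p_add | apply CB.p_sub | apply CB.p_mul | apply CB.p_mod | apply CB.pp_all | apply CB.pp_ex | apply CB.pp_all_mem | apply CB.pp_ex_mem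 | apply CB.pp_and | apply CB.pp_or | apply CB.pp_not | apply CB.pp_iff | apply CB.pp_imp | apply CB.pp_eq | apply CB.pp_lt | apply CB.pp_le | apply Primrec.list_length.comp))

end AdmIso
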