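import Pool.Agent.Lib.MP_32d917_al_adm.C05

/-!
# C06: the presentation of a code is primitive recursive

The number of generators is the bound `C06_B c`, and the relators are the list `C06_L c`.
-/

set_option autoImplicit false
set_option synthInstance.maxSize 2000

namespace AdmIso

open LatIso

/-- elements of a list of numbers are at most its code -/
theorem C06_getD (l : List ℕ) (p : ℕ) : l.getD p 0 ≤ Encodable.encode l := by
  induction l generalizing p with
  | nil => simp
  | cons a l ih =>
    rw [Encodable.encode_list_cons]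
    cases p with
    | zero =>
      have h1 : a ≤ Nat.pair (Encodable.encode a) (Encodable.encode l) := by
        have := Nat.left_le_pair (Encodable.encode a) (Encodable.encode l)
        simpa using this
      simpa using Nat.le_succ_of_le h1
    | succ p =>
      have h1 := ih p
      have h2 := Nat.right_le_pair (Encodable.encode a) (Encodable.encode l)
      simpa using Nat.le_succ_of_le (h1.trans h2)

/-- the code of a pair bounds the codes of its entries -/
theorem C06_fst {α β : Type} [Primcodable α] [Primcodable β] (x : α × β) :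
    Encodable.encode x.1 ≤ Encodable.encode x := by
  obtain ⟨a, b⟩ := x
  rw [Encodable.encode_prod_val]
  exact Nat.left_le_pair _ _

theorem C06_snd {α β : Type} [Primcodable α] [Primcodable β] (x : α × β) :
    Encodable.encode x.2 ≤ Encodable.encode x := by
  obtain ⟨a, b⟩ := x
  rw [Encodable.encode_prod_val]
  exact Nat.right_le_pair _ _

theorem C06_cP (c : Cd) : cP c ≤ Encodable.encode c := by
  have h1 := C06_fst c.1
  have h2 := C06_fst c
  exact (show cP c ≤ Encodable.encode c.1.1 from le_refl _).trans (h1.trans h2)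

theorem C06_cQ (c : Cd) : cQ c ≤ Encodable.encode c := by
  have h0 := C06_fst c.1.2
  have h1 := C06_snd c.1
  have h2 := C06_fst c
  exact (show cQ c ≤ Encodable.encode c.1.2.1 from le_refl _).trans (h0.trans (h1.trans h2))

theorem C06_cE (c : Cd) : cE c ≤ Encodable.encode c := by
  have h0 := C06_snd c.1.2
  have h1 := C06_snd c.1
  have h2 := C06_fst c
  exact (show cE c ≤ Encodable.encode c.1.2.2 from le_refl _).trans (h0.trans (h1.trans h2))

theorem C06_rkN (c : Cd) (p : ℕ) : rkN c p ≤ Encodable.encode c := by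
  have h0 := C06_getD c.2.1 p
  have h1 := C06_fst c.2
  have h2 := C06_snd c
  exact h0.trans (h1.trans h2)

/-- bound for the generators -/
def C06_B (c : Cd) : ℕ := ((Encodable.encode c + 3) * (Encodable.encode c + 3) + 5) *
  ((Encodable.encode c + 3) * (Encodable.encode c + 3) + 5)

theorem C06_pair {a b K : ℕ} (ha : a < K) (hb : b < K) : Nat.pair a b < K * K := by
  have h1 := Nat.pair_lt_max_add_one_sq a b
  have h2 : max a b + 1 ≤ K := by
    rcases max_cases a b with h | h <;> omega
  calc Nat.pair a b < (max a b + 1) ^ 2 := h1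
    _ = (max a b + 1) * (max a b + 1) := by ring
    _ ≤ K * K := Nat.mul_le_mul h2 h2

theorem C06_used (c : Cd) (j : ℕ) (h : UsedN c j) : j < C06_B c := by
  have h1 := C06_cP c
  have h2 := C06_cQ c
  have h3 := C06_cE c
  set K := Encodable.encode c with hK
  have hj : j = Nat.pair j.unpair.1 j.unpair.2 := (Nat.pair_unpair j).symm
  have hj2 : j.unpair.2 = Nat.pair j.unpair.2.unpair.1 j.unpair.2.unpair.2 :=
    (Nat.pair_unpair _).symm
  have key : ∀ x y : ℕ, x < 4 → y < (K + 3) * (K + 3) → Nat.pair x y < C06_B c := by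
    intro x y hx hy
    show Nat.pair x y < ((K + 3) * (K + 3) + 5) * ((K + 3) * (K + 3) + 5)
    exact C06_pair (by omega) (by omega)
  have hKK : K + 3 ≤ (K + 3) * (K + 3) := Nat.le_mul_of_pos_left _ (by omega)
  rcases h with ⟨ha, hb, hc⟩ | ⟨ha, hb⟩ | ⟨ha, hb, hc⟩ | ⟨ha, hb⟩
  · rw [hj, ha]
    refine key _ _ (by omega) ?_
    rw [hj2]
    have h4 := C06_rkN c j.unpair.2.unpair.1
    exact C06_pair (by omega) (by omega)
  · rw [hj, ha]
    exact key _ _ (by omega) (by omega)
  · rw [hj, ha]
    refine key _ _ (by omega) ?_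
    rw [hj2]
    exact C06_pair (by omega) (by omega)
  · rw [hj, ha]
    exact key _ _ (by omega) (by omega)

noncomputable section

open Classical in
/-- the relators -/
def C06_L (c : Cd) : List Wd :=
  ((List.range (cP c + 1)).flatMap fun p =>
    (List.range (rkN c p)).map fun i => cmW (gx p i) (gc p)) ++
  (((List.range (cQ c + 1)).map fun q => cmW (ga q 0) (ga q 1)) ++
  (((List.range (cE c + 1)).flatMap fun e => (List.range 2).map fun s => relE c e s) ++
  (((List.range (cP c + 1)).flatMap fun p => if p = p0N c then [] else [[(gy (epN c p), true)]]) ++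
  (((List.range (cQ c + 1)).map fun q => [(gy (efN c q), true)]) ++
  ((List.range (C06_B c)).flatMap fun j => if UsedN c j then [] else [[(j, true)]])))))

end

theorem C06_mem (c : Cd) (w : Wd) (hw : w ∈ C06_L c) : RelC c w := by
  classical
  unfold C06_L at hw
  rw [List.mem_append, List.mem_append, List.mem_append, List.mem_append, List.mem_append] at hw
  rcases hw with hw | hw | hw | hw | hw | hw
  · rw [List.mem_flatMap] at hw
    obtain ⟨p, hp, hw⟩ := hw
    rw [List.mem_map] at hw
    obtain ⟨i, hi, rfl⟩ := hw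
    exact RelC.comm p i (List.mem_range.1 hp) (List.mem_range.1 hi)
  · rw [List.mem_map] at hw
    obtain ⟨q, hq, rfl⟩ := hw
    exact RelC.flat q (List.mem_range.1 hq)
  · rw [List.mem_flatMap] at hw
    obtain ⟨e, he, hw⟩ := hw
    rw [List.mem_map] at hw
    obtain ⟨s, hs, rfl⟩ := hw
    exact RelC.edge e s (List.mem_range.1 he) (List.mem_range.1 hs)
  · rw [List.mem_flatMap] at hw
    obtain ⟨p, hp, hw⟩ := hw
    split_ifs at hw with h
    · simp at hw
    · rw [List.mem_singleton] at hw
      subst hw
      exact RelC.treeP p (List.mem_range.1 hp) h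
  · rw [List.mem_map] at hw
    obtain ⟨q, hq, rfl⟩ := hw
    exact RelC.treeQ q (List.mem_range.1 hq)
  · rw [List.mem_flatMap] at hw
    obtain ⟨j, hj, hw⟩ := hw
    split_ifs at hw with h
    · simp at hw
    · rw [List.mem_singleton] at hw
      subst hw
      exact RelC.unused j h

theorem C06_rel (c : Cd) (w : Wd) (hw : RelC c w) :
    w ∈ C06_L c ∨ ∃ j, C06_B c ≤ j ∧ w = [(j, true)] := by
  classical
  unfold C06_L
  simp only [List.mem_append]
  cases hw with
  | comm p i hp hi =>
    left; left
    rw [List.mem_flatMap]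
    exact ⟨p, List.mem_range.2 hp, List.mem_map.2 ⟨i, List.mem_range.2 hi, rfl⟩⟩
  | flat q hq =>
    left; right; left
    exact List.mem_map.2 ⟨q, List.mem_range.2 hq, rfl⟩
  | edge e s he hs =>
    left; right; right; left
    rw [List.mem_flatMap]
    exact ⟨e, List.mem_range.2 he, List.mem_map.2 ⟨s, List.mem_range.2 hs, rfl⟩⟩
  | treeP p hp h =>
    left; right; right; right; left
    rw [List.mem_flatMap]
    refine ⟨p, List.mem_range.2 hp, ?_⟩
    rw [if_neg h, List.mem_singleton]
  | treeQ q hq =>
    left; right; right; right; right; left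
    exact List.mem_map.2 ⟨q, List.mem_range.2 hq, rfl⟩
  | unused j h =>
    by_cases hj : C06_B c ≤ j
    · right
      exact ⟨j, hj, rfl⟩
    · left; right; right; right; right; right
      rw [List.mem_flatMap]
      refine ⟨j, List.mem_range.2 (not_le.1 hj), ?_⟩
      rw [if_neg h, List.mem_singleton]

/-! ### Primitive recursion -/

section

variable {β : Type} [Primcodable β]

theorem C06_pB {f : β → Cd} (hf : Primrec f) : Primrec fun x => C06_B (f x) := by
  unfold C06_B
  have h1 : Primrec fun x => Encodable.encode (f x) := Primrec.encode.comp hf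
  have h2 : Primrec fun x => Encodable.encode (f x) + 3 := CB.p_add h1 (Primrec.const 3)
  have h3 := CB.p_add (CB.p_mul h2 h2) (Primrec.const 5)
  exact CB.p_mul h3 h3

theorem C06_ppair {f g : β → ℕ} (hf : Primrec f) (hg : Primrec g) :
    Primrec fun x => Nat.pair (f x) (g x) := Primrec₂.natPair.comp hf hg

theorem C06_pgx {f g : β → ℕ} (hf : Primrec f) (hg : Primrec g) :
    Primrec fun x => gx (f x) (g x) := by
  unfold gx
  exact C06_ppair (Primrec.const 0) (C06_ppair hf hg)

theorem C06_pgc {f : β → ℕ} (hf : Primrec f) : Primrec fun x => gc (f x) := by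
  unfold gc
  exact C06_ppair (Primrec.const 1) hf

theorem C06_pga {f g : β → ℕ} (hf : Primrec f) (hg : Primrec g) :
    Primrec fun x => ga (f x) (g x) := by
  unfold ga
  exact C06_ppair (Primrec.const 2) (C06_ppair hf hg)

theorem C06_pgy {f : β → ℕ} (hf : Primrec f) : Primrec fun x => gy (f x) := by
  unfold gy
  exact C06_ppair (Primrec.const 3) hf

theorem C06_pl1 {f : β → ℕ} (b : Bool) (hf : Primrec f) :
    Primrec fun x => ([(f x, b)] : Wd) :=
  Primrec.list_cons.comp (CB.p_pair hf (Primrec.const b)) (Primrec.const [])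

theorem C06_pcons {f : β → ℕ} {l : β → Wd} (b : Bool) (hf : Primrec f) (hl : Primrec l) :
    Primrec fun x => ((f x, b) :: l x : Wd) :=
  Primrec.list_cons.comp (CB.p_pair hf (Primrec.const b)) hl

theorem C06_pcmW {f g : β → ℕ} (hf : Primrec f) (hg : Primrec g) :
    Primrec fun x => cmW (f x) (g x) := by
  unfold cmW
  exact C06_pcons true hf (C06_pcons true hg (C06_pcons false hf (C06_pl1 false hg)))

theorem C06_rep (n : ℕ) (l : Wd) :
    (List.replicate n l).flatten = (List.range n).flatMap fun _ => l := by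
  rw [List.flatMap_def, List.map_const', List.length_range]

theorem C06_prep {n : β → ℕ} {l : β → Wd} (hn : Primrec n) (hl : Primrec l) :
    Primrec fun x => (List.replicate (n x) (l x)).flatten := by
  have h : (fun x => (List.replicate (n x) (l x)).flatten) =
      fun x => (List.range (n x)).flatMap fun _ => l x := by
    funext x
    exact C06_rep _ _
  rw [h]
  exact Primrec.list_flatMap (Primrec.list_range.comp hn) (hl.comp Primrec.fst)

theorem C06_ppwW {l : β → Wd} {n : β → PI} (hl : Primrec l) (hn : Primrec n) :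
    Primrec fun x => pwW (l x) (n x) := by
  unfold pwW
  exact Primrec.list_append.comp (C06_prep (CB.p_fst hn) hl)
    (C06_prep (CB.p_snd hn) (p_invRev hl))

theorem C06_pwG {f : β → Cd} {g : β → ℕ} (hf : Primrec f) (hg : Primrec g) :
    Primrec fun x => wG (f x) (g x) := by
  unfold wG
  refine Primrec.listFilterMap (p_wN hf hg) ?_
  have hf' : Primrec fun y : β × (ℕ × Bool) => f y.1 := hf.comp Primrec.fst
  have hg' : Primrec fun y : β × (ℕ × Bool) => g y.1 := hg.comp Primrec.fst
  have hx : Primrec fun y : β × (ℕ × Bool) => y.2 := Primrec.snd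
  have hp := p_pcN hf' hg'
  refine Primrec.ite (CB.pp_lt (CB.p_fst hx) (p_rkN hf' hp)) ?_ (Primrec.const none)
  exact Primrec.option_some.comp (CB.p_pair (C06_pgx hp (CB.p_fst hx)) (CB.p_snd hx))

theorem C06_prelE {f : β → Cd} {g s : β → ℕ} (hf : Primrec f) (hg : Primrec g) (hs : Primrec s) :
    Primrec fun x => relE (f x) (g x) (s x) := by
  unfold relE
  have hv : Primrec fun x => (if s x = 0 then ((1, 0), (0, 0)) else ((0, 0), (1, 0)) : PV) :=
    Primrec.ite (CB.pp_eq hs (Primrec.const 0)) (Primrec.const _) (Primrec.const _)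
  have h1 := C06_ppwW (C06_pwG hf hg) (p_pdt hv (p_zeN hf hg))
  have h2 := C06_ppwW (C06_pl1 true (C06_pgc (p_pcN hf hg))) (p_pdt (p_omN hf hg) hv)
  have h3 := p_invRev (Primrec.list_append.comp h1 h2)
  have h4 : Primrec fun x => ([(ga (flN (f x) (g x)) (s x), true), (gy (g x), true)] : Wd) :=
    C06_pcons true (C06_pga (p_flN hf hg) hs) (C06_pl1 true (C06_pgy hg))
  exact Primrec.list_append.comp (Primrec.list_append.comp h4 h3) (C06_pl1 false (C06_pgy hg))

theorem C06_pused {f : β → Cd} {g : β → ℕ} (hf : Primrec f) (hg : Primrec g) :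
    PrimrecPred fun x => UsedN (f x) (g x) := by
  unfold UsedN
  have hu : Primrec fun x => (g x).unpair := Primrec.unpair.comp hg
  have hu1 := CB.p_fst hu
  have hu2 := CB.p_snd hu
  have hv : Primrec fun x => ((g x).unpair.2).unpair := Primrec.unpair.comp hu2
  have hv1 := CB.p_fst hv
  have hv2 := CB.p_snd hv
  refine CB.pp_or (CB.pp_and (CB.pp_eq hu1 (Primrec.const 0))
    (CB.pp_and (CB.pp_lt hv1 (CB.p_add (p_cP hf) (Primrec.const 1)))
      (CB.pp_lt hv2 (p_rkN hf hv1)))) (CB.pp_or ?_ (CB.pp_or ?_ ?_))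
  · exact CB.pp_and (CB.pp_eq hu1 (Primrec.const 1))
      (CB.pp_lt hu2 (CB.p_add (p_cP hf) (Primrec.const 1)))
  · exact CB.pp_and (CB.pp_eq hu1 (Primrec.const 2))
      (CB.pp_and (CB.pp_lt hv1 (CB.p_add (p_cQ hf) (Primrec.const 1)))
        (CB.pp_lt hv2 (Primrec.const 2)))
  · exact CB.pp_and (CB.pp_eq hu1 (Primrec.const 3))
      (CB.pp_lt hu2 (CB.p_add (p_cE hf) (Primrec.const 1)))

end

theorem C06_pL : Primrec C06_L := by
  classical
  unfold C06_L
  have hc : Primrec fun c : Cd => c := Primrec.id
  have hc1 : Primrec fun x : Cd × ℕ => x.1 := Primrec.fst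
  have hc2 : Primrec fun x : Cd × ℕ => x.2 := Primrec.snd
  have hd1 : Primrec fun x : (Cd × ℕ) × ℕ => x.1.1 := Primrec.fst.comp Primrec.fst
  have hd2 : Primrec fun x : (Cd × ℕ) × ℕ => x.1.2 := Primrec.snd.comp Primrec.fst
  have hd3 : Primrec fun x : (Cd × ℕ) × ℕ => x.2 := Primrec.snd
  have rP : Primrec fun c : Cd => List.range (cP c + 1) :=
    Primrec.list_range.comp (CB.p_add (p_cP hc) (Primrec.const 1))
  have rQ : Primrec fun c : Cd => List.range (cQ c + 1) :=
    Primrec.list_range.comp (CB.p_add (p_cQ hc) (Primrec.const 1))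
  have rE : Primrec fun c : Cd => List.range (cE c + 1) :=
    Primrec.list_range.comp (CB.p_add (p_cE hc) (Primrec.const 1))
  refine Primrec.list_append.comp ?_ (Primrec.list_append.comp ?_ (Primrec.list_append.comp ?_
    (Primrec.list_append.comp ?_ (Primrec.list_append.comp ?_ ?_))))
  · refine Primrec.list_flatMap rP ?_
    refine Primrec.list_map (Primrec.list_range.comp (p_rkN hc1 hc2)) ?_
    exact C06_pcmW (C06_pgx hd2 hd3) (C06_pgc hd2)
  · refine Primrec.list_map rQ ?_
    exact C06_pcmW (C06_pga hc2 (Primrec.const 0)) (C06_pga hc2 (Primrec.const 1))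
  · refine Primrec.list_flatMap rE ?_
    refine Primrec.list_map (Primrec.const (List.range 2)) ?_
    exact C06_prelE hd1 hd2 hd3
  · refine Primrec.list_flatMap rP ?_
    refine Primrec.ite (CB.pp_eq hc2 (p_p0N hc1)) (Primrec.const []) ?_
    exact Primrec.list_cons.comp (C06_pl1 true (C06_pgy (p_epN hc1 hc2))) (Primrec.const [])
  · refine Primrec.list_map rQ ?_
    exact C06_pl1 true (C06_pgy (p_efN hc1 hc2))
  · refine Primrec.list_flatMap (Primrec.list_range.comp (C06_pB hc)) ?_
    refine Primrec.ite (C06_pused hc1 hc2) (Primrec.const []) ?_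
    exact Primrec.list_cons.comp (C06_pl1 true hc2) (Primrec.const [])

theorem pres_f : ∃ f : Cd → Pres, Primrec f ∧ ∀ c, (∀ j, UsedN c j → j < (f c).1) ∧
    (∀ w ∈ (f c).2, RelC c w) ∧
    ∀ w, RelC c w → w ∈ (f c).2 ∨ ∃ j, (f c).1 ≤ j ∧ w = [(j, true)] := by
  refine ⟨fun c => (C06_B c, C06_L c), Primrec.pair (C06_pB Primrec.id) C06_pL, ?_⟩
  intro c
  exact ⟨C06_used c, C06_mem c, C06_rel c⟩

end AdmIso
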