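import Pool.Agent.Lib.MP_32d917_al_adm.C01
import Pool.Agent.Lib.MP_32d917_al_adm.C02

/-!
# C07: the group of the presentation

`P` is a presentation with the relators `RelC c` (up to superfluous generators). Let `g j` be the class of the
generator `j` in `P.Grp` (`PresentedGroup.of j`). `g j = 1` for unused `j`.

`pres_sy`: `be p (x, t) = (lift (i ↦ g (gx p i))) x * g (gc p) ^ t` is a homomorphism (`MonoidHom.noncommCoprod`;
the central generator commutes with all `g (gx p i)`, hence with the image of the lift);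
`al q (m, n) = g (ga q 0) ^ m * g (ga q 1) ^ n` (commuting elements), `y e = g (gy e)`. The relation at `e`
holds for the two basis vectors by the relators `relE c e 0`, `relE c e 1`: the class of `pwW x n` is the
class of `x` to the power `iv n`, the class of `wG c e` is `lift .. (dl (rkN c (pcN c e)) (wN c e))`, and
`iv (pdt ..) = dt ..` (C01: `iv_pdt`; the basis vectors are `((1,0),(0,0))` and `((0,0),(1,0))`);
hence for all `v` since both sides of `(y e)⁻¹ al(v) y e = be(emb v)` are homomorphisms in `v`.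

Generation: `PresentedGroup.closure_range_of`; every `g j` is `1` or one of the values.

`pres_univ`: for a system `S'` in `H` with `S'.Nor` define `F` on generators by `gx p i ↦ S'.be p (of i, 1)`,
`gc p ↦ S'.be p (1, ofAdd 1)`, `ga q 0 ↦ S'.al q (1, 0)`, `ga q 1 ↦ S'.al q (0, 1)`, `gy e ↦ S'.y e` for used
numbers, and `1` for unused numbers; all relators are mapped to `1` (`PresentedGroup.toGroup`).
-/

set_option autoImplicit false

namespace AdmIso

open LatIso

/-- `P` presents the group of the code `c` -/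
structure IsPres (c : Cd) (P : Pres) : Prop where
  used : ∀ j, UsedN c j → j < P.1
  sound : ∀ w ∈ P.2, RelC c w
  complete : ∀ w, RelC c w → w ∈ P.2 ∨ ∃ j, P.1 ≤ j ∧ w = [(j, true)]

theorem rel_one {c : Cd} {P : Pres} (h : IsPres c P) (w : Wd) (hw : RelC c w) :
    PresentedGroup.mk P.rels (FreeGroup.mk w) = 1 := by
  apply PresentedGroup.one_of_mem
  rcases h.complete w hw with h1 | ⟨j, hj, h1⟩
  · exact Or.inl ⟨w, h1, rfl⟩
  · refine Or.inr ⟨j, hj, ?_⟩
    rw [h1]
    rfl

/-! ### evaluation of words -/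

section ev

variable {H : Type} [Group H] (φ : FreeGroup ℕ →* H)

theorem ev_nil : φ (FreeGroup.mk []) = 1 := by
  rw [← FreeGroup.one_eq_mk, map_one]

theorem ev_append (u v : Wd) : φ (FreeGroup.mk (u ++ v)) =
    φ (FreeGroup.mk u) * φ (FreeGroup.mk v) := by
  rw [← FreeGroup.mul_mk, map_mul]

theorem ev_inv (u : Wd) : φ (FreeGroup.mk (FreeGroup.invRev u)) = (φ (FreeGroup.mk u))⁻¹ := by
  rw [← FreeGroup.inv_mk, map_inv]

theorem ev_true (j : ℕ) : φ (FreeGroup.mk [(j, true)]) = φ (FreeGroup.of j) := rfl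

theorem ev_false (j : ℕ) : φ (FreeGroup.mk [(j, false)]) = (φ (FreeGroup.of j))⁻¹ := by
  rw [← map_inv]
  rfl

theorem ev_repl (x : Wd) (n : ℕ) : φ (FreeGroup.mk (List.replicate n x).flatten) =
    φ (FreeGroup.mk x) ^ n := by
  induction n with
  | zero => simpa using ev_nil φ
  | succ n ih =>
    rw [List.replicate_succ, List.flatten_cons, ev_append, ih, pow_succ']

theorem ev_pw (x : Wd) (n : PI) : φ (FreeGroup.mk (pwW x n)) = φ (FreeGroup.mk x) ^ iv n := by
  unfold pwW iv
  rw [ev_append, ev_repl, ev_repl, ev_inv, zpow_sub, zpow_natCast, zpow_natCast, inv_pow]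

theorem ev_cm (i j : ℕ) : φ (FreeGroup.mk (cmW i j)) =
    φ (FreeGroup.of i) * φ (FreeGroup.of j) * (φ (FreeGroup.of i))⁻¹ *
      (φ (FreeGroup.of j))⁻¹ := by
  have h : cmW i j = [(i, true)] ++ ([(j, true)] ++ ([(i, false)] ++ [(j, false)])) := rfl
  rw [h, ev_append, ev_append, ev_append, ev_true, ev_true, ev_false, ev_false]
  group

theorem ev_relE (c : Cd) (e s : ℕ) : φ (FreeGroup.mk (relE c e s)) =
    φ (FreeGroup.of (ga (flN c e) s)) * φ (FreeGroup.of (gy e)) *
      (φ (FreeGroup.mk (wG c e)) ^ iv (pdt (if s = 0 then ((1, 0), (0, 0)) else ((0, 0), (1, 0)))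
        (zeN c e)) * φ (FreeGroup.of (gc (pcN c e))) ^ iv (pdt (omN c e)
          (if s = 0 then ((1, 0), (0, 0)) else ((0, 0), (1, 0)))))⁻¹ *
      (φ (FreeGroup.of (gy e)))⁻¹ := by
  have h : [(ga (flN c e) s, true), (gy e, true)] = [(ga (flN c e) s, true)] ++ [(gy e, true)] :=
    rfl
  unfold relE
  rw [h, ev_append, ev_append, ev_append, ev_inv, ev_append, ev_pw, ev_pw, ev_true, ev_true,
    ev_false, ev_true]

theorem ev_word (p n : ℕ) (l : Wd) :
    φ (FreeGroup.mk (l.filterMap fun x => if x.1 < n then some (gx p x.1, x.2) else none)) =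
      FreeGroup.lift (fun i : Fin n => φ (FreeGroup.of (gx p i))) (dl n l) := by
  induction l with
  | nil => rw [dl_nil, map_one]; exact ev_nil φ
  | cons x l ih =>
    obtain ⟨a, b⟩ := x
    have h1 : (a, b) :: l = [(a, b)] ++ l := rfl
    rw [h1, dl_append, map_mul, ← ih, List.filterMap_append, ev_append]
    congr 1
    by_cases ha : a < n
    · have h2 : dl n [(a, b)] = FreeGroup.mk [((⟨a, ha⟩ : Fin n), b)] := by
        unfold dl
        simp [ha]
      rw [h2]
      have h3 : List.filterMap (fun x : ℕ × Bool => if x.1 < n then some (gx p x.1, x.2) else none)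
          [(a, b)] = [(gx p a, b)] := by simp [ha]
      rw [h3, FreeGroup.lift_mk]
      cases b
      · simp [ev_false]
      · simp [ev_true]
    · have h2 : dl n [(a, b)] = 1 := by
        unfold dl
        simp [ha]
      have h3 : List.filterMap (fun x : ℕ × Bool => if x.1 < n then some (gx p x.1, x.2) else none)
          [(a, b)] = [] := by simp [ha]
      rw [h2, h3, map_one, ev_nil]

theorem ev_wG (c : Cd) (e : ℕ) : φ (FreeGroup.mk (wG c e)) =
    FreeGroup.lift (fun i : Fin (rkN c (pcN c e)) => φ (FreeGroup.of (gx (pcN c e) i)))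
      (dl (rkN c (pcN c e)) (wN c e)) := ev_word φ _ _ _

end ev

theorem C07_extZ {n : ℕ} {H : Type} [Group H] {f g : FZ n →* H}
    (h1 : ∀ i, f (FreeGroup.of i, 1) = g (FreeGroup.of i, 1))
    (h2 : f (1, Multiplicative.ofAdd 1) = g (1, Multiplicative.ofAdd 1)) (x : FZ n) :
    f x = g x := by
  obtain ⟨a, b⟩ := x
  have e1 : f.comp (MonoidHom.inl _ _) = g.comp (MonoidHom.inl _ _) := by
    apply FreeGroup.ext_hom
    intro i
    exact h1 i
  have e2 : f.comp (MonoidHom.inr _ _) = g.comp (MonoidHom.inr _ _) := by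
    apply MonoidHom.ext_mint
    exact h2
  have h3 : ((a, b) : FZ n) = (a, 1) * (1, b) := by
    rw [Prod.mk_mul_mk, mul_one, one_mul]
  rw [h3, map_mul, map_mul]
  have e1' := DFunLike.congr_fun e1 a
  have e2' := DFunLike.congr_fun e2 b
  simp only [MonoidHom.comp_apply, MonoidHom.inl_apply, MonoidHom.inr_apply] at e1' e2'
  rw [e1', e2']

theorem C07_decomp (v : A2) : v = (Multiplicative.ofAdd ((1, 0) : ℤ × ℤ)) ^ v.toAdd.1 *
    (Multiplicative.ofAdd ((0, 1) : ℤ × ℤ)) ^ v.toAdd.2 := by
  apply Multiplicative.toAdd.injective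
  rw [toAdd_mul, toAdd_zpow, toAdd_zpow, toAdd_ofAdd, toAdd_ofAdd]
  ext <;> simp

theorem C07_extA {H : Type} [Group H] {f g : A2 →* H}
    (h1 : f (Multiplicative.ofAdd (1, 0)) = g (Multiplicative.ofAdd (1, 0)))
    (h2 : f (Multiplicative.ofAdd (0, 1)) = g (Multiplicative.ofAdd (0, 1))) (v : A2) :
    f v = g v := by
  rw [C07_decomp v, map_mul, map_mul, map_zpow, map_zpow, map_zpow, map_zpow, h1, h2]

theorem C07_zpow_hom {H : Type} [Group H] {a b : H} (hab : a * b = b * a) :
    ∃ f : A2 →* H, f (Multiplicative.ofAdd (1, 0)) = a ∧ f (Multiplicative.ofAdd (0, 1)) = b := by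
  have hc : Commute a b := hab
  refine ⟨MonoidHom.mk' (fun v : A2 => a ^ v.toAdd.1 * b ^ v.toAdd.2) ?_, ?_, ?_⟩
  · intro u v
    show a ^ (u * v).toAdd.1 * b ^ (u * v).toAdd.2 = _
    rw [toAdd_mul, Prod.fst_add, Prod.snd_add, zpow_add, zpow_add]
    have h2 : Commute (a ^ v.toAdd.1) (b ^ u.toAdd.2) := (hc.zpow_zpow _ _)
    rw [mul_assoc, mul_assoc, ← mul_assoc (b ^ u.toAdd.2), ← h2.eq, mul_assoc]
  · show a ^ (1 : ℤ) * b ^ (0 : ℤ) = a
    simp
  · show a ^ (0 : ℤ) * b ^ (1 : ℤ) = b
    simp

theorem C07_be_hom {n : ℕ} {H : Type} [Group H] (x : Fin n → H) (z : H)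
    (hz : ∀ i, x i * z = z * x i) : ∃ f : FZ n →* H, (∀ a, f (a, 1) = FreeGroup.lift x a) ∧
      f (1, Multiplicative.ofAdd 1) = z ∧
      ∀ a (k : ℤ), f (a, Multiplicative.ofAdd k) = FreeGroup.lift x a * z ^ k := by
  have hc : ∀ a, Commute (FreeGroup.lift x a) z := by
    intro a
    induction a using FreeGroup.induction_on with
    | C1 => rw [map_one]; exact Commute.one_left _
    | of i => rw [FreeGroup.lift_apply_of]; exact hz i
    | inv_of i hi => rw [map_inv]; exact hi.inv_left
    | mul a b ha hb => rw [map_mul]; exact ha.mul_left hb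
  refine ⟨MonoidHom.noncommCoprod (FreeGroup.lift x) (zpowersHom H z) ?_, ?_, ?_, ?_⟩
  · intro a b
    have : zpowersHom H z b = z ^ b.toAdd := rfl
    rw [this]
    exact (hc a).zpow_right _
  · intro a
    simp
  · simp
  · intro a k
    simp

theorem C07_unp_gx (p i : ℕ) : (gx p i).unpair = (0, Nat.pair p i) := by
  unfold gx; rw [Nat.unpair_pair]
theorem C07_unp_gc (p : ℕ) : (gc p).unpair = (1, p) := by
  unfold gc; rw [Nat.unpair_pair]
theorem C07_unp_ga (q s : ℕ) : (ga q s).unpair = (2, Nat.pair q s) := by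
  unfold ga; rw [Nat.unpair_pair]
theorem C07_unp_gy (e : ℕ) : (gy e).unpair = (3, e) := by
  unfold gy; rw [Nat.unpair_pair]

theorem C07_used {c : Cd} {j : ℕ} (h : UsedN c j) :
    (∃ (p : Fin (cP c + 1)) (i : Fin (rkN c p)), j = gx p i) ∨ (∃ p : Fin (cP c + 1), j = gc p) ∨
      (∃ q : Fin (cQ c + 1), j = ga q 0) ∨ (∃ q : Fin (cQ c + 1), j = ga q 1) ∨
      ∃ e : Fin (cE c + 1), j = gy e := by
  rcases h with ⟨h1, h2, h3⟩ | ⟨h1, h2⟩ | ⟨h1, h2, h3⟩ | ⟨h1, h2⟩
  · refine Or.inl ⟨⟨_, h2⟩, ⟨_, h3⟩, ?_⟩
    show j = Nat.pair 0 (Nat.pair j.unpair.2.unpair.1 j.unpair.2.unpair.2)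
    rw [Nat.pair_unpair, ← h1, Nat.pair_unpair]
  · refine Or.inr (Or.inl ⟨⟨_, h2⟩, ?_⟩)
    show j = Nat.pair 1 j.unpair.2
    rw [← h1, Nat.pair_unpair]
  · have h4 : j = ga j.unpair.2.unpair.1 j.unpair.2.unpair.2 := by
      show j = Nat.pair 2 (Nat.pair j.unpair.2.unpair.1 j.unpair.2.unpair.2)
      rw [Nat.pair_unpair, ← h1, Nat.pair_unpair]
    have h5 : j.unpair.2.unpair.2 = 0 ∨ j.unpair.2.unpair.2 = 1 := by omega
    rcases h5 with h5 | h5
    · refine Or.inr (Or.inr (Or.inl ⟨⟨_, h2⟩, ?_⟩))
      rw [h5] at h4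
      exact h4
    · refine Or.inr (Or.inr (Or.inr (Or.inl ⟨⟨_, h2⟩, ?_⟩)))
      rw [h5] at h4
      exact h4
  · refine Or.inr (Or.inr (Or.inr (Or.inr ⟨⟨_, h2⟩, ?_⟩)))
    show j = Nat.pair 3 j.unpair.2
    rw [← h1, Nat.pair_unpair]

theorem C07_iv0 (c : Cd) (e : Fin (cE c + 1)) :
    iv (pdt ((1, 0), (0, 0)) (zeN c e)) = dt (1, 0) ((toDat c).ze e) := by
  rw [iv_pdt]
  rfl

theorem C07_iv1 (c : Cd) (e : Fin (cE c + 1)) :
    iv (pdt ((0, 0), (1, 0)) (zeN c e)) = dt (0, 1) ((toDat c).ze e) := by
  rw [iv_pdt]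
  rfl

theorem C07_iv2 (c : Cd) (e : Fin (cE c + 1)) :
    iv (pdt (omN c e) ((1, 0), (0, 0))) = dt ((toDat c).om e) (1, 0) := by
  rw [iv_pdt]
  rfl

theorem C07_iv3 (c : Cd) (e : Fin (cE c + 1)) :
    iv (pdt (omN c e) ((0, 0), (1, 0))) = dt ((toDat c).om e) (0, 1) := by
  rw [iv_pdt]
  rfl

/-- the relators of the edges, evaluated -/
theorem C07_edge {H : Type} [Group H] (φ : FreeGroup ℕ →* H) (c : Cd) (e : Fin (cE c + 1))
    (be : FZ (rkN c (pcN c e)) →* H)
    (h1 : ∀ i : Fin (rkN c (pcN c e)), be (FreeGroup.of i, 1) = φ (FreeGroup.of (gx (pcN c e) i)))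
    (h2 : be (1, Multiplicative.ofAdd 1) = φ (FreeGroup.of (gc (pcN c e)))) :
    φ (FreeGroup.mk (relE c e 0)) = φ (FreeGroup.of (ga (flN c e) 0)) * φ (FreeGroup.of (gy e)) *
      (be ((toDat c).emb e (Multiplicative.ofAdd (1, 0))))⁻¹ * (φ (FreeGroup.of (gy e)))⁻¹ ∧
    φ (FreeGroup.mk (relE c e 1)) = φ (FreeGroup.of (ga (flN c e) 1)) * φ (FreeGroup.of (gy e)) *
      (be ((toDat c).emb e (Multiplicative.ofAdd (0, 1))))⁻¹ * (φ (FreeGroup.of (gy e)))⁻¹ := by
  have hb : ∀ (a : FreeGroup (Fin (rkN c (pcN c e)))) (k : ℤ), be (a, Multiplicative.ofAdd k) =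
      FreeGroup.lift (fun i : Fin (rkN c (pcN c e)) => φ (FreeGroup.of (gx (pcN c e) i))) a *
        φ (FreeGroup.of (gc (pcN c e))) ^ k := by
    intro a k
    have e1 : be.comp (MonoidHom.inl _ _) = FreeGroup.lift
        (fun i : Fin (rkN c (pcN c e)) => φ (FreeGroup.of (gx (pcN c e) i))) := by
      apply FreeGroup.ext_hom
      intro i
      rw [FreeGroup.lift_apply_of, ← h1]
      rfl
    have h3 : ((a, Multiplicative.ofAdd k) : FZ (rkN c (pcN c e))) =
        (a, 1) * (1, Multiplicative.ofAdd 1) ^ k := by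
      apply Prod.ext
      · show a = a * (((1, Multiplicative.ofAdd 1) : FZ (rkN c (pcN c e))) ^ k).1
        rw [Prod.pow_fst]
        simp
      · show Multiplicative.ofAdd k =
          1 * (((1, Multiplicative.ofAdd 1) : FZ (rkN c (pcN c e))) ^ k).2
        rw [Prod.pow_snd, one_mul]
        show Multiplicative.ofAdd k = Multiplicative.ofAdd (1 : ℤ) ^ k
        rw [← ofAdd_zsmul]
        simp
    rw [h3, map_mul, map_zpow, h2]
    congr 1
    exact DFunLike.congr_fun e1 a
  constructor
  · rw [ev_relE, if_pos rfl, C07_iv0, C07_iv2, ev_wG, ← map_zpow, ← hb]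
    rfl
  · rw [ev_relE, if_neg one_ne_zero, C07_iv1, C07_iv3, ev_wG, ← map_zpow,
      ← hb]
    rfl

theorem C07_conj {H : Type} [Group H] {a y b : H} (h : 1 = a * y * b⁻¹ * y⁻¹) :
    a = y * b * y⁻¹ := by
  have k3 := mul_inv_eq_one.1 h.symm
  have k4 := mul_inv_eq_iff_eq_mul.1 k3
  rw [← k4]
  group

theorem C07_comm {H : Type} [Group H] (f : A2 →* H) (a b : A2) : f a * f b = f b * f a := by
  rw [← map_mul, ← map_mul, mul_comm]

theorem C07_aux {H : Type} [Group H] (a b : H) : a * b * b⁻¹ * a⁻¹ = 1 := by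
  group

/-- the system of the presentation, with its values on generators -/
theorem pres_sy {c : Cd} {P : Pres} (h : IsPres c P) : ∃ S : Sy (toDat c) P.Grp,
    (∀ p i, S.be p (FreeGroup.of i, 1) = PresentedGroup.of (gx p i)) ∧
    (∀ p, S.be p (1, Multiplicative.ofAdd 1) = PresentedGroup.of (gc p)) ∧
    (∀ q, S.al q (Multiplicative.ofAdd (1, 0)) = PresentedGroup.of (ga q 0)) ∧
    (∀ q, S.al q (Multiplicative.ofAdd (0, 1)) = PresentedGroup.of (ga q 1)) ∧
    (∀ e, S.y e = PresentedGroup.of (gy e)) := by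
  have hof : ∀ j, PresentedGroup.mk P.rels (FreeGroup.of j) = PresentedGroup.of j := fun j => rfl
  have hbe : ∀ p : Fin (cP c + 1), ∃ f : FZ (rkN c p) →* P.Grp,
      (∀ i, f (FreeGroup.of i, 1) = PresentedGroup.of (gx p i)) ∧
      f (1, Multiplicative.ofAdd 1) = PresentedGroup.of (gc p) := by
    intro p
    obtain ⟨f, hf1, hf2, -⟩ := C07_be_hom (n := rkN c p) (H := P.Grp)
      (fun i => PresentedGroup.of (gx p i)) (PresentedGroup.of (gc p)) (by
        intro i
        have h1 := rel_one h _ (RelC.comm p i p.2 i.2)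
        rw [ev_cm, hof, hof] at h1
        have h2 := mul_inv_eq_one.1 h1
        exact mul_inv_eq_iff_eq_mul.1 h2)
    refine ⟨f, fun i => ?_, hf2⟩
    rw [hf1, FreeGroup.lift_apply_of]
  have hal : ∀ q : Fin (cQ c + 1), ∃ f : A2 →* P.Grp,
      f (Multiplicative.ofAdd (1, 0)) = PresentedGroup.of (ga q 0) ∧
      f (Multiplicative.ofAdd (0, 1)) = PresentedGroup.of (ga q 1) := by
    intro q
    apply C07_zpow_hom
    have h1 := rel_one h _ (RelC.flat q q.2)
    rw [ev_cm, hof, hof] at h1
    have h2 := mul_inv_eq_one.1 h1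
    exact mul_inv_eq_iff_eq_mul.1 h2
  choose be hbe1 hbe2 using hbe
  choose al hal1 hal2 using hal
  refine ⟨⟨be, al, fun e => PresentedGroup.of (gy e), ?_⟩, hbe1, hbe2, hal1, hal2, fun e => rfl⟩
  intro e v
  have key := C07_edge (PresentedGroup.mk P.rels) c e (be ((toDat c).pc e))
    (hbe1 ((toDat c).pc e)) (hbe2 ((toDat c).pc e))
  rw [rel_one h _ (RelC.edge e 0 e.2 (by norm_num)),
    rel_one h _ (RelC.edge e 1 e.2 (by norm_num))] at key
  simp only [hof] at key
  obtain ⟨k1, k2⟩ := key
  have hh : ∀ v : A2, al ((toDat c).fl e) v =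
      ((MulAut.conj (PresentedGroup.of (gy e) : P.Grp)).toMonoidHom.comp
        ((be ((toDat c).pc e)).comp ((toDat c).emb e))) v := by
    apply C07_extA
    · rw [hal1]
      show PresentedGroup.of (ga (flN c e) 0) = PresentedGroup.of (gy e) *
        be ((toDat c).pc e) ((toDat c).emb e (Multiplicative.ofAdd (1, 0))) *
          (PresentedGroup.of (gy e))⁻¹
      exact C07_conj k1
    · rw [hal2]
      show PresentedGroup.of (ga (flN c e) 1) = PresentedGroup.of (gy e) *
        be ((toDat c).pc e) ((toDat c).emb e (Multiplicative.ofAdd (0, 1))) *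
          (PresentedGroup.of (gy e))⁻¹
      exact C07_conj k2
  show al ((toDat c).fl e) v * PresentedGroup.of (gy e) = PresentedGroup.of (gy e) *
    be ((toDat c).pc e) ((toDat c).emb e v)
  rw [hh]
  show PresentedGroup.of (gy e) * be ((toDat c).pc e) ((toDat c).emb e v) *
    (PresentedGroup.of (gy e))⁻¹ * PresentedGroup.of (gy e) = _
  group

theorem pres_pi {c : Cd} {P : Pres} (h : IsPres c P) :
    ∃ S : Sy (toDat c) P.Grp, IsPi S (tp0 c) (tep c) (tef c) := by
  obtain ⟨S, hb1, hb2, ha1, ha2, hy⟩ := pres_sy h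
  refine ⟨S, ?_, ?_, ?_⟩
  · constructor
    · intro p hp
      rw [hy]
      exact rel_one h _ (RelC.treeP p p.2 (fun h0 => hp (Fin.ext h0)))
    · intro q
      rw [hy]
      exact rel_one h _ (RelC.treeQ q q.2)
  · unfold Sy.Gen
    rw [eq_top_iff, ← PresentedGroup.closure_range_of, Subgroup.closure_le]
    rintro _ ⟨j, rfl⟩
    by_cases hj : UsedN c j
    · apply Subgroup.subset_closure
      rcases C07_used hj with ⟨p, i, rfl⟩ | ⟨p, rfl⟩ | ⟨q, rfl⟩ | ⟨q, rfl⟩ | ⟨e, rfl⟩
      · exact Or.inl (Or.inl ⟨p, _, hb1 p i⟩)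
      · exact Or.inl (Or.inl ⟨p, _, hb2 p⟩)
      · exact Or.inl (Or.inr ⟨q, _, ha1 q⟩)
      · exact Or.inl (Or.inr ⟨q, _, ha2 q⟩)
      · exact Or.inr ⟨e, hy e⟩
    · have h1 : (PresentedGroup.of j : P.Grp) = 1 := rel_one h _ (RelC.unused j hj)
      show (PresentedGroup.of j : P.Grp) ∈ Subgroup.closure _
      rw [h1]
      exact Subgroup.one_mem _
  · intro H _ S' hN
    have hf : ∀ j : ℕ, ∃ g : H,
        (∀ (p : Fin (cP c + 1)) (i : Fin (rkN c p)), j = gx p i → g = S'.be p (FreeGroup.of i, 1)) ∧
        (∀ p : Fin (cP c + 1), j = gc p → g = S'.be p (1, Multiplicative.ofAdd 1)) ∧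
        (∀ q : Fin (cQ c + 1), j = ga q 0 → g = S'.al q (Multiplicative.ofAdd (1, 0))) ∧
        (∀ q : Fin (cQ c + 1), j = ga q 1 → g = S'.al q (Multiplicative.ofAdd (0, 1))) ∧
        (∀ e : Fin (cE c + 1), j = gy e → g = S'.y e) ∧ (¬ UsedN c j → g = 1) := by
      intro j
      by_cases hj : UsedN c j
      · rcases C07_used hj with ⟨p, i, rfl⟩ | ⟨p, rfl⟩ | ⟨q, rfl⟩ | ⟨q, rfl⟩ | ⟨e, rfl⟩
        · refine ⟨S'.be p (FreeGroup.of i, 1), ?_, ?_, ?_, ?_, ?_, fun h0 => absurd hj h0⟩
          · intro p' i' he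
            have h1 := congrArg Nat.unpair he
            rw [C07_unp_gx, C07_unp_gx] at h1
            have h2 := congrArg Nat.unpair (congrArg Prod.snd h1)
            simp only [Nat.unpair_pair] at h2
            obtain rfl : p = p' := Fin.ext (congrArg Prod.fst h2)
            obtain rfl : i = i' := Fin.ext (congrArg Prod.snd h2)
            rfl
          · intro p' he
            have h1 := congrArg Nat.unpair he
            rw [C07_unp_gx, C07_unp_gc] at h1
            simp at h1
          · intro p' he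
            have h1 := congrArg Nat.unpair he
            rw [C07_unp_gx, C07_unp_ga] at h1
            simp at h1
          · intro p' he
            have h1 := congrArg Nat.unpair he
            rw [C07_unp_gx, C07_unp_ga] at h1
            simp at h1
          · intro p' he
            have h1 := congrArg Nat.unpair he
            rw [C07_unp_gx, C07_unp_gy] at h1
            simp at h1
        · refine ⟨S'.be p (1, Multiplicative.ofAdd 1), ?_, ?_, ?_, ?_, ?_,
            fun h0 => absurd hj h0⟩
          · intro p' i' he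
            have h1 := congrArg Nat.unpair he
            rw [C07_unp_gx, C07_unp_gc] at h1
            simp at h1
          · intro p' he
            have h1 := congrArg Nat.unpair he
            rw [C07_unp_gc, C07_unp_gc] at h1
            obtain rfl : p = p' := Fin.ext (congrArg Prod.snd h1)
            rfl
          · intro p' he
            have h1 := congrArg Nat.unpair he
            rw [C07_unp_gc, C07_unp_ga] at h1
            simp at h1
          · intro p' he
            have h1 := congrArg Nat.unpair he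
            rw [C07_unp_gc, C07_unp_ga] at h1
            simp at h1
          · intro p' he
            have h1 := congrArg Nat.unpair he
            rw [C07_unp_gc, C07_unp_gy] at h1
            simp at h1
        · refine ⟨S'.al q (Multiplicative.ofAdd (1, 0)), ?_, ?_, ?_, ?_, ?_,
            fun h0 => absurd hj h0⟩
          · intro p' i' he
            have h1 := congrArg Nat.unpair he
            rw [C07_unp_gx, C07_unp_ga] at h1
            simp at h1
          · intro p' he
            have h1 := congrArg Nat.unpair he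
            rw [C07_unp_gc, C07_unp_ga] at h1
            simp at h1
          · intro p' he
            have h1 := congrArg Nat.unpair he
            rw [C07_unp_ga, C07_unp_ga] at h1
            have h2 := congrArg Nat.unpair (congrArg Prod.snd h1)
            simp only [Nat.unpair_pair] at h2
            obtain rfl : q = p' := Fin.ext (congrArg Prod.fst h2)
            rfl
          · intro p' he
            have h1 := congrArg Nat.unpair he
            rw [C07_unp_ga, C07_unp_ga] at h1
            have h2 := congrArg Nat.unpair (congrArg Prod.snd h1)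
            simp only [Nat.unpair_pair] at h2
            simp at h2
          · intro p' he
            have h1 := congrArg Nat.unpair he
            rw [C07_unp_ga, C07_unp_gy] at h1
            simp at h1
        · refine ⟨S'.al q (Multiplicative.ofAdd (0, 1)), ?_, ?_, ?_, ?_, ?_,
            fun h0 => absurd hj h0⟩
          · intro p' i' he
            have h1 := congrArg Nat.unpair he
            rw [C07_unp_gx, C07_unp_ga] at h1
            simp at h1
          · intro p' he
            have h1 := congrArg Nat.unpair he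
            rw [C07_unp_gc, C07_unp_ga] at h1
            simp at h1
          · intro p' he
            have h1 := congrArg Nat.unpair he
            rw [C07_unp_ga, C07_unp_ga] at h1
            have h2 := congrArg Nat.unpair (congrArg Prod.snd h1)
            simp only [Nat.unpair_pair] at h2
            simp at h2
          · intro p' he
            have h1 := congrArg Nat.unpair he
            rw [C07_unp_ga, C07_unp_ga] at h1
            have h2 := congrArg Nat.unpair (congrArg Prod.snd h1)
            simp only [Nat.unpair_pair] at h2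
            obtain rfl : q = p' := Fin.ext (congrArg Prod.fst h2)
            rfl
          · intro p' he
            have h1 := congrArg Nat.unpair he
            rw [C07_unp_ga, C07_unp_gy] at h1
            simp at h1
        · refine ⟨S'.y e, ?_, ?_, ?_, ?_, ?_, fun h0 => absurd hj h0⟩
          · intro p' i' he
            have h1 := congrArg Nat.unpair he
            rw [C07_unp_gx, C07_unp_gy] at h1
            simp at h1
          · intro p' he
            have h1 := congrArg Nat.unpair he
            rw [C07_unp_gc, C07_unp_gy] at h1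
            simp at h1
          · intro p' he
            have h1 := congrArg Nat.unpair he
            rw [C07_unp_ga, C07_unp_gy] at h1
            simp at h1
          · intro p' he
            have h1 := congrArg Nat.unpair he
            rw [C07_unp_ga, C07_unp_gy] at h1
            simp at h1
          · intro p' he
            have h1 := congrArg Nat.unpair he
            rw [C07_unp_gy, C07_unp_gy] at h1
            obtain rfl : e = p' := Fin.ext (congrArg Prod.snd h1)
            rfl
      · have hnot : ∀ k, UsedN c k → j ≠ k := fun k hk he => hj (he ▸ hk)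
        refine ⟨1, ?_, ?_, ?_, ?_, ?_, fun _ => rfl⟩
        · intro p i he
          refine absurd he (hnot _ (Or.inl ?_))
          rw [C07_unp_gx]
          simp only [Nat.unpair_pair]
          exact ⟨trivial, p.2, i.2⟩
        · intro p he
          refine absurd he (hnot _ (Or.inr (Or.inl ?_)))
          rw [C07_unp_gc]
          exact ⟨rfl, p.2⟩
        · intro q he
          refine absurd he (hnot _ (Or.inr (Or.inr (Or.inl ?_))))
          rw [C07_unp_ga]
          simp only [Nat.unpair_pair]
          exact ⟨trivial, q.2, by norm_num⟩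
        · intro q he
          refine absurd he (hnot _ (Or.inr (Or.inr (Or.inl ?_))))
          rw [C07_unp_ga]
          simp only [Nat.unpair_pair]
          exact ⟨trivial, q.2, by norm_num⟩
        · intro e he
          refine absurd he (hnot _ (Or.inr (Or.inr (Or.inr ?_))))
          rw [C07_unp_gy]
          exact ⟨rfl, e.2⟩
    choose f f1 f2 f3 f4 f5 f6 using hf
    have g1 : ∀ (p : Fin (cP c + 1)) (i : Fin (rkN c p)),
        f (gx p i) = S'.be p (FreeGroup.of i, 1) := fun p i => f1 _ p i rfl
    have g2 : ∀ p : Fin (cP c + 1), f (gc p) = S'.be p (1, Multiplicative.ofAdd 1) :=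
      fun p => f2 _ p rfl
    have g3 : ∀ q : Fin (cQ c + 1), f (ga q 0) = S'.al q (Multiplicative.ofAdd (1, 0)) :=
      fun q => f3 _ q rfl
    have g4 : ∀ q : Fin (cQ c + 1), f (ga q 1) = S'.al q (Multiplicative.ofAdd (0, 1)) :=
      fun q => f4 _ q rfl
    have g5 : ∀ e : Fin (cE c + 1), f (gy e) = S'.y e := fun e => f5 _ e rfl
    have hrel : ∀ w, RelC c w → FreeGroup.lift f (FreeGroup.mk w) = 1 := by
      intro w hw
      cases hw with
      | comm p i hp hi =>
        rw [ev_cm, FreeGroup.lift_apply_of, FreeGroup.lift_apply_of]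
        have h1 := g1 ⟨p, hp⟩ ⟨i, hi⟩
        have h2 := g2 ⟨p, hp⟩
        simp only at h1 h2
        rw [h1, h2, ← map_inv, ← map_inv, ← map_mul, ← map_mul, ← map_mul]
        rw [← map_one (S'.be ⟨p, hp⟩)]
        congr 1
        ext1
        · simp
        · simp
      | flat q hq =>
        rw [ev_cm, FreeGroup.lift_apply_of, FreeGroup.lift_apply_of]
        have h1 := g3 ⟨q, hq⟩
        have h2 := g4 ⟨q, hq⟩
        simp only at h1 h2
        have h3 : S'.al ⟨q, hq⟩ (Multiplicative.ofAdd (1, 0)) *
            S'.al ⟨q, hq⟩ (Multiplicative.ofAdd (0, 1)) =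
            S'.al ⟨q, hq⟩ (Multiplicative.ofAdd (0, 1)) *
              S'.al ⟨q, hq⟩ (Multiplicative.ofAdd (1, 0)) := C07_comm _ _ _
        rw [h1, h2, h3, mul_inv_cancel_right, mul_inv_cancel]
      | edge e s he hs =>
        have key := C07_edge (FreeGroup.lift f) c ⟨e, he⟩ (S'.be ((toDat c).pc ⟨e, he⟩))
          (by
            intro i
            rw [FreeGroup.lift_apply_of]
            exact (g1 ((toDat c).pc ⟨e, he⟩) i).symm)
          (by
            rw [FreeGroup.lift_apply_of]
            exact (g2 ((toDat c).pc ⟨e, he⟩)).symm)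
        simp only [FreeGroup.lift_apply_of] at key
        obtain ⟨k1, k2⟩ := key
        have h5 := g5 ⟨e, he⟩
        have h3 := g3 ((toDat c).fl ⟨e, he⟩)
        have h4 := g4 ((toDat c).fl ⟨e, he⟩)
        have r3 := S'.rel ⟨e, he⟩ (Multiplicative.ofAdd (1, 0))
        have r4 := S'.rel ⟨e, he⟩ (Multiplicative.ofAdd (0, 1))
        simp only at h5
        change f (ga (flN c e) 0) = _ at h3
        change f (ga (flN c e) 1) = _ at h4
        have hs' : s = 0 ∨ s = 1 := by omega
        rcases hs' with rfl | rfl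
        · rw [k1, h3, h5, r3]
          exact C07_aux _ _
        · rw [k2, h4, h5, r4]
          exact C07_aux _ _
      | treeP p hp hp0 =>
        rw [ev_true, FreeGroup.lift_apply_of]
        have h1 := hN.1 ⟨p, hp⟩ (fun h0 => hp0 (congrArg Fin.val h0))
        rw [← g5] at h1
        exact h1
      | treeQ q hq =>
        rw [ev_true, FreeGroup.lift_apply_of]
        have h1 := hN.2 ⟨q, hq⟩
        rw [← g5] at h1
        exact h1
      | unused j hj =>
        rw [ev_true, FreeGroup.lift_apply_of]
        exact f6 j hj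
    have hrels : ∀ r ∈ P.rels, FreeGroup.lift f r = 1 := by
      rintro r (⟨w, hw, rfl⟩ | ⟨j, hj, rfl⟩)
      · exact hrel w (h.sound w hw)
      · rw [FreeGroup.lift_apply_of]
        apply f6
        intro hu
        exact absurd (h.used j hu) (not_lt.2 hj)
    refine ⟨PresentedGroup.toGroup hrels, ?_, ?_, ?_⟩
    · intro p x
      apply C07_extZ (f := (PresentedGroup.toGroup hrels).comp (S.be p)) (g := S'.be p)
      · intro i
        rw [MonoidHom.comp_apply, hb1, PresentedGroup.toGroup.of]
        exact g1 p i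
      · rw [MonoidHom.comp_apply, hb2, PresentedGroup.toGroup.of]
        exact g2 p
    · intro q v
      apply C07_extA (f := (PresentedGroup.toGroup hrels).comp (S.al q)) (g := S'.al q)
      · rw [MonoidHom.comp_apply, ha1, PresentedGroup.toGroup.of]
        exact g3 q
      · rw [MonoidHom.comp_apply, ha2, PresentedGroup.toGroup.of]
        exact g4 q
    · intro e
      rw [hy, PresentedGroup.toGroup.of]
      exact g5 e

end AdmIso
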