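import Pool.Agent.Lib.MP_32d917_al_adm.C01
import Pool.Agent.Lib.MP_32d917_al_adm.C03

/-!
# C08: matchings and equivalences

`good_of_eqv`. Digits by `CB.exists_dig` (functions `Fin (n + 1) → Fin (m + 1)`) and `CB.exists_pred` (signs:
`eN t p = 1` iff `ep p = -1`); `c'.1 = c.1` from the cardinalities (`Fintype.card_congr` for `sp`, `sf`, `se`),
so write `c = (s, r)`, `c' = (s, r')`. The equality of the ranks: `Equiv.ofFreeGroupEquiv` applied to `φ`
gives `Fin (rk p) ≃ Fin (rk' (sp p))`. `del`: `peq_iff`, `iv_sg`, `iv_pdt`. `Sol`: from `τ` of `Eqv.tau` take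
`τ x = (τ (of x)).toAdd` for `x < n`, `0` otherwise; `dl_exp`. `AutEq`: from `phi`, with the equality of ranks
`θ = φ` composed with the identification of the free groups of equal rank; for `pcN c e ≠ p` both
entries are `[]`; the exponent `ε δ = ±1` is the sign `(eN + dN) % 2` (`dl_invRev`).

`eqv_of_good`: the converse. The functions given by digits are injective, hence bijective
(`Equiv.ofBijective`, `Finite.injective_iff_bijective`). `τ` from `Sol` by `FreeGroup.lift`.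
-/

set_option autoImplicit false

namespace AdmIso

open LatIso

theorem C08_rank {n m : ℕ} (φ : FreeGroup (Fin n) ≃* FreeGroup (Fin m)) : n = m := by
  simpa using Fintype.card_congr (Equiv.ofFreeGroupEquiv φ)

theorem C08_cast {n m : ℕ} (h : m = n) (φ : FreeGroup (Fin n) ≃* FreeGroup (Fin m)) :
    ∃ θ : FreeGroup (Fin n) ≃* FreeGroup (Fin n),
      ∀ l l', IsConj (φ (dl n l)) (dl m l') → IsConj (θ (dl n l)) (dl n l') := by
  subst h
  exact ⟨φ, fun _ _ h => h⟩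

theorem C08_cast' {n m : ℕ} (h : m = n) (θ : FreeGroup (Fin n) ≃* FreeGroup (Fin n)) :
    ∃ φ : FreeGroup (Fin n) ≃* FreeGroup (Fin m),
      ∀ l l', IsConj (θ (dl n l)) (dl n l') → IsConj (φ (dl n l)) (dl m l') := by
  subst h
  exact ⟨θ, fun _ _ h => h⟩

theorem C08_getD {α : Type} (f : ℕ → α) (n i : ℕ) (d : α) (h : i < n) :
    ((List.range n).map f).getD i d = f i := by
  rw [List.getD_eq_getElem _ _ (by simpa using h)]
  simp

/-- the sign of a digit -/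
theorem C08_sign {k : ℕ} {u : ℤˣ} (hk : k < 2) (h : k = 1 ↔ u = -1) : (-1 : ℤ) ^ k = (u : ℤ) := by
  have h2 : k = 0 ∨ k = 1 := by omega
  rcases h2 with rfl | rfl
  · have h3 : u ≠ -1 := fun h4 => absurd (h.2 h4) (by norm_num)
    rcases Int.units_eq_one_or u with h4 | h4
    · rw [h4]; rfl
    · exact absurd h4 h3
  · rw [h.1 rfl]; rfl

theorem C08_exp {n : ℕ} (x : FreeGroup (Fin n)) (k l : ℕ) (u v : ℤˣ)
    (h1 : (-1 : ℤ) ^ k = (u : ℤ)) (h2 : (-1 : ℤ) ^ l = (v : ℤ)) :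
    x ^ ((u * v : ℤˣ) : ℤ) = if (k + l) % 2 = 1 then x⁻¹ else x := by
  have h3 : ((u * v : ℤˣ) : ℤ) = (-1) ^ (k + l) := by
    rw [pow_add, h1, h2]
    rfl
  rw [h3]
  split_ifs with h
  · have h4 : Odd (k + l) := Nat.odd_iff.2 h
    rw [h4.neg_one_pow, zpow_neg_one]
  · have h4 : Even (k + l) := Nat.even_iff.2 (by omega)
    rw [h4.neg_one_pow, zpow_one]

theorem C08_dl_if (n : ℕ) (l : Wd) (P : Prop) [Decidable P] :
    dl n (if P then FreeGroup.invRev l else l) = if P then (dl n l)⁻¹ else dl n l := by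
  split_ifs
  · exact dl_invRev n l
  · rfl

/-- the left hand side of an equation -/
theorem C08_row (n : ℕ) (τ : ℕ → ℤ) (τ' : FreeGroup (Fin n) →* Multiplicative ℤ)
    (hτ : ∀ x : Fin n, τ x = (τ' (FreeGroup.of x)).toAdd) (z : PI) (l : Wd) :
    ∑ x ∈ Finset.range n, iv (((List.range n).map fun x => pmul z (exN x l)).getD x (0, 0)) * τ x =
      iv z * (τ' (dl n l)).toAdd := by
  rw [dl_exp, Finset.mul_sum, Finset.sum_range]
  apply Finset.sum_congr rfl
  intro x _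
  rw [C08_getD _ _ _ _ x.2, iv_pmul, hτ]
  ring

theorem C08_mem (c c' : Cd) (t : Mt) (p : ℕ) (r : List PI × PI) :
    r ∈ (sysN c c' t p).2 ↔ ∃ e < cE c + 1, ∃ f < cE c + 1, rowN c c' t p e f = r := by
  unfold sysN
  simp only [List.mem_flatMap, List.mem_range, List.mem_map]

/-- the meaning of an equation -/
theorem C08_sol (c c' : Cd) (t : Mt) (p : ℕ) (τ : ℕ → ℤ)
    (τ' : FreeGroup (Fin (rkN c p)) →* Multiplicative ℤ)
    (hτ : ∀ x : Fin (rkN c p), τ x = (τ' (FreeGroup.of x)).toAdd) :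
    (∀ r ∈ (sysN c c' t p).2,
      ∑ x ∈ Finset.range (rkN c p), iv (r.1.getD x (0, 0)) * τ x = iv r.2) ↔
    ∀ e < cE c + 1, ∀ f < cE c + 1, pcN c e = p → flN c e = flN c f → ¬ e = f →
      dt (vv (zeN c e)) (vv (zeN c f)) * (τ' (dl (rkN c p) (wN c e))).toAdd =
        (-1) ^ (eN t p) * dt (vv (omN c e)) (vv (zeN c f)) -
          (-1) ^ (eN t (pcN c f)) * dt (vv (omN c' (seN c t e))) (vv (zeN c' (seN c t f))) := by
  constructor
  · intro h e he f hf h1 h2 h3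
    have h4 := h _ ((C08_mem c c' t p _).2 ⟨e, he, f, hf, rfl⟩)
    unfold rowN at h4
    rw [if_pos ⟨h1, h2, h3⟩] at h4
    simp only at h4
    rw [C08_row _ τ τ' hτ, iv_psub, iv_sg, iv_sg, iv_pdt, iv_pdt, iv_pdt] at h4
    exact h4
  · intro h r hr
    obtain ⟨e, he, f, hf, rfl⟩ := (C08_mem c c' t p _).1 hr
    unfold rowN
    split_ifs with h1
    · simp only
      rw [C08_row _ τ τ' hτ, iv_psub, iv_sg, iv_sg, iv_pdt, iv_pdt, iv_pdt]
      exact h e he f hf h1.1 h1.2.1 h1.2.2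
    · simp [iv]

theorem good_of_eqv (c c' : Cd) {sp : Fin (cP c + 1) ≃ Fin (cP c' + 1)}
    {sf : Fin (cQ c + 1) ≃ Fin (cQ c' + 1)} {se : Fin (cE c + 1) ≃ Fin (cE c' + 1)}
    {ep : Fin (cP c + 1) → ℤˣ} {de : Fin (cQ c + 1) → ℤˣ}
    (h : Eqv (toDat c) (toDat c') sp sf se ep de) : ∃ t : Mt, InB c t ∧ GoodM c c' t := by
  have hs : c'.1 = c.1 := by
    have h1 : cP c + 1 = cP c' + 1 := by simpa using Fintype.card_congr sp
    have h2 : cQ c + 1 = cQ c' + 1 := by simpa using Fintype.card_congr sf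
    have h3 : cE c + 1 = cE c' + 1 := by simpa using Fintype.card_congr se
    apply Prod.ext
    · exact (Nat.succ.inj h1).symm
    · apply Prod.ext
      · exact (Nat.succ.inj h2).symm
      · exact (Nat.succ.inj h3).symm
  obtain ⟨s, r⟩ := c
  obtain ⟨s', r'⟩ := c'
  obtain rfl : s' = s := hs
  obtain ⟨w1, hw1, hsp⟩ := CB.exists_dig (cP (s', r)) (cP (s', r)) sp
  obtain ⟨w2, hw2, hsf⟩ := CB.exists_dig (cQ (s', r)) (cQ (s', r)) sf
  obtain ⟨w3, hw3, hse⟩ := CB.exists_dig (cE (s', r)) (cE (s', r)) se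
  obtain ⟨w4, hw4, hep⟩ := CB.exists_pred (cP (s', r)) (fun p => ep p = -1)
  obtain ⟨w5, hw5, hde⟩ := CB.exists_pred (cQ (s', r)) (fun p => de p = -1)
  have gsp : ∀ p : Fin (cP (s', r) + 1), spN (s', r) (w1, w2, w3, w4, w5) p = sp p := by
    intro p
    rw [← hsp p]
    rfl
  have gsf : ∀ p : Fin (cQ (s', r) + 1), sfN (s', r) (w1, w2, w3, w4, w5) p = sf p := by
    intro p
    rw [← hsf p]
    rfl
  have gse : ∀ p : Fin (cE (s', r) + 1), seN (s', r) (w1, w2, w3, w4, w5) p = se p := by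
    intro p
    rw [← hse p]
    rfl
  have gep : ∀ p : Fin (cP (s', r) + 1), (-1 : ℤ) ^ eN (w1, w2, w3, w4, w5) p = (ep p : ℤ) :=
    fun p => C08_sign (CB.dg_lt _ _ _) (hep p)
  have gde : ∀ q : Fin (cQ (s', r) + 1), (-1 : ℤ) ^ dN (w1, w2, w3, w4, w5) q = (de q : ℤ) :=
    fun q => C08_sign (CB.dg_lt _ _ _) (hde q)
  have hrk : ∀ p : Fin (cP (s', r) + 1), rkN (s', r') (sp p) = rkN (s', r) p := by
    intro p
    obtain ⟨φ, -⟩ := h.phi p
    exact (C08_rank φ).symm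
  refine ⟨(w1, w2, w3, w4, w5), ⟨hw1, hw2, hw3, hw4, hw5⟩, ⟨rfl, ?_, ?_, ?_, ?_, ?_, ?_⟩, ?_, ?_⟩
  · intro p hp p' hp' he
    have h1 := gsp ⟨p, hp⟩
    have h2 := gsp ⟨p', hp'⟩
    simp only at h1 h2
    rw [h1, h2] at he
    exact congrArg Fin.val (sp.injective (Fin.ext he))
  · intro p hp p' hp' he
    have h1 := gsf ⟨p, hp⟩
    have h2 := gsf ⟨p', hp'⟩
    simp only at h1 h2
    rw [h1, h2] at he
    exact congrArg Fin.val (sf.injective (Fin.ext he))
  · intro p hp p' hp' he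
    have h1 := gse ⟨p, hp⟩
    have h2 := gse ⟨p', hp'⟩
    simp only at h1 h2
    rw [h1, h2] at he
    exact congrArg Fin.val (se.injective (Fin.ext he))
  · intro e he
    have h1 := gse ⟨e, he⟩
    simp only at h1
    have h2 := congrArg Fin.val (h.pc ⟨e, he⟩)
    have h3 := congrArg Fin.val (h.fl ⟨e, he⟩)
    rw [h1]
    exact ⟨h2.trans (gsp _).symm, h3.trans (gsf _).symm⟩
  · intro p hp
    have h1 := gsp ⟨p, hp⟩
    simp only at h1
    rw [h1]
    exact hrk ⟨p, hp⟩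
  · intro e he f hf hef
    have h1 := gse ⟨e, he⟩
    have h2 := gse ⟨f, hf⟩
    simp only at h1 h2
    rw [peq_iff, iv_sg, iv_sg, iv_pdt, iv_pdt, h1, h2, pow_add]
    have h3 := h.del ⟨e, he⟩ ⟨f, hf⟩ (Fin.ext hef)
    rw [← gde, ← gep, ← gep] at h3
    exact h3
  · intro p hp
    obtain ⟨τ', hτ'⟩ := h.tau ⟨p, hp⟩
    refine ⟨fun x => if hx : x < rkN (s', r) p then
      (τ' (FreeGroup.of (⟨x, hx⟩ : Fin (rkN (s', r) p)))).toAdd else 0, ?_⟩
    refine (C08_sol (s', r) (s', r') (w1, w2, w3, w4, w5) p _ τ' ?_).2 ?_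
    · intro x
      rw [dif_pos x.2]
      rfl
    · intro e he f hf h1 h2 h3
      have h4 := gse ⟨e, he⟩
      have h5 := gse ⟨f, hf⟩
      simp only at h4 h5
      have h6 := hτ' ⟨e, he⟩ ⟨f, hf⟩ (Fin.ext h1) (Fin.ext h2)
        (fun h0 => h3 (congrArg Fin.val h0))
      rw [← gep, ← gep] at h6
      rw [h4, h5]
      exact h6
  · intro p hp
    refine ⟨by simp [WL, WL'], ?_⟩
    obtain ⟨φ, hφ⟩ := h.phi ⟨p, hp⟩
    obtain ⟨θ, hθ⟩ := C08_cast (hrk ⟨p, hp⟩) φ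
    refine ⟨θ, ?_⟩
    intro i hi
    have hi' : i < cE (s', r) + 1 := by simpa [WL] using hi
    unfold WL WL'
    rw [C08_getD _ _ _ _ hi', C08_getD _ _ _ _ hi']
    by_cases hpc : pcN (s', r) i = p
    · rw [if_pos hpc, if_pos hpc]
      apply hθ
      have h1 := hφ ⟨i, hi'⟩ (Fin.ext hpc)
      rw [C08_exp _ _ _ _ _ (gep ⟨p, hp⟩) (gde ((toDat (s', r)).fl ⟨i, hi'⟩))] at h1
      have h2 := gse ⟨i, hi'⟩
      simp only at h2
      rw [C08_dl_if, h2]
      exact h1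
    · rw [if_neg hpc, if_neg hpc, dl_nil, map_one]

theorem C08_unit (k : ℕ) (hk : k < 2) :
    (-1 : ℤ) ^ k = (((if k = 1 then -1 else 1 : ℤˣ) : ℤˣ) : ℤ) := by
  have h2 : k = 0 ∨ k = 1 := by omega
  rcases h2 with rfl | rfl
  · rfl
  · rfl

theorem eqv_of_good (c c' : Cd) (t : Mt) (h : GoodM c c' t) :
    ∃ (sp : Fin (cP c + 1) ≃ Fin (cP c' + 1)) (sf : Fin (cQ c + 1) ≃ Fin (cQ c' + 1))
      (se : Fin (cE c + 1) ≃ Fin (cE c' + 1)) (ep : Fin (cP c + 1) → ℤˣ)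
      (de : Fin (cQ c + 1) → ℤˣ), Eqv (toDat c) (toDat c') sp sf se ep de := by
  obtain ⟨⟨hs, m1, m2, m3, m4, m5, m6⟩, h2, h3⟩ := h
  obtain ⟨s, r⟩ := c
  obtain ⟨s', r'⟩ := c'
  obtain rfl : s' = s := hs
  have b1 : Function.Bijective (fun p : Fin (cP (s', r) + 1) =>
      (⟨spN (s', r) t p, CB.dg_lt _ _ _⟩ : Fin (cP (s', r) + 1))) :=
    Finite.injective_iff_bijective.1 (fun p p' hp =>
      Fin.ext (m1 p p.2 p' p'.2 (congrArg Fin.val hp)))
  have b2 : Function.Bijective (fun p : Fin (cQ (s', r) + 1) =>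
      (⟨sfN (s', r) t p, CB.dg_lt _ _ _⟩ : Fin (cQ (s', r) + 1))) :=
    Finite.injective_iff_bijective.1 (fun p p' hp =>
      Fin.ext (m2 p p.2 p' p'.2 (congrArg Fin.val hp)))
  have b3 : Function.Bijective (fun p : Fin (cE (s', r) + 1) =>
      (⟨seN (s', r) t p, CB.dg_lt _ _ _⟩ : Fin (cE (s', r) + 1))) :=
    Finite.injective_iff_bijective.1 (fun p p' hp =>
      Fin.ext (m3 p p.2 p' p'.2 (congrArg Fin.val hp)))
  refine ⟨Equiv.ofBijective _ b1, Equiv.ofBijective _ b2, Equiv.ofBijective _ b3,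
    fun p => if eN t p = 1 then -1 else 1, fun q => if dN t q = 1 then -1 else 1, ?_⟩
  have gep : ∀ p : Fin (cP (s', r) + 1),
      (((if eN t p = 1 then -1 else 1 : ℤˣ) : ℤˣ) : ℤ) = (-1 : ℤ) ^ eN t p :=
    fun p => (C08_unit _ (CB.dg_lt _ _ _)).symm
  have gde : ∀ p : Fin (cQ (s', r) + 1),
      (((if dN t p = 1 then -1 else 1 : ℤˣ) : ℤˣ) : ℤ) = (-1 : ℤ) ^ dN t p :=
    fun p => (C08_unit _ (CB.dg_lt _ _ _)).symm
  constructor
  · intro e
    exact Fin.ext (m4 e e.2).1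
  · intro e
    exact Fin.ext (m4 e e.2).2
  · intro e f hef
    have h4 := m6 e e.2 f f.2 (congrArg Fin.val hef)
    rw [peq_iff, iv_sg, iv_sg, iv_pdt, iv_pdt, pow_add] at h4
    rw [gep, gep, gde]
    exact h4
  · intro p
    obtain ⟨τ, hτ⟩ := h2 p p.2
    refine ⟨FreeGroup.lift (fun x => Multiplicative.ofAdd (τ x)), ?_⟩
    have h4 := (C08_sol (s', r) (s', r') t p τ
      (FreeGroup.lift (fun x => Multiplicative.ofAdd (τ x))) (by
        intro x
        rw [FreeGroup.lift_apply_of]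
        rfl)).1 hτ
    intro e f h5 h6 h7
    rw [gep, gep]
    exact h4 e e.2 f f.2 (congrArg Fin.val h5) (congrArg Fin.val h6)
      (fun h0 => h7 (Fin.ext h0))
  · intro p
    obtain ⟨hl, θ, hθ⟩ := h3 p p.2
    obtain ⟨φ, hφ⟩ := C08_cast' (m5 p p.2) θ
    refine ⟨φ, ?_⟩
    intro e he
    have hi : (e : ℕ) < (WL (s', r) p).length := by
      rw [WL, List.length_map, List.length_range]
      exact e.2
    have h4 := hθ e hi
    unfold WL WL' at h4
    have hpc : pcN (s', r) e = p := congrArg Fin.val he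
    rw [C08_getD _ _ _ _ e.2, C08_getD _ _ _ _ e.2, if_pos hpc, if_pos hpc] at h4
    have h5 := hφ _ _ h4
    rw [C08_dl_if] at h5
    rw [C08_exp _ _ _ _ _ (gep p).symm (gde ((toDat (s', r)).fl e)).symm]
    exact h5

end AdmIso
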