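import Pool.Agent.Lib.MP_32d917_al_adm.CDefs
import Pool.Agent.Lib.MP_32d917_al.RE

/-!
# C09: unsolvable linear systems over the integers are recursively enumerable

`sol_iff_mod`: a system is solvable over `ℤ` iff it is solvable modulo every `N ≥ 1` (`SolM`: there are numbers
`τ x < N` with the equations modulo `N`). For the non trivial direction: let `A : ℤ ^ n → ℤ ^ m` be the
linear map and `b` the right hand side; the quotient `M = ℤ ^ m / A ℤ ^ n` is a finitely generated abelian
group and the class of `b` is divisible by every `N ≥ 1` in `M`; so it is `0`, since by the structure theorem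
(`AddCommGroup.equiv_free_prod_directSum_zmod` or `Module.equiv_free_prod_directSum`) `M` is a direct sum of copies of
`ℤ` and of finite cyclic groups.

`not_solM_p`: for given `N` non solvability mod `N` is primitive recursive: `∀ w < (N + 1) ^ n`, for the digits
`τ x = CB.dg N w x` (in base `N + 1`, so with values `≤ N`, enough) some equation fails:
`∃ r ∈ s.2`, the sum over `x < n` of `(r.1.getD x (0,0)) * τ x` is not congruent to `r.2` modulo `N`; the sum as a coded
integer is computed by `List.foldl` over `range n` (or `List.sum` of `List.map`); `iv y ≡ iv z mod N` iff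
`(y.1 + z.2) % N = (z.1 + y.2) % N`.
-/

set_option autoImplicit false
set_option synthInstance.maxSize 2000

namespace AdmIso

open LatIso

/-- solvability modulo `N` -/
def SolM (s : Sys) (N : ℕ) : Prop := ∃ τ : ℕ → ℕ, (∀ x, τ x < N) ∧ ∀ r ∈ s.2,
  (N : ℤ) ∣ ∑ x ∈ Finset.range s.1, iv (r.1.getD x (0, 0)) * (τ x : ℤ) - iv r.2

/-- divisibility in finitely generated abelian groups -/
theorem div_zero (M : Type) [AddCommGroup M] [Module.Finite ℤ M] (b : M)
    (h : ∀ N : ℕ, 0 < N → ∃ m : M, b = N • m) : b = 0 := by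
  have : AddGroup.FG M := Module.Finite.iff_addGroup_fg.1 inferInstance
  obtain ⟨n, ι, _, p, hp, e, ⟨E⟩⟩ := AddCommGroup.equiv_free_prod_directSum_zmod M
  apply E.injective
  rw [map_zero]
  have h' : ∀ N : ℕ, 0 < N → ∃ m, E b = N • m := by
    intro N hN
    obtain ⟨m, hm⟩ := h N hN
    exact ⟨E m, by rw [hm, map_nsmul]⟩
  generalize E b = c at h'
  apply Prod.ext
  · ext i
    obtain ⟨m, hm⟩ := h' ((c.1 i).natAbs + 1) (Nat.succ_pos _)
    have h1 : c.1 i = (((c.1 i).natAbs + 1 : ℕ) : ℤ) * m.1 i := by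
      have := congrArg (fun z => z.1 i) hm
      simpa using this
    have h2 : ((((c.1 i).natAbs + 1 : ℕ) : ℤ)) ∣ c.1 i := ⟨_, h1⟩
    have h3 : ((c.1 i).natAbs + 1) ∣ (c.1 i).natAbs := Int.natCast_dvd.1 h2
    have h4 : (c.1 i).natAbs = 0 := by
      by_contra h5
      have := Nat.le_of_dvd (Nat.pos_of_ne_zero h5) h3
      omega
    simpa using Int.natAbs_eq_zero.1 h4
  · apply DFinsupp.ext
    intro i
    obtain ⟨m, hm⟩ := h' (p i ^ e i) (pow_pos (hp i).pos _)
    have h1 : c.2 i = (p i ^ e i) • m.2 i := by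
      rw [hm]
      rfl
    rw [h1, nsmul_eq_mul, ZMod.natCast_self, zero_mul]
    rfl

theorem sol_iff_mod (s : Sys) : Sol s ↔ ∀ N : ℕ, 0 < N → SolM s N := by
  constructor
  · rintro ⟨τ, hτ⟩ N hN
    have hN' : (N : ℤ) ≠ 0 := by exact_mod_cast hN.ne'
    have h0 : ∀ x, ((τ x % N).toNat : ℤ) = τ x % N := fun x =>
      Int.toNat_of_nonneg (Int.emod_nonneg _ hN')
    refine ⟨fun x => (τ x % N).toNat, fun x => ?_, fun r hr => ?_⟩
    · have h1 := h0 x
      have h2 : τ x % N < N := Int.emod_lt_of_pos _ (by exact_mod_cast hN)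
      dsimp only
      zify
      rw [h1]
      exact h2
    · rw [← hτ r hr, ← Finset.sum_sub_distrib]
      apply Finset.dvd_sum
      intro x _
      rw [← mul_sub]
      apply Dvd.dvd.mul_left
      dsimp only
      rw [h0]
      refine ⟨-(τ x / N), ?_⟩
      have := Int.emod_add_mul_ediv (τ x) N
      linarith
  · intro h
    let A : (Fin s.1 → ℤ) →ₗ[ℤ] (Fin s.2.length → ℤ) :=
      LinearMap.pi fun r => ∑ x : Fin s.1, (iv ((s.2.get r).1.getD x (0, 0))) • LinearMap.proj x
    have hA : ∀ τ r, A τ r = ∑ x : Fin s.1, iv ((s.2.get r).1.getD x (0, 0)) * τ x := by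
      intro τ r
      simp [A]
    let b : Fin s.2.length → ℤ := fun r => iv (s.2.get r).2
    have hb : (Submodule.Quotient.mk b : (Fin s.2.length → ℤ) ⧸ LinearMap.range A) = 0 := by
      apply div_zero
      intro N hN
      obtain ⟨τ, -, hτ⟩ := h N hN
      have h1 : ∀ r : Fin s.2.length, ∃ c : ℤ,
          A (fun x => (τ x : ℤ)) r - b r = N * c := by
        intro r
        have := hτ (s.2.get r) (List.get_mem _ _)
        rw [Finset.sum_range] at this
        obtain ⟨c, hc⟩ := this
        exact ⟨c, by rw [hA]; exact hc⟩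
      choose c hc using h1
      refine ⟨Submodule.Quotient.mk (-c), ?_⟩
      have h2 : b - N • (-c) = A (fun x => (τ x : ℤ)) := by
        funext r
        have h5 := hc r
        have h6 : (b - N • (-c)) r = b r - N * (-(c r)) := by
          rw [Pi.sub_apply, Pi.smul_apply, Pi.neg_apply, nsmul_eq_mul]
        rw [h6]
        linarith
      have h3 : (Submodule.Quotient.mk (b - N • (-c)) :
          (Fin s.2.length → ℤ) ⧸ LinearMap.range A) = 0 := by
        rw [Submodule.Quotient.mk_eq_zero, h2]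
        exact LinearMap.mem_range_self _ _
      rw [Submodule.Quotient.mk_sub, sub_eq_zero] at h3
      rw [h3]
      rfl
    rw [Submodule.Quotient.mk_eq_zero] at hb
    obtain ⟨τ, hτ⟩ := hb
    refine ⟨fun x => if h : x < s.1 then τ ⟨x, h⟩ else 0, fun r hr => ?_⟩
    obtain ⟨i, rfl⟩ := List.get_of_mem hr
    have h1 := congrFun hτ i
    rw [hA] at h1
    rw [Finset.sum_range]
    rw [show iv (s.2.get i).2 = b i from rfl, ← h1]
    apply Finset.sum_congr rfl
    intro x _
    dsimp only
    rw [dif_pos x.2]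

section

variable {β : Type} [Primcodable β]

theorem p_sumR {f : β → ℕ} {g : β → ℕ → ℕ} (hf : Primrec f)
    (hg : Primrec fun x : β × ℕ => g x.1 x.2) :
    Primrec fun x => ∑ y ∈ Finset.range (f x), g x y := by
  have h1 : Primrec₂ fun (x : β) (y : ℕ × ℕ) => y.2 + g x y.1 := by
    apply CB.p_add (CB.p_snd (CB.p_snd CB.p_id))
    exact hg.comp (Primrec.pair Primrec.fst (Primrec.fst.comp Primrec.snd))
  refine (Primrec.nat_rec' hf (Primrec.const 0) h1).of_eq ?_
  intro x
  generalize f x = n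
  induction n with
  | zero => rfl
  | succ n ih =>
    rw [Finset.sum_range_succ, ← ih]

end

theorem solM_iff (s : Sys) (N : ℕ) : SolM s (N + 1) ↔ ∃ w < (N + 1) ^ s.1, ∀ r ∈ s.2,
    ((∑ x ∈ Finset.range s.1, (r.1.getD x (0, 0)).1 * CB.dg N w x) + r.2.2) % (N + 1) =
    ((∑ x ∈ Finset.range s.1, (r.1.getD x (0, 0)).2 * CB.dg N w x) + r.2.1) % (N + 1) := by
  have key : ∀ (τ : ℕ → ℕ) (r : List PI × PI),
      (((N + 1 : ℕ) : ℤ) ∣ ∑ x ∈ Finset.range s.1, iv (r.1.getD x (0, 0)) * (τ x : ℤ) - iv r.2) ↔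
      ((∑ x ∈ Finset.range s.1, (r.1.getD x (0, 0)).1 * τ x) + r.2.2) % (N + 1) =
      ((∑ x ∈ Finset.range s.1, (r.1.getD x (0, 0)).2 * τ x) + r.2.1) % (N + 1) := by
    intro τ r
    rw [← Nat.ModEq, Nat.modEq_iff_dvd]
    have : ∑ x ∈ Finset.range s.1, iv (r.1.getD x (0, 0)) * (τ x : ℤ) - iv r.2 =
        -((((∑ x ∈ Finset.range s.1, (r.1.getD x (0, 0)).2 * τ x) + r.2.1 : ℕ) : ℤ) -
          (((∑ x ∈ Finset.range s.1, (r.1.getD x (0, 0)).1 * τ x) + r.2.2 : ℕ) : ℤ)) := by
      unfold iv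
      push_cast
      simp only [sub_mul, Finset.sum_sub_distrib]
      ring
    rw [this, dvd_neg]
  constructor
  · rintro ⟨τ, h1, h2⟩
    obtain ⟨w, hw, h3⟩ := CB.exists_dg N τ h1 s.1
    refine ⟨w, hw, fun r hr => ?_⟩
    rw [← key (fun x => CB.dg N w x) r]
    have h4 := h2 r hr
    rw [Finset.sum_congr rfl (fun x hx => by rw [h3 x (Finset.mem_range.1 hx)])]
    exact h4
  · rintro ⟨w, -, h⟩
    exact ⟨fun x => CB.dg N w x, fun x => CB.dg_lt N w x, fun r hr => (key _ r).2 (h r hr)⟩

theorem not_solM_p : PrimrecPred fun x : Sys × ℕ => ¬ SolM x.1 (x.2 + 1) := by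
  simp only [solM_iff]
  have hgd : ∀ {γ : Type} [Primcodable γ] {l : γ → List PI} {k : γ → ℕ}, Primrec l → Primrec k →
      Primrec fun x => (l x).getD (k x) ((0, 0) : PI) := by
    intro γ _ l k hl hk
    exact (Primrec.list_getD ((0, 0) : PI)).comp hl hk
  apply CB.pp_not
  apply CB.pp_ex
  · exact CB.p_pow (CB.p_add (CB.p_snd CB.p_id) (Primrec.const 1)) (CB.p_fst (CB.p_fst CB.p_id))
  apply CB.pp_all_mem
  · exact CB.p_snd (CB.p_fst (CB.p_fst CB.p_id))
  apply CB.pp_eq
  · apply CB.p_mod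
    · apply CB.p_add
      · apply p_sumR
        · exact CB.p_fst (CB.p_fst (CB.p_fst (CB.p_fst CB.p_id)))
        · apply CB.p_mul
          · apply CB.p_fst
            apply hgd
            · exact CB.p_fst (CB.p_snd (CB.p_fst CB.p_id))
            · exact CB.p_snd CB.p_id
          · apply CB.p_dg
            · exact CB.p_snd (CB.p_fst (CB.p_fst (CB.p_fst CB.p_id)))
            · exact CB.p_snd (CB.p_fst (CB.p_fst CB.p_id))
            · exact CB.p_snd CB.p_id
      · exact CB.p_snd (CB.p_snd (CB.p_snd CB.p_id))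
    · exact CB.p_add (CB.p_snd (CB.p_fst (CB.p_fst CB.p_id))) (Primrec.const 1)
  · apply CB.p_mod
    · apply CB.p_add
      · apply p_sumR
        · exact CB.p_fst (CB.p_fst (CB.p_fst (CB.p_fst CB.p_id)))
        · apply CB.p_mul
          · apply CB.p_snd
            apply hgd
            · exact CB.p_fst (CB.p_snd (CB.p_fst CB.p_id))
            · exact CB.p_snd CB.p_id
          · apply CB.p_dg
            · exact CB.p_snd (CB.p_fst (CB.p_fst (CB.p_fst CB.p_id)))
            · exact CB.p_snd (CB.p_fst (CB.p_fst CB.p_id))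
            · exact CB.p_snd CB.p_id
      · exact CB.p_fst (CB.p_snd (CB.p_snd CB.p_id))
    · exact CB.p_add (CB.p_snd (CB.p_fst (CB.p_fst CB.p_id))) (Primrec.const 1)

theorem not_sol_re : REPred fun s : Sys => ¬ Sol s := by
  have h1 : PrimrecRel (fun (s : Sys) (N : ℕ) => ¬ SolM s (N + 1)) := not_solM_p
  refine (HypQ.CoRe.rePred_exists_nat h1).of_eq ?_
  intro s
  rw [sol_iff_mod]
  push Not
  constructor
  · rintro ⟨N, hN⟩
    exact ⟨N + 1, Nat.succ_pos _, hN⟩
  · rintro ⟨N, hN, h⟩
    exact ⟨N - 1, by rwa [Nat.sub_add_cancel hN]⟩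

end AdmIso
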