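import Pool.Agent.Lib.MP_32d917_al_adm.W05

/-!
# W06: Whitehead automorphisms and cuts

`wh_lval`: `(whEquiv ha ha').symm` is `whInv P a`, see `whInv_lval` in Shorten.

Ping pong lemma `pingpong`: let `K : α × Bool → Set (FreeGroup α)` be pairwise disjoint sets with
`1 ∉ K y` and let `θ` be an automorphism with `θ.symm (lval y) * v ∈ K y` for all
`v ∉ K (linv y)`. Then `{v | θ v ∈ hs {y}} = K y`: for `v ≠ 1` write the reduced word of `θ v` as
`y_1 ... y_k`; by induction on `k` one has `v ∈ K y_1` (`v = θ.symm (lval y_1) * v'` and `v' = 1` or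
`v' ∈ K y_2`, `y_2 ≠ linv y_1`, so `v' ∉ K (linv y_1)`), and `v ∈ K y` implies `y = y_1` as the
sets are disjoint.

For `θ = wh ha ha'` one has `θ.symm (lval y) = (cE P a y)⁻¹ * lval y * cE P a (linv y)`
(`whHom_lval`). Use
* `K y = hs {y}` for `y ∉ P`, `y ≠ a`, `y ≠ linv a`;
* `K y = {v | lval a * v ∈ hs {y}}` for `y ∈ P` (the words starting with `a⁻¹ y`);
* `K a = hs (insert a P)`;
* `K (linv a)` = words starting with `a⁻¹` such that the second letter (if any) is not in `P`.

`tot_wh`: sum over the letters: `clen (θ w) = ∑ x, cap (hs {(x, true)}) (θ w)`, and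
`cap (hs {y}) (θ w) = cap {v | θ v ∈ hs {y}} w` (`cap_map`) is `cap (hs {y}) w` for `y ≠ a, linv a`
(`cap_tr`) and `cap (hs (insert a P)) w` for `y = a`. The letter `(a.1, true)` is `a` or `linv a`:
use `cap_linv`.
-/

set_option autoImplicit false

namespace AdmIso

open Pool.Agent.Lib.MP_f46d86_al

variable {α : Type} [DecidableEq α]

/-! ### first letters -/

theorem w06_hs_iff (A : Set (α × Bool)) (v : FreeGroup α) :
    v ∈ hs A ↔ ∃ p ∈ A, ∃ l, v.toWord = p :: l := by
  unfold hs
  constructor
  · rintro ⟨p, hp, h⟩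
    rw [List.head?_eq_some_iff] at h
    exact ⟨p, hp, h⟩
  · rintro ⟨p, hp, h⟩
    exact ⟨p, hp, List.head?_eq_some_iff.mpr h⟩

theorem w06_hs_single (y : α × Bool) (v : FreeGroup α) :
    v ∈ hs {y} ↔ ∃ l, v.toWord = y :: l := by
  rw [w06_hs_iff]
  simp

theorem w06_one (A : Set (α × Bool)) : (1 : FreeGroup α) ∉ hs A := by
  rw [w06_hs_iff]
  rintro ⟨p, _, l, h⟩
  rw [FreeGroup.toWord_one] at h
  cases h

theorem w06_word (y : α × Bool) (v : FreeGroup α) :
    (lval y * v).toWord = FreeGroup.reduce (y :: v.toWord) := by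
  have h : lval y * v = FreeGroup.mk (y :: v.toWord) := by
    unfold lval
    conv_lhs => rw [← FreeGroup.mk_toWord (x := v)]
    rw [FreeGroup.mul_mk]
    rfl
  rw [h, FreeGroup.toWord_mk]

theorem w06_grow (y : α × Bool) (v : FreeGroup α) (h : v ∉ hs {linv y}) :
    (lval y * v).toWord = y :: v.toWord := by
  rw [w06_word, FreeGroup.reduce.cons, FreeGroup.reduce_toWord]
  cases hv : v.toWord with
  | nil => rfl
  | cons p l =>
    simp only
    rw [if_neg]
    rintro ⟨h1, h2⟩
    apply h
    rw [w06_hs_single]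
    refine ⟨l, ?_⟩
    rw [hv]
    congr 1
    unfold linv
    ext
    · exact h1.symm
    · simp [h2]

theorem w06_shrink (y : α × Bool) (v : FreeGroup α) (l : List (α × Bool))
    (h : v.toWord = linv y :: l) : (lval y * v).toWord = l := by
  rw [w06_word, FreeGroup.reduce.cons, FreeGroup.reduce_toWord, h]
  simp [linv]

theorem w06_mem_grow (y : α × Bool) (v : FreeGroup α) :
    lval y * v ∈ hs {y} ↔ v ∉ hs {linv y} := by
  constructor
  · intro h1 h2
    rw [w06_hs_single] at h2
    obtain ⟨l, hl⟩ := h2
    rw [w06_hs_single, w06_shrink y v l hl] at h1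
    obtain ⟨m, rfl⟩ := h1
    have h3 : FreeGroup.IsReduced v.toWord := FreeGroup.isReduced_toWord
    rw [hl] at h3
    have h4 := FreeGroup.IsReduced.reduce_eq h3
    rw [FreeGroup.reduce.cons] at h4
    have h5 : FreeGroup.reduce (y :: m) = y :: m := by
      apply FreeGroup.IsReduced.reduce_eq
      exact List.IsChain.tail h3
    rw [h5] at h4
    simp only at h4
    rw [if_pos (by simp [linv])] at h4
    have := congrArg List.length h4
    simp only [List.length_cons] at this
    omega
  · intro h
    rw [w06_hs_single]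
    exact ⟨_, w06_grow y v h⟩

theorem w06_disj {y z : α × Bool} {v : FreeGroup α} (h1 : v ∈ hs {y}) (h2 : v ∈ hs {z}) :
    y = z := by
  rw [w06_hs_single] at h1 h2
  obtain ⟨l, hl⟩ := h1
  obtain ⟨m, hm⟩ := h2
  rw [hl] at hm
  exact (List.cons.inj hm).1

theorem pingpong (θ : FreeGroup α ≃* FreeGroup α) (K : α × Bool → Set (FreeGroup α))
    (h1 : ∀ y, (1 : FreeGroup α) ∉ K y) (h2 : ∀ y z v, v ∈ K y → v ∈ K z → y = z)
    (h3 : ∀ y v, v ∉ K (linv y) → θ.symm (lval y) * v ∈ K y) (y : α × Bool) :
    {v : FreeGroup α | θ v ∈ hs {y}} = K y := by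
  have key : ∀ (l : List (α × Bool)) (z : α × Bool), FreeGroup.IsReduced (z :: l) →
      θ.symm (FreeGroup.mk (z :: l)) ∈ K z := by
    intro l
    induction l with
    | nil =>
      intro z _
      have := h3 z 1 (h1 _)
      rwa [mul_one] at this
    | cons t l ih =>
      intro z hz
      have h4 : FreeGroup.mk (z :: t :: l) = lval z * FreeGroup.mk (t :: l) := by
        unfold lval
        rw [FreeGroup.mul_mk]
        rfl
      rw [h4, map_mul]
      apply h3
      intro h5
      have h6 := ih t (List.IsChain.tail hz)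
      have h7 := h2 _ _ _ h5 h6
      have h8 := FreeGroup.IsReduced.reduce_eq hz
      have h9 : FreeGroup.reduce (t :: l) = t :: l :=
        FreeGroup.IsReduced.reduce_eq (List.IsChain.tail hz)
      rw [FreeGroup.reduce.cons, h9] at h8
      simp only at h8
      rw [← h7, if_pos (by simp [linv])] at h8
      have := congrArg List.length h8
      simp only [List.length_cons] at this
      omega
  have key2 : ∀ (v : FreeGroup α) (z : α × Bool) (l : List (α × Bool)),
      (θ v).toWord = z :: l → v ∈ K z := by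
    intro v z l h
    have h4 : FreeGroup.IsReduced (z :: l) := h ▸ FreeGroup.isReduced_toWord
    have h5 := key l z h4
    rw [← h, FreeGroup.mk_toWord, MulEquiv.symm_apply_apply] at h5
    exact h5
  ext v
  rw [Set.mem_ofPred_eq, w06_hs_single]
  constructor
  · rintro ⟨l, hl⟩
    exact key2 v y l hl
  · intro hv
    cases hw : (θ v).toWord with
    | nil =>
      rw [FreeGroup.toWord_eq_nil_iff] at hw
      have : v = 1 := by
        have h6 := congrArg θ.symm hw
        simpa using h6
      rw [this] at hv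
      exact absurd hv (h1 y)
    | cons z l =>
      exact ⟨l, by rw [h2 _ _ _ hv (key2 v z l hw)]⟩

variable {P : Set (α × Bool)} {a : α × Bool} (ha : a ∉ P) (ha' : linv a ∉ P)

theorem wh_lval (y : α × Bool) :
    wh ha ha' (lval y) = cE P a y * lval y * (cE P a (linv y))⁻¹ := whInv_lval P a y

theorem wh_symm (x : FreeGroup α) :
    (wh ha ha').symm x = wh (P := P) (a := linv a) ha' (by rwa [linv_linv]) x := by
  change whHom P a x = whInv P (linv a) x
  have h : whHom P a = whInv P (linv a) := by
    apply FreeGroup.ext_hom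
    intro j
    rw [← lval_true, whHom_lval, whInv_lval]
    have h2 : ∀ y, cE P (linv a) y = (cE P a y)⁻¹ := by
      intro y
      unfold cE
      split_ifs
      · exact lval_linv a
      · rw [inv_one]
    rw [h2, h2, inv_inv]
  rw [h]

open Classical in
/-- the sets of the ping pong lemma -/
noncomputable def w06K (P : Set (α × Bool)) (a : α × Bool) (y : α × Bool) :
    Set (FreeGroup α) :=
  if y = a then hs (insert a P) else if y = linv a then
    {v | ∃ l, v.toWord = linv a :: l ∧ ∀ p ∈ P, ∀ m, l ≠ p :: m}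
  else {v | cE P a y * v ∈ hs {y}}

include ha ha' in
theorem w06_wh (y : α × Bool) :
    {v : FreeGroup α | wh ha ha' v ∈ hs {y}} = w06K P a y := by
  have hla : linv a ≠ a := linv_ne a
  apply pingpong
  · intro y h
    unfold w06K at h
    split_ifs at h with h1 h2
    · exact w06_one _ h
    · obtain ⟨l, hl, _⟩ := h
      rw [FreeGroup.toWord_one] at hl
      cases hl
    · rw [Set.mem_ofPred_eq, mul_one] at h
      unfold cE at h
      split_ifs at h with h3
      · rw [w06_hs_single] at h
        obtain ⟨l, hl⟩ := h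
        unfold lval at hl
        rw [FreeGroup.toWord_mk, FreeGroup.reduce_singleton] at hl
        exact h1 (List.cons.inj hl).1.symm
      · exact w06_one _ h
  · intro y z v hy hz
    -- the first letter of an element of `K y`
    have hP : ∀ y, y ∈ P → y ≠ a ∧ y ≠ linv a := by
      intro y hy
      exact ⟨fun h => ha (h ▸ hy), fun h => ha' (h ▸ hy)⟩
    have hA : ∀ v : FreeGroup α, v ∈ hs (insert a P) → lval a * v ∈ hs {a} := by
      intro v hv
      rw [w06_mem_grow]
      intro h
      rw [w06_hs_iff] at hv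
      obtain ⟨p, hp, l, hl⟩ := hv
      rw [w06_hs_single] at h
      obtain ⟨m, hm⟩ := h
      rw [hl] at hm
      have h1 := (List.cons.inj hm).1
      rcases hp with hp | hp
      · exact hla (h1.symm.trans hp)
      · exact ha' (h1 ▸ hp)
    have hAa : ∀ v : FreeGroup α, v ∈ hs (insert a P) → ∀ z, z ≠ a → z ≠ linv a →
        cE P a z * v ∉ hs {z} := by
      intro v hv z hz1 hz2 h
      unfold cE at h
      split_ifs at h with h3
      · exact hz1 (w06_disj h (hA v hv))
      · rw [one_mul, w06_hs_single] at h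
        obtain ⟨m, hm⟩ := h
        rw [w06_hs_iff] at hv
        obtain ⟨p, hp, l, hl⟩ := hv
        rw [hl] at hm
        have h1 := (List.cons.inj hm).1
        rcases hp with hp | hp
        · exact hz1 (h1.symm.trans hp)
        · exact h3 (h1 ▸ hp)
    have hAl : ∀ v : FreeGroup α, v ∈ hs (insert a P) → ∀ l, v.toWord ≠ linv a :: l := by
      intro v hv l h
      have h1 := hA v hv
      rw [w06_mem_grow, w06_hs_single] at h1
      exact h1 ⟨l, h⟩
    have hLa : ∀ (v : FreeGroup α) (l : List (α × Bool)), v.toWord = linv a :: l →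
        (∀ p ∈ P, ∀ m, l ≠ p :: m) → ∀ z, z ≠ a → z ≠ linv a → cE P a z * v ∉ hs {z} := by
      intro v l hl hp z hz1 hz2 h
      unfold cE at h
      split_ifs at h with h3
      · rw [w06_hs_single, w06_shrink a v l hl] at h
        obtain ⟨m, hm⟩ := h
        exact hp z h3 m hm
      · rw [one_mul, w06_hs_single] at h
        obtain ⟨m, hm⟩ := h
        rw [hl] at hm
        exact hz2 (List.cons.inj hm).1.symm
    have hcc : ∀ y z, y ≠ a → y ∈ P → z ∉ P → z ≠ linv a → lval a * v ∈ hs {y} →
        v ∈ hs {z} → False := by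
      intro y z hy1 hyP hzP hz2 h1 h2
      have h3 : v ∉ hs {linv a} := fun h => hz2 (w06_disj h2 h)
      rw [← w06_mem_grow] at h3
      exact hy1 (w06_disj h1 h3)
    unfold w06K at hy hz
    split_ifs at hy hz with h1 h2 h3 h4 h5 h6 h7
    · rw [h1, h2]
    · obtain ⟨l, hl, _⟩ := hz
      exact absurd hl (hAl v hy l)
    · exact absurd hz (hAa v hy z h2 h3)
    · obtain ⟨l, hl, _⟩ := hy
      exact absurd hl (hAl v hz l)
    · rw [h4, h6]
    · obtain ⟨l, hl, hp⟩ := hy
      exact absurd hz (hLa v l hl hp z h5 h6)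
    · exact absurd hy (hAa v hz y h1 h4)
    · obtain ⟨l, hl, hp⟩ := hz
      exact absurd hy (hLa v l hl hp y h1 h4)
    · rw [Set.mem_ofPred_eq] at hy hz
      unfold cE at hy hz
      split_ifs at hy hz with g1 g2 g3
      · exact w06_disj hy hz
      · rw [one_mul] at hz
        exact (hcc y z h1 g1 g2 ‹_› hy hz).elim
      · rw [one_mul] at hy
        exact (hcc z y ‹_› g3 g1 h4 hz hy).elim
      · exact w06_disj hy hz
  · intro y v hv
    have hs1 : (wh ha ha').symm (lval y) = (cE P a y)⁻¹ * lval y * cE P a (linv y) :=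
      whHom_lval P a y
    rw [hs1]
    by_cases h1 : y = a
    · subst h1
      have e1 : (cE P y y)⁻¹ * lval y * cE P y (linv y) = lval y := by
        unfold cE
        rw [if_neg ha, if_neg ha']
        simp
      rw [e1]
      unfold w06K at hv ⊢
      rw [if_neg hla, if_pos rfl] at hv
      rw [if_pos rfl]
      by_cases h2 : v ∈ hs {linv y}
      · rw [w06_hs_single] at h2
        obtain ⟨l, hl⟩ := h2
        have h3 : ∃ p ∈ P, ∃ m, l = p :: m := by
          by_contra hcon
          apply hv
          refine ⟨l, hl, ?_⟩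
          intro p hp m h
          exact hcon ⟨p, hp, m, h⟩
        obtain ⟨p, hp, m, rfl⟩ := h3
        rw [w06_hs_iff]
        exact ⟨p, Or.inr hp, m, w06_shrink y v _ hl⟩
      · rw [w06_hs_iff]
        exact ⟨y, Or.inl rfl, _, w06_grow y v h2⟩
    · by_cases h2 : y = linv a
      · subst h2
        have e1 : (cE P a (linv a))⁻¹ * lval (linv a) * cE P a (linv (linv a)) =
            lval (linv a) := by
          unfold cE
          rw [linv_linv, if_neg ha, if_neg ha']
          simp
        rw [e1]
        unfold w06K at hv ⊢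
        rw [linv_linv, if_pos rfl] at hv
        rw [if_neg hla, if_pos rfl]
        refine ⟨v.toWord, ?_, ?_⟩
        · apply w06_grow
          rw [linv_linv]
          intro h
          apply hv
          rw [w06_hs_single] at h
          obtain ⟨l, hl⟩ := h
          rw [w06_hs_iff]
          exact ⟨a, Or.inl rfl, l, hl⟩
        · intro p hp m h
          apply hv
          rw [w06_hs_iff]
          exact ⟨p, Or.inr hp, m, h⟩
      · have h3 : linv y ≠ a := by
          intro h
          apply h2
          rw [← h, linv_linv]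
        have h4 : linv y ≠ linv a := by
          intro h
          apply h1
          rw [← linv_linv y, h, linv_linv]
        unfold w06K at hv ⊢
        rw [if_neg h3, if_neg h4] at hv
        rw [if_neg h1, if_neg h2]
        rw [Set.mem_ofPred_eq] at hv ⊢
        have e1 : cE P a y * ((cE P a y)⁻¹ * lval y * cE P a (linv y) * v) =
            lval y * (cE P a (linv y) * v) := by
          group
        rw [e1, w06_mem_grow]
        exact hv

theorem wh_hs_not (y : α × Bool) (hy : y ≠ a) (hy' : y ≠ linv a) (hP : y ∉ P) :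
    {v : FreeGroup α | wh ha ha' v ∈ hs {y}} = hs {y} := by
  rw [w06_wh]
  unfold w06K
  rw [if_neg hy, if_neg hy']
  unfold cE
  rw [if_neg hP]
  simp

theorem wh_hs_mem (y : α × Bool) (hP : y ∈ P) :
    {v : FreeGroup α | wh ha ha' v ∈ hs {y}} = {v | lval a * v ∈ hs {y}} := by
  rw [w06_wh]
  unfold w06K
  have g1 : y ≠ a := by
    rintro rfl
    exact ha hP
  have g2 : y ≠ linv a := by
    rintro rfl
    exact ha' hP
  rw [if_neg g1, if_neg g2]
  unfold cE
  rw [if_pos hP]

theorem wh_hs_a : {v : FreeGroup α | wh ha ha' v ∈ hs {a}} = hs (insert a P) := by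
  rw [w06_wh]
  unfold w06K
  rw [if_pos rfl]

theorem clen_wh [Fintype α] (w : FreeGroup α) :
    clen (wh ha ha' w) + cap (hs {a}) w = clen w + cap (hs (insert a P)) w := by
  unfold clen
  rw [← Finset.add_sum_erase _ _ (Finset.mem_univ a.1),
    ← Finset.add_sum_erase (Finset.univ) (fun x => cap (hs {(x, true)}) w) (Finset.mem_univ a.1)]
  have h0 : ∀ w : FreeGroup α, cap (hs {(a.1, true)}) w = cap (hs {a}) w := by
    intro w
    rcases a with ⟨x, b⟩
    cases b
    · exact (cap_linv (x, false) w)
    · rfl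
  have h1 : cap (hs {(a.1, true)}) (wh ha ha' w) = cap (hs (insert a P)) w := by
    rw [h0, ← cap_map, wh_hs_a]
  have h2 : ∑ x ∈ Finset.univ.erase a.1, cap (hs {(x, true)}) (wh ha ha' w) =
      ∑ x ∈ Finset.univ.erase a.1, cap (hs {(x, true)}) w := by
    refine Finset.sum_congr rfl fun x hx => ?_
    have hx1 : x ≠ a.1 := Finset.ne_of_mem_erase hx
    rw [← cap_map]
    by_cases hP : (x, true) ∈ P
    · rw [wh_hs_mem ha ha' _ hP, cap_tr]
    · rw [wh_hs_not ha ha' _ (fun h => hx1 (congrArg Prod.fst h))
        (fun h => hx1 (congrArg Prod.fst h)) hP]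
  rw [h1, h2, h0]
  ring

theorem tot_wh [Fintype α] {ι : Type} [Fintype ι] (W : ι → FreeGroup α) :
    tot (fun i => wh ha ha' (W i)) + capW (hs {a}) W = tot W + capW (hs (insert a P)) W := by
  unfold tot capW
  rw [← Finset.sum_add_distrib, ← Finset.sum_add_distrib]
  exact Finset.sum_congr rfl fun i _ => clen_wh ha ha' (W i)

end AdmIso
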