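import Pool.Agent.Lib.MP_32d917_al_adm.WC01
import Pool.Agent.Lib.MP_32d917_al_adm.W06

/-!
# WC03: the moves are automorphisms, and every Whitehead automorphism is a move

`psubs_lt`, `psubs_all`: induction on `n`.

`mv_ex`: tag 0: `P' = {y : Fin n × Bool | (y.1.1, y.2) ∈ P ∧ y ≠ a' ∧ y ≠ linv a'}`, the Whitehead
automorphism `wh` of `P'` and `a'`; use `dl_flatMap` and `wh_lval` of W06 (or `whInv_lval`); a letter
`x` with `n ≤ x.1` is not in `P`, and `dl n` kills it. Tag 1: `FreeGroup.freeGroupCongr (Equiv.swap i j)`.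
Tag 2: the involution `of i ↦ (of i)⁻¹`.

`mv_wh`: choose `P` in `psubs n` with `x ∈ P ↔ (x as a letter of Fin n) ∈ A` for `x.1 < n`.
-/

set_option autoImplicit false

namespace AdmIso.WC

open Pool.Agent.Lib.MP_f46d86_al

theorem psubs_succ (k : ℕ) : psubs (k + 1) = psubs k ++ (psubs k).map (fun P => (k, true) :: P) ++
    (psubs k).map (fun P => (k, false) :: P) ++
    (psubs k).map (fun P => (k, true) :: (k, false) :: P) := rfl

theorem psubs_lt (n : ℕ) (P : Wd) (hP : P ∈ psubs n) (x : ℕ × Bool) (hx : x ∈ P) : x.1 < n := by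
  induction n generalizing P with
  | zero =>
    have h : P = [] := by simpa [psubs] using hP
    rw [h] at hx
    exact absurd hx List.not_mem_nil
  | succ k ih =>
    rw [psubs_succ, List.mem_append, List.mem_append, List.mem_append, List.mem_map,
      List.mem_map, List.mem_map] at hP
    rcases hP with ((hP | ⟨Q, hQ, rfl⟩) | ⟨Q, hQ, rfl⟩) | ⟨Q, hQ, rfl⟩
    · exact (ih P hP hx).trans (Nat.lt_succ_self k)
    · rcases List.mem_cons.1 hx with rfl | h
      · exact Nat.lt_succ_self k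
      · exact (ih Q hQ h).trans (Nat.lt_succ_self k)
    · rcases List.mem_cons.1 hx with rfl | h
      · exact Nat.lt_succ_self k
      · exact (ih Q hQ h).trans (Nat.lt_succ_self k)
    · rcases List.mem_cons.1 hx with rfl | h
      · exact Nat.lt_succ_self k
      · rcases List.mem_cons.1 h with rfl | h
        · exact Nat.lt_succ_self k
        · exact (ih Q hQ h).trans (Nat.lt_succ_self k)

theorem psubs_all (n : ℕ) (A : Set (ℕ × Bool)) : ∃ P ∈ psubs n, ∀ x : ℕ × Bool,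
    x ∈ P ↔ x.1 < n ∧ x ∈ A := by
  induction n with
  | zero => exact ⟨[], by simp [psubs], fun x => by simp⟩
  | succ k ih =>
    obtain ⟨P, hP, h⟩ := ih
    have hx : ∀ x : ℕ × Bool, x.1 < k + 1 ↔ x.1 < k ∨ x = (k, true) ∨ x = (k, false) := by
      rintro ⟨i, b⟩
      cases b <;> simp only [Prod.mk.injEq] <;> simp <;> omega
    by_cases h1 : (k, true) ∈ A <;> by_cases h2 : (k, false) ∈ A
    · refine ⟨(k, true) :: (k, false) :: P, ?_, fun x => ?_⟩
      · rw [psubs_succ]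
        exact List.mem_append_right _ (List.mem_map.2 ⟨P, hP, rfl⟩)
      · rw [List.mem_cons, List.mem_cons, h, hx]
        constructor
        · rintro (rfl | rfl | ⟨h3, h4⟩)
          · exact ⟨Or.inr (Or.inl rfl), h1⟩
          · exact ⟨Or.inr (Or.inr rfl), h2⟩
          · exact ⟨Or.inl h3, h4⟩
        · rintro ⟨h3 | rfl | rfl, h4⟩
          · exact Or.inr (Or.inr ⟨h3, h4⟩)
          · exact Or.inl rfl
          · exact Or.inr (Or.inl rfl)
    · refine ⟨(k, true) :: P, ?_, fun x => ?_⟩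
      · rw [psubs_succ]
        refine List.mem_append_left _ (List.mem_append_left _ (List.mem_append_right _ ?_))
        exact List.mem_map.2 ⟨P, hP, rfl⟩
      · rw [List.mem_cons, h, hx]
        constructor
        · rintro (rfl | ⟨h3, h4⟩)
          · exact ⟨Or.inr (Or.inl rfl), h1⟩
          · exact ⟨Or.inl h3, h4⟩
        · rintro ⟨h3 | rfl | rfl, h4⟩
          · exact Or.inr ⟨h3, h4⟩
          · exact Or.inl rfl
          · exact absurd h4 h2
    · refine ⟨(k, false) :: P, ?_, fun x => ?_⟩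
      · rw [psubs_succ]
        refine List.mem_append_left _ (List.mem_append_right _ ?_)
        exact List.mem_map.2 ⟨P, hP, rfl⟩
      · rw [List.mem_cons, h, hx]
        constructor
        · rintro (rfl | ⟨h3, h4⟩)
          · exact ⟨Or.inr (Or.inr rfl), h2⟩
          · exact ⟨Or.inl h3, h4⟩
        · rintro ⟨h3 | rfl | rfl, h4⟩
          · exact Or.inr ⟨h3, h4⟩
          · exact absurd h4 h1
          · exact Or.inl rfl
    · refine ⟨P, ?_, fun x => ?_⟩
      · rw [psubs_succ]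
        exact List.mem_append_left _ (List.mem_append_left _ (List.mem_append_left _ hP))
      · rw [h, hx]
        constructor
        · rintro ⟨h3, h4⟩
          exact ⟨Or.inl h3, h4⟩
        · rintro ⟨h3 | rfl | rfl, h4⟩
          · exact ⟨h3, h4⟩
          · exact absurd h4 h1
          · exact absurd h4 h2

theorem mem_lets (n : ℕ) (x : ℕ × Bool) : x ∈ lets n ↔ x.1 < n := by
  unfold lets
  rw [List.mem_flatMap]
  constructor
  · rintro ⟨i, hi, hx⟩
    rw [List.mem_range] at hi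
    simp only [List.mem_cons, List.not_mem_nil, or_false] at hx
    rcases hx with rfl | rfl
    · exact hi
    · exact hi
  · intro h
    refine ⟨x.1, List.mem_range.2 h, ?_⟩
    obtain ⟨i, b⟩ := x
    cases b <;> simp

theorem mem_mvs (n : ℕ) (m : Mv) : m ∈ mvs n ↔
    (∃ P ∈ psubs n, ∃ a ∈ lets n, m = (0, P, a, (0, 0))) ∨
    (∃ i < n, ∃ j < n, m = (1, [], (0, true), (i, j))) ∨
    (∃ i < n, m = (2, [], (0, true), (i, 0))) := by
  unfold mvs
  rw [List.mem_append, List.mem_append, List.mem_flatMap, List.mem_flatMap, List.mem_map, or_assoc]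
  simp only [List.mem_map, List.mem_range]
  constructor
  · rintro (⟨P, hP, a, ha, rfl⟩ | ⟨i, hi, j, hj, rfl⟩ | ⟨i, hi, rfl⟩)
    · exact Or.inl ⟨P, hP, a, ha, rfl⟩
    · exact Or.inr (Or.inl ⟨i, hi, j, hj, rfl⟩)
    · exact Or.inr (Or.inr ⟨i, hi, rfl⟩)
  · rintro (⟨P, hP, a, ha, rfl⟩ | ⟨i, hi, j, hj, rfl⟩ | ⟨i, hi, rfl⟩)
    · exact Or.inl ⟨P, hP, a, ha, rfl⟩
    · exact Or.inr (Or.inl ⟨i, hi, j, hj, rfl⟩)
    · exact Or.inr (Or.inr ⟨i, hi, rfl⟩)

/-- the substitution for a Whitehead automorphism -/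
theorem wc03_fW (n : ℕ) (P : Wd) (hP : ∀ x ∈ P, x.1 < n) (a : Fin n × Bool)
    (P' : Set (Fin n × Bool))
    (hP' : ∀ y, y ∈ P' ↔ (y.1.1, y.2) ∈ P ∧ y ≠ a ∧ y ≠ linv a) (ha : a ∉ P') (ha' : linv a ∉ P')
    (x : ℕ × Bool) : dl n (fW P (a.1.1, a.2) x) = wh ha ha' (dl n [x]) := by
  have hla : li (a.1.1, a.2) = ((linv a).1.1, (linv a).2) := rfl
  unfold fW
  by_cases h1 : x = (a.1.1, a.2) ∨ x = li (a.1.1, a.2)
  · rw [if_pos h1]
    rcases h1 with rfl | rfl
    · rw [dl_lt, wh_lval]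
      unfold Pool.Agent.Lib.MP_f46d86_al.cE
      rw [if_neg ha, if_neg ha']
      simp
    · rw [hla, dl_lt, wh_lval]
      unfold Pool.Agent.Lib.MP_f46d86_al.cE
      rw [linv_linv, if_neg ha, if_neg ha']
      simp
  · rw [if_neg h1]
    by_cases hx : x.1 < n
    · obtain ⟨y, rfl⟩ : ∃ y : Fin n × Bool, x = (y.1.1, y.2) := ⟨(⟨x.1, hx⟩, x.2), rfl⟩
      have hya : y ≠ a := by
        rintro rfl
        exact h1 (Or.inl rfl)
      have hyl : y ≠ linv a := by
        rintro rfl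
        exact h1 (Or.inr rfl)
      have hya' : linv y ≠ a := by
        rintro rfl
        exact hyl (linv_linv y).symm
      have hyl' : linv y ≠ linv a := by
        intro h
        apply hya
        rw [← linv_linv y, h, linv_linv]
      have e1 : dl n (if (y.1.1, y.2) ∈ P then [(a.1.1, a.2)] else []) =
          Pool.Agent.Lib.MP_f46d86_al.cE P' a y := by
        unfold Pool.Agent.Lib.MP_f46d86_al.cE
        by_cases h : (y.1.1, y.2) ∈ P
        · rw [if_pos h, if_pos ((hP' y).2 ⟨h, hya, hyl⟩), dl_lt]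
        · rw [if_neg h, if_neg fun h2 => h ((hP' y).1 h2).1, dl_nil]
      have e2 : dl n (if li (y.1.1, y.2) ∈ P then [li (a.1.1, a.2)] else []) =
          (Pool.Agent.Lib.MP_f46d86_al.cE P' a (linv y))⁻¹ := by
        unfold Pool.Agent.Lib.MP_f46d86_al.cE
        by_cases h : li (y.1.1, y.2) ∈ P
        · rw [if_pos h, if_pos ((hP' (linv y)).2 ⟨h, hya', hyl'⟩), dl_li, dl_lt]
        · rw [if_neg h, if_neg fun h2 => h ((hP' (linv y)).1 h2).1, dl_nil, inv_one]
      rw [dl_append, dl_append, e1, e2, dl_lt, wh_lval]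
    · have h2 : x ∉ P := fun h => hx (hP x h)
      have h3 : li x ∉ P := fun h => hx (hP (li x) h)
      rw [if_neg h2, if_neg h3, List.nil_append, List.append_nil, dl_ge n x (by omega), map_one]

theorem wc03_act (n : ℕ) (m : Mv) (ρ : FreeGroup (Fin n) ≃* FreeGroup (Fin n))
    (h : ∀ x, dl n (fM m x) = ρ (dl n [x])) (l : Wd) : dl n (actw m l) = ρ (dl n l) :=
  dl_flatMap n (fM m) ρ.toMonoidHom h l

/-- inversion of a generator -/
def wc03_inv (n : ℕ) (i : ℕ) : FreeGroup (Fin n) →* FreeGroup (Fin n) :=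
  FreeGroup.lift fun y => if y.1 = i then (FreeGroup.of y)⁻¹ else FreeGroup.of y

theorem wc03_inv_inv (n i : ℕ) : (wc03_inv n i).comp (wc03_inv n i) = MonoidHom.id _ := by
  apply FreeGroup.ext_hom
  intro y
  rw [MonoidHom.comp_apply, MonoidHom.id_apply]
  unfold wc03_inv
  by_cases h : y.1 = i
  · rw [FreeGroup.lift_apply_of, if_pos h, map_inv, FreeGroup.lift_apply_of, if_pos h, inv_inv]
  · rw [FreeGroup.lift_apply_of, if_neg h, FreeGroup.lift_apply_of, if_neg h]

theorem mv_ex (n : ℕ) (m : Mv) (hm : m ∈ mvs n) :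
    ∃ ρ : FreeGroup (Fin n) ≃* FreeGroup (Fin n), ∀ l, dl n (actw m l) = ρ (dl n l) := by
  rw [mem_mvs] at hm
  rcases hm with ⟨P, hP, a, ha, rfl⟩ | ⟨i, hi, j, hj, rfl⟩ | ⟨i, hi, rfl⟩
  · rw [mem_lets] at ha
    obtain ⟨a, rfl⟩ : ∃ y : Fin n × Bool, a = (y.1.1, y.2) := ⟨(⟨a.1, ha⟩, a.2), rfl⟩
    set P' : Set (Fin n × Bool) := {y | (y.1.1, y.2) ∈ P ∧ y ≠ a ∧ y ≠ linv a} with hP'
    have h1 : a ∉ P' := fun h => h.2.1 rfl
    have h2 : linv a ∉ P' := fun h => h.2.2 rfl
    refine ⟨wh h1 h2, wc03_act n _ _ fun x => ?_⟩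
    exact wc03_fW n P (psubs_lt n P hP) a P' (fun y => Iff.rfl) h1 h2 x
  · refine ⟨FreeGroup.freeGroupCongr (Equiv.swap ⟨i, hi⟩ ⟨j, hj⟩), wc03_act n _ _ fun x => ?_⟩
    have e : fM (1, [], (0, true), (i, j)) x = fS i j x := rfl
    rw [e]
    unfold fS
    by_cases hx : x.1 < n
    · obtain ⟨y, rfl⟩ : ∃ y : Fin n × Bool, x = (y.1.1, y.2) := ⟨(⟨x.1, hx⟩, x.2), rfl⟩
      have e2 : FreeGroup.freeGroupCongr (Equiv.swap (⟨i, hi⟩ : Fin n) ⟨j, hj⟩)
          (dl n [(y.1.1, y.2)]) = lval (Equiv.swap (⟨i, hi⟩ : Fin n) ⟨j, hj⟩ y.1, y.2) := by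
        rw [dl_lt]
        rfl
      rw [e2]
      by_cases h1 : y.1.1 = i
      · rw [if_pos h1]
        have h2 : y.1 = ⟨i, hi⟩ := Fin.ext h1
        rw [h2, Equiv.swap_apply_left]
        exact dl_lt n (⟨j, hj⟩, y.2)
      · rw [if_neg h1]
        by_cases h2 : y.1.1 = j
        · rw [if_pos h2]
          have h3 : y.1 = ⟨j, hj⟩ := Fin.ext h2
          rw [h3, Equiv.swap_apply_right]
          exact dl_lt n (⟨i, hi⟩, y.2)
        · rw [if_neg h2, Equiv.swap_apply_of_ne_of_ne (fun h => h1 (by rw [h]))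
            (fun h => h2 (by rw [h]))]
          exact dl_lt n y
    · have h1 : ¬ x.1 = i := by omega
      have h2 : ¬ x.1 = j := by omega
      rw [if_neg h1, if_neg h2, dl_ge n x (by omega), map_one]
  · refine ⟨MonoidHom.toMulEquiv (wc03_inv n i) (wc03_inv n i) (wc03_inv_inv n i)
      (wc03_inv_inv n i), wc03_act n _ _ fun x => ?_⟩
    have e : fM (2, [], (0, true), (i, 0)) x = fI i x := rfl
    rw [e]
    unfold fI
    by_cases hx : x.1 < n
    · obtain ⟨y, rfl⟩ : ∃ y : Fin n × Bool, x = (y.1.1, y.2) := ⟨(⟨x.1, hx⟩, x.2), rfl⟩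
      have e2 : (MonoidHom.toMulEquiv (wc03_inv n i) (wc03_inv n i) (wc03_inv_inv n i)
          (wc03_inv_inv n i)) (dl n [(y.1.1, y.2)]) =
          if y.1.1 = i then (lval y)⁻¹ else lval y := by
        rw [dl_lt]
        show wc03_inv n i (lval y) = _
        unfold wc03_inv
        obtain ⟨z, b⟩ := y
        cases b
        · rw [lval_false, map_inv, FreeGroup.lift_apply_of]
          by_cases h : z.1 = i
          · rw [if_pos h, if_pos h]
          · rw [if_neg h, if_neg h]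
        · rw [lval_true, FreeGroup.lift_apply_of]
      rw [e2]
      by_cases h1 : y.1.1 = i
      · rw [if_pos h1, if_pos h1, dl_li, dl_lt]
      · rw [if_neg h1, if_neg h1, dl_lt]
    · have h1 : ¬ x.1 = i := by omega
      rw [if_neg h1, dl_ge n x (by omega), map_one]

theorem mv_wh (n : ℕ) {P : Set (Fin n × Bool)} {a : Fin n × Bool} (ha : a ∉ P) (ha' : linv a ∉ P) :
    ∃ m ∈ mvs n, ∀ l, dl n (actw m l) = wh ha ha' (dl n l) := by
  obtain ⟨Q, hQ, h⟩ := psubs_all n {x | ∃ h : x.1 < n, ((⟨x.1, h⟩ : Fin n), x.2) ∈ P}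
  refine ⟨(0, Q, (a.1.1, a.2), (0, 0)), ?_, wc03_act n _ _ fun x => ?_⟩
  · rw [mem_mvs]
    exact Or.inl ⟨Q, hQ, _, (mem_lets n _).2 a.1.2, rfl⟩
  · refine wc03_fW n Q (psubs_lt n Q hQ) a P (fun y => ?_) ha ha' x
    rw [h]
    constructor
    · intro hy
      exact ⟨⟨y.1.2, y.1.2, hy⟩, fun h2 => ha (h2 ▸ hy), fun h2 => ha' (h2 ▸ hy)⟩
    · rintro ⟨⟨_, _, hy⟩, _, _⟩
      exact hy

end AdmIso.WC
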