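import Pool.Agent.Lib.MP_32d917_al_adm.WC02
import Pool.Agent.Lib.MP_32d917_al_adm.WC03

/-!
# WC06: certificates exist

`fin_tup`: the set of lists of words with bounded lengths and letters `< n` is finite: it is contained in
the image of the finite set of lists of length `≤ k` over the finite type of lists of length `≤ M` over
`Fin n × Bool` (`List.finite_length_le`). `complete`: `L` = all tuples `U` of length `W.length` with
`ltot U ≤ ltot T0 + ltot T1`, all components `CRN n`, for which there is an automorphism `θ` with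
`IsConj (θ (dl n (W.getD i []))) (dl n (U.getD i []))` for all `i < W.length`. Closure: `exists_crt`, `mv_ex`.
If `U ∈ L` and `RotT U T1` then `rot_conj` gives `AutEq n W W'`.
-/

set_option autoImplicit false

namespace AdmIso.WC

open Pool.Agent.Lib.MP_f46d86_al

theorem fin_tup (n k M : ℕ) :
    {U : Tup | U.length ≤ k ∧ ∀ l ∈ U, l.length ≤ M ∧ ∀ x ∈ l, x.1 < n}.Finite := by
  have h1 : {l : Wd | l.length ≤ M ∧ ∀ x ∈ l, x.1 < n}.Finite := by
    refine ((List.finite_length_le (Fin n × Bool) M).image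
      (fun l => l.map fun x => (x.1.1, x.2))).subset ?_
    rintro l ⟨hl, hx⟩
    refine ⟨l.attach.map fun x => (⟨x.1.1, hx x.1 x.2⟩, x.1.2), ?_, ?_⟩
    · simpa using hl
    · simp only [List.map_map, Function.comp_def]
      exact List.attach_map_subtype_val l
  have : Finite {l : Wd | l.length ≤ M ∧ ∀ x ∈ l, x.1 < n} := h1
  refine ((List.finite_length_le {l : Wd | l.length ≤ M ∧ ∀ x ∈ l, x.1 < n} k).image
      (fun L => L.map Subtype.val)).subset ?_
  rintro U ⟨hU, hx⟩
  refine ⟨U.attach.map fun l => ⟨l.1, hx l.1 l.2⟩, ?_, ?_⟩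
  · simpa using hU
  · simp [List.map_map, Function.comp_def]

theorem len_le_ltot (T : Tup) : ∀ l ∈ T, l.length ≤ ltot T := by
  intro l hl
  unfold ltot
  exact List.le_sum_of_mem (List.mem_map_of_mem hl)

theorem complete (n : ℕ) (W W' : Tup) (hl : W.length = W'.length) (h : ¬ AutEq n W W') :
    ∃ L T0 T1, Cert n W W' L T0 T1 := by
  classical
  obtain ⟨T0, hT0⟩ := exists_crt n W
  obtain ⟨T1, hT1⟩ := exists_crt n W'
  set M := ltot T0 + ltot T1 with hM
  let S : Set Tup := {U : Tup | U.length = W.length ∧ ltot U ≤ M ∧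
    (∀ i < W.length, CRN n (U.getD i [])) ∧
    ∃ θ : FreeGroup (Fin n) ≃* FreeGroup (Fin n), ∀ i < W.length,
      IsConj (θ (dl n (W.getD i []))) (dl n (U.getD i []))}
  have hS : S.Finite := by
    refine (fin_tup n W.length M).subset ?_
    rintro U ⟨h1, h2, h3, -⟩
    refine ⟨h1.le, ?_⟩
    intro l hlU
    refine ⟨(len_le_ltot U l hlU).trans h2, ?_⟩
    obtain ⟨i, hi, hi2⟩ := List.getElem_of_mem hlU
    have h4 := (h3 i (by rw [← h1]; exact hi)).2
    rw [List.getD_eq_getElem _ _ hi, hi2] at h4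
    exact h4
  have hmem : ∀ U, U ∈ hS.toFinset.toList ↔ U ∈ S := by
    intro U
    rw [Finset.mem_toList, Set.Finite.mem_toFinset]
  refine ⟨hS.toFinset.toList, T0, T1, hT0, hT1, ?_, ?_, ?_⟩
  · rw [hmem]
    refine ⟨hT0.1, by omega, fun i hi => (hT0.2 i hi).1, MulEquiv.refl _, fun i hi => ?_⟩
    exact (hT0.2 i hi).2
  · intro U hU m hm
    rw [hmem] at hU
    obtain ⟨h1, h2, h3, θ, hθ⟩ := hU
    obtain ⟨T, hT⟩ := exists_crt n (act m U)
    refine ⟨T, hT, ?_⟩
    by_cases hlt : ltot T0 + ltot T1 < ltot T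
    · exact Or.inl hlt
    right
    rw [hmem]
    have hlen : (act m U).length = U.length := by simp [act]
    have hget : ∀ i < U.length, (act m U).getD i [] = actw m (U.getD i []) := by
      intro i hi
      simp [act, List.getD_eq_getElem?_getD, List.getElem?_map, List.getElem?_eq_getElem hi]
    obtain ⟨ρ, hρ⟩ := mv_ex n m hm
    refine ⟨by rw [hT.1, hlen, h1], by omega, ?_, θ.trans ρ, ?_⟩
    · intro i hi
      exact (hT.2 i (by rw [hlen, h1]; exact hi)).1
    · intro i hi
      have hi' : i < U.length := by rw [h1]; exact hi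
      have h4 : IsConj (ρ (θ (dl n (W.getD i [])))) (ρ (dl n (U.getD i []))) := by
        obtain ⟨c, hc⟩ := isConj_iff.1 (hθ i hi)
        refine isConj_iff.2 ⟨ρ c, ?_⟩
        rw [← map_inv, ← map_mul, ← map_mul, hc]
      rw [← hρ, ← hget i hi'] at h4
      exact h4.trans (hT.2 i (by rw [hlen]; exact hi')).2
  · intro U hU hR
    rw [hmem] at hU
    obtain ⟨h1, h2, h3, θ, hθ⟩ := hU
    apply h
    refine ⟨hl, θ, fun i hi => ?_⟩
    obtain ⟨k, -, hk⟩ := hR i (by rw [h1]; exact hi)
    have h4 := rot_conj n _ _ k hk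
    exact ((hθ i hi).trans h4).trans (hT1.2 i (by rw [← hl]; exact hi)).2.symm

end AdmIso.WC
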