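import Pool.Agent.Lib.MP_32d917_al_adm.WC01
import Pool.Agent.Lib.MP_32d917_al_adm.C05
import Pool.Agent.Lib.MP_32d917_al.PRES1
import Pool.Agent.Lib.MP_32d917_al.RE

/-!
# WC07: recursive enumerability of certificates
-/

set_option autoImplicit false

namespace AdmIso.WC

open LatIso Pool.Agent.Lib.MP_f46d86_al

theorem WC07_psubs_p : Primrec psubs := by
  unfold psubs
  have h : Primrec₂ (fun (k : ℕ) (S : List Wd) =>
      S ++ S.map (fun P => (k, true) :: P) ++ S.map (fun P => (k, false) :: P) ++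
        S.map (fun P => (k, true) :: (k, false) :: P)) := by
    have hS : Primrec (fun x : ℕ × List Wd => x.2) := Primrec.snd
    have hk (b : Bool) : Primrec (fun x : (ℕ × List Wd) × Wd => (x.1.1, b)) :=
      Primrec.pair (Primrec.fst.comp Primrec.fst) (Primrec.const b)
    have hP : Primrec (fun x : (ℕ × List Wd) × Wd => x.2) := Primrec.snd
    exact Primrec.list_append.comp (Primrec.list_append.comp (Primrec.list_append.comp hS
      (Primrec.list_map hS (Primrec.list_cons.comp (hk true) hP)))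
      (Primrec.list_map hS (Primrec.list_cons.comp (hk false) hP)))
      (Primrec.list_map hS (Primrec.list_cons.comp (hk true) (Primrec.list_cons.comp (hk false) hP)))
  exact Primrec.nat_rec₁ [[]] h

theorem WC07_lets_p : Primrec lets := by
  unfold lets
  refine Primrec.list_flatMap Primrec.list_range ?_
  have hk (b : Bool) : Primrec (fun x : ℕ × ℕ => (x.2, b)) :=
    Primrec.pair Primrec.snd (Primrec.const b)
  exact Primrec.list_cons.comp (hk true) (Primrec.list_cons.comp (hk false) (Primrec.const []))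

theorem mvs_p : Primrec mvs := by
  unfold mvs
  refine Primrec.list_append.comp (Primrec.list_append.comp ?_ ?_) ?_
  · refine Primrec.list_flatMap WC07_psubs_p ?_
    refine Primrec.list_map (WC07_lets_p.comp Primrec.fst) ?_
    exact Primrec.pair (Primrec.const 0) (Primrec.pair (Primrec.snd.comp Primrec.fst)
      (Primrec.pair Primrec.snd (Primrec.const (0, 0))))
  · refine Primrec.list_flatMap Primrec.list_range ?_
    refine Primrec.list_map (Primrec.list_range.comp Primrec.fst) ?_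
    exact Primrec.pair (Primrec.const 1) (Primrec.pair (Primrec.const [])
      (Primrec.pair (Primrec.const (0, true))
        (Primrec.pair (Primrec.snd.comp Primrec.fst) Primrec.snd)))
  · refine Primrec.list_map Primrec.list_range ?_
    exact Primrec.pair (Primrec.const 2) (Primrec.pair (Primrec.const [])
      (Primrec.pair (Primrec.const (0, true)) (Primrec.pair Primrec.snd (Primrec.const 0))))

section

variable {β : Type} [Primcodable β]

theorem WC07_li {x : β → ℕ × Bool} (hx : Primrec x) : Primrec fun t => li (x t) := by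
  unfold li
  exact Primrec.pair (Primrec.fst.comp hx) (Primrec.not.comp (Primrec.snd.comp hx))

theorem WC07_sing {γ : Type} [Primcodable γ] {x : β → γ} (hx : Primrec x) :
    Primrec fun t => [x t] := Primrec.list_cons.comp hx (Primrec.const [])

theorem WC07_fW {P : β → Wd} {a x : β → ℕ × Bool} (hP : Primrec P) (ha : Primrec a)
    (hx : Primrec x) : Primrec fun t => fW (P t) (a t) (x t) := by
  unfold fW
  refine Primrec.ite (CB.pp_or (CB.pp_eq hx ha) (CB.pp_eq hx (WC07_li ha))) (WC07_sing hx) ?_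
  refine Primrec.list_append.comp (Primrec.list_append.comp ?_ (WC07_sing hx)) ?_
  · exact Primrec.ite (CB.pp_mem hx hP) (WC07_sing ha) (Primrec.const [])
  · exact Primrec.ite (CB.pp_mem (WC07_li hx) hP) (WC07_sing (WC07_li ha)) (Primrec.const [])

theorem WC07_fS {i j : β → ℕ} {x : β → ℕ × Bool} (hi : Primrec i) (hj : Primrec j)
    (hx : Primrec x) : Primrec fun t => fS (i t) (j t) (x t) := by
  unfold fS
  refine Primrec.ite (CB.pp_eq (CB.p_fst hx) hi) (WC07_sing (CB.p_pair hj (CB.p_snd hx))) ?_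
  exact Primrec.ite (CB.pp_eq (CB.p_fst hx) hj) (WC07_sing (CB.p_pair hi (CB.p_snd hx)))
    (WC07_sing hx)

theorem WC07_fI {i : β → ℕ} {x : β → ℕ × Bool} (hi : Primrec i)
    (hx : Primrec x) : Primrec fun t => fI (i t) (x t) := by
  unfold fI
  exact Primrec.ite (CB.pp_eq (CB.p_fst hx) hi) (WC07_sing (WC07_li hx)) (WC07_sing hx)

theorem WC07_fM {m : β → Mv} {x : β → ℕ × Bool} (hm : Primrec m)
    (hx : Primrec x) : Primrec fun t => fM (m t) (x t) := by
  unfold fM
  refine Primrec.ite (CB.pp_eq (CB.p_fst hm) (Primrec.const 0))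
    (WC07_fW (CB.p_fst (CB.p_snd hm)) (CB.p_fst (CB.p_snd (CB.p_snd hm))) hx) ?_
  exact Primrec.ite (CB.pp_eq (CB.p_fst hm) (Primrec.const 1))
    (WC07_fS (CB.p_fst (CB.p_snd (CB.p_snd (CB.p_snd hm))))
      (CB.p_snd (CB.p_snd (CB.p_snd (CB.p_snd hm)))) hx)
    (WC07_fI (CB.p_fst (CB.p_snd (CB.p_snd (CB.p_snd hm)))) hx)

end

theorem actw_p : Primrec₂ actw := by
  unfold actw
  refine Primrec.list_flatMap Primrec.snd ?_
  exact WC07_fM (Primrec.fst.comp Primrec.fst) Primrec.snd

theorem act_p : Primrec₂ act := by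
  unfold act
  refine Primrec.list_map Primrec.snd ?_
  exact actw_p.comp (Primrec.fst.comp Primrec.fst) Primrec.snd

theorem WC07_sum_p : Primrec (fun l : List ℕ => l.sum) := by
  refine (Primrec.list_foldr (f := fun l : List ℕ => l) (g := fun _ => 0)
    (h := fun _ x => x.1 + x.2) Primrec.id (Primrec.const 0) ?_).of_eq ?_
  · exact Primrec.nat_add.comp (Primrec.fst.comp Primrec.snd) (Primrec.snd.comp Primrec.snd)
  · intro l
    induction l with
    | nil => rfl
    | cons a l ih => simp [ih]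

theorem ltot_p : Primrec ltot := by
  unfold ltot
  exact WC07_sum_p.comp (Primrec.list_map Primrec.id (Primrec.list_length.comp Primrec.snd))

theorem crn_p : PrimrecRel CRN := pp_CRN Primrec.fst Primrec.snd

theorem rotT_p : PrimrecRel RotT := by
  have h : PrimrecPred (fun x : Tup × Tup => ∀ i < x.1.length,
      ∃ k < (x.1.getD i []).length + 1, RotK (x.1.getD i []) (x.2.getD i []) k) := by
    refine CB.pp_all (p := fun (x : Tup × Tup) (i : ℕ) => ∃ k < (x.1.getD i []).length + 1,
      RotK (x.1.getD i []) (x.2.getD i []) k) (Primrec.list_length.comp Primrec.fst) ?_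
    have h1 : Primrec (fun y : (Tup × Tup) × ℕ => y.1.1.getD y.2 []) :=
      C05_getD [] (Primrec.fst.comp Primrec.fst) Primrec.snd
    have h2 : Primrec (fun y : (Tup × Tup) × ℕ => y.1.2.getD y.2 []) :=
      C05_getD [] (Primrec.snd.comp Primrec.fst) Primrec.snd
    refine CB.pp_ex (p := fun (y : (Tup × Tup) × ℕ) k =>
      RotK (y.1.1.getD y.2 []) (y.1.2.getD y.2 []) k)
      (CB.p_add (Primrec.list_length.comp h1) (Primrec.const 1)) ?_
    exact pp_RotK (h1.comp Primrec.fst) (h2.comp Primrec.fst) Primrec.snd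
  exact h

theorem WC07_filter_p {β : Type} [Primcodable β] {n : β → ℕ} {l : β → Wd} (hn : Primrec n)
    (hl : Primrec l) : Primrec fun t => FreeGroup.reduce ((l t).filter fun x => decide (x.1 < n t)) := by
  refine pres1_reduce_p.comp ?_
  have h : Primrec fun t => (l t).flatMap fun x => if x.1 < n t then [x] else [] := by
    refine Primrec.list_flatMap hl ?_
    exact Primrec.ite (CB.pp_lt (CB.p_fst Primrec.snd) (hn.comp Primrec.fst))
      (WC07_sing Primrec.snd) (Primrec.const [])
  refine h.of_eq ?_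
  intro t
  induction l t with
  | nil => rfl
  | cons a l ih =>
    rw [List.flatMap_cons, ih, List.filter_cons]
    by_cases h : a.1 < n t <;> simp [h]

theorem conj_re : REPred fun x : ℕ × Wd × Wd => IsConj (dl x.1 x.2.1) (dl x.1 x.2.2) := by
  have h1 : REPred fun x : ℕ × Wd × Wd => ∃ g : Wd,
      FreeGroup.reduce ((g ++ x.2.1 ++ FreeGroup.invRev g).filter fun y => decide (y.1 < x.1)) =
        FreeGroup.reduce (x.2.2.filter fun y => decide (y.1 < x.1)) := by
    refine re_exists (p := fun (x : ℕ × Wd × Wd) (g : Wd) =>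
      FreeGroup.reduce ((g ++ x.2.1 ++ FreeGroup.invRev g).filter fun y => decide (y.1 < x.1)) =
        FreeGroup.reduce (x.2.2.filter fun y => decide (y.1 < x.1))) (re_of_prim ?_)
    refine CB.pp_eq (WC07_filter_p (Primrec.fst.comp Primrec.fst) ?_)
      (WC07_filter_p (Primrec.fst.comp Primrec.fst)
        (Primrec.snd.comp (Primrec.snd.comp Primrec.fst)))
    exact Primrec.list_append.comp (Primrec.list_append.comp Primrec.snd
      (Primrec.fst.comp (Primrec.snd.comp Primrec.fst))) (p_invRev Primrec.snd)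
  refine h1.of_eq ?_
  intro x
  rw [isConj_iff]
  constructor
  · rintro ⟨g, hg⟩
    rw [← dl_eq_iff, dl_append, dl_append, dl_invRev] at hg
    exact ⟨_, hg⟩
  · rintro ⟨c, hc⟩
    obtain ⟨g, -, rfl⟩ := dl_surj x.1 c
    refine ⟨g, ?_⟩
    rw [← dl_eq_iff, dl_append, dl_append, dl_invRev]
    exact hc

theorem crt_re : REPred fun x : ℕ × Tup × Tup => CRT x.1 x.2.1 x.2.2 := by
  unfold CRT
  refine re_and (re_of_prim (CB.pp_eq (Primrec.list_length.comp (CB.p_snd Primrec.snd))
    (Primrec.list_length.comp (CB.p_fst Primrec.snd)))) ?_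
  refine re_forall_lt (p := fun (x : ℕ × Tup × Tup) i => CRN x.1 (x.2.2.getD i []) ∧
    IsConj (dl x.1 (x.2.1.getD i [])) (dl x.1 (x.2.2.getD i [])))
    (Primrec.list_length.comp (CB.p_fst Primrec.snd)) ?_
  have hn : Primrec fun x : (ℕ × Tup × Tup) × ℕ => x.1.1 := Primrec.fst.comp Primrec.fst
  have hU : Primrec fun x : (ℕ × Tup × Tup) × ℕ => x.1.2.1.getD x.2 [] :=
    C05_getD [] (CB.p_fst (CB.p_snd Primrec.fst)) Primrec.snd
  have hT : Primrec fun x : (ℕ × Tup × Tup) × ℕ => x.1.2.2.getD x.2 [] :=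
    C05_getD [] (CB.p_snd (CB.p_snd Primrec.fst)) Primrec.snd
  refine re_and (re_of_prim (pp_CRN hn hT)) ?_
  exact re_comp (p := fun y : ℕ × Wd × Wd => IsConj (dl y.1 y.2.1) (dl y.1 y.2.2))
    (f := fun x : (ℕ × Tup × Tup) × ℕ => (x.1.1, x.1.2.1.getD x.2 [], x.1.2.2.getD x.2 []))
    conj_re (Primrec.pair hn (Primrec.pair hU hT)).to_comp

theorem WC07_crt {β : Type} [Primcodable β] {n : β → ℕ} {U T : β → Tup} (hn : Primrec n)
    (hU : Primrec U) (hT : Primrec T) : REPred fun x => CRT (n x) (U x) (T x) :=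
  re_comp (p := fun y : ℕ × Tup × Tup => CRT y.1 y.2.1 y.2.2)
    (f := fun x => (n x, U x, T x)) crt_re (Primrec.pair hn (Primrec.pair hU hT)).to_comp

theorem cert_re : REPred fun x : (ℕ × Tup × Tup) × List Tup × Tup × Tup =>
    Cert x.1.1 x.1.2.1 x.1.2.2 x.2.1 x.2.2.1 x.2.2.2 := by
  unfold Cert
  have hn : Primrec fun x : (ℕ × Tup × Tup) × List Tup × Tup × Tup => x.1.1 := CB.p_fst Primrec.fst
  have hW : Primrec fun x : (ℕ × Tup × Tup) × List Tup × Tup × Tup => x.1.2.1 :=
    CB.p_fst (CB.p_snd Primrec.fst)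
  have hW' : Primrec fun x : (ℕ × Tup × Tup) × List Tup × Tup × Tup => x.1.2.2 :=
    CB.p_snd (CB.p_snd Primrec.fst)
  have hL : Primrec fun x : (ℕ × Tup × Tup) × List Tup × Tup × Tup => x.2.1 :=
    CB.p_fst Primrec.snd
  have hT0 : Primrec fun x : (ℕ × Tup × Tup) × List Tup × Tup × Tup => x.2.2.1 :=
    CB.p_fst (CB.p_snd Primrec.snd)
  have hT1 : Primrec fun x : (ℕ × Tup × Tup) × List Tup × Tup × Tup => x.2.2.2 :=
    CB.p_snd (CB.p_snd Primrec.snd)
  refine re_and (WC07_crt hn hW hT0) (re_and (WC07_crt hn hW' hT1)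
    (re_and (re_of_prim (CB.pp_mem hT0 hL)) (re_and ?_ (re_of_prim ?_))))
  · refine re_forall_mem (p := fun (x : (ℕ × Tup × Tup) × List Tup × Tup × Tup) (U : Tup) =>
      ∀ m ∈ mvs x.1.1, ∃ T, CRT x.1.1 (act m U) T ∧
        (ltot x.2.2.1 + ltot x.2.2.2 < ltot T ∨ T ∈ x.2.1)) hL ?_
    refine re_forall_mem (p := fun (y : ((ℕ × Tup × Tup) × List Tup × Tup × Tup) × Tup) (m : Mv) =>
      ∃ T, CRT y.1.1.1 (act m y.2) T ∧
        (ltot y.1.2.2.1 + ltot y.1.2.2.2 < ltot T ∨ T ∈ y.1.2.1))
      (mvs_p.comp (hn.comp Primrec.fst)) ?_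
    refine re_exists (p := fun (z : (((ℕ × Tup × Tup) × List Tup × Tup × Tup) × Tup) × Mv)
      (T : Tup) => CRT z.1.1.1.1 (act z.2 z.1.2) T ∧
        (ltot z.1.1.2.2.1 + ltot z.1.1.2.2.2 < ltot T ∨ T ∈ z.1.1.2.1)) ?_
    have g : Primrec fun u : ((((ℕ × Tup × Tup) × List Tup × Tup × Tup) × Tup) × Mv) × Tup =>
        u.1.1.1 := Primrec.fst.comp (Primrec.fst.comp Primrec.fst)
    refine re_and (WC07_crt (hn.comp g) (act_p.comp (Primrec.snd.comp Primrec.fst)
      (Primrec.snd.comp (Primrec.fst.comp Primrec.fst))) Primrec.snd) (re_of_prim ?_)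
    exact CB.pp_or (CB.pp_lt (CB.p_add (ltot_p.comp (hT0.comp g)) (ltot_p.comp (hT1.comp g)))
      (ltot_p.comp Primrec.snd)) (CB.pp_mem Primrec.snd (hL.comp g))
  · refine CB.pp_all_mem (p := fun (x : (ℕ × Tup × Tup) × List Tup × Tup × Tup) (U : Tup) =>
      ¬ RotT U x.2.2.2) hL ?_
    exact CB.pp_not (rotT_p.comp Primrec.snd (hT1.comp Primrec.fst))

end AdmIso.WC
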