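import Pool.Agent.Lib.MP_32d917_al_adm.WC05
import Pool.Agent.Lib.MP_32d917_al_adm.WC06
import Pool.Agent.Lib.MP_32d917_al_adm.WC07

/-!
# WC08: non equivalence of tuples is recursively enumerable
-/

set_option autoImplicit false

namespace AdmIso

open LatIso WC

theorem not_autEq_re : REPred fun x : ℕ × Tup × Tup => ¬ AutEq x.1 x.2.1 x.2.2 := by
  have h1 : REPred fun x : ℕ × Tup × Tup => ∃ y : List Tup × Tup × Tup,
      Cert x.1 x.2.1 x.2.2 y.1 y.2.1 y.2.2 := re_exists cert_re
  have h2 : REPred fun x : ℕ × Tup × Tup => ¬ x.2.1.length = x.2.2.length := by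
    apply re_of_prim
    exact CB.pp_not (CB.pp_eq (Primrec.list_length.comp (Primrec.fst.comp Primrec.snd))
      (Primrec.list_length.comp (Primrec.snd.comp Primrec.snd)))
  refine (re_or h2 h1).of_eq ?_
  rintro ⟨n, W, W'⟩
  constructor
  · rintro (h | ⟨⟨L, T0, T1⟩, h⟩)
    · exact fun hA => h hA.1
    · exact sound n W W' L T0 T1 h
  · intro h
    by_cases hl : W.length = W'.length
    · obtain ⟨L, T0, T1, hC⟩ := complete n W W' hl h
      exact Or.inr ⟨(L, T0, T1), hC⟩
    · exact Or.inl hl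

end AdmIso
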