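import Pool.Agent.Lib.MP_32d917_al_adm.C05
import Pool.Agent.Lib.MP_32d917_al_adm.C09
import Pool.Agent.Lib.MP_32d917_al_adm.WC08

/-!
# C10: the certificate for a pair of codes is recursively enumerable

`matN_p`, `p_sysN`, `p_WL`, `p_WL'`: combinators of C05, `CB.p_dg`. `p_exN`: `List.count` is the length of a filtered
list, or a fold.

`noGood_re`: `¬ GoodM` is `¬ MatN ∨ (∃ p < cP c + 1, ¬ Sol ..) ∨ (∃ p < cP c + 1, ¬ AutEq ..)`, by `not_sol_re` and
`not_autEq_re` (`re_comp`, `re_or`, `re_exists`, `re_and`, `re_of_prim`); the bounded quantifier over the five components of `t`: five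
times `re_forall_lt` (reorder the components into `α × ℕ`), the bounds are primitive recursive (`CB.p_pow`).
-/

set_option autoImplicit false
set_option synthInstance.maxSize 2000

namespace AdmIso

open LatIso

section

variable {β γ δ : Type} [Primcodable β] [Primcodable γ] [Primcodable δ]

private theorem p_mapL {f : β → List γ} {g : β → γ → δ} (hf : Primrec f)
    (hg : Primrec fun x : β × γ => g x.1 x.2) : Primrec fun x => (f x).map fun y => g x y :=
  Primrec.list_map hf hg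

private theorem p_flatMapL {f : β → List γ} {g : β → γ → List δ} (hf : Primrec f)
    (hg : Primrec fun x : β × γ => g x.1 x.2) : Primrec fun x => (f x).flatMap fun y => g x y :=
  Primrec.list_flatMap hf hg

private theorem p_iteL {p : β → Prop} [DecidablePred p] {f g : β → γ} (hp : PrimrecPred p)
    (hf : Primrec f) (hg : Primrec g) : Primrec fun x => if p x then f x else g x :=
  Primrec.ite hp hf hg

private theorem p_rangeL {f : β → ℕ} (hf : Primrec f) : Primrec fun x => List.range (f x) :=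
  Primrec.list_range.comp hf

private theorem p_countL {f : β → γ} {l : β → List γ} [BEq γ] [LawfulBEq γ] (hf : Primrec f)
    (hl : Primrec l) : Primrec fun x => (l x).count (f x) := by
  classical
  have h1 : PrimrecRel fun (a : γ) (b : γ) => a = b := Primrec.eq
  have h2 : Primrec₂ fun (L : List γ) (b : γ) => L.filter fun a => decide (a = b) :=
    PrimrecRel.listFilter h1
  refine (Primrec.list_length.comp (h2.comp hl hf)).of_eq ?_
  intro x
  rw [List.count_eq_length_filter]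
  congr 1
  apply List.filter_congr
  intro y _
  rw [Bool.eq_iff_iff]
  simp

variable {c c' : β → Cd} {t : β → Mt} {g : β → ℕ}

private theorem p_spN (hc : Primrec c) (ht : Primrec t) (hg : Primrec g) :
    Primrec fun x => spN (c x) (t x) (g x) := by
  unfold spN
  exact CB.p_dg (p_cP hc) (CB.p_fst ht) hg

private theorem p_sfN (hc : Primrec c) (ht : Primrec t) (hg : Primrec g) :
    Primrec fun x => sfN (c x) (t x) (g x) := by
  unfold sfN
  exact CB.p_dg (p_cQ hc) (CB.p_fst (CB.p_snd ht)) hg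

private theorem p_seN (hc : Primrec c) (ht : Primrec t) (hg : Primrec g) :
    Primrec fun x => seN (c x) (t x) (g x) := by
  unfold seN
  exact CB.p_dg (p_cE hc) (CB.p_fst (CB.p_snd (CB.p_snd ht))) hg

private theorem p_eN (ht : Primrec t) (hg : Primrec g) : Primrec fun x => eN (t x) (g x) := by
  unfold eN
  exact CB.p_dg (Primrec.const 1) (CB.p_fst (CB.p_snd (CB.p_snd (CB.p_snd ht)))) hg

private theorem p_dN (ht : Primrec t) (hg : Primrec g) : Primrec fun x => dN (t x) (g x) := by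
  unfold dN
  exact CB.p_dg (Primrec.const 1) (CB.p_snd (CB.p_snd (CB.p_snd (CB.p_snd ht)))) hg

private theorem p_exN {l : β → Wd} (hg : Primrec g) (hl : Primrec l) :
    Primrec fun x => exN (g x) (l x) := by
  unfold exN
  exact CB.p_pair (p_countL (CB.p_pair hg (Primrec.const true)) hl)
    (p_countL (CB.p_pair hg (Primrec.const false)) hl)

end

theorem matN_p : PrimrecPred fun x : (Cd × Cd) × Mt => MatN x.1.1 x.1.2 x.2 := by
  unfold MatN
  (repeat' (with_reducible first | assumption | exact CB.p_id | exact Primrec.const _ | exact CB.pp_const _ | apply p_cP | apply p_cQ | apply p_cE | apply p_rkN | apply p_pcN | apply p_flN | apply p_wN | apply p_zeN | apply p_omN | apply p_spN | apply p_sfN | apply p_seN | apply p_eN | apply p_dN | apply p_pmul | apply p_psub | apply p_pdt | apply p_sg | apply pp_PEq | apply CB.p_fst | apply CB.p_snd | apply CB.p_pair | apply CB.p_add | apply CB.p_sub | apply CB.p_mul | apply CB.p_div | apply CB.p_mod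 | apply CB.p_pow | apply CB.p_dg | apply CB.pp_all | apply CB.pp_ex | apply CB.pp_all_mem | apply CB.pp_ex_mem | apply CB.pp_and | apply CB.pp_or | apply CB.pp_not | apply CB.pp_iff | apply CB.pp_imp | apply CB.pp_eq))

private theorem p_rowN : Primrec fun x : ((((Cd × Cd) × Mt) × ℕ) × ℕ) × ℕ =>
    rowN x.1.1.1.1.1 x.1.1.1.1.2 x.1.1.1.2 x.1.1.2 x.1.2 x.2 := by
  unfold rowN
  (repeat' (with_reducible first | assumption | exact CB.p_id | exact Primrec.const _ | exact CB.pp_const _ | apply p_iteL | apply p_mapL | apply p_rangeL | apply p_exN | apply p_cP | apply p_cQ | apply p_cE | apply p_rkN | apply p_pcN | apply p_flN | apply p_wN | apply p_zeN | apply p_omN | apply p_spN | apply p_sfN | apply p_seN | apply p_eN | apply p_dN | apply p_pmul | apply p_psub | apply p_pdt | apply p_sg | apply pp_PEq | apply CB.p_fst | apply CB.p_snd | apply CB.p_pair | apply CB.p_add | apply CB.p_sub | apply CB.p_mul | apply CB.pp_and | apply CB.pp_or | apply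 CB.pp_not | apply CB.pp_imp | apply CB.pp_eq))

theorem p_sysN : Primrec fun x : ((Cd × Cd) × Mt) × ℕ => sysN x.1.1.1 x.1.1.2 x.1.2 x.2 := by
  unfold sysN
  refine CB.p_pair (p_rkN (CB.p_fst (CB.p_fst (CB.p_fst CB.p_id))) (CB.p_snd CB.p_id)) ?_
  refine p_flatMapL (p_rangeL (CB.p_add (p_cE (CB.p_fst (CB.p_fst (CB.p_fst CB.p_id))))
    (Primrec.const 1))) ?_
  refine p_mapL (p_rangeL (CB.p_add (p_cE (CB.p_fst (CB.p_fst (CB.p_fst (CB.p_fst CB.p_id)))))
    (Primrec.const 1))) ?_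
  exact p_rowN

theorem p_WL : Primrec fun x : Cd × ℕ => WL x.1 x.2 := by
  unfold WL
  (repeat' (with_reducible first | assumption | exact CB.p_id | exact Primrec.const _ | exact CB.pp_const _ | apply p_iteL | apply p_mapL | apply p_rangeL | apply p_cP | apply p_cQ | apply p_cE | apply p_rkN | apply p_pcN | apply p_flN | apply p_wN | apply CB.p_fst | apply CB.p_snd | apply CB.p_add | apply CB.pp_eq))

theorem p_WL' : Primrec fun x : ((Cd × Cd) × Mt) × ℕ => WL' x.1.1.1 x.1.1.2 x.1.2 x.2 := by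
  unfold WL'
  (repeat' (with_reducible first | assumption | exact CB.p_id | exact Primrec.const _ | exact CB.pp_const _ | apply p_iteL | apply p_mapL | apply p_rangeL | apply p_invRev | apply p_cP | apply p_cQ | apply p_cE | apply p_rkN | apply p_pcN | apply p_flN | apply p_wN | apply p_seN | apply p_eN | apply p_dN | apply CB.p_fst | apply CB.p_snd | apply CB.p_add | apply CB.p_mod | apply CB.pp_eq))

private theorem re_autEq {β : Type} [Primcodable β] {n : β → ℕ} {W W' : β → Tup}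
    (hn : Primrec n) (hW : Primrec W) (hW' : Primrec W') :
    REPred fun x => ¬ AutEq (n x) (W x) (W' x) :=
  re_comp (p := fun y : ℕ × Tup × Tup => ¬ AutEq y.1 y.2.1 y.2.2)
    (f := fun x => (n x, W x, W' x)) not_autEq_re
    (Primrec.to_comp (CB.p_pair hn (CB.p_pair hW hW')))

private theorem re_sol {β : Type} [Primcodable β] {s : β → Sys} (hs : Primrec s) :
    REPred fun x => ¬ Sol (s x) :=
  re_comp (p := fun y : Sys => ¬ Sol y) (f := s) not_sol_re (Primrec.to_comp hs)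

private theorem p_WLc : Primrec fun x : ((Cd × Cd) × Mt) × ℕ => WL x.1.1.1 x.2 :=
  Primrec.comp (f := fun y : Cd × ℕ => WL y.1 y.2)
    (g := fun x : ((Cd × Cd) × Mt) × ℕ => ((x.1.1.1, x.2) : Cd × ℕ)) p_WL
    (CB.p_pair (CB.p_fst (CB.p_fst (CB.p_fst CB.p_id))) (CB.p_snd CB.p_id))

private theorem re_lt1 : REPred fun x : ((Cd × Cd) × Mt) × ℕ => x.2 < cP x.1.1.1 + 1 :=
  re_of_prim (CB.pp_lt (CB.p_snd CB.p_id)
    (CB.p_add (p_cP (CB.p_fst (CB.p_fst (CB.p_fst CB.p_id)))) (Primrec.const 1)))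

private theorem notGood_re2 : REPred fun x : (Cd × Cd) × Mt =>
    ∃ p, p < cP x.1.1 + 1 ∧ ¬ Sol (sysN x.1.1 x.1.2 x.2 p) :=
  re_exists (p := fun (x : (Cd × Cd) × Mt) (p : ℕ) =>
    p < cP x.1.1 + 1 ∧ ¬ Sol (sysN x.1.1 x.1.2 x.2 p)) (re_and re_lt1 (re_sol p_sysN))

private theorem notGood_re3 : REPred fun x : (Cd × Cd) × Mt =>
    ∃ p, p < cP x.1.1 + 1 ∧ ¬ AutEq (rkN x.1.1 p) (WL x.1.1 p) (WL' x.1.1 x.1.2 x.2 p) :=
  re_exists (p := fun (x : (Cd × Cd) × Mt) (p : ℕ) =>
    p < cP x.1.1 + 1 ∧ ¬ AutEq (rkN x.1.1 p) (WL x.1.1 p) (WL' x.1.1 x.1.2 x.2 p))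
    (re_and re_lt1 (re_autEq (p_rkN (CB.p_fst (CB.p_fst (CB.p_fst CB.p_id)))
      (CB.p_snd CB.p_id)) p_WLc p_WL'))

/-- the set of the pairs with a matching which is not good -/
private theorem notGood_re : REPred fun x : (Cd × Cd) × Mt => ¬ GoodM x.1.1 x.1.2 x.2 := by
  have h1 : REPred fun x : (Cd × Cd) × Mt => ¬ MatN x.1.1 x.1.2 x.2 := re_of_prim matN_p.not
  have h2 := notGood_re2
  have h3 := notGood_re3
  refine (re_or h1 (re_or h2 h3)).of_eq ?_
  intro x
  unfold GoodM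
  constructor
  · rintro (h | ⟨p, hp, h⟩ | ⟨p, hp, h⟩) hg
    · exact h hg.1
    · exact h (hg.2.1 p hp)
    · exact h (hg.2.2 p hp)
  · intro h
    by_contra hc
    push Not at hc
    exact h ⟨hc.1, hc.2.1, hc.2.2⟩

theorem noGood_re : REPred fun x : Cd × Cd => ∀ t : Mt, InB x.1 t → ¬ GoodM x.1 x.2 t := by
  have hf : Primrec fun x : (((((Cd × Cd) × ℕ) × ℕ) × ℕ) × ℕ) × ℕ =>
      ((x.1.1.1.1.1, (x.1.1.1.1.2, x.1.1.1.2, x.1.1.2, x.1.2, x.2)) : (Cd × Cd) × Mt) := by
    (repeat' (with_reducible first | exact CB.p_id | apply CB.p_fst | apply CB.p_snd | apply CB.p_pair))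
  have h0 := re_comp notGood_re hf.to_comp
  have b1 : ∀ {β : Type} [Primcodable β] {f : β → Cd}, Primrec f →
      Primrec fun x => (cP (f x) + 1) ^ (cP (f x) + 1) := fun hc =>
    CB.p_pow (CB.p_add (p_cP hc) (Primrec.const 1)) (CB.p_add (p_cP hc) (Primrec.const 1))
  have b2 : ∀ {β : Type} [Primcodable β] {f : β → Cd}, Primrec f →
      Primrec fun x => (cQ (f x) + 1) ^ (cQ (f x) + 1) := fun hc =>
    CB.p_pow (CB.p_add (p_cQ hc) (Primrec.const 1)) (CB.p_add (p_cQ hc) (Primrec.const 1))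
  have b3 : ∀ {β : Type} [Primcodable β] {f : β → Cd}, Primrec f →
      Primrec fun x => (cE (f x) + 1) ^ (cE (f x) + 1) := fun hc =>
    CB.p_pow (CB.p_add (p_cE hc) (Primrec.const 1)) (CB.p_add (p_cE hc) (Primrec.const 1))
  have b4 : ∀ {β : Type} [Primcodable β] {f : β → Cd}, Primrec f →
      Primrec fun x => 2 ^ (cP (f x) + 1) := fun hc =>
    CB.p_pow (Primrec.const 2) (CB.p_add (p_cP hc) (Primrec.const 1))
  have b5 : ∀ {β : Type} [Primcodable β] {f : β → Cd}, Primrec f →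
      Primrec fun x => 2 ^ (cQ (f x) + 1) := fun hc =>
    CB.p_pow (Primrec.const 2) (CB.p_add (p_cQ hc) (Primrec.const 1))
  have h1 := re_forall_lt (p := fun (x : ((((Cd × Cd) × ℕ) × ℕ) × ℕ) × ℕ) (g : ℕ) =>
      ¬ GoodM x.1.1.1.1.1 x.1.1.1.1.2 (x.1.1.1.2, x.1.1.2, x.1.2, x.2, g))
    (b5 (CB.p_fst (CB.p_fst (CB.p_fst (CB.p_fst (CB.p_fst CB.p_id)))))) h0
  have h2 := re_forall_lt (p := fun (x : (((Cd × Cd) × ℕ) × ℕ) × ℕ) (e : ℕ) =>
      ∀ g < 2 ^ (cQ x.1.1.1.1 + 1),
      ¬ GoodM x.1.1.1.1 x.1.1.1.2 (x.1.1.2, x.1.2, x.2, e, g))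
    (b4 (CB.p_fst (CB.p_fst (CB.p_fst (CB.p_fst CB.p_id))))) h1
  have h3 := re_forall_lt (p := fun (x : ((Cd × Cd) × ℕ) × ℕ) (d : ℕ) =>
      ∀ e < 2 ^ (cP x.1.1.1 + 1), ∀ g < 2 ^ (cQ x.1.1.1 + 1),
      ¬ GoodM x.1.1.1 x.1.1.2 (x.1.2, x.2, d, e, g))
    (b3 (CB.p_fst (CB.p_fst (CB.p_fst CB.p_id)))) h2
  have h4 := re_forall_lt (p := fun (x : (Cd × Cd) × ℕ) (b : ℕ) =>
      ∀ d < (cE x.1.1 + 1) ^ (cE x.1.1 + 1),
      ∀ e < 2 ^ (cP x.1.1 + 1), ∀ g < 2 ^ (cQ x.1.1 + 1),
      ¬ GoodM x.1.1 x.1.2 (x.2, b, d, e, g))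
    (b2 (CB.p_fst (CB.p_fst CB.p_id))) h3
  have h5 := re_forall_lt (p := fun (x : Cd × Cd) (a : ℕ) =>
      ∀ b < (cQ x.1 + 1) ^ (cQ x.1 + 1), ∀ d < (cE x.1 + 1) ^ (cE x.1 + 1),
      ∀ e < 2 ^ (cP x.1 + 1), ∀ g < 2 ^ (cQ x.1 + 1),
      ¬ GoodM x.1 x.2 (a, b, d, e, g))
    (b1 (CB.p_fst CB.p_id)) h4
  refine h5.of_eq ?_
  intro x
  constructor
  · rintro h ⟨a, b, d, e, g⟩ ⟨k1, k2, k3, k4, k5⟩
    exact h a k1 b k2 d k3 e k4 g k5
  · intro h a k1 b k2 d k3 e k4 g k5
    exact h (a, b, d, e, g) ⟨k1, k2, k3, k4, k5⟩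

end AdmIso
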