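import Mathlib
import Pool.Agent.Lib.MP_32d917_al.Defs

/-!
# Admissible groups: definitions
-/

set_option autoImplicit false

namespace AdmIso

open LatIso

/-- the group `ℤ × ℤ`, written multiplicatively -/
abbrev A2 : Type := Multiplicative (ℤ × ℤ)

/-- the product of a free group of rank `n` and of an infinite cyclic group -/
abbrev FZ (n : ℕ) : Type := FreeGroup (Fin n) × Multiplicative ℤ

/-- commutator -/
def cmr {G : Type} [Group G] (a b : G) : G := a * b * a⁻¹ * b⁻¹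

/-- determinant -/
def dt (a b : ℤ × ℤ) : ℤ := a.1 * b.2 - a.2 * b.1

/-- `z` lies in the centre of the stabiliser of `y` -/
def Cen (G : Type) [Group G] {V : Type} [MulAction G V] (y : V) (z : G) : Prop :=
  z • y = y ∧ ∀ h : G, h • y = y → z * h = h * z

/-- Admissible actions on trees: the vertices in `Fl` are called flats, the other vertices are
called pieces. -/
structure Adm (G : Type) [Group G] {V : Type} [MulAction G V] (T : SimpleGraph V) (Fl : Set V) :
    Prop where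
  tree : T.IsTree
  adj : ∀ (g : G) (x y : V), T.Adj x y → T.Adj (g • x) (g • y)
  flat : ∀ (g : G) (x : V), x ∈ Fl → g • x ∈ Fl
  bip : ∀ x y, T.Adj x y → (x ∈ Fl ↔ y ∉ Fl)
  ne : ∃ x, x ∈ Fl
  two : ∀ x ∈ Fl, ∃ y z, y ≠ z ∧ T.Adj x y ∧ T.Adj x z
  fin : ∃ F : Finset (V × V), ∀ x y, T.Adj x y → ∃ g : G, (g • x, g • y) ∈ F
  piece : ∀ x, x ∉ Fl → ∃ n, 2 ≤ n ∧ Nonempty (FZ n ≃* MulAction.stabilizer G x)
  flatg : ∀ x ∈ Fl, Nonempty (A2 ≃* MulAction.stabilizer G x)
  fix : ∀ x y, x ∈ Fl → T.Adj x y → MulAction.stabilizer G x ≤ MulAction.stabilizer G y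
  maxl : ∀ x y, x ∈ Fl → T.Adj x y → ∀ g : G, g • y = y →
    (∀ h : G, h • x = x → g * h = h * g) → g • x = x
  sep : ∀ x x' y, x ∈ Fl → x' ∈ Fl → x ≠ x' → T.Adj x y → T.Adj x' y →
    MulAction.stabilizer G x ≠ MulAction.stabilizer G x'
  trans : ∀ x y y', x ∈ Fl → T.Adj x y → T.Adj x y' → y ≠ y' → ∀ z : G, Cen G y z → Cen G y' z →
    z = 1

/-- the class of groups -/
def IsAdm (G : Type) [Group G] : Prop :=
  ∃ (V : Type) (_ : MulAction G V) (T : SimpleGraph V) (Fl : Set V), Adm G T Fl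

/-! ### Finite data -/

/-- Data: pieces `P` with ranks, flats `Q`, edges `E` from flats to pieces; for every edge a word
`w` in the free group of the piece, and two vectors `ze`, `om` in the group `ℤ × ℤ` of the flat.
(Only `w (pc e) e` matters.) -/
structure Dat (P Q E : Type) where
  rk : P → ℕ
  pc : E → P
  fl : E → Q
  w : (p : P) → E → FreeGroup (Fin (rk p))
  ze : E → ℤ × ℤ
  om : E → ℤ × ℤ

section

variable {P Q E : Type}

/-- the embedding of the group of the flat into the group of the piece `p` (meaningful for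
`p = pc e`) -/
def Dat.embp (D : Dat P Q E) (p : P) (e : E) : A2 →* FZ (D.rk p) where
  toFun v := (D.w p e ^ dt v.toAdd (D.ze e), Multiplicative.ofAdd (dt (D.om e) v.toAdd))
  map_one' := by simp [dt]
  map_mul' u v := by
    apply Prod.ext
    · show _ ^ _ = _ ^ _ * _ ^ _
      rw [← zpow_add]
      congr 1
      simp only [dt, toAdd_mul, Prod.fst_add, Prod.snd_add]
      ring
    · show Multiplicative.ofAdd _ = Multiplicative.ofAdd _ * Multiplicative.ofAdd _
      rw [← ofAdd_add]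
      congr 1
      simp only [dt, toAdd_mul, Prod.fst_add, Prod.snd_add]
      ring

/-- the embedding of the group of the flat into the group of the piece -/
def Dat.emb (D : Dat P Q E) (e : E) : A2 →* FZ (D.rk (D.pc e)) := D.embp (D.pc e) e

theorem Dat.embp_apply (D : Dat P Q E) (p : P) (e : E) (v : A2) :
    D.embp p e v = (D.w p e ^ dt v.toAdd (D.ze e), Multiplicative.ofAdd (dt (D.om e) v.toAdd)) :=
  rfl

theorem Dat.emb_apply (D : Dat P Q E) (e : E) (v : A2) : D.emb e v =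
    (D.w (D.pc e) e ^ dt v.toAdd (D.ze e), Multiplicative.ofAdd (dt (D.om e) v.toAdd)) := rfl

/-- validity -/
structure Dat.Valid (D : Dat P Q E) : Prop where
  rk : ∀ p, 2 ≤ D.rk p
  det : ∀ e, dt (D.om e) (D.ze e) = 1
  ind : ∀ e f, e ≠ f → D.fl e = D.fl f → dt (D.ze e) (D.ze f) ≠ 0
  two : ∀ q, ∃ e f, e ≠ f ∧ D.fl e = q ∧ D.fl f = q
  ne : ∀ e, D.w (D.pc e) e ≠ 1
  root : ∀ e x, x * D.w (D.pc e) e = D.w (D.pc e) e * x → ∃ k : ℤ, x = D.w (D.pc e) e ^ k
  sep : ∀ p e f, D.pc e = p → D.pc f = p → e ≠ f → ∀ x,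
    x * D.w p e * x⁻¹ ≠ D.w p f ∧ x * D.w p e * x⁻¹ ≠ (D.w p f)⁻¹

/-- spanning trees of the graph with the vertices `P`, `Q` and the edges `E`: root `p0`, edges `ep p`
and `ef q` towards the root, rank functions `rp` and `rq` -/
structure IsTr (D : Dat P Q E) (p0 : P) (ep : P → E) (ef : Q → E) (rp : P → ℕ) (rq : Q → ℕ) :
    Prop where
  ep : ∀ p, p ≠ p0 → D.pc (ep p) = p ∧ rq (D.fl (ep p)) < rp p
  ef : ∀ q, D.fl (ef q) = q ∧ rp (D.pc (ef q)) < rq q

/-- a system: the groups of the pieces and of the flats are mapped to `G`, with elements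
`y e` which intertwine them -/
structure Sy (D : Dat P Q E) (G : Type) [Group G] where
  be : (p : P) → FZ (D.rk p) →* G
  al : Q → A2 →* G
  y : E → G
  rel : ∀ e v, al (D.fl e) v * y e = y e * be (D.pc e) (D.emb e v)

/-- the elements `y e` are trivial on the spanning tree -/
def Sy.Nor {D : Dat P Q E} {G : Type} [Group G] (S : Sy D G) (p0 : P) (ep : P → E) (ef : Q → E) :
    Prop := (∀ p, p ≠ p0 → S.y (ep p) = 1) ∧ ∀ q, S.y (ef q) = 1

/-- the system generates the group -/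
def Sy.Gen {D : Dat P Q E} {G : Type} [Group G] (S : Sy D G) : Prop :=
  Subgroup.closure ({g | ∃ p x, S.be p x = g} ∪ {g | ∃ q v, S.al q v = g} ∪ Set.range S.y) = ⊤

/-- compatible homomorphisms -/
structure Sy.Comp {D : Dat P Q E} {G H : Type} [Group G] [Group H] (S : Sy D G) (S' : Sy D H)
    (F : G →* H) : Prop where
  be : ∀ p x, F (S.be p x) = S'.be p x
  al : ∀ q v, F (S.al q v) = S'.al q v
  y : ∀ e, F (S.y e) = S'.y e

/-- `G` is the fundamental group of the data (with respect to a spanning tree) -/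
structure IsPi {D : Dat P Q E} {G : Type} [Group G] (S : Sy D G) (p0 : P) (ep : P → E)
    (ef : Q → E) : Prop where
  nor : S.Nor p0 ep ef
  gen : S.Gen
  univ : ∀ (H : Type) [Group H] (S' : Sy D H), S'.Nor p0 ep ef → ∃ F : G →* H, S.Comp S' F

/-- The data are realised by the action of `G` on `T`: representatives `vp p`, `fq q` of the orbits
of vertices, the stabilisers are the images of the groups of the data, and the neighbours of
`fq q` are the vertices `y e • vp (pc e)`. -/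
structure Rz (D : Dat P Q E) (G : Type) [Group G] {V : Type} [MulAction G V] (T : SimpleGraph V)
    (Fl : Set V) (S : Sy D G) (vp : P → V) (fq : Q → V) : Prop where
  vpN : ∀ p, vp p ∉ Fl
  fqF : ∀ q, fq q ∈ Fl
  beI : ∀ p, Function.Injective (S.be p)
  stp : ∀ p (g : G), g • vp p = vp p ↔ ∃ x, S.be p x = g
  stq : ∀ q (g : G), g • fq q = fq q ↔ ∃ v, S.al q v = g
  orp : ∀ v, v ∉ Fl → ∃ p, ∃ g : G, g • vp p = v
  orq : ∀ v ∈ Fl, ∃ q, ∃ g : G, g • fq q = v
  unp : ∀ p p' (g : G), g • vp p = vp p' → p = p'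
  unq : ∀ q q' (g : G), g • fq q = fq q' → q = q'
  adj : ∀ q v, T.Adj (fq q) v ↔ ∃ e, D.fl e = q ∧ S.y e • vp (D.pc e) = v
  une : ∀ e e', D.fl e = D.fl e' → S.y e • vp (D.pc e) = S.y e' • vp (D.pc e') → e = e'

/-- The relation of the system at an edge, for `p = pc e`. -/
theorem Sy.relp {D : Dat P Q E} {G : Type} [Group G] (S : Sy D G) {p : P} {e : E} (h : D.pc e = p)
    (v : A2) : S.al (D.fl e) v * S.y e = S.y e * S.be p (D.embp p e v) := by
  subst h
  exact S.rel e v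

/-- Equivalence of data in terms of groups. -/
structure GEqv {P' Q' E' : Type} (D : Dat P Q E) (D' : Dat P' Q' E') (sp : P ≃ P') (sf : Q ≃ Q')
    (se : E ≃ E') : Prop where
  pc : ∀ e, D'.pc (se e) = sp (D.pc e)
  fl : ∀ e, D'.fl (se e) = sf (D.fl e)
  ex : ∃ (Φ : ∀ p, FZ (D.rk p) ≃* FZ (D'.rk (sp p))) (Ψ : Q → A2 ≃* A2)
    (κ : ∀ p, E → FZ (D.rk p)), ∀ p e v, D.pc e = p →
      D'.embp (sp p) (se e) (Ψ (D.fl e) v) =
        Φ p (κ p e) * Φ p (D.embp p e v) * (Φ p (κ p e))⁻¹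

/-- Equivalence of data in terms of numbers and words. -/
structure Eqv {P' Q' E' : Type} (D : Dat P Q E) (D' : Dat P' Q' E') (sp : P ≃ P') (sf : Q ≃ Q')
    (se : E ≃ E') (ep : P → ℤˣ) (de : Q → ℤˣ) : Prop where
  pc : ∀ e, D'.pc (se e) = sp (D.pc e)
  fl : ∀ e, D'.fl (se e) = sf (D.fl e)
  del : ∀ e f, D.fl e = D.fl f → (de (D.fl e) : ℤ) * (ep (D.pc e) : ℤ) * dt (D.ze e) (D.ze f) =
    (ep (D.pc f) : ℤ) * dt (D'.ze (se e)) (D'.ze (se f))
  tau : ∀ p, ∃ τ : FreeGroup (Fin (D.rk p)) →* Multiplicative ℤ, ∀ e f, D.pc e = p →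
    D.fl e = D.fl f → e ≠ f → dt (D.ze e) (D.ze f) * (τ (D.w p e)).toAdd =
      (ep p : ℤ) * dt (D.om e) (D.ze f) - (ep (D.pc f) : ℤ) * dt (D'.om (se e)) (D'.ze (se f))
  phi : ∀ p, ∃ φ : FreeGroup (Fin (D.rk p)) ≃* FreeGroup (Fin (D'.rk (sp p))), ∀ e, D.pc e = p →
    IsConj (φ (D.w p e)) (D'.w (sp p) (se e) ^ ((ep p * de (D.fl e) : ℤˣ) : ℤ))

end

end AdmIso
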