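import Pool.Agent.Lib.MP_32d917_al.CODEB
import Pool.Agent.Lib.MP_32d917_al_adm.RDefs

/-!
# Codes: definitions

Integers are coded by pairs of natural numbers (`iv`), vectors in `ℤ × ℤ` by pairs of such pairs
(`vv`), elements of free groups by lists of letters (`dl n`; letters `≥ n` are killed).
A code is `((a, b, d), ranks, edges, (p0, ep, ef, rp, rq))` with `a + 1` pieces, `b + 1` flats,
`d + 1` edges.
-/

set_option autoImplicit false

namespace AdmIso

open LatIso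

/-- words -/
abbrev Wd : Type := List (ℕ × Bool)

/-- coded integers -/
abbrev PI : Type := ℕ × ℕ

/-- value of a coded integer -/
def iv (x : PI) : ℤ := (x.1 : ℤ) - (x.2 : ℤ)

/-- coded vectors -/
abbrev PV : Type := PI × PI

/-- value of a coded vector -/
def vv (x : PV) : ℤ × ℤ := (iv x.1, iv x.2)

/-- product of coded integers -/
def pmul (x y : PI) : PI := (x.1 * y.1 + x.2 * y.2, x.1 * y.2 + x.2 * y.1)

/-- difference of coded integers -/
def psub (x y : PI) : PI := (x.1 + y.2, x.2 + y.1)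

/-- coded determinant -/
def pdt (x y : PV) : PI := psub (pmul x.1 y.2) (pmul x.2 y.1)

/-- multiplication by `(-1) ^ k` -/
def sg (k : ℕ) (x : PI) : PI := if k % 2 = 1 then (x.2, x.1) else x

/-- equality of coded integers -/
def PEq (x y : PI) : Prop := x.1 + y.2 = y.1 + x.2

/-- the element given by a word; letters `≥ n` are killed -/
def dl (n : ℕ) (l : Wd) : FreeGroup (Fin n) :=
  (l.map fun p => if h : p.1 < n then FreeGroup.mk [((⟨p.1, h⟩ : Fin n), p.2)] else 1).prod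

/-- data given by words -/
def mkD {P Q E : Type} (rk : P → ℕ) (pc : E → P) (fl : E → Q) (l : E → Wd) (ze om : E → ℤ × ℤ) :
    Dat P Q E where
  rk := rk
  pc := pc
  fl := fl
  w p e := dl (rk p) (l e)
  ze := ze
  om := om

/-- edges: piece, flat, word, `ze`, `om` -/
abbrev EdC : Type := ℕ × ℕ × Wd × PV × PV

/-- spanning trees: `p0`, `ep`, `ef`, `rp`, `rq` -/
abbrev TrC : Type := ℕ × List ℕ × List ℕ × List ℕ × List ℕ

/-- codes -/
abbrev Cd : Type := (ℕ × ℕ × ℕ) × List ℕ × List EdC × TrC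

/-- number of pieces minus one -/
abbrev cP (c : Cd) : ℕ := c.1.1
/-- number of flats minus one -/
abbrev cQ (c : Cd) : ℕ := c.1.2.1
/-- number of edges minus one -/
abbrev cE (c : Cd) : ℕ := c.1.2.2

/-- default edge -/
def dEd : EdC := (0, 0, [], ((0, 0), (0, 0)), ((0, 0), (0, 0)))

/-- the edge number `e` -/
def edN (c : Cd) (e : ℕ) : EdC := c.2.2.1.getD e dEd

def rkN (c : Cd) (p : ℕ) : ℕ := c.2.1.getD p 0
def pcN (c : Cd) (e : ℕ) : ℕ := (edN c e).1 % (cP c + 1)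
def flN (c : Cd) (e : ℕ) : ℕ := (edN c e).2.1 % (cQ c + 1)
def wN (c : Cd) (e : ℕ) : Wd := (edN c e).2.2.1
def zeN (c : Cd) (e : ℕ) : PV := (edN c e).2.2.2.1
def omN (c : Cd) (e : ℕ) : PV := (edN c e).2.2.2.2
def p0N (c : Cd) : ℕ := c.2.2.2.1 % (cP c + 1)
def epN (c : Cd) (p : ℕ) : ℕ := c.2.2.2.2.1.getD p 0 % (cE c + 1)
def efN (c : Cd) (q : ℕ) : ℕ := c.2.2.2.2.2.1.getD q 0 % (cE c + 1)
def rpN (c : Cd) (p : ℕ) : ℕ := c.2.2.2.2.2.2.1.getD p 0
def rqN (c : Cd) (q : ℕ) : ℕ := c.2.2.2.2.2.2.2.getD q 0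

/-- the data given by a code -/
def toDat (c : Cd) : Dat (Fin (cP c + 1)) (Fin (cQ c + 1)) (Fin (cE c + 1)) :=
  mkD (fun p => rkN c p) (fun e => ⟨pcN c e, Nat.mod_lt _ (Nat.succ_pos _)⟩)
    (fun e => ⟨flN c e, Nat.mod_lt _ (Nat.succ_pos _)⟩) (fun e => wN c e)
    (fun e => vv (zeN c e)) (fun e => vv (omN c e))

/-- root of the tree -/
def tp0 (c : Cd) : Fin (cP c + 1) := ⟨p0N c, Nat.mod_lt _ (Nat.succ_pos _)⟩
/-- edges of the tree at the pieces -/
def tep (c : Cd) (p : Fin (cP c + 1)) : Fin (cE c + 1) := ⟨epN c p, Nat.mod_lt _ (Nat.succ_pos _)⟩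
/-- edges of the tree at the flats -/
def tef (c : Cd) (q : Fin (cQ c + 1)) : Fin (cE c + 1) := ⟨efN c q, Nat.mod_lt _ (Nat.succ_pos _)⟩

/-- `l` is cyclically reduced with letters `< n` -/
def CRN (n : ℕ) (l : Wd) : Prop := FreeGroup.reduce (l ++ l) = l ++ l ∧ ∀ x ∈ l, x.1 < n

/-- `l'` is `l` rotated by `k` -/
def RotK (l l' : Wd) (k : ℕ) : Prop :=
  l'.length = l.length ∧ ∀ i < l.length, l'.getD i (0, true) = l.getD ((i + k) % l.length) (0, true)

/-- validity of codes -/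
def ValN (c : Cd) : Prop :=
  (∀ p < cP c + 1, 2 ≤ rkN c p) ∧
  (∀ e < cE c + 1, PEq (pdt (omN c e) (zeN c e)) (1, 0)) ∧
  (∀ e < cE c + 1, ∀ f < cE c + 1, ¬ e = f → flN c e = flN c f →
    ¬ PEq (pdt (zeN c e) (zeN c f)) (0, 0)) ∧
  (∀ q < cQ c + 1, ∃ e < cE c + 1, ∃ f < cE c + 1, ¬ e = f ∧ flN c e = q ∧ flN c f = q) ∧
  (∀ e < cE c + 1, CRN (rkN c (pcN c e)) (wN c e) ∧ ¬ wN c e = [] ∧
    ∀ k < (wN c e).length, RotK (wN c e) (wN c e) k → k = 0) ∧
  (∀ e < cE c + 1, ∀ f < cE c + 1, ¬ e = f → pcN c e = pcN c f →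
    ∀ k < (wN c e).length, ¬ RotK (wN c e) (wN c f) k ∧
      ¬ RotK (wN c e) (FreeGroup.invRev (wN c f)) k) ∧
  (∀ p < cP c + 1, ¬ p = p0N c → pcN c (epN c p) = p ∧ rqN c (flN c (epN c p)) < rpN c p) ∧
  (∀ q < cQ c + 1, flN c (efN c q) = q ∧ rpN c (pcN c (efN c q)) < rqN c q)

/-! ### Presentations -/

/-- generator `x_i` of the piece `p` -/
def gx (p i : ℕ) : ℕ := Nat.pair 0 (Nat.pair p i)
/-- the central generator of the piece `p` -/
def gc (p : ℕ) : ℕ := Nat.pair 1 p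
/-- the generators of the flat `q` -/
def ga (q s : ℕ) : ℕ := Nat.pair 2 (Nat.pair q s)
/-- the generator of the edge `e` -/
def gy (e : ℕ) : ℕ := Nat.pair 3 e

/-- the word `x ^ n` for a coded integer `n` and a word `x` -/
def pwW (x : Wd) (n : PI) : Wd :=
  (List.replicate n.1 x).flatten ++ (List.replicate n.2 (FreeGroup.invRev x)).flatten

/-- the word `w` of the edge `e`, in the generators of the presentation -/
def wG (c : Cd) (e : ℕ) : Wd :=
  (wN c e).filterMap fun x => if x.1 < rkN c (pcN c e) then some (gx (pcN c e) x.1, x.2) else none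

/-- the relator of the edge `e` for the basis vector number `s` (`s = 0, 1`):
`a_s y (w ^ (dt v ze) c ^ (dt om v))⁻¹ y⁻¹` -/
def relE (c : Cd) (e s : ℕ) : Wd :=
  [(ga (flN c e) s, true), (gy e, true)] ++
  FreeGroup.invRev (pwW (wG c e) (pdt (if s = 0 then ((1, 0), (0, 0)) else ((0, 0), (1, 0)))
      (zeN c e)) ++
    pwW [(gc (pcN c e), true)] (pdt (omN c e)
      (if s = 0 then ((1, 0), (0, 0)) else ((0, 0), (1, 0))))) ++
  [(gy e, false)]

/-- commutator word -/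
def cmW (i j : ℕ) : Wd := [(i, true), (j, true), (i, false), (j, false)]

/-- the number `j` is used as a generator -/
def UsedN (c : Cd) (j : ℕ) : Prop :=
  (j.unpair.1 = 0 ∧ j.unpair.2.unpair.1 < cP c + 1 ∧
    j.unpair.2.unpair.2 < rkN c j.unpair.2.unpair.1) ∨
  (j.unpair.1 = 1 ∧ j.unpair.2 < cP c + 1) ∨
  (j.unpair.1 = 2 ∧ j.unpair.2.unpair.1 < cQ c + 1 ∧ j.unpair.2.unpair.2 < 2) ∨
  (j.unpair.1 = 3 ∧ j.unpair.2 < cE c + 1)

/-- relators -/
inductive RelC (c : Cd) : Wd → Prop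
  | comm (p i : ℕ) : p < cP c + 1 → i < rkN c p → RelC c (cmW (gx p i) (gc p))
  | flat (q : ℕ) : q < cQ c + 1 → RelC c (cmW (ga q 0) (ga q 1))
  | edge (e s : ℕ) : e < cE c + 1 → s < 2 → RelC c (relE c e s)
  | treeP (p : ℕ) : p < cP c + 1 → p ≠ p0N c → RelC c [(gy (epN c p), true)]
  | treeQ (q : ℕ) : q < cQ c + 1 → RelC c [(gy (efN c q), true)]
  | unused (j : ℕ) : ¬ UsedN c j → RelC c [(j, true)]

/-! ### Matchings -/

/-- matchings: digits of `sp`, `sf`, `se` and of the signs -/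
abbrev Mt : Type := ℕ × ℕ × ℕ × ℕ × ℕ

def spN (c : Cd) (t : Mt) (p : ℕ) : ℕ := CB.dg (cP c) t.1 p
def sfN (c : Cd) (t : Mt) (q : ℕ) : ℕ := CB.dg (cQ c) t.2.1 q
def seN (c : Cd) (t : Mt) (e : ℕ) : ℕ := CB.dg (cE c) t.2.2.1 e
def eN (t : Mt) (p : ℕ) : ℕ := CB.dg 1 t.2.2.2.1 p
def dN (t : Mt) (q : ℕ) : ℕ := CB.dg 1 t.2.2.2.2 q

/-- combinatorial conditions on a matching -/
def MatN (c c' : Cd) (t : Mt) : Prop :=
  c'.1 = c.1 ∧
  (∀ p < cP c + 1, ∀ p' < cP c + 1, spN c t p = spN c t p' → p = p') ∧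
  (∀ q < cQ c + 1, ∀ q' < cQ c + 1, sfN c t q = sfN c t q' → q = q') ∧
  (∀ e < cE c + 1, ∀ e' < cE c + 1, seN c t e = seN c t e' → e = e') ∧
  (∀ e < cE c + 1, pcN c' (seN c t e) = spN c t (pcN c e) ∧
    flN c' (seN c t e) = sfN c t (flN c e)) ∧
  (∀ p < cP c + 1, rkN c' (spN c t p) = rkN c p) ∧
  ∀ e < cE c + 1, ∀ f < cE c + 1, flN c e = flN c f →
    PEq (sg (dN t (flN c e) + eN t (pcN c e)) (pdt (zeN c e) (zeN c f)))
      (sg (eN t (pcN c f)) (pdt (zeN c' (seN c t e)) (zeN c' (seN c t f))))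

/-- linear systems: number of unknowns, and equations -/
abbrev Sys : Type := ℕ × List (List PI × PI)

/-- solvability over the integers -/
def Sol (s : Sys) : Prop := ∃ τ : ℕ → ℤ, ∀ r ∈ s.2,
  ∑ x ∈ Finset.range s.1, iv (r.1.getD x (0, 0)) * τ x = iv r.2

/-- exponent sum -/
def exN (x : ℕ) (l : Wd) : PI := (l.count (x, true), l.count (x, false))

/-- the equation for the edges `e`, `f` -/
def rowN (c c' : Cd) (t : Mt) (p e f : ℕ) : List PI × PI :=
  if pcN c e = p ∧ flN c e = flN c f ∧ ¬ e = f then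
    ((List.range (rkN c p)).map fun x => pmul (pdt (zeN c e) (zeN c f)) (exN x (wN c e)),
      psub (sg (eN t p) (pdt (omN c e) (zeN c f)))
        (sg (eN t (pcN c f)) (pdt (omN c' (seN c t e)) (zeN c' (seN c t f)))))
  else ([], (0, 0))

/-- the linear system of the piece `p` -/
def sysN (c c' : Cd) (t : Mt) (p : ℕ) : Sys :=
  (rkN c p, (List.range (cE c + 1)).flatMap fun e =>
    (List.range (cE c + 1)).map fun f => rowN c c' t p e f)

/-- tuples of words -/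
abbrev Tup : Type := List Wd

/-- equivalence of tuples of conjugacy classes under automorphisms -/
def AutEq (n : ℕ) (W W' : Tup) : Prop :=
  W.length = W'.length ∧ ∃ θ : FreeGroup (Fin n) ≃* FreeGroup (Fin n),
    ∀ i < W.length, IsConj (θ (dl n (W.getD i []))) (dl n (W'.getD i []))

/-- the words at the piece `p` -/
def WL (c : Cd) (p : ℕ) : Tup :=
  (List.range (cE c + 1)).map fun e => if pcN c e = p then wN c e else []

/-- the corresponding words of the second code -/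
def WL' (c c' : Cd) (t : Mt) (p : ℕ) : Tup :=
  (List.range (cE c + 1)).map fun e => if pcN c e = p then
    (if (eN t p + dN t (flN c e)) % 2 = 1 then FreeGroup.invRev (wN c' (seN c t e))
      else wN c' (seN c t e)) else []

/-- the matching is an equivalence -/
def GoodM (c c' : Cd) (t : Mt) : Prop :=
  MatN c c' t ∧ (∀ p < cP c + 1, Sol (sysN c c' t p)) ∧
    ∀ p < cP c + 1, AutEq (rkN c p) (WL c p) (WL' c c' t p)

/-- bounds for the numbers of a matching -/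
def InB (c : Cd) (t : Mt) : Prop :=
  t.1 < (cP c + 1) ^ (cP c + 1) ∧ t.2.1 < (cQ c + 1) ^ (cQ c + 1) ∧
    t.2.2.1 < (cE c + 1) ^ (cE c + 1) ∧ t.2.2.2.1 < 2 ^ (cP c + 1) ∧ t.2.2.2.2 < 2 ^ (cQ c + 1)

end AdmIso
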