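import Pool.Agent.Lib.MP_32d917_al_adm.F01

/-!
# F02: the groups `FZ n`

`fz_iso`: `Φ` maps the centre `{(1, t)}` onto the centre (`fz_cen`), so `Φ (1, t) = (1, t ^ ε)` with
`ε = ±1` (automorphism of `ℤ`). `φ x = (Φ (x, 1)).1` is a homomorphism, with the inverse
`y ↦ (Φ.symm (y, 1)).1` (the second components do not matter as `(Φ (1, t)).1 = 1`), and
`τ x = (Φ (x, 1)).2`.

`fz_emb`: some `v0` has `(j v0).1 = w0 ≠ 1` (otherwise `j` would be an injective homomorphism of
`ℤ × ℤ` to `ℤ`). Let `r` be as in `fg_cent` for `w0`. All `(j v).1` commute with `w0`, so are powers of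
`r`; `r` commutes with `w0`; `r ≠ 1`. Everything which commutes with `r` commutes with `w0`, hence is
a power of `r`. The elements `(r, 1)` and `(1, t)` commute with all `j v`, so they are in the image of
`j`. So `j v = (r ^ λ v, μ v)` with `(λ, μ) : ℤ × ℤ → ℤ × ℤ` additive and bijective; so the matrix is
invertible: `λ v = dt v ze`, `μ v = dt om v` for suitable `ze`, `om` and `dt om ze = ±1` is the
determinant. If it is `-1` replace `r` by `r⁻¹` and `ze` by `-ze`.

`emb_inj`: `dt v ze = 0` and `dt om v = 0` imply `v = 0`: `v = (dt v ze) om + (dt om v) ze` as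
`dt om ze = 1`. `emb_range`: `(w ^ a, b) = emb (a om + b ze)`.
-/

set_option autoImplicit false

namespace AdmIso

theorem fz_comm2 {n : ℕ} (z a b : FZ n) (hab : a * b ≠ b * a) (ha : z * a = a * z)
    (hb : z * b = b * z) : z.1 = 1 := by
  by_contra hz
  apply hab
  apply Prod.ext
  · exact fg_comm_trans hz (congrArg Prod.fst ha).symm (congrArg Prod.fst hb).symm
  · exact mul_comm _ _

theorem fz_cen {n : ℕ} (hn : 2 ≤ n) (z : FZ n) : (∀ h, z * h = h * z) ↔ z.1 = 1 := by
  constructor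
  · intro h
    obtain ⟨x, y, hxy⟩ := fg_nc n hn
    refine fz_comm2 z (x, 1) (y, 1) (fun h1 => hxy (congrArg Prod.fst h1)) (h _) (h _)
  · intro hz h
    apply Prod.ext
    · show z.1 * h.1 = h.1 * z.1
      rw [hz, one_mul, mul_one]
    · exact mul_comm _ _

theorem f02_cen {n m : ℕ} (hn : 2 ≤ n) (hm : 2 ≤ m) (Φ : FZ n ≃* FZ m) (t : Multiplicative ℤ) :
    (Φ (1, t)).1 = 1 := by
  rw [← fz_cen hm]
  intro h
  obtain ⟨k, rfl⟩ := Φ.surjective h
  rw [← map_mul, ← map_mul, (fz_cen hn (1, t)).2 rfl k]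

theorem f02_split {n m : ℕ} (Φ : FZ n ≃* FZ m) (x : FreeGroup (Fin n)) (t : Multiplicative ℤ) :
    Φ (x, t) = Φ (x, 1) * Φ (1, t) := by
  rw [← map_mul]
  congr 1
  apply Prod.ext
  · exact (mul_one x).symm
  · exact (one_mul t).symm

theorem f02_pow (c : Multiplicative ℤ →* Multiplicative ℤ) (t : Multiplicative ℤ) :
    c t = t ^ (c (Multiplicative.ofAdd 1)).toAdd := by
  have h1 : t = Multiplicative.ofAdd 1 ^ t.toAdd := by
    rw [← ofAdd_zsmul]
    simp
  conv_lhs => rw [h1, map_zpow]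
  apply Multiplicative.toAdd.injective
  rw [toAdd_zpow, toAdd_zpow, smul_eq_mul, smul_eq_mul, mul_comm]

theorem fz_iso {n m : ℕ} (hn : 2 ≤ n) (hm : 2 ≤ m) (Φ : FZ n ≃* FZ m) :
    ∃ (φ : FreeGroup (Fin n) ≃* FreeGroup (Fin m)) (τ : FreeGroup (Fin n) →* Multiplicative ℤ)
      (ε : ℤˣ), ∀ x t, Φ (x, t) = (φ x, τ x * t ^ (ε : ℤ)) := by
  let c : Multiplicative ℤ →* Multiplicative ℤ :=
    (MonoidHom.snd _ _).comp (Φ.toMonoidHom.comp (MonoidHom.inr _ _))
  let c' : Multiplicative ℤ →* Multiplicative ℤ :=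
    (MonoidHom.snd _ _).comp (Φ.symm.toMonoidHom.comp (MonoidHom.inr _ _))
  have hc : ∀ t, c t = (Φ (1, t)).2 := fun t => rfl
  have hc' : ∀ t, c' t = (Φ.symm (1, t)).2 := fun t => rfl
  have hΦ1 : ∀ t, Φ (1, t) = (1, c t) := fun t => Prod.ext (f02_cen hn hm Φ t) rfl
  have hΦ1' : ∀ t, Φ.symm (1, t) = (1, c' t) := fun t =>
    Prod.ext (f02_cen hm hn Φ.symm t) rfl
  have hcc : ∀ t, c' (c t) = t := by
    intro t
    have h1 : Φ.symm (Φ (1, t)) = (1, t) := Φ.symm_apply_apply _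
    rw [hΦ1, hΦ1'] at h1
    exact congrArg Prod.snd h1
  have hmul : (c (Multiplicative.ofAdd 1)).toAdd * (c' (Multiplicative.ofAdd 1)).toAdd = 1 := by
    have h1 := hcc (Multiplicative.ofAdd 1)
    rw [f02_pow c' (c (Multiplicative.ofAdd 1))] at h1
    have h2 := congrArg Multiplicative.toAdd h1
    rw [toAdd_zpow, smul_eq_mul, toAdd_ofAdd] at h2
    rw [mul_comm]
    exact h2
  let ε : ℤˣ := ⟨(c (Multiplicative.ofAdd 1)).toAdd, (c' (Multiplicative.ofAdd 1)).toAdd, hmul,
    by rw [mul_comm]; exact hmul⟩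
  have hε : (ε : ℤ) = (c (Multiplicative.ofAdd 1)).toAdd := rfl
  let φ₀ : FreeGroup (Fin n) →* FreeGroup (Fin m) :=
    (MonoidHom.fst _ _).comp (Φ.toMonoidHom.comp (MonoidHom.inl _ _))
  let ψ₀ : FreeGroup (Fin m) →* FreeGroup (Fin n) :=
    (MonoidHom.fst _ _).comp (Φ.symm.toMonoidHom.comp (MonoidHom.inl _ _))
  have hφ₀ : ∀ x, φ₀ x = (Φ (x, 1)).1 := fun x => rfl
  have hψ₀ : ∀ x, ψ₀ x = (Φ.symm (x, 1)).1 := fun x => rfl
  have hfst : ∀ x t, (Φ (x, t)).1 = φ₀ x := by
    intro x t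
    rw [f02_split]
    show (Φ (x, 1)).1 * (Φ (1, t)).1 = _
    rw [f02_cen hn hm, mul_one]
    rfl
  have hfst' : ∀ x t, (Φ.symm (x, t)).1 = ψ₀ x := by
    intro x t
    rw [f02_split]
    show (Φ.symm (x, 1)).1 * (Φ.symm (1, t)).1 = _
    rw [f02_cen hm hn, mul_one]
    rfl
  have h1 : ∀ x, ψ₀ (φ₀ x) = x := by
    intro x
    have h2 : Φ.symm (Φ (x, 1)) = (x, 1) := Φ.symm_apply_apply _
    have h3 : Φ (x, 1) = (φ₀ x, (Φ (x, 1)).2) := rfl
    rw [h3] at h2
    rw [← hfst' (φ₀ x) (Φ (x, 1)).2, h2]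
  have h2 : ∀ y, φ₀ (ψ₀ y) = y := by
    intro y
    have h2 : Φ (Φ.symm (y, 1)) = (y, 1) := Φ.apply_symm_apply _
    have h3 : Φ.symm (y, 1) = (ψ₀ y, (Φ.symm (y, 1)).2) := rfl
    rw [h3] at h2
    rw [← hfst (ψ₀ y) (Φ.symm (y, 1)).2, h2]
  let φ : FreeGroup (Fin n) ≃* FreeGroup (Fin m) :=
    { toFun := φ₀, invFun := ψ₀, left_inv := h1, right_inv := h2, map_mul' := map_mul φ₀ }
  refine ⟨φ, (MonoidHom.snd _ _).comp (Φ.toMonoidHom.comp (MonoidHom.inl _ _)), ε,
    fun x t => ?_⟩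
  apply Prod.ext
  · exact hfst x t
  · rw [f02_split]
    show (Φ (x, 1)).2 * (Φ (1, t)).2 = (Φ (x, 1)).2 * t ^ (ε : ℤ)
    rw [← hc, hε, ← f02_pow]

theorem f02_dt (a b : ℤ) (v1 v2 v : ℤ × ℤ)
    (h : v = (a * v1.1 + b * v2.1, a * v1.2 + b * v2.2)) :
    dt v v2 = a * dt v1 v2 ∧ dt v1 v = b * dt v1 v2 := by
  subst h
  constructor <;> simp only [dt] <;> ring

theorem fz_emb {n : ℕ} (j : A2 →* FZ n) (hj : Function.Injective j)
    (hm : ∀ x, (∀ v, x * j v = j v * x) → ∃ v, j v = x) :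
    ∃ (w : FreeGroup (Fin n)) (ze om : ℤ × ℤ), dt om ze = 1 ∧ w ≠ 1 ∧
      (∀ x, x * w = w * x → ∃ k : ℤ, x = w ^ k) ∧
      ∀ v : A2, j v = (w ^ dt v.toAdd ze, Multiplicative.ofAdd (dt om v.toAdd)) := by
  -- some element has a nontrivial first component
  have hv0 : ∃ v0, (j v0).1 ≠ 1 := by
    by_contra hcon
    push Not at hcon
    set u1 : A2 := Multiplicative.ofAdd (1, 0) with hu1
    set u2 : A2 := Multiplicative.ofAdd (0, 1) with hu2
    set a := (j u1).2.toAdd with ha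
    set b := (j u2).2.toAdd with hb
    have h1 : j (u1 ^ b) = j (u2 ^ a) := by
      rw [map_zpow, map_zpow]
      apply Prod.ext
      · show (j u1).1 ^ b = (j u2).1 ^ a
        rw [hcon, hcon, one_zpow, one_zpow]
      · show (j u1).2 ^ b = (j u2).2 ^ a
        apply Multiplicative.toAdd.injective
        rw [toAdd_zpow, toAdd_zpow, ← ha, ← hb, smul_eq_mul, smul_eq_mul, mul_comm]
    have h2 := hj h1
    have h3 := congrArg Multiplicative.toAdd h2
    rw [toAdd_zpow, toAdd_zpow, hu1, hu2, toAdd_ofAdd, toAdd_ofAdd] at h3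
    have hb0 : b = 0 := by simpa using congrArg Prod.fst h3
    have h4 : j u2 = j 1 := by
      rw [map_one]
      apply Prod.ext
      · exact hcon u2
      · apply Multiplicative.toAdd.injective
        exact hb0
    have h5 := congrArg Multiplicative.toAdd (hj h4)
    rw [hu2, toAdd_ofAdd, toAdd_one] at h5
    have := congrArg Prod.snd h5
    simp at this
  obtain ⟨v0, hv0⟩ := hv0
  obtain ⟨r, hr⟩ := fg_cent (j v0).1 hv0
  have hcomm : ∀ v v', j v * j v' = j v' * j v := by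
    intro v v'
    rw [← map_mul, ← map_mul, mul_comm]
  have hpow : ∀ v, ∃ k : ℤ, (j v).1 = r ^ k := fun v =>
    (hr _).1 (congrArg Prod.fst (hcomm v v0))
  choose la hla using hpow
  have hr1 : r ≠ 1 := by
    intro h
    have h1 := hla v0
    rw [h, one_zpow] at h1
    exact hv0 h1
  have hroot : ∀ x, x * r = r * x → ∃ k : ℤ, x = r ^ k := by
    intro x hx
    rw [← hr, hla v0]
    exact (Commute.zpow_right (show Commute x r from hx) _)
  obtain ⟨v1, hv1⟩ := hm (r, 1) (fun v => by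
    apply Prod.ext
    · show r * (j v).1 = (j v).1 * r
      rw [hla v]
      exact (Commute.zpow_right (Commute.refl r) _)
    · exact mul_comm _ _)
  obtain ⟨v2, hv2⟩ := hm (1, Multiplicative.ofAdd 1) (fun v => by
    apply Prod.ext
    · show 1 * (j v).1 = (j v).1 * 1
      rw [one_mul, mul_one]
    · exact mul_comm _ _)
  have hgen : ∀ v : A2, v = v1 ^ la v * v2 ^ (j v).2.toAdd := by
    intro v
    apply hj
    rw [map_mul, map_zpow, map_zpow, hv1, hv2]
    apply Prod.ext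
    · show (j v).1 = r ^ la v * 1 ^ (j v).2.toAdd
      rw [one_zpow, mul_one, hla v]
    · show (j v).2 = 1 ^ la v * Multiplicative.ofAdd 1 ^ (j v).2.toAdd
      rw [one_zpow, one_mul, ← ofAdd_zsmul]
      simp
  have hgen' : ∀ v : A2, v.toAdd = (la v * v1.toAdd.1 + (j v).2.toAdd * v2.toAdd.1,
      la v * v1.toAdd.2 + (j v).2.toAdd * v2.toAdd.2) := by
    intro v
    have h1 := congrArg Multiplicative.toAdd (hgen v)
    rw [toAdd_mul, toAdd_zpow, toAdd_zpow] at h1
    rw [h1]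
    apply Prod.ext <;> simp
  set D := dt v1.toAdd v2.toAdd with hD
  have hdt : ∀ v : A2, dt v.toAdd v2.toAdd = la v * D ∧ dt v1.toAdd v.toAdd =
      (j v).2.toAdd * D := fun v => f02_dt _ _ _ _ _ (hgen' v)
  have hD2 : D * D = 1 := by
    -- the determinant divides the determinant of the standard basis
    have e1 := hdt (Multiplicative.ofAdd (1, 0))
    have e2 := hdt (Multiplicative.ofAdd (0, 1))
    have f1 := hgen' (Multiplicative.ofAdd (1, 0))
    have f2 := hgen' (Multiplicative.ofAdd (0, 1))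
    rw [toAdd_ofAdd] at f1 f2
    have g1 := congrArg Prod.fst f1
    have g2 := congrArg Prod.snd f1
    have g3 := congrArg Prod.fst f2
    have g4 := congrArg Prod.snd f2
    simp only at g1 g2 g3 g4
    have hdet : (la (Multiplicative.ofAdd (1, 0)) * (j (Multiplicative.ofAdd (0, 1))).2.toAdd -
        (j (Multiplicative.ofAdd (1, 0))).2.toAdd * la (Multiplicative.ofAdd (0, 1))) * D = 1 := by
      rw [hD, dt]
      generalize la (Multiplicative.ofAdd (1, 0)) = a1 at *
      generalize la (Multiplicative.ofAdd (0, 1)) = a2 at *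
      generalize (j (Multiplicative.ofAdd (1, 0))).2.toAdd = b1 at *
      generalize (j (Multiplicative.ofAdd (0, 1))).2.toAdd = b2 at *
      linear_combination (-(a2 * v1.toAdd.2 + b2 * v2.toAdd.2)) * g1 - g4 +
        (a2 * v1.toAdd.1 + b2 * v2.toAdd.1) * g2
    have hu : IsUnit D := IsUnit.of_mul_eq_one _ (by rw [mul_comm]; exact hdet)
    rcases Int.isUnit_iff.1 hu with h | h <;> rw [h] <;> norm_num
  refine ⟨r ^ D, v2.toAdd, (D * v1.toAdd.1, D * v1.toAdd.2), ?_, ?_, ?_, ?_⟩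
  · have : dt (D * v1.toAdd.1, D * v1.toAdd.2) v2.toAdd = D * D := by
      rw [hD]
      simp only [dt]
      ring
    rw [this, hD2]
  · intro h
    apply hr1
    have : r = (r ^ D) ^ D := by rw [← zpow_mul, hD2, zpow_one]
    rw [this, h, one_zpow]
  · intro x hx
    have h1 : x * r = r * x := by
      have : r = (r ^ D) ^ D := by rw [← zpow_mul, hD2, zpow_one]
      rw [this]
      exact (Commute.zpow_right (show Commute x (r ^ D) from hx) _)
    obtain ⟨k, hk⟩ := hroot x h1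
    refine ⟨D * k, ?_⟩
    rw [hk, ← zpow_mul, ← mul_assoc, hD2, one_mul]
  · intro v
    obtain ⟨h1, h2⟩ := hdt v
    apply Prod.ext
    · show (j v).1 = (r ^ D) ^ dt v.toAdd v2.toAdd
      rw [h1, ← zpow_mul, hla v]
      congr 1
      rw [mul_comm (la v), ← mul_assoc, hD2, one_mul]
    · show (j v).2 = Multiplicative.ofAdd (dt (D * v1.toAdd.1, D * v1.toAdd.2) v.toAdd)
      have h3 : dt (D * v1.toAdd.1, D * v1.toAdd.2) v.toAdd = (j v).2.toAdd := by
        have : dt (D * v1.toAdd.1, D * v1.toAdd.2) v.toAdd = D * dt v1.toAdd v.toAdd := by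
          simp only [dt]
          ring
        rw [this, h2, mul_comm, mul_assoc, hD2, mul_one]
      rw [h3, ofAdd_toAdd]

theorem vec_eq (om ze v : ℤ × ℤ) (h : dt om ze = 1) :
    v = (dt v ze * om.1 + dt om v * ze.1, dt v ze * om.2 + dt om v * ze.2) := by
  simp only [dt] at h ⊢
  apply Prod.ext
  · show v.1 = _
    linear_combination (-v.1) * h
  · show v.2 = _
    linear_combination (-v.2) * h

section

variable {P Q E : Type} (D : Dat P Q E)

theorem emb_ze (e : E) (h : dt (D.om e) (D.ze e) = 1) (m : ℤ) :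
    D.emb e (Multiplicative.ofAdd (D.ze e) ^ m) = (1, Multiplicative.ofAdd m) := by
  rw [Dat.emb_apply, toAdd_zpow, toAdd_ofAdd]
  apply Prod.ext
  · show _ ^ dt (m • D.ze e) (D.ze e) = 1
    have : dt (m • D.ze e) (D.ze e) = 0 := by
      simp only [dt, Prod.smul_fst, Prod.smul_snd, smul_eq_mul]
      ring
    rw [this, zpow_zero]
  · show Multiplicative.ofAdd (dt (D.om e) (m • D.ze e)) = Multiplicative.ofAdd m
    congr 1
    simp only [dt, Prod.smul_fst, Prod.smul_snd, smul_eq_mul] at h ⊢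
    linear_combination m * h

theorem emb_inj (e : E) (h : dt (D.om e) (D.ze e) = 1) (hw : D.w (D.pc e) e ≠ 1) :
    Function.Injective (D.emb e) := by
  rw [injective_iff_map_eq_one]
  intro v hv
  rw [Dat.emb_apply] at hv
  have h1 : D.w (D.pc e) e ^ dt v.toAdd (D.ze e) = 1 := congrArg Prod.fst hv
  have h2 : dt (D.om e) v.toAdd = 0 := by
    have := congrArg Prod.snd hv
    simpa using this
  have h3 : dt v.toAdd (D.ze e) = 0 := by
    by_contra hne
    exact hw (zpow_left_injective hne (by simpa using h1))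
  have h4 := vec_eq (D.om e) (D.ze e) v.toAdd h
  rw [h2, h3] at h4
  apply Multiplicative.toAdd.injective
  rw [h4]
  simp

theorem emb_range (e : E) (h : dt (D.om e) (D.ze e) = 1) (x : FZ (D.rk (D.pc e))) :
    (∃ v, D.emb e v = x) ↔ ∃ k : ℤ, x.1 = D.w (D.pc e) e ^ k := by
  constructor
  · rintro ⟨v, rfl⟩
    exact ⟨dt v.toAdd (D.ze e), rfl⟩
  · rintro ⟨k, hk⟩
    refine ⟨Multiplicative.ofAdd (k * (D.om e).1 + x.2.toAdd * (D.ze e).1,
      k * (D.om e).2 + x.2.toAdd * (D.ze e).2), ?_⟩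
    rw [Dat.emb_apply, toAdd_ofAdd]
    apply Prod.ext
    · show _ ^ dt _ (D.ze e) = x.1
      rw [hk]
      congr 1
      simp only [dt] at h ⊢
      linear_combination k * h
    · show Multiplicative.ofAdd (dt (D.om e) _) = x.2
      apply Multiplicative.toAdd.injective
      rw [toAdd_ofAdd]
      simp only [dt] at h ⊢
      linear_combination x.2.toAdd * h

end

end AdmIso
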