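import Pool.Agent.Lib.MP_32d917_al_adm.T07

/-!
# T08: realisation

Choose `vp`, `fq` by T07 and apply `dev`.
-/

set_option autoImplicit false

namespace AdmIso

open LatIso

section

variable {P Q E : Type} {D : Dat P Q E} {G : Type} [Group G] {V : Type} [MulAction G V]
  {T : SimpleGraph V} {Fl : Set V}

theorem real_fx (S : Sy D G) (fq : Q → V) (h2 : ∀ q v, S.al q v • fq q = fq q) {p : P} {e : E}
    (hp : D.pc e = p) (v : A2) :
    S.be p (D.embp p e v) • (S.y e)⁻¹ • fq (D.fl e) = (S.y e)⁻¹ • fq (D.fl e) := by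
  have hr : S.be p (D.embp p e v) = (S.y e)⁻¹ * (S.al (D.fl e) v * S.y e) := by
    rw [S.relp hp v, inv_mul_cancel_left]
  rw [hr, ← mul_smul, mul_assoc, mul_assoc, mul_inv_cancel, mul_one, mul_smul, h2]

theorem real_root (hD : D.Valid) {p : P} {e : E} (hp : D.pc e = p) (x : FreeGroup (Fin (D.rk p)))
    (hx : x * D.w p e = D.w p e * x) : ∃ k : ℤ, x = D.w p e ^ k := by
  subst hp
  exact hD.root e x hx

theorem real_ne (hD : D.Valid) {p : P} {e : E} (hp : D.pc e = p) : D.w p e ≠ 1 := by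
  subst hp
  exact hD.ne e

theorem real_h4 (h : Adm G T Fl) (hD : D.Valid) (S : Sy D G)
    (hI : ∀ p, Function.Injective (S.be p)) (fq : Q → V) (hF : ∀ q, fq q ∈ Fl)
    (h2 : ∀ q v, S.al q v • fq q = fq q) (p : P) (e e' : E) (x : FZ (D.rk p))
    (hp : D.pc e = p) (hp' : D.pc e' = p)
    (hx : S.be p x • (S.y e)⁻¹ • fq (D.fl e) = (S.y e')⁻¹ • fq (D.fl e')) :
    e = e' ∧ ∃ v, S.be (D.pc e) (D.emb e v) = S.be p x := by
  -- the two first components commute
  have hcom : (x.1 * D.w p e * x.1⁻¹) * D.w p e' = D.w p e' * (x.1 * D.w p e * x.1⁻¹) := by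
    have hfF : (S.y e')⁻¹ • fq (D.fl e') ∈ Fl := h.flat _ _ (hF _)
    have hg : (S.be p (x * D.embp p e (Multiplicative.ofAdd (D.om e)) * x⁻¹)) •
        ((S.y e')⁻¹ • fq (D.fl e')) = (S.y e')⁻¹ • fq (D.fl e') := by
      rw [← hx, map_mul, map_mul, map_inv, mul_smul, inv_smul_smul, mul_smul,
        real_fx S fq h2 hp]
    have hk := real_fx S fq h2 hp' (Multiplicative.ofAdd (D.om e'))
    have hc := adm_flatab h hfF hg hk
    rw [← map_mul, ← map_mul] at hc
    have hc' := congrArg Prod.fst (hI p hc)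
    have d1 : dt (D.om e) (D.ze e) = 1 := hD.det e
    have d2 : dt (D.om e') (D.ze e') = 1 := hD.det e'
    simpa [Dat.embp_apply, d1, d2] using hc'
  obtain ⟨k, hk⟩ := real_root hD hp' _ hcom
  have hcom2 : (x.1⁻¹ * D.w p e' * x.1) * D.w p e = D.w p e * (x.1⁻¹ * D.w p e' * x.1) := by
    have h1 := congrArg (fun z => x.1⁻¹ * z * x.1) hcom
    simp only [mul_assoc, inv_mul_cancel_left, inv_mul_cancel, mul_one] at h1
    simp only [mul_assoc]
    exact h1.symm
  obtain ⟨l, hl⟩ := real_root hD hp _ hcom2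
  have hw' := real_ne hD hp'
  have hkl : D.w p e' ^ (k * l) = D.w p e' := by
    rw [zpow_mul, ← hk, conj_zpow, ← hl]
    group
  have hkl1 : k * l = 1 := by
    have h1 : D.w p e' ^ (k * l) = D.w p e' ^ (1 : ℤ) := by rw [hkl, zpow_one]
    exact injective_zpow_iff_not_isOfFinOrder.mpr (not_isOfFinOrder_of_isMulTorsionFree hw') h1
  have hk1 : k = 1 ∨ k = -1 := Int.eq_one_or_neg_one_of_mul_eq_one hkl1
  have hee : e = e' := by
    by_contra hne
    obtain ⟨s1, s2⟩ := hD.sep p e e' hp hp' hne x.1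
    rcases hk1 with h1 | h1
    · rw [h1, zpow_one] at hk
      exact s1 hk
    · rw [h1, zpow_neg_one] at hk
      exact s2 hk
  subst hee
  refine ⟨rfl, ?_⟩
  subst hp
  have hk2 : k = 1 := by
    rcases hk1 with h1 | h1
    · exact h1
    · rw [h1, zpow_neg_one] at hk
      exact absurd hk (fg_inv hw')
  rw [hk2, zpow_one] at hk
  have hcx : x.1 * D.w (D.pc e) e = D.w (D.pc e) e * x.1 := by
    conv_rhs => rw [← hk]
    group
  obtain ⟨m, hm⟩ := hD.root e x.1 hcx
  obtain ⟨v, hv⟩ := (emb_range D e (hD.det e) x).mpr ⟨m, hm⟩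
  exact ⟨v, by rw [hv]⟩

theorem real (h : Adm G T Fl) (hD : D.Valid) (S : Sy D G) {p0 : P} {ep : P → E} {ef : Q → E}
    {rp : P → ℕ} {rq : Q → ℕ} (hTr : IsTr D p0 ep ef rp rq) (hN : S.Nor p0 ep ef) (hG : S.Gen)
    (hI : ∀ p, Function.Injective (S.be p)) :
    ∃ (vp : P → V) (fq : Q → V), Rz D G T Fl S vp fq := by
  choose vp hvN hvf using exists_vp h hD S hI
  choose fq hF hal hadj using exists_fq h hD S hI vp hvN hvf
  have h5 := u_ne h hD S hI vp hvN hvf
  have hdev := dev h.tree h.adj S hTr hN hG vp fq hvf hal (fun e => hadj _ e rfl)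
    (real_h4 h hD S hI fq hF hal) h5
  obtain ⟨d1, d2, d3, d4, d5⟩ := hdev
  have hall : ∀ v : V, v ∈ {v | (∃ p, ∃ g : G, g • vp p = v) ∨ ∃ q, ∃ g : G, g • fq q = v} := by
    intro v
    refine adm_min h _ ⟨vp p0, Or.inl ⟨p0, 1, one_smul _ _⟩⟩ ?_ d5 v
    rintro g x (⟨p, g', hg'⟩ | ⟨q, g', hg'⟩)
    · exact Or.inl ⟨p, g * g', by rw [mul_smul, hg']⟩
    · exact Or.inr ⟨q, g * g', by rw [mul_smul, hg']⟩
  have horp : ∀ v, v ∉ Fl → ∃ p, ∃ g : G, g • vp p = v := by
    intro v hv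
    rcases hall v with hh | ⟨q, g, hg⟩
    · exact hh
    · exact absurd (hg ▸ h.flat g _ (hF q)) hv
  have horq : ∀ v ∈ Fl, ∃ q, ∃ g : G, g • fq q = v := by
    intro v hv
    rcases hall v with ⟨p, g, hg⟩ | hh
    · rw [← hg] at hv
      exact absurd ((adm_flat_iff h g (vp p)).mp hv) (hvN p)
    · exact hh
  refine ⟨vp, fq, ?_⟩
  constructor
  · exact hvN
  · exact hF
  · exact hI
  · intro p g
    constructor
    · intro hg
      exact (d1 p p g hg).2
    · rintro ⟨x, rfl⟩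
      exact hvf p x
  · intro q g
    constructor
    · intro hg
      exact (d2 q q g hg).2
    · rintro ⟨x, rfl⟩
      exact hal q x
  · exact horp
  · exact horq
  · intro p p' g hg
    exact (d1 p p' g hg).1
  · intro q q' g hg
    exact (d2 q q' g hg).1
  · intro q v
    constructor
    · intro ha
      have hv : v ∉ Fl := (h.bip _ _ ha).mp (hF q)
      obtain ⟨p, g, rfl⟩ := horp v hv
      exact d3 q p g ha
    · rintro ⟨e, he, rfl⟩
      exact hadj q e he
  · exact h5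

end

end AdmIso
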