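import Pool.Agent.Lib.MP_32d917_al_adm.T05
import Pool.Agent.Lib.MP_32d917_al.TTL

/-!
# T09: a realisation determines the group

`S` is realised by `(G, T)` and normalised; `S'` is a normalised generating system of a group `G'` with a
homomorphism `F : G' → G` compatible with the systems. Then `F` is bijective.

Injective: let `G'` act on `V` through `F` (`MulAction.compHom V F`) and apply `dev` to `S'`. `h4`: if
`be p x (y e)⁻¹ • fq (fl e) = (y e')⁻¹ • fq (fl e')` (in `G`) then `y e' be(x) (y e)⁻¹` maps `fq (fl e)` to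
`fq (fl e')`, so `fl e = fl e'` by `unq` and it is some `al v` by `stq`; so `y e' be(x) = al(v) y e
= y e be(emb e v)`, and applied to `vp p`: `y e' • vp p = y e • vp p`, so `e = e'` by `une` and
`be(x) = be(emb e v)`. If `F k = 1` then `k • vp p0 = vp p0`, so `k = S'.be p0 x` by `dev`, and
`S.be p0 x = F k = 1`, so `x = 1` (`beI`) and `k = 1`.

Surjective: let `G0` be the range of `F`; it contains all `S.be p x`, `S.al q v`, `S.y e`. The set `V0` of all
`g • vp p`, `g • fq q` with `g ∈ G0` is closed under adjacency. For `g • fq q`: by `adj`. For `g • vp p`: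
let `f` be a neighbour, `f = g' • fq q` (`orq`, for some `g' : G`; a neighbour of a piece is a flat, this is the
hypothesis `hbip`); by `adj` `g • vp p = g' y e • vp (pc e)` for some `e` with `fl e = q`, so `pc e = p` (`unp`)
and `g⁻¹ g' y e` is some `be p x`; so `g' = g be(x) (y e)⁻¹` is in `G0`. So `V0` is everything (`ttl_ind`, start at
`vp p0`). For `g : G` the vertex `g • vp p0` is `g0 • vp p` with `g0 ∈ G0` (it is not a flat), so
`p = p0` and `g0⁻¹ g` is some `be p0 x`, so `g ∈ G0`.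
-/

set_option autoImplicit false

namespace AdmIso

open LatIso

section

variable {P Q E : Type} {D : Dat P Q E} {G : Type} [Group G] {V : Type} [MulAction G V]
  {T : SimpleGraph V} {Fl : Set V}

theorem t09_inj (hT : T.IsTree) (hadj : ∀ (g : G) (x y : V), T.Adj x y → T.Adj (g • x) (g • y))
    {S : Sy D G} {vp : P → V} {fq : Q → V} (hR : Rz D G T Fl S vp fq)
    {p0 : P} {ep : P → E} {ef : Q → E} {rp : P → ℕ} {rq : Q → ℕ} (hTr : IsTr D p0 ep ef rp rq)
    {G' : Type} [Group G'] (S' : Sy D G') (hN' : S'.Nor p0 ep ef) (hG' : S'.Gen) (F : G' →* G)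
    (hF : S'.Comp S F) : Function.Injective F := by
  letI inst : MulAction G' V := MulAction.compHom V F
  have hsm : ∀ (k : G') (v : V), k • v = F k • v := fun _ _ => rfl
  have hbe : ∀ p x, S.be p x • vp p = vp p := fun p x => (hR.stp p _).mpr ⟨x, rfl⟩
  have hal : ∀ q v, S.al q v • fq q = fq q := fun q v => (hR.stq q _).mpr ⟨v, rfl⟩
  have hd := dev hT (fun g x y hxy => hadj (F g) x y hxy) S' hTr hN' hG' vp fq
    (fun p x => by rw [hsm, hF.be, hbe])
    (fun q v => by rw [hsm, hF.al, hal])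
    (fun e => by
      rw [hsm, hF.y]
      exact (hR.adj _ _).mpr ⟨e, rfl, rfl⟩)
    (by
      intro p e e' x hp hp' hx
      rw [hsm, hsm, hsm, map_inv, map_inv, hF.be, hF.y, hF.y] at hx
      have h1 : (S.y e' * S.be p x * (S.y e)⁻¹) • fq (D.fl e) = fq (D.fl e') := by
        rw [mul_smul, mul_smul, hx, smul_inv_smul]
      have hfl := hR.unq _ _ _ h1
      rw [← hfl] at h1
      obtain ⟨v, hv⟩ := (hR.stq _ _).mp h1
      have h2 : S.y e' * S.be p x = S.y e * S.be (D.pc e) (D.emb e v) := by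
        rw [← S.rel e v, hv, inv_mul_cancel_right]
      have h3 : S.y e' • vp (D.pc e') = S.y e • vp (D.pc e) := by
        have h4 := congrArg (fun g : G => g • vp p) h2
        simp only [mul_smul] at h4
        rw [hbe] at h4
        subst hp
        rw [hbe] at h4
        rw [hp']
        exact h4
      have h5 := hR.une _ _ hfl.symm h3
      refine ⟨h5.symm, v, ?_⟩
      subst h5
      subst hp
      have h6 := mul_left_cancel h2
      rw [← hR.beI _ h6])
    (by
      intro e e' h1 h2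
      rw [hsm, hsm, hF.y, hF.y] at h2
      exact hR.une _ _ h1 h2)
  rw [injective_iff_map_eq_one]
  intro k hk
  have h1 : k • vp p0 = vp p0 := by rw [hsm, hk, one_smul]
  obtain ⟨_, x, hx⟩ := hd.1 p0 p0 k h1
  have h2 : S.be p0 x = 1 := by rw [← hF.be, hx, hk]
  have h3 : x = 1 := hR.beI p0 (by rw [h2, map_one])
  rw [← hx, h3, map_one]

theorem pi_iso (hT : T.IsTree) (hadj : ∀ (g : G) (x y : V), T.Adj x y → T.Adj (g • x) (g • y))
    (hbip : ∀ x y, T.Adj x y → (x ∈ Fl ↔ y ∉ Fl)) (hfl : ∀ (g : G) x, g • x ∈ Fl ↔ x ∈ Fl)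
    {S : Sy D G} {vp : P → V} {fq : Q → V} (hR : Rz D G T Fl S vp fq)
    {p0 : P} {ep : P → E} {ef : Q → E} {rp : P → ℕ} {rq : Q → ℕ} (hTr : IsTr D p0 ep ef rp rq)
    {G' : Type} [Group G'] (S' : Sy D G') (hN' : S'.Nor p0 ep ef) (hG' : S'.Gen) (F : G' →* G)
    (hF : S'.Comp S F) : Function.Bijective F := by
  refine ⟨t09_inj hT hadj hR hTr S' hN' hG' F hF, ?_⟩
  have hbeR : ∀ p x, S.be p x ∈ F.range := fun p x => ⟨S'.be p x, hF.be p x⟩
  have hyR : ∀ e, S.y e ∈ F.range := fun e => ⟨S'.y e, hF.y e⟩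
  have key : ∀ v : V, (∃ p, ∃ g ∈ F.range, g • vp p = v) ∨ (∃ q, ∃ g ∈ F.range, g • fq q = v) := by
    refine ttl_ind hT.connected _ (vp p0) (Or.inl ⟨p0, 1, one_mem _, one_smul _ _⟩) ?_
    rintro v v' hvv (⟨p, g, hg, rfl⟩ | ⟨q, g, hg, rfl⟩)
    · right
      have hnF : g • vp p ∉ Fl := fun h => hR.vpN p ((hfl g _).mp h)
      have hF' : v' ∈ Fl := (hbip _ _ hvv.symm).mpr hnF
      obtain ⟨q, g', rfl⟩ := hR.orq v' hF'
      have h1 : T.Adj (fq q) (g'⁻¹ • g • vp p) := by
        have := hadj g'⁻¹ _ _ hvv.symm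
        rwa [inv_smul_smul] at this
      obtain ⟨e, he, he2⟩ := (hR.adj _ _).mp h1
      have h2 : (g⁻¹ * g' * S.y e) • vp (D.pc e) = vp p := by
        rw [mul_smul, he2, mul_smul, smul_inv_smul, inv_smul_smul]
      have h3 := hR.unp _ _ _ h2
      rw [h3] at h2
      obtain ⟨x, hx⟩ := (hR.stp _ _).mp h2
      refine ⟨q, g', ?_, rfl⟩
      have h4 : g' = g * S.be p x * (S.y e)⁻¹ := by
        rw [hx]
        group
      rw [h4]
      exact mul_mem (mul_mem hg (hbeR _ _)) (inv_mem (hyR e))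
    · left
      have h1 : T.Adj (fq q) (g⁻¹ • v') := by
        have := hadj g⁻¹ _ _ hvv
        rwa [inv_smul_smul] at this
      obtain ⟨e, he, he2⟩ := (hR.adj _ _).mp h1
      refine ⟨D.pc e, g * S.y e, mul_mem hg (hyR e), ?_⟩
      rw [mul_smul, he2, smul_inv_smul]
  intro g
  rcases key (g • vp p0) with ⟨p, g0, hg0, h1⟩ | ⟨q, g0, hg0, h1⟩
  · have h2 : (g0⁻¹ * g) • vp p0 = vp p := by
      rw [mul_smul, ← h1, inv_smul_smul]
    have h3 := hR.unp _ _ _ h2
    rw [← h3] at h2
    obtain ⟨x, hx⟩ := (hR.stp _ _).mp h2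
    have h4 : g = g0 * S.be p0 x := by
      rw [hx, mul_inv_cancel_left]
    have h5 : g ∈ F.range := by
      rw [h4]
      exact mul_mem hg0 (hbeR _ _)
    exact h5
  · exfalso
    have h2 : g • vp p0 ∈ Fl := by
      rw [← h1]
      exact (hfl _ _).mpr (hR.fqF q)
    exact hR.vpN p0 ((hfl _ _).mp h2)

end

end AdmIso
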