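import Pool.Agent.Lib.MP_32d917_al_adm.T01

/-!
# T10: representatives of orbits

Choose `vp : Fin (a + 1) → V` representatives of the orbits of pieces, `fq : Fin (b + 1) → V` of the
orbits of flats; finitely many: every vertex is the end of an edge (`adm_hasflat`, `two`), the
edges have finitely many orbits (`fin`), so the vertices have finitely many orbits; both kinds exist (`ne`,
`two`, `bip`). The set of pairs `(q, v)` with `T.Adj (fq q) v` is finite: if `(fq q, v)` and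
`(fq q, v')` are in the same orbit, `g • fq q = fq q`, `g • v = v'`, then `v' = v` by `fix`; so the number of
`v` is at most the number of orbits of edges. It is not empty; number it by `e : Fin (d + 1)`,
`fl e = q`. The vertex `v` is a piece, so `v = g • vp p`; put `pc e = p`, `y e = g`.
Abstract way to number orbits: the quotient `MulAction.orbitRel.Quotient G {v // v ∉ Fl}` is finite and
not empty, so it is equivalent to some `Fin (a + 1)`; use `Quotient.out`.
-/

set_option autoImplicit false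

namespace AdmIso

open LatIso

section

variable {G : Type} [Group G] {V : Type} [MulAction G V] {T : SimpleGraph V} {Fl : Set V}

/-- representatives of the orbits in an invariant set with finitely many orbits -/
theorem t10_reps (A : Set V) (hne : A.Nonempty) (W : Finset V)
    (hW : ∀ v ∈ A, ∃ g : G, g • v ∈ W) (hA : ∀ (g : G) (v : V), v ∈ A → g • v ∈ A) :
    ∃ (a : ℕ) (vp : Fin (a + 1) → V), (∀ p, vp p ∈ A) ∧
      (∀ v ∈ A, ∃ p, ∃ g : G, g • vp p = v) ∧
      (∀ p p' (g : G), g • vp p = vp p' → p = p') := by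
  classical
  let s : Setoid A := {
    r := fun v w => ∃ g : G, g • v.1 = w.1
    iseqv := {
      refl := fun v => ⟨1, one_smul _ _⟩
      symm := by
        rintro v w ⟨g, hg⟩
        exact ⟨g⁻¹, by rw [← hg, inv_smul_smul]⟩
      trans := by
        rintro u v w ⟨g, hg⟩ ⟨k, hk⟩
        exact ⟨k * g, by rw [mul_smul, hg, hk]⟩ } }
  have hfin : Finite (Quotient s) := by
    let f : {w : V // w ∈ W ∧ w ∈ A} → Quotient s := fun w => Quotient.mk s ⟨w.1, w.2.2⟩
    have hf : Function.Surjective f := by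
      intro x
      induction x using Quotient.inductionOn with
      | h v =>
        obtain ⟨g, hg⟩ := hW v.1 v.2
        refine ⟨⟨g • v.1, hg, hA g v.1 v.2⟩, ?_⟩
        exact Quotient.sound ⟨g⁻¹, inv_smul_smul _ _⟩
    have : Finite {w : V // w ∈ W ∧ w ∈ A} :=
      Finite.of_injective (fun w => (⟨w.1, w.2.1⟩ : {w : V // w ∈ W}))
        (fun x y hxy => Subtype.ext (congrArg (fun z : {w : V // w ∈ W} => z.1) hxy))
    exact Finite.of_surjective f hf
  obtain ⟨v0, hv0⟩ := hne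
  have : Nonempty (Quotient s) := ⟨Quotient.mk s ⟨v0, hv0⟩⟩
  obtain ⟨n, ⟨e⟩⟩ := Finite.exists_equiv_fin (Quotient s)
  have hn : n ≠ 0 := by
    rintro rfl
    exact (e (Quotient.mk s ⟨v0, hv0⟩)).elim0
  obtain ⟨a, rfl⟩ := Nat.exists_eq_succ_of_ne_zero hn
  refine ⟨a, fun p => (Quotient.out (e.symm p)).1, fun p => (Quotient.out (e.symm p)).2, ?_, ?_⟩
  · intro v hv
    refine ⟨e (Quotient.mk s ⟨v, hv⟩), ?_⟩
    show ∃ g : G, g • (Quotient.out (e.symm (e (Quotient.mk s ⟨v, hv⟩)))).1 = v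
    rw [Equiv.symm_apply_apply]
    have h1 : s.r (Quotient.out (Quotient.mk s ⟨v, hv⟩)) ⟨v, hv⟩ :=
      Quotient.exact (Quotient.out_eq _)
    exact h1
  · intro p p' g hg
    have h1 : Quotient.mk s (Quotient.out (e.symm p)) = Quotient.mk s (Quotient.out (e.symm p')) :=
      Quotient.sound ⟨g, hg⟩
    rw [Quotient.out_eq, Quotient.out_eq] at h1
    exact e.symm.injective h1

theorem orb (h : Adm G T Fl) : ∃ (a b d : ℕ) (vp : Fin (a + 1) → V) (fq : Fin (b + 1) → V)
    (pc : Fin (d + 1) → Fin (a + 1)) (fl : Fin (d + 1) → Fin (b + 1)) (y : Fin (d + 1) → G),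
    (∀ p, vp p ∉ Fl) ∧ (∀ q, fq q ∈ Fl) ∧ (∀ v, v ∉ Fl → ∃ p, ∃ g : G, g • vp p = v) ∧
    (∀ v ∈ Fl, ∃ q, ∃ g : G, g • fq q = v) ∧ (∀ p p' (g : G), g • vp p = vp p' → p = p') ∧
    (∀ q q' (g : G), g • fq q = fq q' → q = q') ∧
    (∀ q v, T.Adj (fq q) v ↔ ∃ e, fl e = q ∧ y e • vp (pc e) = v) ∧
    (∀ e e', fl e = fl e' → y e • vp (pc e) = y e' • vp (pc e') → e = e') := by
  classical
  obtain ⟨F, hF⟩ := h.fin
  have hW : ∀ v : V, ∃ g : G, g • v ∈ F.image Prod.fst ∪ F.image Prod.snd := by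
    intro v
    by_cases hv : v ∈ Fl
    · obtain ⟨y, -, -, hy, -⟩ := h.two v hv
      obtain ⟨g, hg⟩ := hF v y hy
      exact ⟨g, Finset.mem_union_left _ (Finset.mem_image_of_mem Prod.fst hg)⟩
    · obtain ⟨f, -, hf⟩ := adm_hasflat h hv
      obtain ⟨g, hg⟩ := hF f v hf
      exact ⟨g, Finset.mem_union_right _ (Finset.mem_image_of_mem Prod.snd hg)⟩
  obtain ⟨x0, hx0⟩ := h.ne
  obtain ⟨y0, -, -, hy0, -⟩ := h.two x0 hx0
  have hy0' : y0 ∉ Fl := (h.bip x0 y0 hy0).1 hx0
  obtain ⟨a, vp, hvp, hvp1, hvp2⟩ := t10_reps (G := G) (Flᶜ) ⟨y0, hy0'⟩ _ (fun v _ => hW v)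
    (fun g v hv hgv => hv ((adm_flat_iff h g v).1 hgv))
  obtain ⟨b, fq, hfq, hfq1, hfq2⟩ := t10_reps (G := G) Fl ⟨x0, hx0⟩ _ (fun v _ => hW v)
    (fun g v hv => h.flat g v hv)
  have hNfin : ∀ q, Finite {v : V // T.Adj (fq q) v} := by
    intro q
    choose k hk using fun v : {v : V // T.Adj (fq q) v} => hF (fq q) v.1 v.2
    refine Finite.of_injective
      (fun v => (⟨(k v • fq q, k v • v.1), hk v⟩ : {x : V × V // x ∈ F})) ?_
    intro v v' hvv
    have h1 := Subtype.ext_iff.1 hvv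
    have h2 : k v • fq q = k v' • fq q := congrArg Prod.fst h1
    have h3 : k v • v.1 = k v' • v'.1 := congrArg Prod.snd h1
    have h4 : ((k v')⁻¹ * k v) • fq q = fq q := by
      rw [mul_smul, h2, inv_smul_smul]
    have h5 : ((k v')⁻¹ * k v) • v.1 = v.1 := adm_flat_fix h (hfq q) v.2 h4
    apply Subtype.ext
    rw [← h5, mul_smul, h3, inv_smul_smul]
  have : Finite (Σ q, {v : V // T.Adj (fq q) v}) := by
    have := hNfin
    infer_instance
  obtain ⟨q0, g0, -⟩ := hfq1 x0 hx0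
  obtain ⟨y1, -, -, hy1, -⟩ := h.two (fq q0) (hfq q0)
  obtain ⟨n, ⟨e⟩⟩ := Finite.exists_equiv_fin (Σ q, {v : V // T.Adj (fq q) v})
  have hn : n ≠ 0 := by
    rintro rfl
    exact (e ⟨q0, ⟨y1, hy1⟩⟩).elim0
  obtain ⟨d, rfl⟩ := Nat.exists_eq_succ_of_ne_zero hn
  have hpc : ∀ i : Fin (d + 1), ∃ p, ∃ g : G, g • vp p = (e.symm i).2.1 := fun i =>
    hvp1 _ ((h.bip _ _ (e.symm i).2.2).1 (hfq _))
  choose pc y hy using hpc
  refine ⟨a, b, d, vp, fq, pc, fun i => (e.symm i).1, y, hvp, hfq, fun v hv => hvp1 v hv, hfq1,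
    hvp2, hfq2, ?_, ?_⟩
  · intro q v
    constructor
    · intro hv
      refine ⟨e ⟨q, ⟨v, hv⟩⟩, ?_, ?_⟩
      · show (e.symm (e ⟨q, ⟨v, hv⟩⟩)).1 = q
        rw [Equiv.symm_apply_apply]
      · rw [hy, Equiv.symm_apply_apply]
    · rintro ⟨i, hi, hv⟩
      rw [← hv, hy, ← hi]
      exact (e.symm i).2.2
  · intro i i' hi hv
    rw [hy, hy] at hv
    apply e.symm.injective
    have key : ∀ (x x' : Σ q, {v : V // T.Adj (fq q) v}), x.1 = x'.1 → x.2.1 = x'.2.1 → x = x' := by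
      rintro ⟨q, v, hv⟩ ⟨q', v', hv'⟩ h1 h2
      simp only at h1 h2
      subst h1
      subst h2
      rfl
    exact key _ _ hi hv

end

end AdmIso
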