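import Pool.Agent.Lib.MP_32d917_al_adm.T02
import Pool.Agent.Lib.MP_32d917_al_adm.T10

/-!
# T11: existence of data

`quot`: take `orb`. Choose `rk p` and isomorphisms `be p` of `FZ (rk p)` with the stabiliser of `vp p`, `al q` of
`A2` with the stabiliser of `fq q`. For an edge `e`, `p = pc e`, `q = fl e`: `al q v` fixes `fq q`, so it fixes
`y e • vp p` (`fix`), so `(y e)⁻¹ al(v) (y e) = be p (j v)` for a unique `j v`, and `j : A2 →* FZ (rk p)` is an
injective homomorphism. If `x` commutes with all `j v` then `y e be(x) (y e)⁻¹` fixes `y e • vp p` and commutes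
with the stabiliser of `fq q`, so it fixes `fq q` by `maxl` and `x` is in the image of `j`. Use `fz_emb`; define
`w p e` by this `w` (transported: `D.w p e` for `p ≠ pc e` is irrelevant, put `1`). To avoid casts: first
state for every `e` and every `p` with `pc e = p` the existence of `w, ze, om`; define
`w p e = if h : pc e = p then (choice) else 1`.

`valid_of_rz`: `rk`: given. `ind`: let `z = al q (k ze e)`, `z' = al q (k' ze f)`. If `dt (ze e) (ze f) = 0`
then `k ze e = k' ze f ≠ 0` for some integers `k, k'` (`ze e, ze f ≠ 0` as `dt om ze = 1`; take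
`k = ` a coordinate of `ze f`, `k'` the same coordinate of `ze e`, not `0`). The element
`al q (k ze e)` is in the centre of the stabilisers of `y e • vp (pc e)` and of `y f • vp (pc f)`, different
vertices (`une`), so it is `1` by `trans`; but `al q` is injective. (`S.be p (1, t)` is central in the stabiliser of
`vp p`, as this is the image of `be p`; `emb_ze`; `cen_conj`.)
`two`: `Adm.two` and `adj`. `sep`: suppose `x w x⁻¹ = w'^(±1)` where `w = D.w p e`, `w' = D.w p f`, `e ≠ f`. The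
stabilisers of the flats `F = be(x,1) (y e)⁻¹ • fq (fl e)` and `F' = (y f)⁻¹ • fq (fl f)` at `vp p` are the
images under `be p` of `x <w> x⁻¹ × ℤ` and `<w'> × ℤ` (`emb_range`, `stq`, conjugation), so they are
equal, so `F = F'` by `Adm.sep`. Then `y f be(x,1) (y e)⁻¹` maps `fq (fl e)` to `fq (fl f)`, so
`fl e = fl f =: q` (`unq`) and it fixes `fq q`, so it fixes the neighbours (`fix`): it fixes `y e • vp p` and
`y f be(x,1) • vp p = y f • vp p`, so `y e • vp p = y f • vp p`, `e = f` by `une`.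
-/

set_option autoImplicit false

namespace AdmIso

open LatIso

section

variable {G : Type} [Group G] {V : Type} [MulAction G V] {T : SimpleGraph V} {Fl : Set V}

theorem quot (h : Adm G T Fl) : ∃ (a b d : ℕ) (D : Dat (Fin (a + 1)) (Fin (b + 1)) (Fin (d + 1)))
    (S : Sy D G) (vp : Fin (a + 1) → V) (fq : Fin (b + 1) → V), Rz D G T Fl S vp fq ∧
    (∀ p, 2 ≤ D.rk p) ∧ (∀ e, dt (D.om e) (D.ze e) = 1) ∧ (∀ e, D.w (D.pc e) e ≠ 1) ∧
    (∀ e x, x * D.w (D.pc e) e = D.w (D.pc e) e * x → ∃ k : ℤ, x = D.w (D.pc e) e ^ k) := by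
  classical
  obtain ⟨a, b, d, vp, fq, pc, fl, y, hvp, hfq, orp, orq, unp, unq, adj, une⟩ := orb h
  choose rk hrk ι using fun p => h.piece (vp p) (hvp p)
  have hbe : ∀ p, ∃ β : FZ (rk p) →* G, Function.Injective β ∧
      ∀ g, g • vp p = vp p ↔ ∃ x, β x = g := by
    intro p
    obtain ⟨i⟩ := ι p
    refine ⟨(MulAction.stabilizer G (vp p)).subtype.comp i.toMonoidHom, ?_, ?_⟩
    · intro u v huv
      exact i.injective (Subtype.ext huv)
    · intro g
      constructor
      · intro hg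
        refine ⟨i.symm ⟨g, hg⟩, ?_⟩
        show ((i (i.symm ⟨g, hg⟩) : MulAction.stabilizer G (vp p)) : G) = g
        rw [MulEquiv.apply_symm_apply]
      · rintro ⟨x, hx⟩
        rw [← hx]
        exact (i x).2
  have hal' : ∀ q, ∃ β : A2 →* G, Function.Injective β ∧ ∀ g, g • fq q = fq q ↔ ∃ x, β x = g := by
    intro q
    obtain ⟨i⟩ := h.flatg (fq q) (hfq q)
    refine ⟨(MulAction.stabilizer G (fq q)).subtype.comp i.toMonoidHom, ?_, ?_⟩
    · intro u v huv
      exact i.injective (Subtype.ext huv)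
    · intro g
      constructor
      · intro hg
        refine ⟨i.symm ⟨g, hg⟩, ?_⟩
        show ((i (i.symm ⟨g, hg⟩) : MulAction.stabilizer G (fq q)) : G) = g
        rw [MulEquiv.apply_symm_apply]
      · rintro ⟨x, hx⟩
        rw [← hx]
        exact (i x).2
  choose be beI stp using hbe
  choose al alI stq using hal'
  have claim : ∀ e p, pc e = p → ∃ (w : FreeGroup (Fin (rk p))) (ze om : ℤ × ℤ), dt om ze = 1 ∧
      w ≠ 1 ∧ (∀ x, x * w = w * x → ∃ k : ℤ, x = w ^ k) ∧
      ∀ v : A2, al (fl e) v * y e =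
        y e * be p (w ^ dt v.toAdd ze, Multiplicative.ofAdd (dt om v.toAdd)) := by
    rintro e p rfl
    have hadj : T.Adj (fq (fl e)) (y e • vp (pc e)) := (adj _ _).2 ⟨e, rfl, rfl⟩
    have h1 : ∀ v, ∃ x, be (pc e) x = (y e)⁻¹ * al (fl e) v * y e := by
      intro v
      rw [← stp]
      have h2 : al (fl e) v • fq (fl e) = fq (fl e) := (stq _ _).2 ⟨v, rfl⟩
      have h3 := adm_flat_fix h (hfq _) hadj h2
      rw [mul_smul, mul_smul, h3, inv_smul_smul]
    choose j0 hj0 using h1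
    let j : A2 →* FZ (rk (pc e)) := MonoidHom.mk' j0 (by
      intro u v
      apply beI
      rw [hj0, map_mul, map_mul, hj0, hj0]
      group)
    have hj : ∀ v, be (pc e) (j v) = (y e)⁻¹ * al (fl e) v * y e := hj0
    have hjI : Function.Injective j := by
      intro u v huv
      have h2 := hj u
      rw [huv, hj v] at h2
      apply alI (fl e)
      have h3 : al (fl e) v = y e * ((y e)⁻¹ * al (fl e) v * y e) * (y e)⁻¹ := by group
      have h4 : al (fl e) u = y e * ((y e)⁻¹ * al (fl e) u * y e) * (y e)⁻¹ := by group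
      rw [h4, h3, h2]
    have hjm : ∀ x, (∀ v, x * j v = j v * x) → ∃ v, j v = x := by
      intro x hx
      have h2 : (y e * be (pc e) x * (y e)⁻¹) • fq (fl e) = fq (fl e) := by
        apply h.maxl (fq (fl e)) (y e • vp (pc e)) (hfq _) hadj
        · have h3 : be (pc e) x • vp (pc e) = vp (pc e) := (stp _ _).2 ⟨x, rfl⟩
          rw [mul_smul, mul_smul, inv_smul_smul, h3]
        · intro k hk
          obtain ⟨v, rfl⟩ := (stq _ _).1 hk
          have h4 : al (fl e) v = y e * be (pc e) (j v) * (y e)⁻¹ := by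
            rw [hj]
            group
          have h5 : be (pc e) x * be (pc e) (j v) = be (pc e) (j v) * be (pc e) x := by
            rw [← map_mul, ← map_mul, hx v]
          rw [h4]
          calc y e * be (pc e) x * (y e)⁻¹ * (y e * be (pc e) (j v) * (y e)⁻¹) =
              y e * (be (pc e) x * be (pc e) (j v)) * (y e)⁻¹ := by group
            _ = y e * (be (pc e) (j v) * be (pc e) x) * (y e)⁻¹ := by rw [h5]
            _ = y e * be (pc e) (j v) * (y e)⁻¹ * (y e * be (pc e) x * (y e)⁻¹) := by group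
      obtain ⟨v, hv⟩ := (stq _ _).1 h2
      refine ⟨v, beI _ ?_⟩
      rw [hj, hv]
      group
    obtain ⟨w, ze, om, hdt, hw, hroot, hjv⟩ := fz_emb j hjI hjm
    refine ⟨w, ze, om, hdt, hw, hroot, fun v => ?_⟩
    rw [← hjv v, hj]
    group
  choose w ze om hdt hw hroot hrel using claim
  have hpos : ∀ e, (if hh : pc e = pc e then w e (pc e) hh else 1) = w e (pc e) rfl := fun e =>
    dif_pos rfl
  let D : Dat (Fin (a + 1)) (Fin (b + 1)) (Fin (d + 1)) :=
    { rk := rk
      pc := pc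
      fl := fl
      w := fun p e => if hh : pc e = p then w e p hh else 1
      ze := fun e => ze e (pc e) rfl
      om := fun e => om e (pc e) rfl }
  have hDw : ∀ e, D.w (D.pc e) e = w e (pc e) rfl := hpos
  let S : Sy D G :=
    { be := be
      al := al
      y := y
      rel := by
        intro e v
        have h1 := hrel e (pc e) rfl v
        rw [Dat.emb_apply, hDw]
        exact h1 }
  refine ⟨a, b, d, D, S, vp, fq, ?_, hrk, fun e => hdt e (pc e) rfl, ?_, ?_⟩
  · exact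
      { vpN := hvp
        fqF := hfq
        beI := beI
        stp := stp
        stq := stq
        orp := orp
        orq := orq
        unp := unp
        unq := unq
        adj := adj
        une := une }
  · intro e
    rw [hDw]
    exact hw e (pc e) rfl
  · intro e
    rw [hDw]
    exact hroot e (pc e) rfl

section val

variable {P Q E : Type} {D : Dat P Q E} {S : Sy D G} {vp : P → V} {fq : Q → V}

theorem t11_stab (hR : Rz D G T Fl S vp fq) (h2 : ∀ e, dt (D.om e) (D.ze e) = 1) {p : P} {e : E}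
    (hp : D.pc e = p) (g : G) :
    g • ((S.y e)⁻¹ • fq (D.fl e)) = (S.y e)⁻¹ • fq (D.fl e) ↔
      ∃ u, S.be p u = g ∧ ∃ k : ℤ, u.1 = D.w p e ^ k := by
  subst hp
  have h3 : g • ((S.y e)⁻¹ • fq (D.fl e)) = (S.y e)⁻¹ • fq (D.fl e) ↔
      (S.y e * g * (S.y e)⁻¹) • fq (D.fl e) = fq (D.fl e) := by
    rw [mul_smul, mul_smul]
    constructor
    · intro hh
      rw [hh, smul_inv_smul]
    · intro hh
      rw [eq_inv_smul_iff]
      exact hh
  rw [h3, hR.stq]
  constructor
  · rintro ⟨v, hv⟩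
    refine ⟨D.emb e v, ?_, (emb_range D e (h2 e) _).1 ⟨v, rfl⟩⟩
    have h4 := S.rel e v
    rw [hv] at h4
    have h5 : S.y e * g = S.y e * S.be (D.pc e) (D.emb e v) := by
      rw [← h4]
      group
    exact (mul_left_cancel h5).symm
  · rintro ⟨u, hu, hk⟩
    obtain ⟨v, hv⟩ := (emb_range D e (h2 e) u).2 hk
    refine ⟨v, ?_⟩
    have h4 := S.rel e v
    rw [hv, hu] at h4
    rw [← h4]
    group

theorem t11_alI (hR : Rz D G T Fl S vp fq) (h2 : ∀ e, dt (D.om e) (D.ze e) = 1)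
    (h3 : ∀ e, D.w (D.pc e) e ≠ 1) (e : E) : Function.Injective (S.al (D.fl e)) := by
  intro u v huv
  apply emb_inj D e (h2 e) (h3 e)
  apply hR.beI
  have h4 := S.rel e u
  have h5 := S.rel e v
  rw [huv, h5] at h4
  exact (mul_left_cancel h4).symm

theorem t11_cen (hR : Rz D G T Fl S vp fq) (h2 : ∀ e, dt (D.om e) (D.ze e) = 1) (e : E) (m : ℤ) :
    Cen G (S.y e • vp (D.pc e)) (S.al (D.fl e) (Multiplicative.ofAdd (D.ze e) ^ m)) := by
  have h4 := S.rel e (Multiplicative.ofAdd (D.ze e) ^ m)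
  rw [emb_ze D e (h2 e)] at h4
  have h5 : S.al (D.fl e) (Multiplicative.ofAdd (D.ze e) ^ m) =
      S.y e * S.be (D.pc e) (1, Multiplicative.ofAdd m) * (S.y e)⁻¹ := by
    rw [← h4]
    group
  rw [h5]
  apply cen_conj
  refine ⟨(hR.stp _ _).2 ⟨_, rfl⟩, ?_⟩
  intro k hk
  obtain ⟨x, rfl⟩ := (hR.stp _ _).1 hk
  rw [← map_mul, ← map_mul]
  congr 1
  apply Prod.ext
  · show (1 : FreeGroup _) * x.1 = x.1 * 1
    rw [one_mul, mul_one]
  · show Multiplicative.ofAdd m * x.2 = x.2 * Multiplicative.ofAdd m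
    exact mul_comm _ _

theorem t11_num (u v : ℤ × ℤ) (hu : u ≠ 0) (hv : v ≠ 0) (h : dt u v = 0) :
    ∃ k k' : ℤ, k • u = k' • v ∧ k • u ≠ 0 := by
  obtain ⟨u1, u2⟩ := u
  obtain ⟨v1, v2⟩ := v
  simp only [dt] at h
  by_cases h1 : v1 = 0
  · have h2 : v2 ≠ 0 := by
      rintro rfl
      exact hv (by rw [h1]; rfl)
    refine ⟨v2, u2, ?_, ?_⟩
    · apply Prod.ext
      · simp only [Prod.smul_mk, smul_eq_mul]
        linarith
      · simp only [Prod.smul_mk, smul_eq_mul]
        ring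
    · intro h3
      rcases smul_eq_zero.1 h3 with h4 | h4
      · exact h2 h4
      · exact hu h4
  · refine ⟨v1, u1, ?_, ?_⟩
    · apply Prod.ext
      · simp only [Prod.smul_mk, smul_eq_mul]
        ring
      · simp only [Prod.smul_mk, smul_eq_mul]
        linarith
    · intro h3
      rcases smul_eq_zero.1 h3 with h4 | h4
      · exact h1 h4
      · exact hu h4

theorem t11_ze (h2 : ∀ e, dt (D.om e) (D.ze e) = 1) (e : E) : D.ze e ≠ 0 := by
  intro h
  have h3 := h2 e
  rw [h] at h3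
  simp [dt] at h3

theorem t11_ind (h : Adm G T Fl) (hR : Rz D G T Fl S vp fq)
    (h2 : ∀ e, dt (D.om e) (D.ze e) = 1) (h3 : ∀ e, D.w (D.pc e) e ≠ 1) (e f : E) (hef : e ≠ f)
    (hfl : D.fl e = D.fl f) : dt (D.ze e) (D.ze f) ≠ 0 := by
  intro h0
  obtain ⟨k, k', hk, hk0⟩ := t11_num _ _ (t11_ze h2 e) (t11_ze h2 f) h0
  have h5 := t11_cen hR h2 e k
  have h6 := t11_cen hR h2 f k'
  have h7 : (Multiplicative.ofAdd (D.ze e) ^ k : A2) = Multiplicative.ofAdd (D.ze f) ^ k' := by
    rw [← ofAdd_zsmul, ← ofAdd_zsmul, hk]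
  rw [← h7, ← hfl] at h6
  have hz : S.al (D.fl e) (Multiplicative.ofAdd (D.ze e) ^ k) = 1 := by
    refine h.trans (fq (D.fl e)) _ _ (hR.fqF _) ((hR.adj _ _).2 ⟨e, rfl, rfl⟩)
      ((hR.adj _ _).2 ⟨f, hfl.symm, rfl⟩) ?_ _ h5 h6
    intro hh
    exact hef (hR.une e f hfl hh)
  have h8 : (Multiplicative.ofAdd (D.ze e) ^ k : A2) = 1 := by
    apply t11_alI hR h2 h3 e
    rw [hz, map_one]
  apply hk0
  rw [← ofAdd_zsmul] at h8
  exact Multiplicative.ofAdd.injective h8

theorem t11_two (h : Adm G T Fl) (hR : Rz D G T Fl S vp fq) (q : Q) :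
    ∃ e f, e ≠ f ∧ D.fl e = q ∧ D.fl f = q := by
  obtain ⟨y1, y2, hne, h1, h2⟩ := h.two (fq q) (hR.fqF q)
  obtain ⟨e, he, he'⟩ := (hR.adj _ _).1 h1
  obtain ⟨f, hf, hf'⟩ := (hR.adj _ _).1 h2
  refine ⟨e, f, ?_, he, hf⟩
  rintro rfl
  exact hne (he'.symm.trans hf')

theorem t11_sep (h : Adm G T Fl) (hR : Rz D G T Fl S vp fq)
    (h2 : ∀ e, dt (D.om e) (D.ze e) = 1) (p : P) (e f : E) (he : D.pc e = p) (hf : D.pc f = p)
    (hef : e ≠ f) (x : FreeGroup (Fin (D.rk p))) (ε : ℤ) (hε : ε = 1 ∨ ε = -1)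
    (hx : x * D.w p e * x⁻¹ = D.w p f ^ ε) : False := by
  have hadj : ∀ e', D.pc e' = p → T.Adj ((S.y e')⁻¹ • fq (D.fl e')) (vp p) := by
    intro e' he'
    have h3 : T.Adj (fq (D.fl e')) (S.y e' • vp (D.pc e')) := (hR.adj _ _).2 ⟨e', rfl, rfl⟩
    have h4 := h.adj (S.y e')⁻¹ _ _ h3
    rw [inv_smul_smul, he'] at h4
    exact h4
  set g0 : G := S.be p (x, 1) with hg0
  have hg0v : g0 • vp p = vp p := (hR.stp _ _).2 ⟨_, rfl⟩
  have hadj1 : T.Adj (g0 • ((S.y e)⁻¹ • fq (D.fl e))) (vp p) := by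
    have h4 := h.adj g0 _ _ (hadj e he)
    rw [hg0v] at h4
    exact h4
  have hconj : ∀ k : ℤ, x * D.w p e ^ k * x⁻¹ = D.w p f ^ (ε * k) := by
    intro k
    rw [zpow_mul, ← hx, conj_zpow]
  have hst : MulAction.stabilizer G (g0 • ((S.y e)⁻¹ • fq (D.fl e))) =
      MulAction.stabilizer G ((S.y f)⁻¹ • fq (D.fl f)) := by
    ext g
    rw [MulAction.mem_stabilizer_iff, MulAction.mem_stabilizer_iff, t11_stab hR h2 hf]
    have h5 : g • (g0 • ((S.y e)⁻¹ • fq (D.fl e))) = g0 • ((S.y e)⁻¹ • fq (D.fl e)) ↔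
        (g0⁻¹ * g * g0) • ((S.y e)⁻¹ • fq (D.fl e)) = (S.y e)⁻¹ • fq (D.fl e) := by
      rw [mul_smul, mul_smul]
      constructor
      · intro hh
        rw [hh, inv_smul_smul]
      · intro hh
        rw [inv_smul_eq_iff] at hh
        exact hh
    rw [h5, t11_stab hR h2 he]
    constructor
    · rintro ⟨u, hu, k, hk⟩
      refine ⟨(x, 1) * u * (x, 1)⁻¹, ?_, ε * k, ?_⟩
      · rw [map_mul, map_mul, map_inv, hu, ← hg0]
        group
      · show x * u.1 * x⁻¹ = _
        rw [hk, hconj]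
    · rintro ⟨u, hu, k, hk⟩
      refine ⟨(x, 1)⁻¹ * u * (x, 1), ?_, ε * k, ?_⟩
      · rw [map_mul, map_mul, map_inv, hu, ← hg0]
      · show x⁻¹ * u.1 * x = _
        have h6 := hconj (ε * k)
        have h7 : ε * (ε * k) = k := by
          rcases hε with h8 | h8 <;> rw [h8] <;> ring
        rw [h7, ← hk] at h6
        rw [← h6]
        group
  have hF : g0 • ((S.y e)⁻¹ • fq (D.fl e)) = (S.y f)⁻¹ • fq (D.fl f) := by
    by_contra hne
    refine h.sep _ _ (vp p) ?_ ?_ hne hadj1 (hadj f hf) hst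
    · exact h.flat _ _ (h.flat _ _ (hR.fqF _))
    · exact h.flat _ _ (hR.fqF _)
  have hg : (S.y f * g0 * (S.y e)⁻¹) • fq (D.fl e) = fq (D.fl f) := by
    rw [mul_smul, mul_smul, hF, smul_inv_smul]
  have hfl : D.fl e = D.fl f := hR.unq _ _ _ hg
  have hadj2 : T.Adj (fq (D.fl e)) (S.y e • vp (D.pc e)) := (hR.adj _ _).2 ⟨e, rfl, rfl⟩
  have h9 : (S.y f * g0 * (S.y e)⁻¹) • fq (D.fl e) = fq (D.fl e) := by
    rw [hg, hfl]
  have h10 := adm_flat_fix h (hR.fqF _) hadj2 h9
  rw [he, mul_smul, mul_smul, inv_smul_smul, hg0v] at h10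
  apply hef
  apply hR.une e f hfl
  rw [he, hf]
  exact h10.symm

end val

theorem valid_of_rz (h : Adm G T Fl) {P Q E : Type} {D : Dat P Q E} {S : Sy D G} {vp : P → V}
    {fq : Q → V} (hR : Rz D G T Fl S vp fq)
    (h1 : ∀ p, 2 ≤ D.rk p) (h2 : ∀ e, dt (D.om e) (D.ze e) = 1) (h3 : ∀ e, D.w (D.pc e) e ≠ 1)
    (h4 : ∀ e x, x * D.w (D.pc e) e = D.w (D.pc e) e * x → ∃ k : ℤ, x = D.w (D.pc e) e ^ k) :
    D.Valid :=
  { rk := h1
    det := h2
    ind := fun e f hef hfl => t11_ind h hR h2 h3 e f hef hfl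
    two := fun q => t11_two h hR q
    ne := h3
    root := h4
    sep := fun p e f he hf hef x =>
      ⟨fun hx => t11_sep h hR h2 p e f he hf hef x 1 (Or.inl rfl) (by rw [hx, zpow_one]),
        fun hx => t11_sep h hR h2 p e f he hf hef x (-1) (Or.inr rfl)
          (by rw [hx, zpow_neg, zpow_one])⟩ }

end

end AdmIso
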