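import Pool.Agent.Lib.MP_32d917_al_adm.T01

/-!
# T12: spanning tree, normalisation, cyclic reduction

`span`: for a vertex `v` let `ρ v` be the least distance `T.dist (vp p0) (g • v)`, `g : G`. Put
`rp p = ρ (vp p)`, `rq q = ρ (fq q)`. For `p ≠ p0` choose `g` with `T.dist (vp p0) (g • vp p) = rp p`; it is
not `0` (`unp`), and the neighbour `f` of `g • vp p` on the geodesic towards `vp p0` is a flat, `f = g' • fq q`, so
`rq q < rp p`; by `adj` `g • vp p = g' y e • vp (pc e)` with `fl e = q`; `pc e = p` by `unp`; put `ep p = e`. For `q`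
in the same way: `ρ (fq q) > 0` as `fq q` is a flat and `vp p0` is not.

`norm`: define `t : P → G`, `s : Q → G` with `t p0 = 1`, `s (fl (ep p)) * y (ep p) = t p` for `p ≠ p0` and
`s q * y (ef q) = t (pc (ef q))` (recursion on the rank; lemma `exists_pot`). Replace `y e` by
`s (fl e) * y e * (t (pc e))⁻¹`, `be p` by its conjugate with `t p`, `al q` by its conjugate with `s q`, `vp p` by
`t p • vp p`, `fq q` by `s q • fq q`.

`nor_sy`: the same without the action.

`cyc`: for every edge choose `c e` such that the reduced word of `c w c⁻¹` is cyclically reduced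
(`reduceCyclically`, `conj_conjugator_reduceCyclically`). Replace `w` by `c w c⁻¹` and `y e` by
`y e * (be (pc e) (c e, 1))⁻¹`; the vertices, `be` and `al` do not change.
-/

set_option autoImplicit false

namespace AdmIso

open LatIso

section

variable {P Q E : Type} {D : Dat P Q E} {G : Type} [Group G] {V : Type} [MulAction G V]
  {T : SimpleGraph V} {Fl : Set V}

/-- the least distance from `x` of the points of the orbit of `v` -/
noncomputable def rho (G : Type) [Group G] {V : Type} [MulAction G V] (T : SimpleGraph V)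
    (x v : V) : ℕ := sInf (Set.range fun g : G => T.dist x (g • v))

theorem rho_ex (x v : V) : ∃ g : G, T.dist x (g • v) = rho G T x v :=
  Nat.sInf_mem (s := Set.range fun g : G => T.dist x (g • v)) ⟨_, 1, rfl⟩

theorem rho_le (x v : V) (g : G) : rho G T x v ≤ T.dist x (g • v) :=
  Nat.sInf_le (s := Set.range fun g : G => T.dist x (g • v)) ⟨g, rfl⟩

theorem adj_of_nb {S : Sy D G} {vp : P → V} {fq : Q → V} (h : Adm G T Fl)
    (hR : Rz D G T Fl S vp fq) {q : Q} {g : G} {u : V} (ha : T.Adj (g • fq q) u) :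
    ∃ e, D.fl e = q ∧ (g * S.y e) • vp (D.pc e) = u := by
  have h1 := h.adj g⁻¹ _ _ ha
  rw [inv_smul_smul] at h1
  obtain ⟨e, he, h2⟩ := (hR.adj q (g⁻¹ • u)).1 h1
  exact ⟨e, he, by rw [mul_smul, h2, smul_inv_smul]⟩

theorem span (h : Adm G T Fl) {S : Sy D G} {vp : P → V} {fq : Q → V} (hR : Rz D G T Fl S vp fq)
    (p0 : P) : ∃ (ep : P → E) (ef : Q → E) (rp : P → ℕ) (rq : Q → ℕ), IsTr D p0 ep ef rp rq := by
  classical
  have hq : ∀ q : Q, ∃ e : E, D.fl e = q ∧
      rho G T (vp p0) (vp (D.pc e)) < rho G T (vp p0) (fq q) := by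
    intro q
    obtain ⟨g, hg⟩ := rho_ex (G := G) (T := T) (vp p0) (fq q)
    have hx : g • fq q ∈ Fl := h.flat g _ (hR.fqF q)
    have hne : g • fq q ≠ vp p0 := fun e => hR.vpN p0 (e ▸ hx)
    obtain ⟨u, hu1, hu2⟩ := st_next h.tree hne
    obtain ⟨e, he, h2⟩ := adj_of_nb h hR hu1
    refine ⟨e, he, ?_⟩
    have h3 := rho_le (G := G) (T := T) (vp p0) (vp (D.pc e)) (g * S.y e)
    rw [h2] at h3
    have h4 := st1_one hu1
    unfold Bt at hu2
    have h5 : T.dist (g • fq q) (vp p0) = T.dist (vp p0) (g • fq q) := SimpleGraph.dist_comm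
    have h6 : T.dist u (vp p0) = T.dist (vp p0) u := SimpleGraph.dist_comm
    omega
  have hp : ∀ p : P, p ≠ p0 → ∃ e : E, D.pc e = p ∧
      rho G T (vp p0) (fq (D.fl e)) < rho G T (vp p0) (vp p) := by
    intro p hpp
    obtain ⟨g, hg⟩ := rho_ex (G := G) (T := T) (vp p0) (vp p)
    have hne : g • vp p ≠ vp p0 := fun e => hpp (hR.unp _ _ _ e)
    obtain ⟨u, hu1, hu2⟩ := st_next h.tree hne
    have hx : g • vp p ∉ Fl := by
      rw [adm_flat_iff h]
      exact hR.vpN p
    have huF : u ∈ Fl := by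
      by_contra hu
      exact hx ((h.bip _ _ hu1).2 hu)
    obtain ⟨q, g', hq'⟩ := hR.orq u huF
    have hadj : T.Adj (g' • fq q) (g • vp p) := by
      rw [hq']
      exact hu1.symm
    obtain ⟨e, he, h2⟩ := adj_of_nb h hR hadj
    have hpe : D.pc e = p := by
      refine hR.unp _ _ (g⁻¹ * (g' * S.y e)) ?_
      rw [mul_smul, h2, inv_smul_smul]
    refine ⟨e, hpe, ?_⟩
    rw [he]
    have h3 := rho_le (G := G) (T := T) (vp p0) (fq q) g'
    rw [hq'] at h3
    have h4 := st1_one hu1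
    unfold Bt at hu2
    have h5 : T.dist (g • vp p) (vp p0) = T.dist (vp p0) (g • vp p) := SimpleGraph.dist_comm
    have h6 : T.dist u (vp p0) = T.dist (vp p0) u := SimpleGraph.dist_comm
    omega
  choose ef hef using hq
  obtain ⟨x, hx⟩ := h.ne
  obtain ⟨q, -, -⟩ := hR.orq x hx
  have hp' : ∀ p : P, ∃ e : E, p ≠ p0 → D.pc e = p ∧
      rho G T (vp p0) (fq (D.fl e)) < rho G T (vp p0) (vp p) := by
    intro p
    by_cases hpp : p = p0
    · exact ⟨ef q, fun h => absurd hpp h⟩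
    · obtain ⟨e, he⟩ := hp p hpp
      exact ⟨e, fun _ => he⟩
  choose ep hep using hp'
  exact ⟨ep, ef, fun p => rho G T (vp p0) (vp p), fun q => rho G T (vp p0) (fq q), hep, hef⟩

theorem exists_pot {p0 : P} {ep : P → E} {ef : Q → E} {rp : P → ℕ} {rq : Q → ℕ}
    (hTr : IsTr D p0 ep ef rp rq) (y : E → G) : ∃ (t : P → G) (s : Q → G),
    (∀ p, p ≠ p0 → s (D.fl (ep p)) * y (ep p) * (t p)⁻¹ = 1) ∧
    ∀ q, s q * y (ef q) * (t (D.pc (ef q)))⁻¹ = 1 := by
  classical
  let W : P ⊕ Q → ℕ := Sum.elim rp rq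
  let step : (x : P ⊕ Q) → ((x' : P ⊕ Q) → (measure W).rel x' x → G) → G := fun x =>
    match x with
    | Sum.inl p => fun rec => if hp : p = p0 then 1 else
        rec (Sum.inr (D.fl (ep p))) (hTr.ep p hp).2 * y (ep p)
    | Sum.inr q => fun rec => rec (Sum.inl (D.pc (ef q))) (hTr.ef q).2 * (y (ef q))⁻¹
  let F : P ⊕ Q → G := (measure W).wf.fix step
  have hF : ∀ x, F x = step x fun x' _ => F x' := fun x => (measure W).wf.fix_eq step x
  refine ⟨fun p => F (Sum.inl p), fun q => F (Sum.inr q), ?_, ?_⟩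
  · intro p hp
    have h1 := hF (Sum.inl p)
    simp only [step, dif_neg hp] at h1
    show F (Sum.inr (D.fl (ep p))) * y (ep p) * (F (Sum.inl p))⁻¹ = 1
    rw [h1, mul_inv_cancel]
  · intro q
    have h1 := hF (Sum.inr q)
    simp only [step] at h1
    show F (Sum.inr q) * y (ef q) * (F (Sum.inl (D.pc (ef q))))⁻¹ = 1
    rw [h1, inv_mul_cancel_right, mul_inv_cancel]

/-- change of a system by elements of the group -/
def Sy.chg (S : Sy D G) (t : P → G) (s : Q → G) : Sy D G where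
  be p := (MulAut.conj (t p)).toMonoidHom.comp (S.be p)
  al q := (MulAut.conj (s q)).toMonoidHom.comp (S.al q)
  y e := s (D.fl e) * S.y e * (t (D.pc e))⁻¹
  rel e v := by
    simp only [MonoidHom.coe_comp, Function.comp_apply, MulEquiv.coe_toMonoidHom,
      MulAut.conj_apply]
    have := S.rel e v
    calc s (D.fl e) * S.al (D.fl e) v * (s (D.fl e))⁻¹ * (s (D.fl e) * S.y e * (t (D.pc e))⁻¹)
        = s (D.fl e) * (S.al (D.fl e) v * S.y e) * (t (D.pc e))⁻¹ := by group
      _ = s (D.fl e) * S.y e * (t (D.pc e))⁻¹ *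
          (t (D.pc e) * S.be (D.pc e) (D.emb e v) * (t (D.pc e))⁻¹) := by
        rw [this]; group

theorem chg_be (S : Sy D G) (t : P → G) (s : Q → G) (p : P) (x : FZ (D.rk p)) :
    (S.chg t s).be p x = t p * S.be p x * (t p)⁻¹ := rfl

theorem chg_al (S : Sy D G) (t : P → G) (s : Q → G) (q : Q) (v : A2) :
    (S.chg t s).al q v = s q * S.al q v * (s q)⁻¹ := rfl

theorem chg_y (S : Sy D G) (t : P → G) (s : Q → G) (e : E) :
    (S.chg t s).y e = s (D.fl e) * S.y e * (t (D.pc e))⁻¹ := rfl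

theorem chg_inj {S : Sy D G} (t : P → G) (s : Q → G) {p : P}
    (h : Function.Injective (S.be p)) : Function.Injective ((S.chg t s).be p) := by
  intro x x' hx
  rw [chg_be, chg_be] at hx
  exact h (mul_left_cancel (mul_right_cancel hx))

theorem chg_rz (h : Adm G T Fl) {S : Sy D G} {vp : P → V} {fq : Q → V} (hR : Rz D G T Fl S vp fq)
    (t : P → G) (s : Q → G) :
    Rz D G T Fl (S.chg t s) (fun p => t p • vp p) (fun q => s q • fq q) where
  vpN p := by
    rw [adm_flat_iff h]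
    exact hR.vpN p
  fqF q := h.flat _ _ (hR.fqF q)
  beI p := chg_inj t s (hR.beI p)
  stp p g := by
    have h1 := hR.stp p ((t p)⁻¹ * g * t p)
    constructor
    · intro hg
      obtain ⟨x, hx⟩ := h1.1 (by rw [mul_smul, mul_smul, hg, inv_smul_smul])
      exact ⟨x, by rw [chg_be, hx]; group⟩
    · rintro ⟨x, hx⟩
      rw [chg_be] at hx
      have h2 := h1.2 ⟨x, by rw [← hx]; group⟩
      rw [mul_smul, mul_smul, inv_smul_eq_iff] at h2
      exact h2
  stq q g := by
    have h1 := hR.stq q ((s q)⁻¹ * g * s q)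
    constructor
    · intro hg
      obtain ⟨x, hx⟩ := h1.1 (by rw [mul_smul, mul_smul, hg, inv_smul_smul])
      exact ⟨x, by rw [chg_al, hx]; group⟩
    · rintro ⟨x, hx⟩
      rw [chg_al] at hx
      have h2 := h1.2 ⟨x, by rw [← hx]; group⟩
      rw [mul_smul, mul_smul, inv_smul_eq_iff] at h2
      exact h2
  orp v hv := by
    obtain ⟨p, g, hg⟩ := hR.orp v hv
    exact ⟨p, g * (t p)⁻¹, by rw [mul_smul, inv_smul_smul, hg]⟩
  orq v hv := by
    obtain ⟨q, g, hg⟩ := hR.orq v hv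
    exact ⟨q, g * (s q)⁻¹, by rw [mul_smul, inv_smul_smul, hg]⟩
  unp p p' g hg := by
    refine hR.unp p p' ((t p')⁻¹ * g * t p) ?_
    rw [mul_smul, mul_smul, hg, inv_smul_smul]
  unq q q' g hg := by
    refine hR.unq q q' ((s q')⁻¹ * g * s q) ?_
    rw [mul_smul, mul_smul, hg, inv_smul_smul]
  adj q v := by
    constructor
    · intro ha
      obtain ⟨e, he, h2⟩ := adj_of_nb h hR ha
      refine ⟨e, he, ?_⟩
      rw [chg_y, he]
      rw [mul_smul, mul_smul, inv_smul_smul, ← mul_smul, h2]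
    · rintro ⟨e, he, h2⟩
      rw [chg_y, he, mul_smul, mul_smul, inv_smul_smul] at h2
      rw [← h2]
      exact h.adj _ _ _ ((hR.adj q _).2 ⟨e, he, rfl⟩)
  une e e' he h2 := by
    rw [chg_y, chg_y, mul_smul, mul_smul, inv_smul_smul, mul_smul, mul_smul, inv_smul_smul,
      he] at h2
    exact hR.une e e' he (MulAction.injective _ h2)

theorem norm (h : Adm G T Fl) {S : Sy D G} {vp : P → V} {fq : Q → V} (hR : Rz D G T Fl S vp fq)
    {p0 : P} {ep : P → E} {ef : Q → E} {rp : P → ℕ} {rq : Q → ℕ} (hTr : IsTr D p0 ep ef rp rq) :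
    ∃ (S' : Sy D G) (vp' : P → V) (fq' : Q → V), Rz D G T Fl S' vp' fq' ∧ S'.Nor p0 ep ef := by
  obtain ⟨t, s, h1, h2⟩ := exists_pot hTr S.y
  refine ⟨S.chg t s, _, _, chg_rz h hR t s, fun p hp => ?_, fun q => ?_⟩
  · rw [chg_y, (hTr.ep p hp).1]
    exact h1 p hp
  · rw [chg_y, (hTr.ef q).1]
    exact h2 q

theorem nor_sy {p0 : P} {ep : P → E} {ef : Q → E} {rp : P → ℕ} {rq : Q → ℕ}
    (hTr : IsTr D p0 ep ef rp rq) (S : Sy D G) (hI : ∀ p, Function.Injective (S.be p)) :
    ∃ S' : Sy D G, S'.Nor p0 ep ef ∧ ∀ p, Function.Injective (S'.be p) := by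
  obtain ⟨t, s, h1, h2⟩ := exists_pot hTr S.y
  refine ⟨S.chg t s, ⟨fun p hp => ?_, fun q => ?_⟩, fun p => chg_inj t s (hI p)⟩
  · rw [chg_y, (hTr.ep p hp).1]
    exact h1 p hp
  · rw [chg_y, (hTr.ef q).1]
    exact h2 q

/-- conjugation of the words -/
theorem cyc_gen {S : Sy D G} {vp : P → V} {fq : Q → V} (hR : Rz D G T Fl S vp fq)
    (c : (p : P) → E → FreeGroup (Fin (D.rk p))) (w : (p : P) → E → FreeGroup (Fin (D.rk p)))
    (hw : ∀ p e, w p e = c p e * D.w p e * (c p e)⁻¹) :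
    ∃ S' : Sy { D with w := w } G, Rz { D with w := w } G T Fl S' vp fq := by
  have hfix : ∀ e, (S.be (D.pc e) (c (D.pc e) e, 1))⁻¹ • vp (D.pc e) = vp (D.pc e) := by
    intro e
    rw [inv_smul_eq_iff]
    exact ((hR.stp (D.pc e) _).2 ⟨_, rfl⟩).symm
  refine ⟨⟨S.be, S.al, fun e => S.y e * (S.be (D.pc e) (c (D.pc e) e, 1))⁻¹, ?_⟩, ?_⟩
  · intro e v
    show S.al (D.fl e) v * (S.y e * (S.be (D.pc e) (c (D.pc e) e, 1))⁻¹) =
      S.y e * (S.be (D.pc e) (c (D.pc e) e, 1))⁻¹ *
        S.be (D.pc e) (w (D.pc e) e ^ dt v.toAdd (D.ze e), Multiplicative.ofAdd (dt (D.om e) v.toAdd))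
    have h1 : ((w (D.pc e) e ^ dt v.toAdd (D.ze e), Multiplicative.ofAdd (dt (D.om e) v.toAdd)) :
        FZ (D.rk (D.pc e))) = (c (D.pc e) e, 1) * D.emb e v * (c (D.pc e) e, 1)⁻¹ := by
      rw [D.emb_apply, hw]
      apply Prod.ext
      · show _ = c (D.pc e) e * _ * (c (D.pc e) e)⁻¹
        rw [conj_zpow]
      · show _ = 1 * _ * (1 : Multiplicative ℤ)⁻¹
        rw [one_mul, inv_one, mul_one]
    rw [h1, map_mul, map_mul, map_inv, ← mul_assoc, S.rel e v]
    group
  · exact {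
      vpN := hR.vpN
      fqF := hR.fqF
      beI := hR.beI
      stp := hR.stp
      stq := hR.stq
      orp := hR.orp
      orq := hR.orq
      unp := hR.unp
      unq := hR.unq
      adj := by
        intro q v
        rw [hR.adj q v]
        constructor
        · rintro ⟨e, he, h2⟩
          refine ⟨e, he, ?_⟩
          show (S.y e * (S.be (D.pc e) (c (D.pc e) e, 1))⁻¹) • vp (D.pc e) = v
          rw [mul_smul, hfix, h2]
        · rintro ⟨e, he, h2⟩
          refine ⟨e, he, ?_⟩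
          change (S.y e * (S.be (D.pc e) (c (D.pc e) e, 1))⁻¹) • vp (D.pc e) = v at h2
          rw [mul_smul, hfix] at h2
          exact h2
      une := by
        intro e e' he h2
        change (S.y e * (S.be (D.pc e) (c (D.pc e) e, 1))⁻¹) • vp (D.pc e) =
          (S.y e' * (S.be (D.pc e') (c (D.pc e') e', 1))⁻¹) • vp (D.pc e') at h2
        rw [mul_smul, hfix, mul_smul, hfix] at h2
        exact hR.une e e' he h2 }

theorem cyc {S : Sy D G} {vp : P → V} {fq : Q → V} (hR : Rz D G T Fl S vp fq) :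
    ∃ (w : (p : P) → E → FreeGroup (Fin (D.rk p))),
      (∀ e, FreeGroup.IsCyclicallyReduced (w (D.pc e) e).toWord) ∧
      (∀ e, IsConj (D.w (D.pc e) e) (w (D.pc e) e)) ∧
      ∃ S' : Sy { D with w := w } G, Rz { D with w := w } G T Fl S' vp fq := by
  have key : ∀ (p : P) (e : E), FreeGroup.mk (FreeGroup.reduceCyclically (D.w p e).toWord) =
      (FreeGroup.mk (FreeGroup.reduceCyclically.conjugator (D.w p e).toWord))⁻¹ * D.w p e *
      (FreeGroup.mk (FreeGroup.reduceCyclically.conjugator (D.w p e).toWord))⁻¹⁻¹ := by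
    intro p e
    have h1 := congrArg FreeGroup.mk
      (FreeGroup.reduceCyclically.conj_conjugator_reduceCyclically (D.w p e).toWord)
    rw [FreeGroup.mk_toWord, ← FreeGroup.mul_mk, ← FreeGroup.mul_mk, ← FreeGroup.inv_mk] at h1
    rw [eq_mul_inv_iff_mul_eq, eq_inv_mul_iff_mul_eq, ← mul_assoc]
    exact h1
  refine ⟨fun p e => FreeGroup.mk (FreeGroup.reduceCyclically (D.w p e).toWord), ?_, ?_, ?_⟩
  · intro e
    have h1 := FreeGroup.reduceCyclically.isCyclicallyReduced
      (FreeGroup.isReduced_toWord (x := D.w (D.pc e) e))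
    show FreeGroup.IsCyclicallyReduced
      (FreeGroup.mk (FreeGroup.reduceCyclically (D.w (D.pc e) e).toWord)).toWord
    rw [FreeGroup.toWord_mk, h1.isReduced.reduce_eq]
    exact h1
  · intro e
    rw [isConj_iff]
    exact ⟨_, (key (D.pc e) e).symm⟩
  · exact cyc_gen hR (fun p e =>
      (FreeGroup.mk (FreeGroup.reduceCyclically.conjugator (D.w p e).toWord))⁻¹) _ key

end

end AdmIso
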