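import Pool.Agent.Lib.MP_32d917_al_adm.F02
import Pool.Agent.Lib.MP_32d917_al_adm.T12

/-!
# T13: the groups of the pieces embed

`free_iso`: let `A` be a group and `ρ`, `ρ'` two homomorphisms to the permutations of `ℕ` such that only
`1` has a fixed point, with infinitely many orbits (condition: an invariant function to `ℕ` with infinite
range). Then there is a permutation `y` with `ρ a * y = y * ρ' a`: `ℕ` is as an `A`-set the disjoint union of
its orbits; the orbits are countably many and infinitely many in both cases, so there is a bijection of the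
sets of orbits; choose representatives `r i`, `r' i`, and `y (ρ' a (r' i)) = ρ a (r i)`.

`free_rep`: a countable infinite group `H` has a homomorphism `ρ` to the permutations of `ℕ` and an
invariant surjective function `c : ℕ → ℕ`, such that only `1` has fixed points: transport the left
multiplication on `H × ℕ` (countable infinite), `c` = second coordinate.

`exists_perm`: for every `p` take `be p` from `free_rep` for `FZ (rk p)`, for every `q` the homomorphism `al q`
from `free_rep` for `A2`, and `y e` from `free_iso` for `A2` acting by `al (fl e)` and by `be (pc e) ∘ emb e`.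

`be_inj`: apply the universal property of `S` to the normalised system of `nor_sy` for `exists_perm`.
-/

set_option autoImplicit false

namespace AdmIso

open LatIso

/-- A free action on `ℕ` with infinitely many orbits is the left multiplication on `A × ℕ`. -/
theorem free_coord {A : Type} [Group A] (ρ : A →* Equiv.Perm ℕ) (h : ∀ a x, ρ a x = x → a = 1)
    (c : ℕ → ℕ) (hc : ∀ a x, c (ρ a x) = c x) (hi : (Set.range c).Infinite) :
    ∃ F : A × ℕ ≃ ℕ, ∀ a b n, ρ a (F (b, n)) = F (a * b, n) := by
  classical
  let s : Setoid ℕ :=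
    { r := fun x y => ∃ a, ρ a x = y
      iseqv :=
        { refl := fun x => ⟨1, by simp⟩
          symm := by
            rintro x y ⟨a, rfl⟩
            refine ⟨a⁻¹, ?_⟩
            rw [← Equiv.Perm.mul_apply, ← map_mul]
            simp
          trans := by
            rintro x y z ⟨a, rfl⟩ ⟨b, rfl⟩
            exact ⟨b * a, by rw [map_mul, Equiv.Perm.mul_apply]⟩ } }
  have : Countable (Quotient s) := Quotient.countable
  have : Infinite (Quotient s) := by
    have hlift : ∀ x y : ℕ, s.r x y → c x = c y := by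
      rintro x y ⟨a, rfl⟩
      exact (hc a x).symm
    let cq : Quotient s → ℕ := Quotient.lift c hlift
    have hr : (Set.range cq).Infinite := by
      have : Set.range cq = Set.range c := by
        ext y
        constructor
        · rintro ⟨q, rfl⟩
          obtain ⟨x, rfl⟩ := Quotient.exists_rep q
          exact ⟨x, rfl⟩
        · rintro ⟨x, rfl⟩
          exact ⟨Quotient.mk s x, rfl⟩
      rw [this]
      exact hi
    by_contra hn
    rw [not_infinite_iff_finite] at hn
    exact hr (Set.finite_range cq)
  obtain ⟨N⟩ : Nonempty (ℕ ≃ Quotient s) := nonempty_equiv_of_countable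
  let f : A × ℕ → ℕ := fun z => ρ z.1 (N z.2).out
  have hf : Function.Bijective f := by
    constructor
    · rintro ⟨a, n⟩ ⟨b, m⟩ hab
      have hab' : ρ a (N n).out = ρ b (N m).out := hab
      have h1 : N n = N m := by
        rw [← Quotient.out_eq (N n), ← Quotient.out_eq (N m)]
        apply Quotient.sound
        refine ⟨b⁻¹ * a, ?_⟩
        rw [map_mul, Equiv.Perm.mul_apply, hab', ← Equiv.Perm.mul_apply, ← map_mul]
        simp
      have h2 : n = m := N.injective h1
      subst h2
      have h3 : b⁻¹ * a = 1 := by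
        apply h (b⁻¹ * a) (N n).out
        rw [map_mul, Equiv.Perm.mul_apply, hab', ← Equiv.Perm.mul_apply, ← map_mul]
        simp
      have h4 : a = b := by
        rw [inv_mul_eq_one] at h3
        exact h3.symm
      rw [h4]
    · intro x
      have h1 : s.r (Quotient.mk s x).out x := Quotient.exact (Quotient.out_eq (Quotient.mk s x))
      obtain ⟨a, ha⟩ := h1
      refine ⟨(a, N.symm (Quotient.mk s x)), ?_⟩
      show ρ a (N (N.symm (Quotient.mk s x))).out = x
      rw [Equiv.apply_symm_apply]
      exact ha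
  refine ⟨Equiv.ofBijective f hf, ?_⟩
  intro a b n
  show ρ a (ρ b (N n).out) = ρ (a * b) (N n).out
  rw [map_mul, Equiv.Perm.mul_apply]

theorem free_iso {A : Type} [Group A] (ρ ρ' : A →* Equiv.Perm ℕ) (h : ∀ a x, ρ a x = x → a = 1)
    (h' : ∀ a x, ρ' a x = x → a = 1) (c c' : ℕ → ℕ) (hc : ∀ a x, c (ρ a x) = c x)
    (hc' : ∀ a x, c' (ρ' a x) = c' x) (hi : (Set.range c).Infinite) (hi' : (Set.range c').Infinite) :
    ∃ y : Equiv.Perm ℕ, ∀ a, ρ a * y = y * ρ' a := by
  obtain ⟨F, hF⟩ := free_coord ρ h c hc hi
  obtain ⟨F', hF'⟩ := free_coord ρ' h' c' hc' hi'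
  refine ⟨F'.symm.trans F, ?_⟩
  intro a
  ext x
  obtain ⟨⟨b, n⟩, rfl⟩ := F'.surjective x
  simp only [Equiv.Perm.mul_apply, Equiv.trans_apply, Equiv.symm_apply_apply, hF, hF']

theorem free_rep (H : Type) [Group H] [Countable H] [Infinite H] :
    ∃ (ρ : H →* Equiv.Perm ℕ) (c : ℕ → ℕ), (∀ a x, ρ a x = x → a = 1) ∧
      (∀ a x, c (ρ a x) = c x) ∧ (Set.range c).Infinite := by
  obtain ⟨F⟩ : Nonempty (H × ℕ ≃ ℕ) := nonempty_equiv_of_countable
  let ρ : H →* Equiv.Perm ℕ :=
    { toFun := fun a => F.symm.trans ((Equiv.prodCongr (Equiv.mulLeft a) (Equiv.refl ℕ)).trans F)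
      map_one' := by
        ext x
        simp
      map_mul' := by
        intro a b
        ext x
        simp only [Equiv.Perm.mul_apply, Equiv.trans_apply, Equiv.symm_apply_apply]
        congr 1
        apply Prod.ext
        · exact mul_assoc a b _
        · rfl }
  have hρ : ∀ a x, ρ a x = F (a * (F.symm x).1, (F.symm x).2) := fun a x => rfl
  refine ⟨ρ, fun x => (F.symm x).2, ?_, ?_, ?_⟩
  · intro a x hx
    rw [hρ] at hx
    have h1 : (a * (F.symm x).1, (F.symm x).2) = F.symm x := by
      have h0 := congrArg F.symm hx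
      rwa [Equiv.symm_apply_apply] at h0
    have h2 := congrArg Prod.fst h1
    exact mul_eq_right.mp h2
  · intro a x
    rw [hρ]
    simp
  · have : Set.range (fun x => (F.symm x).2) = Set.univ := by
      ext n
      simp only [Set.mem_range, Set.mem_univ, iff_true]
      exact ⟨F (1, n), by simp⟩
    rw [this]
    exact Set.infinite_univ

section

variable {P Q E : Type} {D : Dat P Q E}

theorem exists_perm (hD : ∀ e, Function.Injective (D.emb e)) :
    ∃ S : Sy D (Equiv.Perm ℕ), ∀ p, Function.Injective (S.be p) := by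
  have hP : ∀ p : P, ∃ (ρ : FZ (D.rk p) →* Equiv.Perm ℕ) (c : ℕ → ℕ), (∀ a x, ρ a x = x → a = 1) ∧
      (∀ a x, c (ρ a x) = c x) ∧ (Set.range c).Infinite := by
    intro p
    have : Countable (FreeGroup (Fin (D.rk p))) := FreeGroup.toWord_injective.countable
    have : Countable (Multiplicative ℤ) := inferInstanceAs (Countable ℤ)
    have : Infinite (FZ (D.rk p)) := Prod.infinite_of_right
    exact free_rep (FZ (D.rk p))
  have hQ : ∃ (ρ : A2 →* Equiv.Perm ℕ) (c : ℕ → ℕ), (∀ a x, ρ a x = x → a = 1) ∧
      (∀ a x, c (ρ a x) = c x) ∧ (Set.range c).Infinite := by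
    have : Countable A2 := inferInstanceAs (Countable (ℤ × ℤ))
    have : Infinite A2 := inferInstanceAs (Infinite (ℤ × ℤ))
    exact free_rep A2
  choose be c h1 h2 h3 using hP
  obtain ⟨al, d, k1, k2, k3⟩ := hQ
  have hy : ∀ e : E, ∃ y : Equiv.Perm ℕ, ∀ a : A2,
      al a * y = y * ((be (D.pc e)).comp (D.emb e)) a := by
    intro e
    refine free_iso al ((be (D.pc e)).comp (D.emb e)) k1 ?_ d (c (D.pc e)) k2 ?_ k3 (h3 (D.pc e))
    · intro a x hx
      have h4 := h1 (D.pc e) (D.emb e a) x hx
      exact hD e (by rw [h4, map_one])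
    · intro a x
      exact h2 (D.pc e) (D.emb e a) x
  choose y hy' using hy
  refine ⟨{ be := be, al := fun _ => al, y := y, rel := fun e v => hy' e v }, ?_⟩
  intro p
  rw [injective_iff_map_eq_one]
  intro x hx
  have hx' : be p x = 1 := hx
  apply h1 p x 0
  rw [hx']
  rfl

theorem be_inj (hD : D.Valid) {G : Type} [Group G] (S : Sy D G) {p0 : P} {ep : P → E} {ef : Q → E}
    {rp : P → ℕ} {rq : Q → ℕ} (hTr : IsTr D p0 ep ef rp rq) (hS : IsPi S p0 ep ef) (p : P) :
    Function.Injective (S.be p) := by
  obtain ⟨S0, hS0⟩ := exists_perm (D := D) (fun e => emb_inj D e (hD.det e) (hD.ne e))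
  obtain ⟨S', hN, hI⟩ := nor_sy hTr S0 hS0
  obtain ⟨F, hF⟩ := hS.univ (Equiv.Perm ℕ) S' hN
  intro x y hxy
  apply hI p
  rw [← hF.be p x, ← hF.be p y, hxy]

end

end AdmIso
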