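import Pool.Agent.Lib.MP_32d917_al_adm.T01

/-!
# T16: transfer of realisations

Given `Φ, Ψ, κ` as in `GEqv` and a realisation `S, vp, fq` of `D`, put
`vp' p' = vp (sp⁻¹ p')`, `fq' q' = fq (sf⁻¹ q')`, `be' (sp p) = be p ∘ (Φ p)⁻¹`,
`al' (sf q) = al q ∘ (Ψ q)⁻¹`, `y' (se e) = y e * (be (pc e) (κ (pc e) e))⁻¹`. The relation: for
`v' = Ψ v`: `al'(v') y' = al(v) y be(κ)⁻¹ = y be(embp v) be(κ)⁻¹ = y be(κ)⁻¹ be(κ embp(v) κ⁻¹)
= y' be'(Φ(κ embp(v) κ⁻¹)) = y' be'(embp'(Ψ v))`. Dependent functions on `P'` are defined by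
`Equiv.piCongrLeft (fun p' => FZ (D'.rk p') →* G) sp`, with `Equiv.piCongrLeft_apply_apply` for the value
at `sp p`; statements for all `p'`, `q'`, `e'` are reduced to `sp p`, `sf q`, `se e` by surjectivity.
For the relation at `se e` rewrite with `S.relp` and `GEqv.ex` for `p = pc e`; as the type of
`D'.emb (se e)` involves `D'.pc (se e) = sp (D.pc e)`, prove the relation in the form of `Sy.relp`, for all
`p'` with `D'.pc e' = p'`, and specialise at the end.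
-/

set_option autoImplicit false

namespace AdmIso

open LatIso

section

variable {P Q E P' Q' E' : Type} {D : Dat P Q E} {D' : Dat P' Q' E'} {G : Type} [Group G]
  {V : Type} [MulAction G V] {T : SimpleGraph V} {Fl : Set V}

theorem transfer (h : Adm G T Fl) {S : Sy D G} {vp : P → V} {fq : Q → V}
    (hR : Rz D G T Fl S vp fq) {sp : P ≃ P'} {sf : Q ≃ Q'} {se : E ≃ E'}
    (hE : GEqv D D' sp sf se) :
    ∃ (S' : Sy D' G) (vp' : P' → V) (fq' : Q' → V), Rz D' G T Fl S' vp' fq' := by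
  obtain ⟨hpc, hfl, Φ, Ψ, κ, hex⟩ := hE
  obtain ⟨be', hbe⟩ : ∃ be' : (p' : P') → FZ (D'.rk p') →* G,
      ∀ p, be' (sp p) = (S.be p).comp (Φ p).symm.toMonoidHom := by
    refine ⟨Equiv.piCongrLeft (fun p' => FZ (D'.rk p') →* G) sp
      (fun p => (S.be p).comp (Φ p).symm.toMonoidHom), ?_⟩
    intro p
    exact Equiv.piCongrLeft_apply_apply (fun p' => FZ (D'.rk p') →* G) sp _ p
  have hbe' : ∀ p x, be' (sp p) x = S.be p ((Φ p).symm x) := by
    intro p x
    rw [hbe]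
    rfl
  obtain ⟨al', hal⟩ : ∃ al' : Q' → A2 →* G, ∀ q v, al' (sf q) v = S.al q ((Ψ q).symm v) := by
    refine ⟨fun q' => (S.al (sf.symm q')).comp (Ψ (sf.symm q')).symm.toMonoidHom, ?_⟩
    intro q v
    show S.al (sf.symm (sf q)) ((Ψ (sf.symm (sf q))).symm v) = _
    rw [Equiv.symm_apply_apply]
  obtain ⟨y', hy⟩ : ∃ y' : E' → G,
      ∀ e, y' (se e) = S.y e * (S.be (D.pc e) (κ (D.pc e) e))⁻¹ := by
    refine ⟨fun e' => S.y (se.symm e') *
      (S.be (D.pc (se.symm e')) (κ (D.pc (se.symm e')) (se.symm e')))⁻¹, ?_⟩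
    intro e
    show S.y (se.symm (se e)) *
      (S.be (D.pc (se.symm (se e))) (κ (D.pc (se.symm (se e))) (se.symm (se e))))⁻¹ = _
    rw [Equiv.symm_apply_apply]
  have hrel : ∀ e' p', D'.pc e' = p' → ∀ v, al' (D'.fl e') v * y' e' =
      y' e' * be' p' (D'.embp p' e' v) := by
    intro e' p' hp v
    obtain ⟨e, rfl⟩ := se.surjective e'
    obtain rfl : p' = sp (D.pc e) := hp.symm.trans (hpc e)
    obtain ⟨v, rfl⟩ := (Ψ (D.fl e)).surjective v
    rw [hfl, hal, hbe', hex _ e v rfl, hy, MulEquiv.symm_apply_apply]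
    simp only [map_mul, map_inv, MulEquiv.symm_apply_apply]
    rw [← mul_assoc, S.relp rfl v]
    group
  obtain ⟨vp', hvp⟩ : ∃ vp' : P' → V, ∀ p, vp' (sp p) = vp p :=
    ⟨fun p' => vp (sp.symm p'), fun p => by
      show vp (sp.symm (sp p)) = _
      rw [Equiv.symm_apply_apply]⟩
  obtain ⟨fq', hfq⟩ : ∃ fq' : Q' → V, ∀ q, fq' (sf q) = fq q :=
    ⟨fun q' => fq (sf.symm q'), fun q => by
      show fq (sf.symm (sf q)) = _
      rw [Equiv.symm_apply_apply]⟩
  have hyv : ∀ e, y' (se e) • vp' (D'.pc (se e)) = S.y e • vp (D.pc e) := by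
    intro e
    rw [hpc, hvp, hy, mul_smul]
    congr 1
    rw [inv_smul_eq_iff]
    exact ((hR.stp _ _).2 ⟨_, rfl⟩).symm
  refine ⟨⟨be', al', y', fun e' v => hrel e' _ rfl v⟩, vp', fq', ?_⟩
  constructor
  · intro p'
    obtain ⟨p, rfl⟩ := sp.surjective p'
    rw [hvp]
    exact hR.vpN p
  · intro q'
    obtain ⟨q, rfl⟩ := sf.surjective q'
    rw [hfq]
    exact hR.fqF q
  · intro p'
    obtain ⟨p, rfl⟩ := sp.surjective p'
    show Function.Injective (be' (sp p))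
    rw [hbe]
    exact (hR.beI p).comp (Φ p).symm.injective
  · intro p' g
    obtain ⟨p, rfl⟩ := sp.surjective p'
    rw [hvp, hR.stp]
    show _ ↔ ∃ x, be' (sp p) x = g
    constructor
    · rintro ⟨x, hx⟩
      exact ⟨Φ p x, by rw [hbe', MulEquiv.symm_apply_apply, hx]⟩
    · rintro ⟨x, hx⟩
      exact ⟨(Φ p).symm x, by rw [← hbe', hx]⟩
  · intro q' g
    obtain ⟨q, rfl⟩ := sf.surjective q'
    rw [hfq, hR.stq]
    show _ ↔ ∃ x, al' (sf q) x = g
    constructor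
    · rintro ⟨x, hx⟩
      exact ⟨Ψ q x, by rw [hal, MulEquiv.symm_apply_apply, hx]⟩
    · rintro ⟨x, hx⟩
      exact ⟨(Ψ q).symm x, by rw [← hal, hx]⟩
  · intro v hv
    obtain ⟨p, g, hg⟩ := hR.orp v hv
    exact ⟨sp p, g, by rw [hvp, hg]⟩
  · intro v hv
    obtain ⟨q, g, hg⟩ := hR.orq v hv
    exact ⟨sf q, g, by rw [hfq, hg]⟩
  · intro p1 p2 g hg
    obtain ⟨p1, rfl⟩ := sp.surjective p1
    obtain ⟨p2, rfl⟩ := sp.surjective p2
    rw [hvp, hvp] at hg
    rw [hR.unp p1 p2 g hg]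
  · intro p1 p2 g hg
    obtain ⟨p1, rfl⟩ := sf.surjective p1
    obtain ⟨p2, rfl⟩ := sf.surjective p2
    rw [hfq, hfq] at hg
    rw [hR.unq p1 p2 g hg]
  · intro q' v
    obtain ⟨q, rfl⟩ := sf.surjective q'
    rw [hfq, hR.adj]
    constructor
    · rintro ⟨e, he1, he2⟩
      refine ⟨se e, by rw [hfl, he1], ?_⟩
      rw [← he2]
      exact hyv e
    · rintro ⟨e', he1, he2⟩
      obtain ⟨e, rfl⟩ := se.surjective e'
      refine ⟨e, ?_, ?_⟩
      · rw [hfl] at he1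
        exact sf.injective he1
      · rw [← he2]
        exact (hyv e).symm
  · intro e1 e2 h1 h2
    obtain ⟨e1, rfl⟩ := se.surjective e1
    obtain ⟨e2, rfl⟩ := se.surjective e2
    rw [hfl, hfl] at h1
    have h3 : S.y e1 • vp (D.pc e1) = S.y e2 • vp (D.pc e2) := by
      rw [← hyv, ← hyv]
      exact h2
    rw [hR.une e1 e2 (sf.injective h1) h3]

end

end AdmIso
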