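import Pool.Agent.Lib.MP_32d917_al_adm.T14

/-!
# T17: equivalence in terms of groups and of numbers

`num_of_group`: let `Φ p (x, t) = (φ p x, τ p x * t ^ ε p)` (`fz_iso`), `δ q` the determinant of `Ψ q` (as an
additive automorphism of `ℤ × ℤ`; `det_aut`). For every `e` (`p = pc e`, `q = fl e`, `u = φ p (κ p e).1`) the
equation of `GEqv` in components gives the hypotheses of `edge_num`, so
`Ψ ze = ε ze'`, `Ψ om = δ ε om' + τ w ze'`, `u φ w u⁻¹ = w' ^ (ε δ)`. The last one is `phi`, and `num_of_psi` for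
the pairs `e, f` at the same flat gives `del` and `tau` (`del` for `e = f` is `0 = 0`).

`group_of_num`: `Φ p (x, t) = (φ p x, τ p x * t ^ ep p)` is an isomorphism (inverse
`(y, s) ↦ (φ⁻¹ y, (s / τ (φ⁻¹ y)) ^ ep)`). For every flat `q` let `I` be the set of the edges at `q`, it has two
different elements (`two`), and apply `psi_of_num` with `t e = τ (pc e) (D.w (pc e) e)`. For `κ` choose `u` with
`u φ w u⁻¹ = w' ^ (ε δ)` (`phi`, IsConj) and `κ = (φ⁻¹ u, 1)`; use `edge_conv`.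
-/

set_option autoImplicit false

namespace AdmIso

section

variable {P Q E P' Q' E' : Type} {D : Dat P Q E} {D' : Dat P' Q' E'}

/-- the additive automorphism given by an automorphism of `A2` -/
private def adA (Ψ : A2 ≃* A2) : (ℤ × ℤ) ≃+ (ℤ × ℤ) where
  toFun v := (Ψ (Multiplicative.ofAdd v)).toAdd
  invFun v := (Ψ.symm (Multiplicative.ofAdd v)).toAdd
  left_inv v := by simp
  right_inv v := by simp
  map_add' u v := by simp [ofAdd_add]

private theorem adA_apply (Ψ : A2 ≃* A2) (v : ℤ × ℤ) :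
    adA Ψ v = (Ψ (Multiplicative.ofAdd v)).toAdd := rfl

/-- the automorphism of `A2` given by an additive automorphism -/
private def mA (Ψ : (ℤ × ℤ) ≃+ (ℤ × ℤ)) : A2 ≃* A2 where
  toFun v := Multiplicative.ofAdd (Ψ v.toAdd)
  invFun v := Multiplicative.ofAdd (Ψ.symm v.toAdd)
  left_inv v := by simp
  right_inv v := by simp
  map_mul' u v := by simp [ofAdd_add]

private theorem mA_toAdd (Ψ : (ℤ × ℤ) ≃+ (ℤ × ℤ)) (v : A2) : (mA Ψ v).toAdd = Ψ v.toAdd := rfl

theorem num_of_group (hD : D.Valid) (hD' : D'.Valid) {sp : P ≃ P'} {sf : Q ≃ Q'} {se : E ≃ E'}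
    (h : GEqv D D' sp sf se) : ∃ (ep : P → ℤˣ) (de : Q → ℤˣ), Eqv D D' sp sf se ep de := by
  obtain ⟨Φ, Ψ, κ, hex⟩ := h.ex
  choose φ τ ε hΦ using fun p => fz_iso (hD.rk p) (hD'.rk (sp p)) (Φ p)
  choose δ hδ using fun q => det_aut (adA (Ψ q))
  have key : ∀ p e, D.pc e = p →
      adA (Ψ (D.fl e)) (D.ze e) = (ε p : ℤ) • D'.ze (se e) ∧
      adA (Ψ (D.fl e)) (D.om e) = ((δ (D.fl e) * ε p : ℤˣ) : ℤ) • D'.om (se e) +
        (τ p (D.w p e)).toAdd • D'.ze (se e) ∧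
      φ p (κ p e).1 * φ p (D.w p e) * (φ p (κ p e).1)⁻¹ =
        D'.w (sp p) (se e) ^ ((ε p * δ (D.fl e) : ℤˣ) : ℤ) := by
    intro p e hp
    have hw' : D'.w (sp p) (se e) ≠ 1 := by
      have := hD'.ne (se e)
      rw [h.pc e, hp] at this
      exact this
    have hw : D.w p e ≠ 1 := by
      have := hD.ne e
      rw [hp] at this
      exact this
    have hv : ∀ v : ℤ × ℤ,
        D'.w (sp p) (se e) ^ dt (adA (Ψ (D.fl e)) v) (D'.ze (se e)) =
          (φ p (κ p e).1 * φ p (D.w p e) * (φ p (κ p e).1)⁻¹) ^ dt v (D.ze e) ∧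
        dt (D'.om (se e)) (adA (Ψ (D.fl e)) v) =
          (τ p (D.w p e)).toAdd * dt v (D.ze e) + (ε p : ℤ) * dt (D.om e) v := by
      intro v
      have h1 := hex p e (Multiplicative.ofAdd v) hp
      rw [Dat.embp_apply, Dat.embp_apply] at h1
      have hk : Φ p (κ p e) = (φ p (κ p e).1, τ p (κ p e).1 * (κ p e).2 ^ (ε p : ℤ)) :=
        hΦ p (κ p e).1 (κ p e).2
      rw [hk, hΦ] at h1
      have h2 := congrArg Prod.fst h1
      have h3 := congrArg (fun x => Multiplicative.toAdd (Prod.snd x)) h1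
      simp only [Prod.fst_mul, Prod.fst_inv, toAdd_ofAdd, map_zpow] at h2
      simp only [Prod.snd_mul, Prod.snd_inv, toAdd_ofAdd, map_zpow, toAdd_mul, toAdd_inv,
        toAdd_zpow, smul_eq_mul] at h3
      constructor
      · rw [conj_zpow]
        exact h2
      · rw [adA_apply, h3]
        ring
    exact edge_num (φ p) (τ p) (ε p) (δ (D.fl e)) (adA (Ψ (D.fl e))) (hδ (D.fl e)) (D.w p e)
      (D'.w (sp p) (se e)) (D.ze e) (D.om e) (D'.ze (se e)) (D'.om (se e)) (hD.det e)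
      (hD'.det (se e)) hw hw' (φ p (κ p e).1) (fun v => (hv v).1) (fun v => (hv v).2)
  refine ⟨ε, δ, h.pc, h.fl, ?_, ?_, ?_⟩
  · intro e f hef
    have h1 := key _ e rfl
    have h2 := key _ f rfl
    rw [← hef] at h2
    exact (num_of_psi (adA (Ψ (D.fl e))) (δ (D.fl e)) (ε (D.pc e)) (ε (D.pc f)) _ (D.ze e)
      (D.om e) (D.ze f) (D'.ze (se e)) (D'.om (se e)) (D'.ze (se f)) (hD.det e)
      (hD'.det (se e)) h1.1 h1.2.1 h2.1).1
  · intro p
    refine ⟨τ p, ?_⟩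
    intro e f hp hef _
    have h1 := key p e hp
    have h2 := key _ f rfl
    rw [← hef] at h2
    exact (num_of_psi (adA (Ψ (D.fl e))) (δ (D.fl e)) (ε p) (ε (D.pc f)) _ (D.ze e)
      (D.om e) (D.ze f) (D'.ze (se e)) (D'.om (se e)) (D'.ze (se f)) (hD.det e)
      (hD'.det (se e)) h1.1 h1.2.1 h2.1).2
  · intro p
    exact ⟨φ p, fun e hp => isConj_iff.2 ⟨_, (key p e hp).2.2⟩⟩

/-- the isomorphism given by `φ`, `τ` and a sign -/
private def mkΦ {n m : ℕ} (φ : FreeGroup (Fin n) ≃* FreeGroup (Fin m))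
    (τ : FreeGroup (Fin n) →* Multiplicative ℤ) (ε : ℤˣ) : FZ n ≃* FZ m where
  toFun x := (φ x.1, τ x.1 * x.2 ^ (ε : ℤ))
  invFun y := (φ.symm y.1, ((τ (φ.symm y.1))⁻¹ * y.2) ^ (ε : ℤ))
  left_inv x := by
    apply Prod.ext
    · simp
    · simp only [MulEquiv.symm_apply_apply, inv_mul_cancel_left]
      rw [← zpow_mul]
      have : (ε : ℤ) * (ε : ℤ) = 1 := by
        rcases Int.units_eq_one_or ε with h | h <;> simp [h]
      rw [this, zpow_one]
  right_inv y := by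
    apply Prod.ext
    · simp
    · simp only
      rw [← zpow_mul]
      have : (ε : ℤ) * (ε : ℤ) = 1 := by
        rcases Int.units_eq_one_or ε with h | h <;> simp [h]
      rw [this, zpow_one, mul_inv_cancel_left]
  map_mul' x y := by
    apply Prod.ext
    · simp
    · simp only [Prod.fst_mul, Prod.snd_mul, map_mul, mul_zpow]
      exact mul_mul_mul_comm _ _ _ _

private theorem mkΦ_apply {n m : ℕ} (φ : FreeGroup (Fin n) ≃* FreeGroup (Fin m))
    (τ : FreeGroup (Fin n) →* Multiplicative ℤ) (ε : ℤˣ) (x : FZ n) :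
    mkΦ φ τ ε x = (φ x.1, τ x.1 * x.2 ^ (ε : ℤ)) := rfl

theorem group_of_num (hD : D.Valid) (hD' : D'.Valid) {sp : P ≃ P'} {sf : Q ≃ Q'} {se : E ≃ E'}
    {ep : P → ℤˣ} {de : Q → ℤˣ} (h : Eqv D D' sp sf se ep de) : GEqv D D' sp sf se := by
  classical
  choose τ hτ using h.tau
  choose φ hφ using h.phi
  have hPsi : ∀ q, ∃ Ψ : (ℤ × ℤ) ≃+ (ℤ × ℤ), (∀ u v, dt (Ψ u) (Ψ v) = (de q : ℤ) * dt u v) ∧
      ∀ e, D.fl e = q → Ψ (D.ze e) = (ep (D.pc e) : ℤ) • D'.ze (se e) ∧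
        Ψ (D.om e) = ((de q * ep (D.pc e) : ℤˣ) : ℤ) • D'.om (se e) +
          (τ (D.pc e) (D.w (D.pc e) e)).toAdd • D'.ze (se e) := by
    intro q
    obtain ⟨e, f, hef, he, hf⟩ := hD.two q
    obtain ⟨Ψ, h1, h2⟩ := psi_of_num (I := {e // D.fl e = q}) ⟨e, he⟩ ⟨f, hf⟩
      (fun hh => hef (congrArg Subtype.val hh)) (fun i => D.ze i.1) (fun i => D.om i.1)
      (fun i => D'.ze (se i.1)) (fun i => D'.om (se i.1)) (de q) (fun i => ep (D.pc i.1))
      (fun i => (τ (D.pc i.1) (D.w (D.pc i.1) i.1)).toAdd) (fun i => hD.det i.1)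
      (fun i => hD'.det (se i.1))
      (fun i j hij => hD.ind i.1 j.1 (fun hh => hij (Subtype.ext hh)) (i.2.trans j.2.symm))
      (fun i j => by
        have := h.del i.1 j.1 (i.2.trans j.2.symm)
        rw [i.2] at this
        exact this)
      (fun i j hij => hτ (D.pc i.1) i.1 j.1 rfl (i.2.trans j.2.symm)
        (fun hh => hij (Subtype.ext hh)))
    exact ⟨Ψ, h1, fun e he => h2 ⟨e, he⟩⟩
  choose Ψ hΨ1 hΨ2 using hPsi
  have hκ : ∀ p e, ∃ u : FreeGroup (Fin (D'.rk (sp p))), D.pc e = p →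
      u * φ p (D.w p e) * u⁻¹ = D'.w (sp p) (se e) ^ ((ep p * de (D.fl e) : ℤˣ) : ℤ) := by
    intro p e
    by_cases hp : D.pc e = p
    · obtain ⟨u, hu⟩ := isConj_iff.1 (hφ p e hp)
      exact ⟨u, fun _ => hu⟩
    · exact ⟨1, fun hh => absurd hh hp⟩
  choose u hu using hκ
  refine ⟨h.pc, h.fl, fun p => mkΦ (φ p) (τ p) (ep p), fun q => mA (Ψ q),
    fun p e => ((φ p).symm (u p e), 1), ?_⟩
  intro p e v hp
  have h1 := hΨ2 (D.fl e) e rfl
  rw [hp] at h1
  have h2 := edge_conv (φ p) (τ p) (ep p) (de (D.fl e)) (Ψ (D.fl e)) (hΨ1 (D.fl e)) (D.w p e)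
    (D'.w (sp p) (se e)) (D.ze e) (D.om e) (D'.ze (se e)) (D'.om (se e)) (hD.det e)
    (hD'.det (se e)) (u p e) h1.1 h1.2 (hu p e hp) v.toAdd
  rw [Dat.embp_apply, Dat.embp_apply, mA_toAdd, mkΦ_apply, mkΦ_apply]
  apply Prod.ext
  · simp only [Prod.fst_mul, Prod.fst_inv, map_zpow, MulEquiv.apply_symm_apply]
    rw [h2.1, conj_zpow]
  · simp only [Prod.snd_mul, Prod.snd_inv]
    rw [h2.2, mul_inv_cancel_comm]
    apply Multiplicative.toAdd.injective
    simp only [toAdd_ofAdd, map_zpow, toAdd_mul, toAdd_zpow, smul_eq_mul]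
    ring

end

end AdmIso
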