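import Pool.Agent.Lib.MP_32d917_al_adm.RDefs

/-!
# T18: small transport lemmas

`junk`: the values `w p e` for `p ≠ pc e` do not matter; `emb` only uses `w (pc e) e`; take the same `be`, `al`,
`y`.

`IsPi.map`: transport along an isomorphism.

`isConj_root`: centralisers of conjugate elements are conjugate.
-/

set_option autoImplicit false

namespace AdmIso

section

variable {P Q E : Type} {D : Dat P Q E} {G : Type} [Group G] {V : Type} [MulAction G V]
  {T : SimpleGraph V} {Fl : Set V}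

theorem junk {w w' : (p : P) → E → FreeGroup (Fin (D.rk p))}
    (h : ∀ e, w (D.pc e) e = w' (D.pc e) e) {S : Sy { D with w := w } G} {vp : P → V} {fq : Q → V}
    (hR : Rz { D with w := w } G T Fl S vp fq) :
    ∃ S' : Sy { D with w := w' } G, Rz { D with w := w' } G T Fl S' vp fq := by
  refine ⟨⟨S.be, S.al, S.y, ?_⟩, ?_⟩
  · intro e v
    have h1 := S.rel e v
    have h2 : ({ D with w := w' } : Dat P Q E).emb e v = ({ D with w := w } : Dat P Q E).emb e v := by
      show (w' (D.pc e) e ^ dt v.toAdd (D.ze e), Multiplicative.ofAdd (dt (D.om e) v.toAdd)) =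
        (w (D.pc e) e ^ dt v.toAdd (D.ze e), Multiplicative.ofAdd (dt (D.om e) v.toAdd))
      rw [h e]
    show S.al (D.fl e) v * S.y e = S.y e * S.be (D.pc e) (({ D with w := w' } : Dat P Q E).emb e v)
    rw [h2]
    exact h1
  · exact {
      vpN := hR.vpN
      fqF := hR.fqF
      beI := hR.beI
      stp := hR.stp
      stq := hR.stq
      orp := hR.orp
      orq := hR.orq
      unp := hR.unp
      unq := hR.unq
      adj := hR.adj
      une := hR.une }

theorem isPi_map {H : Type} [Group H] {S : Sy D G} {p0 : P} {ep : P → E} {ef : Q → E}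
    (h : IsPi S p0 ep ef) (e : G ≃* H) : ∃ S' : Sy D H, IsPi S' p0 ep ef := by
  refine ⟨⟨fun p => e.toMonoidHom.comp (S.be p), fun q => e.toMonoidHom.comp (S.al q),
    fun x => e (S.y x), ?_⟩, ⟨?_, ?_⟩, ?_, ?_⟩
  · intro x v
    show e (S.al (D.fl x) v) * e (S.y x) = e (S.y x) * e (S.be (D.pc x) (D.emb x v))
    rw [← map_mul, ← map_mul, S.rel x v]
  · intro p hp
    show e (S.y (ep p)) = 1
    rw [h.nor.1 p hp, map_one]
  · intro q
    show e (S.y (ef q)) = 1
    rw [h.nor.2 q, map_one]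
  · have h1 := congrArg (Subgroup.map e.toMonoidHom) h.gen
    rw [MonoidHom.map_closure, Subgroup.map_top_of_surjective _ e.surjective] at h1
    unfold Sy.Gen
    rw [← h1]
    congr 1
    ext y
    simp only [Set.mem_union, Set.mem_ofPred_eq, Set.mem_range, Set.mem_image]
    constructor
    · rintro ((⟨p, x, rfl⟩ | ⟨q, v, rfl⟩) | ⟨x, rfl⟩)
      · exact ⟨S.be p x, Or.inl (Or.inl ⟨p, x, rfl⟩), rfl⟩
      · exact ⟨S.al q v, Or.inl (Or.inr ⟨q, v, rfl⟩), rfl⟩
      · exact ⟨S.y x, Or.inr ⟨x, rfl⟩, rfl⟩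
    · rintro ⟨g, (⟨p, x, rfl⟩ | ⟨q, v, rfl⟩) | ⟨x, rfl⟩, rfl⟩
      · exact Or.inl (Or.inl ⟨p, x, rfl⟩)
      · exact Or.inl (Or.inr ⟨q, v, rfl⟩)
      · exact Or.inr ⟨x, rfl⟩
  · intro K _ S'' hS''
    obtain ⟨F, hF⟩ := h.univ K S'' hS''
    refine ⟨F.comp e.symm.toMonoidHom, ⟨?_, ?_, ?_⟩⟩
    · intro p x
      show F (e.symm (e (S.be p x))) = S''.be p x
      rw [e.symm_apply_apply, hF.be]
    · intro q v
      show F (e.symm (e (S.al q v))) = S''.al q v
      rw [e.symm_apply_apply, hF.al]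
    · intro x
      show F (e.symm (e (S.y x))) = S''.y x
      rw [e.symm_apply_apply, hF.y]

theorem isConj_root {α : Type} {x y : FreeGroup α} (h : IsConj x y)
    (hx : ∀ z, z * x = x * z → ∃ k : ℤ, z = x ^ k) (z : FreeGroup α) (hz : z * y = y * z) :
    ∃ k : ℤ, z = y ^ k := by
  obtain ⟨c, rfl⟩ := isConj_iff.1 h
  obtain ⟨k, hk⟩ := hx (c⁻¹ * z * c) (by
    have h1 : c⁻¹ * (z * (c * x * c⁻¹)) * c = c⁻¹ * ((c * x * c⁻¹) * z) * c := by rw [hz]
    calc c⁻¹ * z * c * x = c⁻¹ * (z * (c * x * c⁻¹)) * c := by group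
      _ = c⁻¹ * ((c * x * c⁻¹) * z) * c := h1
      _ = x * (c⁻¹ * z * c) := by group)
  refine ⟨k, ?_⟩
  rw [conj_zpow, ← hk]
  group

end

end AdmIso
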