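import Pool.Agent.Lib.MP_32d917_al.Final
import Pool.Agent.Lib.MP_32d917_al_adm.T08
import Pool.Agent.Lib.MP_32d917_al_adm.T09
import Pool.Agent.Lib.MP_32d917_al_adm.T11
import Pool.Agent.Lib.MP_32d917_al_adm.T12
import Pool.Agent.Lib.MP_32d917_al_adm.T13
import Pool.Agent.Lib.MP_32d917_al_adm.T15
import Pool.Agent.Lib.MP_32d917_al_adm.T16
import Pool.Agent.Lib.MP_32d917_al_adm.T17
import Pool.Agent.Lib.MP_32d917_al_adm.T18
import Pool.Agent.Lib.MP_32d917_al_adm.C04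
import Pool.Agent.Lib.MP_32d917_al_adm.C06
import Pool.Agent.Lib.MP_32d917_al_adm.C07
import Pool.Agent.Lib.MP_32d917_al_adm.C08
import Pool.Agent.Lib.MP_32d917_al_adm.C10

/-!
# The isomorphism problem for admissible groups: assembly
-/

set_option autoImplicit false
set_option synthInstance.maxSize 2000

namespace AdmIso

open LatIso

/-- `c` is a code for the group presented by `P` -/
def CodeFor (f : Cd → Pres) (P : Pres) (c : Cd) : Prop := ValN c ∧ Nonempty (P.Grp ≃* (f c).Grp)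

theorem codeFor_re {f : Cd → Pres} (hf : Primrec f) :
    REPred fun x : Pres × Cd => CodeFor f x.1 x.2 := by
  refine re_and (re_of_prim (valN_p.comp Primrec.snd)) ?_
  exact re_comp iso_re (f := fun x : Pres × Cd => (x.1, f x.2))
    (Primrec.pair Primrec.fst (hf.comp Primrec.snd)).to_comp

/-- certificate of non-isomorphism -/
def NoCert (f : Cd → Pres) (P Q : Pres) : Prop :=
  ∃ z : Cd × Cd, CodeFor f P z.1 ∧ CodeFor f Q z.2 ∧ ∀ t : Mt, InB z.1 t → ¬ GoodM z.1 z.2 t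

theorem noCert_re {f : Cd → Pres} (hf : Primrec f) :
    REPred fun x : Pres × Pres => NoCert f x.1 x.2 := by
  have h1 := re_comp (codeFor_re hf) (f := fun x : (Pres × Pres) × (Cd × Cd) => (x.1.1, x.2.1))
    (Primrec.pair (Primrec.fst.comp Primrec.fst) (Primrec.fst.comp Primrec.snd)).to_comp
  have h2 := re_comp (codeFor_re hf) (f := fun x : (Pres × Pres) × (Cd × Cd) => (x.1.2, x.2.2))
    (Primrec.pair (Primrec.snd.comp Primrec.fst) (Primrec.snd.comp Primrec.snd)).to_comp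
  have h3 := re_comp noGood_re (f := fun x : (Pres × Pres) × (Cd × Cd) => x.2) Primrec.snd.to_comp
  exact re_exists (p := fun (x : Pres × Pres) (z : Cd × Cd) =>
    CodeFor f x.1 z.1 ∧ CodeFor f x.2 z.2 ∧ ∀ t : Mt, InB z.1 t → ¬ GoodM z.1 z.2 t)
    (re_and h1 (re_and h2 h3))

/-- the property of the function `pres_f` -/
def IsF (f : Cd → Pres) : Prop := ∀ c, IsPres c (f c)

theorem isF_exists : ∃ f : Cd → Pres, Primrec f ∧ IsF f := by
  obtain ⟨f, hf, h⟩ := pres_f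
  exact ⟨f, hf, fun c => ⟨(h c).1, (h c).2.1, (h c).2.2⟩⟩

section

variable {G : Type} [Group G] {V : Type} [MulAction G V] {T : SimpleGraph V} {Fl : Set V}

/-- the code is realised on every admissible action -/
theorem real_code {f : Cd → Pres} (hf : IsF f) {c : Cd} (hc : ValN c) (e : G ≃* (f c).Grp)
    (h : Adm G T Fl) : ∃ (S : Sy (toDat c) G) (vp : Fin (cP c + 1) → V) (fq : Fin (cQ c + 1) → V),
      Rz (toDat c) G T Fl S vp fq := by
  obtain ⟨hV, hTr⟩ := valN_sound c hc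
  obtain ⟨S0, hS0⟩ := pres_pi (hf c)
  obtain ⟨S, hS⟩ := isPi_map hS0 e.symm
  have hI : ∀ p, Function.Injective (S.be p) := be_inj hV S hTr hS
  obtain ⟨vp, fq, hR⟩ := real h hV S hTr hS.nor hS.gen hI
  exact ⟨S, vp, fq, hR⟩

/-- a realised code presents the group -/
theorem iso_code {f : Cd → Pres} (hf : IsF f) {c : Cd} (hc : ValN c) (h : Adm G T Fl)
    {S : Sy (toDat c) G} {vp : Fin (cP c + 1) → V} {fq : Fin (cQ c + 1) → V}
    (hR : Rz (toDat c) G T Fl S vp fq) : Nonempty (G ≃* (f c).Grp) := by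
  obtain ⟨hV, hTr⟩ := valN_sound c hc
  obtain ⟨S', vp', fq', hR', hN'⟩ := norm h hR hTr
  obtain ⟨S0, hS0⟩ := pres_pi (hf c)
  obtain ⟨F, hF⟩ := hS0.univ G S' hN'
  have hb := pi_iso h.tree h.adj h.bip (fun g x => adm_flat_iff h g x) hR' hTr S0 hS0.nor hS0.gen F hF
  exact ⟨(MulEquiv.ofBijective F hb).symm⟩

theorem codeFor_exists {f : Cd → Pres} (hf : IsF f) (P : Pres) (hP : IsAdm P.Grp) :
    ∃ c, CodeFor f P c := by
  obtain ⟨V, _, T, Fl, h⟩ := hP
  obtain ⟨a, b, d, D, S, vp, fq, hR, h1, h2, h3, h4⟩ := quot h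
  obtain ⟨w, hw1, hw2, S1, hR1⟩ := cyc hR
  choose l hl1 hl2 using fun e => crn_surj (D.rk (D.pc e)) (w (D.pc e) e) (hw1 e)
  obtain ⟨S2, hR2⟩ := junk (D := D) (w := w) (w' := fun p e => dl (D.rk p) (l e))
    (fun e => (hl1 e).symm) hR1
  have h3' : ∀ e, w (D.pc e) e ≠ 1 := by
    intro e he
    have := hw2 e
    rw [he] at this
    exact h3 e (isConj_one_left.1 this)
  have hv : ({ D with w := fun p e => dl (D.rk p) (l e) } :
      Dat (Fin (a + 1)) (Fin (b + 1)) (Fin (d + 1))).Valid := by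
    refine valid_of_rz h hR2 h1 h2 ?_ ?_
    · intro e
      show dl (D.rk (D.pc e)) (l e) ≠ 1
      rw [hl1]
      exact h3' e
    · intro e x hx
      change x * dl (D.rk (D.pc e)) (l e) = dl (D.rk (D.pc e)) (l e) * x at hx
      show ∃ k : ℤ, x = dl (D.rk (D.pc e)) (l e) ^ k
      rw [hl1] at hx ⊢
      exact isConj_root (hw2 e) (h4 e) x hx
  obtain ⟨ep, ef, rp, rq, hTr⟩ := span h hR2 (0 : Fin (a + 1))
  obtain ⟨r, e1, e2, e3, e4, e5, e6, e7, e8⟩ := code_exists D.rk D.pc D.fl l D.ze D.om 0 ep ef rp rq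
  have e1' : toDat ((a, b, d), r) = ({ D with w := fun p e => dl (D.rk p) (l e) } :
      Dat (Fin (a + 1)) (Fin (b + 1)) (Fin (d + 1))) := e1
  have hval : ValN ((a, b, d), r) := by
    refine (valN_iff ((a, b, d), r) ?_).2 ⟨?_, ?_⟩
    · intro e he
      have q1 := e2 ⟨e, he⟩
      have q2 := e3 ⟨e, he⟩
      simp only at q1 q2
      rw [q1, q2]
      exact hl2 _
    · rw [e1']; exact hv
    · rw [e1', e4, e5, e6]
      have q7 : (fun p : Fin (a + 1) => rpN ((a, b, d), r) p) = rp := funext e7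
      have q8 : (fun q : Fin (b + 1) => rqN ((a, b, d), r) q) = rq := funext e8
      rw [q7, q8]
      exact hTr
  refine ⟨((a, b, d), r), hval, ?_⟩
  have hR3 : ∃ (S : Sy (toDat ((a, b, d), r)) P.Grp) (vp : Fin (a + 1) → V)
      (fq : Fin (b + 1) → V), Rz (toDat ((a, b, d), r)) P.Grp T Fl S vp fq := by
    rw [e1']
    exact ⟨S2, vp, fq, hR2⟩
  obtain ⟨S3, vp3, fq3, hR3⟩ := hR3
  exact iso_code hf hval h hR3

end

theorem noCert_sound {f : Cd → Pres} (hf : IsF f) (P Q : Pres) (hP : IsAdm P.Grp)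
    (h : NoCert f P Q) : ¬ Nonempty (P.Grp ≃* Q.Grp) := by
  rintro ⟨e⟩
  obtain ⟨V, _, T, Fl, hA⟩ := hP
  obtain ⟨⟨c, c'⟩, ⟨v, ⟨i⟩⟩, ⟨v', ⟨i'⟩⟩, hno⟩ := h
  simp only at v i v' i' hno
  obtain ⟨S, vp, fq, hR⟩ := real_code hf v i hA
  obtain ⟨S', vp', fq', hR'⟩ := real_code hf v' (e.trans i') hA
  have hV := (valN_sound c v).1
  have hV' := (valN_sound c' v').1
  obtain ⟨sp, sf, se, hG⟩ := cmp_group hA hR hR' (al_inj hV S hR.beI) (al_inj hV' S' hR'.beI)
  obtain ⟨ep, de, hE⟩ := num_of_group hV hV' hG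
  obtain ⟨t, ht, hg⟩ := good_of_eqv c c' hE
  exact hno t ht hg

theorem noCert_complete {f : Cd → Pres} (hf : IsF f) (P Q : Pres) (hP : IsAdm P.Grp)
    (hQ : IsAdm Q.Grp) (h : ¬ Nonempty (P.Grp ≃* Q.Grp)) : NoCert f P Q := by
  obtain ⟨c, v, ⟨i⟩⟩ := codeFor_exists hf P hP
  obtain ⟨c', v', ⟨i'⟩⟩ := codeFor_exists hf Q hQ
  refine ⟨(c, c'), ⟨v, ⟨i⟩⟩, ⟨v', ⟨i'⟩⟩, ?_⟩
  intro t ht hg
  apply h
  obtain ⟨V, _, T, Fl, hA⟩ := hP
  obtain ⟨S, vp, fq, hR⟩ := real_code hf v i hA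
  obtain ⟨sp, sf, se, ep, de, hE⟩ := eqv_of_good c c' t hg
  have hV := (valN_sound c v).1
  have hV' := (valN_sound c' v').1
  have hG := group_of_num hV hV' hE
  obtain ⟨S', vp', fq', hR'⟩ := transfer hA hR hG
  obtain ⟨j⟩ := iso_code hf v' hA hR'
  exact ⟨j.trans i'.symm⟩

/-- The isomorphism problem is solvable for admissible groups. -/
theorem final : ∃ f : Pres × Pres →. Bool, Partrec f ∧ ∀ P Q : Pres,
    IsAdm P.Grp → IsAdm Q.Grp → ∃ b ∈ f (P, Q), (b = true ↔ Nonempty (P.Grp ≃* Q.Grp)) := by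
  obtain ⟨g, hg, hg'⟩ := isF_exists
  obtain ⟨f, hf, h1, h2, h3⟩ := par_search iso_re (noCert_re hg)
  refine ⟨f, hf, fun P Q hP hQ => ?_⟩
  have g2 : true ∈ f (P, Q) → Nonempty (P.Grp ≃* Q.Grp) := fun h => h2 (P, Q) h
  have g3 : false ∈ f (P, Q) → NoCert g P Q := fun h => h3 (P, Q) h
  have hd : (f (P, Q)).Dom := by
    apply h1
    by_cases h : Nonempty (P.Grp ≃* Q.Grp)
    · exact Or.inl h
    · exact Or.inr (noCert_complete hg' P Q hP hQ h)
  refine ⟨(f (P, Q)).get hd, Part.get_mem hd, ?_⟩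
  have hm := Part.get_mem hd
  rcases hb : (f (P, Q)).get hd with _ | _
  · rw [hb] at hm
    have h4 := noCert_sound hg' P Q hP (g3 hm)
    exact ⟨fun h => by simp at h, fun h => absurd h h4⟩
  · rw [hb] at hm
    exact ⟨fun _ => g2 hm, fun _ => rfl⟩

end AdmIso
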