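import Pool.Agent.Lib.MP_32d917_al_adm.F02
import Pool.Agent.Lib.MP_32d917_al.TTL
import Pool.Agent.Lib.MP_32d917_al.TL1B

/-!
# T01: elementary facts on admissible actions

`Bt T x m y` means that `m` lies on the geodesic from `x` to `y`; see ST1 (`st_next`, `st_uniq`,
`st_seg`, `st_pt`), TL1 (`ta_dist`), MIN1 (`min1_fix`, reprove it here as `adm_fix`) in the
directory MP_32d917_al.

`adm_ta`: no inversions since `g` preserves `Fl` (and its complement) and adjacent vertices are of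
different kind.
`adm_next`: `st_next` twice. If the second vertex `u1` (a piece) is not `u'`, the next vertex is a
flat `f2`, different from `f1` since the points of a geodesic are different.
`adm_flatab`: `A2` is commutative.
`adm_deg`: the stabiliser of `u` is not abelian (`fg_nc`), that of `f` is, so some `g` fixes `u` and not
`f`; take `f' = g • f`. `adm_hasflat`: connectedness, `ne`.
`cen_iff`: transport of `fz_cen`. `cen_fix`: `maxl`. `cen_cyc`: for an isomorphism of `FZ n` with the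
stabiliser of `u`, `z` and `z'` correspond to `(1, a)`, `(1, b)`; take `m = b`, `n = a` (if both
vanish: `m = n = 1`).
-/

set_option autoImplicit false

namespace AdmIso

open LatIso

section

variable {G : Type} [Group G] {V : Type} [MulAction G V] {T : SimpleGraph V} {Fl : Set V}

theorem adm_flat_iff (h : Adm G T Fl) (g : G) (x : V) : g • x ∈ Fl ↔ x ∈ Fl := by
  refine ⟨fun hx => ?_, h.flat g x⟩
  have := h.flat g⁻¹ _ hx
  rwa [inv_smul_smul] at this

theorem adm_ta (h : Adm G T Fl) : TA G T where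
  tree := h.tree
  adj := h.adj
  noinv := by
    intro g x y hxy hg _
    have h1 := h.bip x y hxy
    have h2 := adm_flat_iff h g x
    rw [hg] at h2
    tauto

theorem adm_fix (h : Adm G T Fl) (g : G) {x m y : V} (hx : g • x = x) (hy : g • y = y)
    (hm : Bt T x m y) : g • m = m := by
  have e1 : T.dist x (g • m) = T.dist x m := by
    conv_lhs => rw [← hx]
    exact ta_dist (adm_ta h) g _ _
  have e2 : T.dist (g • m) y = T.dist m y := by
    conv_lhs => rw [← hy]
    exact ta_dist (adm_ta h) g _ _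
  refine st_pt_uniq h.tree ?_ hm e1
  show T.dist x (g • m) + T.dist (g • m) y = T.dist x y
  rw [e1, e2]; exact hm

/-- the first flat and the next piece on the geodesic between two pieces -/
theorem adm_next (h : Adm G T Fl) {u u' : V} (hu : u ∉ Fl) (hu' : u' ∉ Fl) (hne : u ≠ u') :
    ∃ f u1, f ∈ Fl ∧ u1 ∉ Fl ∧ u1 ≠ u ∧ T.Adj f u ∧ T.Adj f u1 ∧ Bt T u f u' ∧ Bt T u u1 u' ∧
      (u1 = u' ∨ ∃ f2 ∈ Fl, f2 ≠ f ∧ T.Adj f2 u1 ∧ Bt T u f2 u') := by
  obtain ⟨f, hf1, hf2⟩ := st_next h.tree hne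
  have hf : f ∈ Fl := by
    have := h.bip u f hf1
    tauto
  have hfu : f ≠ u' := fun e => hu' (e ▸ hf)
  obtain ⟨u1, hu1, hu2⟩ := st_next h.tree hfu
  have hu1F : u1 ∉ Fl := by
    have := h.bip f u1 hu1
    tauto
  have e1 := st1_one hf1
  have e2 := st1_one hu1
  have b1 := hf2
  have b2 := hu2
  unfold Bt at b1 b2
  have t1 := st1_tri h.tree u f u1
  have t2 := st1_tri h.tree u u1 u'
  refine ⟨f, u1, hf, hu1F, ?_, hf1.symm, hu1, hf2, ?_, ?_⟩
  · rintro rfl
    omega
  · unfold Bt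
    omega
  · by_cases h1 : u1 = u'
    · exact Or.inl h1
    · right
      obtain ⟨f2, hf3, hf4⟩ := st_next h.tree h1
      have hf2F : f2 ∈ Fl := by
        have := h.bip u1 f2 hf3
        tauto
      have e3 := st1_one hf3
      have b3 := hf4
      unfold Bt at b3
      have t3 := st1_tri h.tree u u1 f2
      have t4 := st1_tri h.tree u f2 u'
      refine ⟨f2, hf2F, ?_, hf3.symm, ?_⟩
      · rintro rfl
        omega
      · unfold Bt
        omega

/-- the first piece and the next flat on the geodesic between two flats -/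
theorem adm_next' (h : Adm G T Fl) {f f' : V} (hf : f ∈ Fl) (hf' : f' ∈ Fl) (hne : f ≠ f') :
    ∃ u f2, u ∉ Fl ∧ f2 ∈ Fl ∧ f2 ≠ f ∧ T.Adj f u ∧ T.Adj f2 u ∧ Bt T f u f' ∧ Bt T f f2 f' := by
  obtain ⟨u, hu1, hu2⟩ := st_next h.tree hne
  have hu : u ∉ Fl := by
    have := h.bip f u hu1
    tauto
  have huf : u ≠ f' := fun e => hu (e ▸ hf')
  obtain ⟨f2, hf1, hf2⟩ := st_next h.tree huf
  have hf2F : f2 ∈ Fl := by
    have := h.bip u f2 hf1
    tauto
  have e1 := st1_one hu1
  have e2 := st1_one hf1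
  have b1 := hu2
  have b2 := hf2
  unfold Bt at b1 b2
  have t1 := st1_tri h.tree f u f2
  have t2 := st1_tri h.tree f f2 f'
  refine ⟨u, f2, hu, hf2F, ?_, hu1, hf1.symm, hu2, ?_⟩
  · rintro rfl
    omega
  · unfold Bt
    omega

theorem adm_flatab (h : Adm G T Fl) {f : V} (hf : f ∈ Fl) {g k : G} (hg : g • f = f)
    (hk : k • f = f) : g * k = k * g := by
  obtain ⟨ι⟩ := h.flatg f hf
  obtain ⟨a, ha⟩ := ι.surjective ⟨g, hg⟩
  obtain ⟨b, hb⟩ := ι.surjective ⟨k, hk⟩
  have h1 : ι a * ι b = ι b * ι a := by rw [← map_mul, ← map_mul, mul_comm]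
  rw [ha, hb] at h1
  exact congrArg Subtype.val h1

theorem adm_flat_fix (h : Adm G T Fl) {f u : V} (hf : f ∈ Fl) (ha : T.Adj f u) {g : G}
    (hg : g • f = f) : g • u = u :=
  h.fix f u hf ha hg

theorem adm_deg (h : Adm G T Fl) {f u : V} (hf : f ∈ Fl) (ha : T.Adj f u) :
    ∃ f' ∈ Fl, f' ≠ f ∧ T.Adj f' u := by
  have hu : u ∉ Fl := by
    have := h.bip f u ha
    tauto
  obtain ⟨n, hn, ⟨ι⟩⟩ := h.piece u hu
  by_contra hcon
  have key : ∀ g : G, g • u = u → g • f = f := by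
    intro g hg
    by_contra hgf
    apply hcon
    refine ⟨g • f, h.flat g f hf, hgf, ?_⟩
    have := h.adj g f u ha
    rwa [hg] at this
  obtain ⟨a, b, hab⟩ := fg_nc n hn
  apply hab
  have h1 := adm_flatab h hf (key (ι (a, 1) : G) (ι (a, 1)).2) (key (ι (b, 1) : G) (ι (b, 1)).2)
  have h2 : ι (a, 1) * ι (b, 1) = ι (b, 1) * ι (a, 1) := Subtype.ext h1
  rw [← map_mul, ← map_mul] at h2
  exact congrArg Prod.fst (ι.injective h2)

theorem adm_hasflat (h : Adm G T Fl) {u : V} (hu : u ∉ Fl) : ∃ f ∈ Fl, T.Adj f u := by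
  obtain ⟨x, hx⟩ := h.ne
  have hne : u ≠ x := fun e => hu (e ▸ hx)
  obtain ⟨n, hn, _⟩ := st_next h.tree hne
  have hnF : n ∈ Fl := by
    have := h.bip u n hn
    tauto
  exact ⟨n, hnF, hn.symm⟩

theorem cen_conj {y : V} {z : G} (g : G) (hz : Cen G y z) : Cen G (g • y) (g * z * g⁻¹) := by
  obtain ⟨h1, h2⟩ := hz
  constructor
  · rw [mul_smul, mul_smul, inv_smul_smul, h1]
  · intro k hk
    have h3 : (g⁻¹ * k * g) • y = y := by
      rw [mul_smul, mul_smul, hk, inv_smul_smul]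
    have h4 := h2 _ h3
    calc g * z * g⁻¹ * k = g * (z * (g⁻¹ * k * g)) * g⁻¹ := by group
      _ = g * ((g⁻¹ * k * g) * z) * g⁻¹ := by rw [h4]
      _ = k * (g * z * g⁻¹) := by group

theorem cen_iff (h : Adm G T Fl) {u : V} (hu : u ∉ Fl) : ∃ n, 2 ≤ n ∧
    ∃ ι : FZ n ≃* MulAction.stabilizer G u, ∀ x : FZ n, Cen G u ((ι x : G)) ↔ x.1 = 1 := by
  obtain ⟨n, hn, ⟨ι⟩⟩ := h.piece u hu
  refine ⟨n, hn, ι, fun x => ?_⟩
  rw [← fz_cen hn x]
  constructor
  · intro hx y
    have h1 := hx.2 (ι y : G) (ι y).2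
    have h2 : ι x * ι y = ι y * ι x := Subtype.ext h1
    rw [← map_mul, ← map_mul] at h2
    exact ι.injective h2
  · intro hx
    refine ⟨(ι x).2, fun k hk => ?_⟩
    obtain ⟨y, hy⟩ := ι.surjective ⟨k, hk⟩
    have h1 : ι x * ι y = ι y * ι x := by rw [← map_mul, ← map_mul, hx y]
    rw [hy] at h1
    exact congrArg Subtype.val h1

theorem cen_fix (h : Adm G T Fl) {u f : V} {z : G} (hz : Cen G u z) (hf : f ∈ Fl)
    (ha : T.Adj f u) : z • f = f :=
  h.maxl f u hf ha z hz.1 fun k hk => hz.2 k (adm_flat_fix h hf ha hk)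

/-- an element commuting with two elements which do not commute is central -/
theorem cen_of_two (h : Adm G T Fl) {u : V} (hu : u ∉ Fl) {z a b : G} (hz : z • u = u)
    (ha : a • u = u) (hb : b • u = u) (hab : a * b ≠ b * a) (hza : z * a = a * z)
    (hzb : z * b = b * z) : Cen G u z := by
  obtain ⟨n, hn, ι, hι⟩ := cen_iff h hu
  obtain ⟨x, hx⟩ := ι.surjective ⟨z, hz⟩
  obtain ⟨y, hy⟩ := ι.surjective ⟨a, ha⟩
  obtain ⟨w, hw⟩ := ι.surjective ⟨b, hb⟩
  have e1 : (ι x : G) = z := by rw [hx]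
  have e2 : (ι y : G) = a := by rw [hy]
  have e3 : (ι w : G) = b := by rw [hw]
  have key : ∀ p q : FZ n, (ι p : G) * (ι q : G) = (ι q : G) * (ι p : G) → p * q = q * p := by
    intro p q hpq
    have h2 : ι p * ι q = ι q * ι p := Subtype.ext hpq
    rw [← map_mul, ← map_mul] at h2
    exact ι.injective h2
  have h4 : x.1 = 1 := by
    apply fz_comm2 x y w
    · intro hyw
      apply hab
      have h5 : ι y * ι w = ι w * ι y := by rw [← map_mul, ← map_mul, hyw]
      have h6 := congrArg Subtype.val h5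
      rw [← e2, ← e3]
      exact h6
    · apply key
      rw [e1, e2]
      exact hza
    · apply key
      rw [e1, e3]
      exact hzb
  have h5 := (hι x).2 h4
  rwa [e1] at h5

/-- two central elements are commensurable -/
theorem cen_cyc (h : Adm G T Fl) {u : V} (hu : u ∉ Fl) {z z' : G} (hz : Cen G u z)
    (hz' : Cen G u z') : ∃ m n : ℤ, (m ≠ 0 ∨ n ≠ 0) ∧ z ^ m = z' ^ n := by
  obtain ⟨n, hn, ι, hι⟩ := cen_iff h hu
  obtain ⟨x, hx⟩ := ι.surjective ⟨z, hz.1⟩
  obtain ⟨y, hy⟩ := ι.surjective ⟨z', hz'.1⟩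
  have e1 : (ι x : G) = z := by rw [hx]
  have e2 : (ι y : G) = z' := by rw [hy]
  have h1 : x.1 = 1 := (hι x).1 (by rw [e1]; exact hz)
  have h2 : y.1 = 1 := (hι y).1 (by rw [e2]; exact hz')
  have key : ∀ m k : ℤ, m * x.2.toAdd = k * y.2.toAdd → z ^ m = z' ^ k := by
    intro m k hmk
    have h3 : x ^ m = y ^ k := by
      apply Prod.ext
      · show x.1 ^ m = y.1 ^ k
        rw [h1, h2, one_zpow, one_zpow]
      · show x.2 ^ m = y.2 ^ k
        apply Multiplicative.toAdd.injective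
        rw [toAdd_zpow, toAdd_zpow, smul_eq_mul, smul_eq_mul]
        exact hmk
    have h4 : ι x ^ m = ι y ^ k := by rw [← map_zpow, ← map_zpow, h3]
    have h5 := congrArg Subtype.val h4
    rw [← e1, ← e2]
    exact h5
  by_cases h0 : x.2.toAdd = 0 ∧ y.2.toAdd = 0
  · refine ⟨1, 1, Or.inl one_ne_zero, key 1 1 ?_⟩
    rw [h0.1, h0.2]
  · refine ⟨y.2.toAdd, x.2.toAdd, ?_, key _ _ (mul_comm _ _)⟩
    tauto

end

end AdmIso
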