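import Pool.Agent.Lib.MP_32d917_al_adm.T01

/-!
# T02: central elements

`cen1`: let `ι` be an isomorphism of `FZ n` with the stabiliser of `u` and `g = ι (x, t)`. Suppose
`x ≠ 1`. Every `k` in the stabiliser of `f` fixes `u` (`fix`) and commutes with `g` (`adm_flatab`). Let `C`
be the set of all `k` which fix `u` and commute with `g`; `C` is abelian (`fg_comm_trans` for the
first components). An element of `C` commutes with the stabiliser of `f` (contained in `C`), so it
fixes `f` by `maxl`. So the stabiliser of `f` is `C`, and also that of `f'`: contradiction to `sep`.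
So `x = 1`.

`cen2`: let `f, u1` be as in `adm_next` for `u, u'`. If `u1 = u'`: `trans`. Otherwise `z` fixes `u` and
`u'`, hence all points between (`adm_fix`), in particular the flats `f`, `f2` at `u1`; by `cen1`
`Cen u1 z`, and `Cen u z`, so `z = 1` by `trans` at `f`.
-/

set_option autoImplicit false

namespace AdmIso

open LatIso

section

variable {G : Type} [Group G] {V : Type} [MulAction G V] {T : SimpleGraph V} {Fl : Set V}

theorem T02_ab {n : ℕ} {H : Type} [Group H] (ι : FZ n ≃* H) {g k l : H}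
    (hx : (ι.symm g).1 ≠ 1) (hk : k * g = g * k) (hl : l * g = g * l) : k * l = l * k := by
  have hk' : ι.symm k * ι.symm g = ι.symm g * ι.symm k := by
    rw [← map_mul, hk, map_mul]
  have hl' : ι.symm l * ι.symm g = ι.symm g * ι.symm l := by
    rw [← map_mul, hl, map_mul]
  have h1 : (ι.symm k).1 * (ι.symm l).1 = (ι.symm l).1 * (ι.symm k).1 :=
    fg_comm_trans hx (congrArg Prod.fst hk') (congrArg Prod.fst hl')
  have h2 : ι.symm k * ι.symm l = ι.symm l * ι.symm k :=
    Prod.ext h1 (mul_comm _ _)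
  have h3 := congrArg ι h2
  simpa only [map_mul, MulEquiv.apply_symm_apply] using h3

theorem cen1 (h : Adm G T Fl) {u f f' : V} (hf : f ∈ Fl) (hf' : f' ∈ Fl) (hne : f ≠ f')
    (ha : T.Adj f u) (ha' : T.Adj f' u) {g : G} (hg : g • f = f) (hg' : g • f' = f') :
    Cen G u g := by
  have hu : u ∉ Fl := (h.bip f u ha).1 hf
  obtain ⟨n, hn, ι, hι⟩ := cen_iff h hu
  have hgu : g • u = u := adm_flat_fix h hf ha hg
  have hgs : g ∈ MulAction.stabilizer G u := MulAction.mem_stabilizer_iff.2 hgu
  by_contra hcon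
  have hx : (ι.symm ⟨g, hgs⟩).1 ≠ 1 := by
    intro hx
    apply hcon
    have := (hι (ι.symm ⟨g, hgs⟩)).2 hx
    simpa using this
  have key : ∀ k l : G, k • u = u → k * g = g * k → l • u = u → l * g = g * l → k * l = l * k := by
    intro k l hk hkg hl hlg
    have := T02_ab ι (g := ⟨g, hgs⟩) (k := ⟨k, MulAction.mem_stabilizer_iff.2 hk⟩)
      (l := ⟨l, MulAction.mem_stabilizer_iff.2 hl⟩) hx (Subtype.ext hkg) (Subtype.ext hlg)
    exact congrArg Subtype.val this
  have mem : ∀ a ∈ Fl, T.Adj a u → g • a = a → ∀ k : G,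
      k • a = a ↔ (k • u = u ∧ k * g = g * k) := by
    intro a haF hau hga k
    constructor
    · intro hk
      exact ⟨adm_flat_fix h haF hau hk, adm_flatab h haF hk hga⟩
    · rintro ⟨hk1, hk2⟩
      refine h.maxl a u haF hau k hk1 ?_
      intro l hl
      exact key k l hk1 hk2 (adm_flat_fix h haF hau hl) (adm_flatab h haF hl hga)
  apply h.sep f f' u hf hf' hne ha ha'
  ext k
  rw [MulAction.mem_stabilizer_iff, MulAction.mem_stabilizer_iff, mem f hf ha hg,
    mem f' hf' ha' hg']

theorem cen2 (h : Adm G T Fl) {u u' : V} (hu : u ∉ Fl) (hu' : u' ∉ Fl) (hne : u ≠ u') {z : G}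
    (hz : Cen G u z) (hz' : Cen G u' z) : z = 1 := by
  obtain ⟨f, u1, hf, hu1, hu1ne, hfu, hfu1, hb1, hb2, h3⟩ := adm_next h hu hu' hne
  rcases h3 with h3 | ⟨f2, hf2, hf2ne, hf2u, hb3⟩
  · subst h3
    exact h.trans f u u1 hf hfu hfu1 hne z hz hz'
  · have e1 : z • f = f := adm_fix h z hz.1 hz'.1 hb1
    have e2 : z • f2 = f2 := adm_fix h z hz.1 hz'.1 hb3
    have hc : Cen G u1 z := cen1 h hf hf2 (Ne.symm hf2ne) hfu1 hf2u e1 e2
    exact h.trans f u u1 hf hfu hfu1 (Ne.symm hu1ne) z hz hc

end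

end AdmIso
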