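import Pool.Agent.Lib.MP_32d917_al_adm.T02

/-!
# T03: the elliptic lemma

Let `H` be a subgroup with a central element `z ≠ 1` and with two commutators which do not commute.
Then `H` fixes exactly one piece.

Existence. First case: `0 < tl T z`. By `tl_line` there is the axis `b : ℤ → V`, `z • b i = b (i + t)`,
whose vertices are the set `CC T z`. For `g ∈ H` the set `CC T z` is invariant under `g` (`cc_conj`,
`g z g⁻¹ = z`), so `g • b i = b (σ i)` with an isometry `σ` of `ℤ` commuting with the translation by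
`t > 0`; so `σ i = i + c g` (an isometry of `ℤ` is a translation or a reflection, and reflections do
not commute with the translation). `c (g g') = c g + c g'`, so `c` vanishes on commutators:
`cmr a1 a2` and `cmr b1 b2` fix all `b i`. One of `b 0`, `b 1` is a piece `u = b i`; its neighbours
`b (i - 1)`, `b (i + 1)` are flats, different. By `cen1` both commutators are in the centre of the
stabiliser of `u`, so they commute: contradiction.

Second case: `tl T z = 0`, `z` fixes some vertex (`tl_eq_zero`).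
* If `Cen G u z` for some piece `u`: for `g ∈ H`, `cen_conj` gives `Cen G (g • u) z`, so `g • u = u` by
  `cen2`.
* Otherwise `z` fixes at most one flat: if it fixes two flats `f ≠ f'`, then by `adm_next'` and
  `adm_fix` it fixes two flats at a piece `u`, and `cen1` gives `Cen G u z`. If `z` fixes a flat `f`: for
  `g ∈ H` the flat `g • f` is fixed by `g z g⁻¹ = z`, so `g • f = f`; so all elements of `H` commute
  (`adm_flatab`), contradiction. If `z` fixes no flat then it fixes a piece `u`, and only one (between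
  two pieces there is a flat, `adm_next`, `adm_fix`), so `g • u = u` for `g ∈ H`.

Uniqueness: if `H` fixes two pieces then it fixes a flat between them (`adm_next`), so `H` is abelian.
-/

set_option autoImplicit false

namespace AdmIso

open LatIso

section

variable {G : Type} [Group G] {V : Type} [MulAction G V] {T : SimpleGraph V} {Fl : Set V}

/-- isometries of the line commuting with a translation -/
theorem line_iso (σ : ℤ → ℤ) (t : ℤ) (ht : 0 < t) (h1 : ∀ i j, (σ i - σ j).natAbs = (i - j).natAbs)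
    (h2 : ∀ i, σ (i + t) = σ i + t) : ∃ c : ℤ, ∀ i, σ i = i + c := by
  refine ⟨σ 0, fun i => ?_⟩
  have e1 := h1 i 0
  have e2 := h1 i t
  have e3 := h2 0
  rw [zero_add] at e3
  rw [e3] at e2
  rw [Int.natAbs_eq_natAbs_iff] at e1 e2
  rcases e1 with e1 | e1 <;> rcases e2 with e2 | e2 <;> omega

/-- elements of a group centralising a hyperbolic element act as translations on its axis -/
theorem t03_trans (hta : TA G T) (z : G) (b : ℤ → V)
    (hz0 : 0 < tl T z) (hb1 : ∀ i j, T.dist (b i) (b j) = (i - j).natAbs)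
    (hb2 : ∀ i, z • b i = b (i + tl T z)) (hb3 : ∀ x, x ∈ CC T z ↔ ∃ i, b i = x) (g : G)
    (hg : z * g = g * z) : ∃ c : ℤ, ∀ i, g • b i = b (i + c) := by
  have hinj : ∀ i j, b i = b j → i = j := by
    intro i j h
    have h1 := hb1 i j
    rw [h, SimpleGraph.dist_self] at h1
    omega
  have hconj : g * z * g⁻¹ = z := by rw [← hg, mul_inv_cancel_right]
  have hex : ∀ i, ∃ j, g • b i = b j := by
    intro i
    have h1 : g • b i ∈ CC T (g * z * g⁻¹) := (cc_conj hta g z (b i)).mpr ((hb3 _).mpr ⟨i, rfl⟩)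
    rw [hconj] at h1
    obtain ⟨j, hj⟩ := (hb3 _).mp h1
    exact ⟨j, hj.symm⟩
  choose σ hσ using hex
  obtain ⟨c, hc⟩ := line_iso σ (tl T z) (by exact_mod_cast hz0) (by
    intro i j
    rw [← hb1, ← hσ, ← hσ, ta_dist hta, hb1]) (by
    intro i
    apply hinj
    rw [← hσ, ← hb2, ← hb2, ← hσ, ← mul_smul, ← mul_smul, hg])
  exact ⟨c, fun i => by rw [hσ, hc]⟩

theorem t03_inv {g : G} {b : ℤ → V} {c : ℤ} (h : ∀ i, g • b i = b (i + c)) (i : ℤ) :
    g⁻¹ • b i = b (i - c) := by
  rw [inv_smul_eq_iff, h]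
  congr 1
  ring

theorem t03_cmr {g k : G} {b : ℤ → V} {c d : ℤ} (h : ∀ i, g • b i = b (i + c))
    (h' : ∀ i, k • b i = b (i + d)) (i : ℤ) : cmr g k • b i = b i := by
  unfold cmr
  rw [mul_smul, mul_smul, mul_smul, t03_inv h', t03_inv h, h', h]
  congr 1
  ring

theorem ell (h : Adm G T Fl) (H : Subgroup G) (z : G) (hz : z ∈ H) (hz1 : z ≠ 1)
    (hzc : ∀ g ∈ H, z * g = g * z) (a1 a2 b1 b2 : G) (ha1 : a1 ∈ H) (ha2 : a2 ∈ H) (hb1 : b1 ∈ H)
    (hb2 : b2 ∈ H) (hne : cmr a1 a2 * cmr b1 b2 ≠ cmr b1 b2 * cmr a1 a2) :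
    ∃ u, u ∉ Fl ∧ ∀ g ∈ H, g • u = u := by
  have hta := adm_ta h
  have hcm : ∀ x y, x ∈ H → y ∈ H → cmr x y ∈ H := fun x y hx hy =>
    H.mul_mem (H.mul_mem (H.mul_mem hx hy) (H.inv_mem hx)) (H.inv_mem hy)
  rcases Nat.eq_zero_or_pos (tl T z) with h0 | h0
  · obtain ⟨x, hx⟩ := (tl_eq_zero hta z).1 h0
    have hzg : ∀ g ∈ H, ∀ y : V, z • y = y → z • g • y = g • y := by
      intro g hg y hy
      rw [← mul_smul, hzc g hg, mul_smul, hy]
    by_cases hcen : ∃ u, u ∉ Fl ∧ Cen G u z
    · obtain ⟨u, hu, huz⟩ := hcen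
      refine ⟨u, hu, fun g hg => ?_⟩
      by_contra hgu
      have h1 := cen_conj g huz
      have h2 : g * z * g⁻¹ = z := by rw [← hzc g hg, mul_inv_cancel_right]
      rw [h2] at h1
      exact hz1 (cen2 h (fun h3 => hu ((adm_flat_iff h g u).mp h3)) hu hgu h1 huz)
    · have huniq : ∀ f f', f ∈ Fl → f' ∈ Fl → z • f = f → z • f' = f' → f = f' := by
        intro f f' hf hf' hzf hzf'
        by_contra hff
        obtain ⟨u, f2, hu, hf2, hf2f, hfu, hf2u, _, hbt⟩ := adm_next' h hf hf' hff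
        have h1 := adm_fix h z hzf hzf' hbt
        exact hcen ⟨u, hu, cen1 h hf hf2 hf2f.symm hfu hf2u hzf h1⟩
      by_cases hfl : ∃ f ∈ Fl, z • f = f
      · exfalso
        obtain ⟨f, hf, hzf⟩ := hfl
        have h1 : ∀ g ∈ H, g • f = f := fun g hg =>
          huniq _ _ ((adm_flat_iff h g f).mpr hf) hf (hzg g hg f hzf) hzf
        exact hne (adm_flatab h hf (h1 _ (hcm _ _ ha1 ha2)) (h1 _ (hcm _ _ hb1 hb2)))
      · have hxp : x ∉ Fl := fun h1 => hfl ⟨x, h1, hx⟩
        refine ⟨x, hxp, fun g hg => ?_⟩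
        by_contra hgx
        have hgx' : x ≠ g • x := fun h1 => hgx h1.symm
        obtain ⟨f, u1, hf, _, _, _, _, hbt, _⟩ :=
          adm_next h hxp (fun h3 => hxp ((adm_flat_iff h g x).mp h3)) hgx'
        exact hfl ⟨f, hf, adm_fix h z hx (hzg g hg x hx) hbt⟩
  · exfalso
    obtain ⟨b, e1, e2, e3⟩ := tl_line hta z h0
    have htr : ∀ g ∈ H, ∃ c : ℤ, ∀ i, g • b i = b (i + c) := fun g hg =>
      t03_trans hta z b h0 e1 e2 e3 g (hzc g hg)
    obtain ⟨c1, hc1⟩ := htr a1 ha1
    obtain ⟨c2, hc2⟩ := htr a2 ha2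
    obtain ⟨d1, hd1⟩ := htr b1 hb1
    obtain ⟨d2, hd2⟩ := htr b2 hb2
    have hfa := t03_cmr hc1 hc2
    have hfb := t03_cmr hd1 hd2
    have hadj : ∀ i, T.Adj (b i) (b (i + 1)) := by
      intro i
      rw [← SimpleGraph.dist_eq_one_iff_adj, e1]
      omega
    have hp : ∃ i, b i ∉ Fl := by
      by_contra hcon
      push Not at hcon
      exact (h.bip _ _ (hadj 0)).mp (hcon 0) (hcon _)
    obtain ⟨i, hi⟩ := hp
    have ha1 : T.Adj (b (i + 1)) (b i) := (hadj i).symm
    have ha2 : T.Adj (b (i - 1)) (b i) := by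
      have := hadj (i - 1)
      rwa [sub_add_cancel] at this
    have hf1 : b (i + 1) ∈ Fl := (h.bip _ _ ha1).mpr hi
    have hf2 : b (i - 1) ∈ Fl := (h.bip _ _ ha2).mpr hi
    have hne2 : b (i + 1) ≠ b (i - 1) := by
      intro h1
      have h2 := e1 (i + 1) (i - 1)
      rw [h1, SimpleGraph.dist_self] at h2
      omega
    have hC := cen1 h hf1 hf2 hne2 ha1 ha2 (hfa _) (hfa _)
    exact hne (hC.2 _ (hfb i))

theorem ell_uniq (h : Adm G T Fl) (H : Subgroup G) (a b : G) (ha : a ∈ H) (hb : b ∈ H)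
    (hab : a * b ≠ b * a) (u u' : V) (hu : u ∉ Fl) (hu' : u' ∉ Fl) (h1 : ∀ g ∈ H, g • u = u)
    (h2 : ∀ g ∈ H, g • u' = u') : u = u' := by
  by_contra hne
  obtain ⟨f, u1, hf, _, _, _, _, hbt, _⟩ := adm_next h hu hu' hne
  exact hab (adm_flatab h hf (adm_fix h a (h1 a ha) (h2 a ha) hbt)
    (adm_fix h b (h1 b hb) (h2 b hb) hbt))

end

end AdmIso
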