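import Pool.Agent.Lib.MP_32d917_al_adm.RDefs
import Pool.Agent.Lib.MP_32d917_al.ST2

/-!
# T04: locally injective maps to trees; cosets

`locinj`: let `n = S.dist a b` and let `x 0 = a, ..., x n = b` be a geodesic of `S`. By induction on `i` (from
`1`), `T.dist (f (x 0)) (f (x i)) = i` and `Bt T (f (x 0)) (f (x (i - 1))) (f (x i))`: the
vertices `f (x (i - 1))` and `f (x (i + 1))` are different neighbours of `f (x i)` (as
`x (i - 1) ≠ x (i + 1)` and `f` is injective on the neighbours of `x i`); of two different neighbours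
at most one is closer to `f (x 0)` (`st_uniq`), and `f (x (i - 1))` is; so the other one is farther
away (`st_adj`).

`li_cvx`: a point `m` between `f a` and `f b` is the image of the point at the same distance on a
geodesic from `a` to `b` (`st_pt_uniq`).
-/

set_option autoImplicit false

namespace AdmIso

open LatIso

theorem li_prev {X : Type} {S : SimpleGraph X} (hS : S.Connected) {a b : X} {n : ℕ}
    (h : S.dist a b = n + 1) : ∃ c, S.Adj c b ∧ S.dist a c = n := by
  obtain ⟨p, hp⟩ := hS.exists_walk_length_eq_dist b a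
  rw [SimpleGraph.dist_comm, h] at hp
  cases p with
  | nil => simp at hp
  | @cons _ c _ h1 q =>
    refine ⟨c, h1.symm, ?_⟩
    rw [SimpleGraph.Walk.length_cons] at hp
    have h2 := SimpleGraph.dist_le q
    have h3 : S.dist a b ≤ S.dist a c + S.dist c b := hS.dist_triangle
    have h4 : S.dist c b = 1 := SimpleGraph.dist_eq_one_iff_adj.2 h1.symm
    have h5 : S.dist a c = S.dist c a := SimpleGraph.dist_comm
    omega

theorem locinj {X V : Type} {S : SimpleGraph X} (hS : S.Connected) {T : SimpleGraph V} (hT : T.IsTree)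
    (f : X → V) (hf : ∀ a b, S.Adj a b → T.Adj (f a) (f b))
    (hl : ∀ a b c, S.Adj a b → S.Adj a c → f b = f c → b = c) (a b : X) :
    T.dist (f a) (f b) = S.dist a b := by
  obtain ⟨n, hn⟩ : ∃ n, S.dist a b = n := ⟨_, rfl⟩
  induction n using Nat.strong_induction_on generalizing b with
  | _ n ih =>
    match n, ih, hn with
    | 0, _, hn =>
      have : a = b := hS.dist_eq_zero_iff.1 hn
      subst this
      simp
    | 1, _, hn =>
      have h1 : S.Adj a b := SimpleGraph.dist_eq_one_iff_adj.1 hn
      rw [hn]
      exact st1_one (hf _ _ h1)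
    | n + 2, ih, hn =>
      obtain ⟨c, hc, hc2⟩ := li_prev hS hn
      obtain ⟨d, hd, hd2⟩ := li_prev hS hc2
      have e1 := ih (n + 1) (by omega) c hc2
      have e2 := ih n (by omega) d hd2
      have h3 : f b ≠ f d := by
        intro h
        have := hl c b d hc hd.symm h
        subst this
        omega
      have c1 : T.dist (f c) (f a) = T.dist (f a) (f c) := SimpleGraph.dist_comm
      have c2 : T.dist (f d) (f a) = T.dist (f a) (f d) := SimpleGraph.dist_comm
      have c3 : T.dist (f b) (f a) = T.dist (f a) (f b) := SimpleGraph.dist_comm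
      rcases st_adj hT (hf _ _ hc) (f a) with h | h
      · omega
      · exfalso
        apply h3
        refine st_uniq hT (hf _ _ hc) (hf _ _ hd.symm) (y := f a) ?_ ?_
        · unfold Bt
          have := st1_one (hf _ _ hc)
          omega
        · unfold Bt
          have := st1_one (hf _ _ hd.symm)
          omega

theorem li_pt {X : Type} {S : SimpleGraph X} (hS : S.Connected) {a b : X} {n i : ℕ}
    (h : S.dist a b = n + i) : ∃ c, S.dist a c = n ∧ S.dist c b = i := by
  induction i generalizing b with
  | zero => exact ⟨b, h, by simp⟩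
  | succ i ih =>
    obtain ⟨d, hd, hd2⟩ := li_prev hS (n := n + i) h
    obtain ⟨c, hc, hc2⟩ := ih hd2
    refine ⟨c, hc, ?_⟩
    have h1 : S.dist a b ≤ S.dist a c + S.dist c b := hS.dist_triangle
    have h2 : S.dist c b ≤ S.dist c d + S.dist d b := hS.dist_triangle
    have h4 : S.dist d b = 1 := SimpleGraph.dist_eq_one_iff_adj.2 hd
    omega

theorem li_cvx {X V : Type} {S : SimpleGraph X} (hS : S.Connected) {T : SimpleGraph V}
    (hT : T.IsTree) (f : X → V) (hf : ∀ a b, T.dist (f a) (f b) = S.dist a b) :
    Cvx T (Set.range f) := by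
  rintro _ ⟨a, rfl⟩ _ ⟨b, rfl⟩ m hm
  have hm2 := hm
  unfold Bt at hm2
  rw [hf] at hm2
  obtain ⟨c, hc, hc2⟩ := li_pt hS (a := a) (b := b) (n := T.dist (f a) m) (i := T.dist m (f b))
    hm2.symm
  refine ⟨c, st_pt_uniq hT (x := f a) (y := f b) ?_ hm ?_⟩
  · unfold Bt
    rw [hf, hf, hf]
    omega
  · rw [hf, hc]

end AdmIso
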