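import Pool.Agent.Lib.MP_32d917_al_adm.T04

/-!
# T05: the development lemma

`CG S`: the coset graph of a system `S` in the group `G`. Vertices: the cosets of the images of the
groups of the pieces, and the cosets of the images of the groups of the flats. For `g : G` and an
edge `e` the coset `g al(fl e)` is adjacent to the coset `g (y e) be(pc e)`.

`cg_conn`: the cosets of `1` are all in one component: by the edges of the spanning tree, where
`y e = 1` (induction on the rank, towards `p0`). The component is invariant under left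
translations by the generators: for `g = be p x` the coset of `1` at `p` is fixed by `g`; the same for
`al q v`; for `g = y e` the coset `1 al(fl e)` is adjacent to `(y e) be(pc e)`, which is the translate by
`g` of the coset `1 be(pc e)`. So by `Subgroup.closure_induction` the translates of the base
cosets by all `g` lie in the component (left translation is an automorphism of the graph).

`dev`: apply `locinj` to the map `f` with `f (g be p) = g • vp p`, `f (g al q) = g • fq q` (well defined by `h1`,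
`h2`). Local injectivity at `(q, g)`: its neighbours are `(pc e, g y e)` with `fl e = q` (if
`g' = g al(v)`, then `g' y e = g y e be(emb e v)`), use `h5`. Local injectivity at `(p, g)`: its neighbours
are `(fl e, g be(x) (y e)⁻¹)` with `pc e = p`; if two of them, for `e, x` and `e', x'`, have the same
image then `be(x'⁻¹ x) (y e)⁻¹ • fq (fl e) = (y e')⁻¹ • fq (fl e')`, so by `h4` `e = e'` and
`x'⁻¹ x = emb e v`, and the cosets agree by `rel`. The vertices of the two kinds are not compared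
by local injectivity (all neighbours of a vertex are of the other kind). The statements (1) - (4) are
the injectivity of `f`, the adjacency (distance 1) and `li_cvx`.
-/

set_option autoImplicit false

namespace AdmIso

open LatIso

section

variable {P Q E : Type} {D : Dat P Q E} {G : Type} [Group G]

/-- vertices of the coset graph -/
abbrev CV (S : Sy D G) : Type := (Σ p : P, G ⧸ (S.be p).range) ⊕ (Σ q : Q, G ⧸ (S.al q).range)

/-- the coset graph -/
def CG (S : Sy D G) : SimpleGraph (CV S) where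
  Adj a b := ∃ (g : G) (e : E),
    (a = Sum.inr ⟨D.fl e, (g : G ⧸ _)⟩ ∧ b = Sum.inl ⟨D.pc e, ((g * S.y e : G) : G ⧸ _)⟩) ∨
    (b = Sum.inr ⟨D.fl e, (g : G ⧸ _)⟩ ∧ a = Sum.inl ⟨D.pc e, ((g * S.y e : G) : G ⧸ _)⟩)
  symm := by
    constructor
    rintro a b ⟨g, e, h⟩
    exact ⟨g, e, h.symm⟩
  loopless := by
    constructor
    rintro a ⟨g, e, ⟨h1, h2⟩ | ⟨h1, h2⟩⟩
    · rw [h1] at h2; exact absurd h2 (by simp)
    · rw [h1] at h2; exact absurd h2 (by simp)

/-- the vertex of the piece `p` given by `g` -/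
def pvt (S : Sy D G) (p : P) (g : G) : CV S := Sum.inl ⟨p, (g : G ⧸ (S.be p).range)⟩

/-- the vertex of the flat `q` given by `g` -/
def qvt (S : Sy D G) (q : Q) (g : G) : CV S := Sum.inr ⟨q, (g : G ⧸ (S.al q).range)⟩

theorem pvt_eq (S : Sy D G) {p p' : P} {g g' : G} :
    pvt S p g = pvt S p' g' ↔ p = p' ∧ ∃ x, S.be p x = g⁻¹ * g' := by
  unfold pvt
  rw [Sum.inl.injEq]
  constructor
  · intro h
    have hp : p = p' := congrArg Sigma.fst h
    subst hp
    have h2 := eq_of_heq (Sigma.mk.inj h).2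
    rw [QuotientGroup.eq] at h2
    obtain ⟨x, hx⟩ := h2
    exact ⟨rfl, x, hx⟩
  · rintro ⟨hp, x, hx⟩
    subst hp
    have h2 : (g : G ⧸ (S.be p).range) = (g' : G ⧸ (S.be p).range) := by
      rw [QuotientGroup.eq]
      exact ⟨x, hx⟩
    rw [h2]

theorem qvt_eq (S : Sy D G) {q q' : Q} {g g' : G} :
    qvt S q g = qvt S q' g' ↔ q = q' ∧ ∃ v, S.al q v = g⁻¹ * g' := by
  unfold qvt
  rw [Sum.inr.injEq]
  constructor
  · intro h
    have hp : q = q' := congrArg Sigma.fst h
    subst hp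
    have h2 := eq_of_heq (Sigma.mk.inj h).2
    rw [QuotientGroup.eq] at h2
    obtain ⟨x, hx⟩ := h2
    exact ⟨rfl, x, hx⟩
  · rintro ⟨hp, x, hx⟩
    subst hp
    have h2 : (g : G ⧸ (S.al q).range) = (g' : G ⧸ (S.al q).range) := by
      rw [QuotientGroup.eq]
      exact ⟨x, hx⟩
    rw [h2]

theorem pvt_ne_qvt (S : Sy D G) {p : P} {q : Q} {g g' : G} : pvt S p g ≠ qvt S q g' := by
  intro h
  exact absurd h (by simp [pvt, qvt])

theorem cv_cases (S : Sy D G) (a : CV S) : (∃ p g, a = pvt S p g) ∨ ∃ q g, a = qvt S q g := by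
  rcases a with ⟨p, x⟩ | ⟨q, x⟩
  · induction x using QuotientGroup.induction_on with
    | H g => exact Or.inl ⟨p, g, rfl⟩
  · induction x using QuotientGroup.induction_on with
    | H g => exact Or.inr ⟨q, g, rfl⟩

theorem cg_adj (S : Sy D G) {a b : CV S} : (CG S).Adj a b ↔ ∃ (g : G) (e : E),
    (a = qvt S (D.fl e) g ∧ b = pvt S (D.pc e) (g * S.y e)) ∨
    (b = qvt S (D.fl e) g ∧ a = pvt S (D.pc e) (g * S.y e)) := Iff.rfl

/-- left translation -/
def Ltr (S : Sy D G) (k : G) : CV S → CV S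
  | Sum.inl ⟨p, x⟩ => Sum.inl ⟨p, k • x⟩
  | Sum.inr ⟨q, x⟩ => Sum.inr ⟨q, k • x⟩

theorem ltr_p (S : Sy D G) (k : G) (p : P) (g : G) : Ltr S k (pvt S p g) = pvt S p (k * g) := rfl

theorem ltr_q (S : Sy D G) (k : G) (q : Q) (g : G) : Ltr S k (qvt S q g) = qvt S q (k * g) := rfl

theorem ltr_adj (S : Sy D G) (k : G) {a b : CV S} (h : (CG S).Adj a b) :
    (CG S).Adj (Ltr S k a) (Ltr S k b) := by
  rw [cg_adj] at h ⊢
  obtain ⟨g, e, ⟨h1, h2⟩ | ⟨h1, h2⟩⟩ := h
  · refine ⟨k * g, e, Or.inl ⟨?_, ?_⟩⟩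
    · rw [h1, ltr_q]
    · rw [h2, ltr_p, mul_assoc]
  · refine ⟨k * g, e, Or.inr ⟨?_, ?_⟩⟩
    · rw [h1, ltr_q]
    · rw [h2, ltr_p, mul_assoc]

theorem ltr_reach (S : Sy D G) (k : G) {a b : CV S} (h : (CG S).Reachable a b) :
    (CG S).Reachable (Ltr S k a) (Ltr S k b) := by
  obtain ⟨w⟩ := h
  induction w with
  | nil => exact SimpleGraph.Reachable.refl _
  | cons h1 _ ih => exact (ltr_adj S k h1).reachable.trans ih

theorem cg_conn (S : Sy D G) {p0 : P} {ep : P → E} {ef : Q → E} {rp : P → ℕ} {rq : Q → ℕ}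
    (hT : IsTr D p0 ep ef rp rq) (hN : S.Nor p0 ep ef) (hG : S.Gen) : (CG S).Connected := by
  -- base vertices
  have hbase : ∀ n : ℕ, (∀ p, rp p < n → (CG S).Reachable (pvt S p0 1) (pvt S p 1)) ∧
      ∀ q, rq q < n → (CG S).Reachable (pvt S p0 1) (qvt S q 1) := by
    intro n
    induction n with
    | zero => exact ⟨fun p h => absurd h (Nat.not_lt_zero _), fun q h => absurd h (Nat.not_lt_zero _)⟩
    | succ n ih =>
      constructor
      · intro p hp
        by_cases hp0 : p = p0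
        · rw [hp0]
        · obtain ⟨h1, h2⟩ := hT.ep p hp0
          have h3 := ih.2 (D.fl (ep p)) (by omega)
          refine h3.trans (SimpleGraph.Adj.reachable ?_)
          rw [cg_adj]
          refine ⟨1, ep p, Or.inl ⟨rfl, ?_⟩⟩
          rw [hN.1 p hp0, h1, mul_one]
      · intro q hq
        obtain ⟨h1, h2⟩ := hT.ef q
        have h3 := ih.1 (D.pc (ef q)) (by omega)
        refine h3.trans (SimpleGraph.Adj.reachable ?_)
        rw [cg_adj]
        refine ⟨1, ef q, Or.inr ⟨?_, ?_⟩⟩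
        · rw [h1]
        · rw [hN.2 q, mul_one]
  have hbp : ∀ p, (CG S).Reachable (pvt S p0 1) (pvt S p 1) := fun p =>
    (hbase (rp p + 1)).1 p (Nat.lt_succ_self _)
  have hbq : ∀ q, (CG S).Reachable (pvt S p0 1) (qvt S q 1) := fun q =>
    (hbase (rq q + 1)).2 q (Nat.lt_succ_self _)
  have hL : ∀ g h : G, ∀ a : CV S, Ltr S (g * h) a = Ltr S g (Ltr S h a) := by
    intro g h a
    rcases cv_cases S a with ⟨p, k, rfl⟩ | ⟨q, k, rfl⟩
    · rw [ltr_p, ltr_p, ltr_p, mul_assoc]
    · rw [ltr_q, ltr_q, ltr_q, mul_assoc]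
  have hL1 : ∀ a : CV S, Ltr S 1 a = a := by
    intro a
    rcases cv_cases S a with ⟨p, k, rfl⟩ | ⟨q, k, rfl⟩
    · rw [ltr_p, one_mul]
    · rw [ltr_q, one_mul]
  have hall : ∀ g : G, (CG S).Reachable (pvt S p0 1) (Ltr S g (pvt S p0 1)) := by
    intro g
    have hg : g ∈ Subgroup.closure ({g | ∃ p x, S.be p x = g} ∪ {g | ∃ q v, S.al q v = g} ∪
        Set.range S.y) := by
      have := hG
      unfold Sy.Gen at this
      rw [this]
      exact Subgroup.mem_top g
    induction hg using Subgroup.closure_induction with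
    | mem x hx =>
      rcases hx with (⟨p, z, rfl⟩ | ⟨q, v, rfl⟩) | ⟨e, rfl⟩
      · have h1 := ltr_reach S (S.be p z) (hbp p)
        have h2 : Ltr S (S.be p z) (pvt S p 1) = pvt S p 1 := by
          rw [ltr_p, pvt_eq]
          exact ⟨rfl, z⁻¹, by rw [map_inv]; group⟩
        rw [h2] at h1
        exact (hbp p).trans h1.symm
      · have h1 := ltr_reach S (S.al q v) (hbq q)
        have h2 : Ltr S (S.al q v) (qvt S q 1) = qvt S q 1 := by
          rw [ltr_q, qvt_eq]
          exact ⟨rfl, v⁻¹, by rw [map_inv]; group⟩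
        rw [h2] at h1
        exact (hbq q).trans h1.symm
      · have h1 := ltr_reach S (S.y e) (hbp (D.pc e))
        have h2 : (CG S).Adj (qvt S (D.fl e) 1) (Ltr S (S.y e) (pvt S (D.pc e) 1)) := by
          rw [cg_adj]
          refine ⟨1, e, Or.inl ⟨rfl, ?_⟩⟩
          rw [ltr_p, one_mul, mul_one]
        exact ((hbq (D.fl e)).trans h2.reachable).trans h1.symm
    | one => rw [hL1]
    | mul x y _ _ hx hy =>
      rw [hL]
      exact hx.trans (ltr_reach S x hy)
    | inv x _ hx =>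
      have h1 := ltr_reach S x⁻¹ hx
      rw [← hL, inv_mul_cancel, hL1] at h1
      exact h1.symm
  rw [SimpleGraph.connected_iff_exists_forall_reachable]
  refine ⟨pvt S p0 1, fun a => ?_⟩
  rcases cv_cases S a with ⟨p, g, rfl⟩ | ⟨q, g, rfl⟩
  · have h1 := ltr_reach S g (hbp p)
    rw [ltr_p S g p, mul_one] at h1
    exact (hall g).trans h1
  · have h1 := ltr_reach S g (hbq q)
    rw [ltr_q S g q, mul_one] at h1
    exact (hall g).trans h1

theorem dev {V : Type} [MulAction G V] {T : SimpleGraph V} (hT : T.IsTree)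
    (hadj : ∀ (g : G) (x y : V), T.Adj x y → T.Adj (g • x) (g • y))
    (S : Sy D G) {p0 : P} {ep : P → E} {ef : Q → E} {rp : P → ℕ} {rq : Q → ℕ}
    (hTr : IsTr D p0 ep ef rp rq) (hN : S.Nor p0 ep ef) (hG : S.Gen) (vp : P → V) (fq : Q → V)
    (h1 : ∀ p x, S.be p x • vp p = vp p) (h2 : ∀ q v, S.al q v • fq q = fq q)
    (h3 : ∀ e, T.Adj (fq (D.fl e)) (S.y e • vp (D.pc e)))
    (h4 : ∀ p e e' x, D.pc e = p → D.pc e' = p →
      S.be p x • (S.y e)⁻¹ • fq (D.fl e) = (S.y e')⁻¹ • fq (D.fl e') →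
      e = e' ∧ ∃ v, S.be (D.pc e) (D.emb e v) = S.be p x)
    (h5 : ∀ e e', D.fl e = D.fl e' → S.y e • vp (D.pc e) = S.y e' • vp (D.pc e') → e = e') :
    (∀ p p' (g : G), g • vp p = vp p' → p = p' ∧ ∃ x, S.be p x = g) ∧
    (∀ q q' (g : G), g • fq q = fq q' → q = q' ∧ ∃ v, S.al q v = g) ∧
    (∀ q p (g : G), T.Adj (fq q) (g • vp p) → ∃ e, D.fl e = q ∧ S.y e • vp (D.pc e) = g • vp p) ∧
    (∀ p q (g : G), g • vp p ≠ fq q) ∧
    Cvx T {v | (∃ p, ∃ g : G, g • vp p = v) ∨ ∃ q, ∃ g : G, g • fq q = v} := by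
  have hC := cg_conn S hTr hN hG
  -- the map
  obtain ⟨f, hfp, hfq⟩ : ∃ f : CV S → V, (∀ p g, f (pvt S p g) = g • vp p) ∧
      ∀ q g, f (qvt S q g) = g • fq q := by
    refine ⟨Sum.elim
      (fun a => Quotient.liftOn' a.2 (fun g => g • vp a.1) (fun g g' h => ?_))
      (fun a => Quotient.liftOn' a.2 (fun g => g • fq a.1) (fun g g' h => ?_)),
      fun p g => rfl, fun q g => rfl⟩
    · rw [QuotientGroup.leftRel_apply] at h
      obtain ⟨x, hx⟩ := h
      have : g' = g * S.be a.1 x := by rw [hx]; group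
      show g • vp a.1 = g' • vp a.1
      rw [this, mul_smul, h1]
    · rw [QuotientGroup.leftRel_apply] at h
      obtain ⟨x, hx⟩ := h
      have : g' = g * S.al a.1 x := by rw [hx]; group
      show g • fq a.1 = g' • fq a.1
      rw [this, mul_smul, h2]
  have hf : ∀ a b, (CG S).Adj a b → T.Adj (f a) (f b) := by
    intro a b hab
    rw [cg_adj] at hab
    obtain ⟨g, e, ⟨ha, hb⟩ | ⟨ha, hb⟩⟩ := hab
    · rw [ha, hb, hfp, hfq, mul_smul]
      exact hadj g _ _ (h3 e)
    · rw [ha, hb, hfp, hfq, mul_smul]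
      exact (hadj g _ _ (h3 e)).symm
  have hl : ∀ a b c, (CG S).Adj a b → (CG S).Adj a c → f b = f c → b = c := by
    intro a b c hab hac hfe
    rw [cg_adj] at hab hac
    obtain ⟨g, e, ⟨ha, hb⟩ | ⟨hb, ha⟩⟩ := hab
    · obtain ⟨g', e', ⟨ha', hc⟩ | ⟨hc, ha'⟩⟩ := hac
      · rw [ha, qvt_eq] at ha'
        obtain ⟨hfl, v, hv⟩ := ha'
        have hg' : g' = g * S.al (D.fl e) v := by rw [hv]; group
        have hrel : S.al (D.fl e) v * S.y e' = S.y e' * S.be (D.pc e') (D.emb e' v) := by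
          rw [hfl]
          exact S.rel e' v
        have hg2 : g' * S.y e' = g * (S.y e' * S.be (D.pc e') (D.emb e' v)) := by
          rw [hg', mul_assoc, hrel]
        rw [hb, hc, hfp, hfp, hg2, mul_smul, mul_smul, mul_smul, h1] at hfe
        have hee := h5 e e' hfl (MulAction.injective g hfe)
        subst hee
        rw [hb, hc, pvt_eq]
        refine ⟨rfl, D.emb e v, ?_⟩
        rw [hg2]
        group
      · rw [ha] at ha'
        exact absurd ha'.symm (pvt_ne_qvt S)
    · obtain ⟨g', e', ⟨ha', hc⟩ | ⟨hc, ha'⟩⟩ := hac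
      · rw [ha] at ha'
        exact absurd ha' (pvt_ne_qvt S)
      · rw [ha, pvt_eq] at ha'
        obtain ⟨hpc, x, hx⟩ := ha'
        have hg' : g' = g * S.y e * S.be (D.pc e) x * (S.y e')⁻¹ := by rw [hx]; group
        rw [hb, hc, hfq, hfq] at hfe
        have h6 : S.be (D.pc e) x⁻¹ • (S.y e)⁻¹ • fq (D.fl e) = (S.y e')⁻¹ • fq (D.fl e') := by
          have h7 : g • fq (D.fl e) = (g * S.y e * S.be (D.pc e) x * (S.y e')⁻¹) • fq (D.fl e') := by
            rw [← hg']
            exact hfe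
          have h8 := congrArg (fun z => (S.be (D.pc e) x⁻¹ * ((S.y e)⁻¹ * g⁻¹)) • z) h7
          simp only [← mul_smul] at h8
          rw [← mul_smul]
          have e1 : S.be (D.pc e) x⁻¹ * ((S.y e)⁻¹ * g⁻¹) * g = S.be (D.pc e) x⁻¹ * (S.y e)⁻¹ := by
            group
          have e2 : S.be (D.pc e) x⁻¹ * ((S.y e)⁻¹ * g⁻¹) *
              (g * S.y e * S.be (D.pc e) x * (S.y e')⁻¹) = (S.y e')⁻¹ := by
            rw [map_inv]
            group
          rw [e1, e2] at h8
          exact h8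
        obtain ⟨hee, v, hv⟩ := h4 (D.pc e) e e' x⁻¹ rfl hpc.symm h6
        subst hee
        rw [hb, hc, qvt_eq]
        refine ⟨rfl, v⁻¹, ?_⟩
        have h9 := S.rel e v⁻¹
        have h10 : S.be (D.pc e) (D.emb e v⁻¹) = S.be (D.pc e) x := by
          rw [map_inv, map_inv, hv, map_inv, inv_inv]
        rw [h10] at h9
        have h11 : S.al (D.fl e) v⁻¹ = S.y e * S.be (D.pc e) x * (S.y e)⁻¹ :=
          eq_mul_inv_of_mul_eq h9
        rw [h11, hg']
        group
  have hli := locinj hC hT f hf hl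
  have hinj : ∀ a b, f a = f b → a = b := by
    intro a b hab
    have := hli a b
    rw [hab, SimpleGraph.dist_self] at this
    exact (hC.dist_eq_zero_iff).1 this.symm
  refine ⟨?_, ?_, ?_, ?_, ?_⟩
  · intro p p' g hg
    have h6 : f (pvt S p g) = f (pvt S p' 1) := by
      rw [hfp, hfp, hg, one_smul]
    obtain ⟨h7, x, hx⟩ := (pvt_eq S).1 (hinj _ _ h6)
    refine ⟨h7, x⁻¹, ?_⟩
    rw [map_inv, hx]
    group
  · intro q q' g hg
    have h6 : f (qvt S q g) = f (qvt S q' 1) := by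
      rw [hfq, hfq, hg, one_smul]
    obtain ⟨h7, x, hx⟩ := (qvt_eq S).1 (hinj _ _ h6)
    refine ⟨h7, x⁻¹, ?_⟩
    rw [map_inv, hx]
    group
  · intro q p g hg
    have h6 : T.dist (f (qvt S q 1)) (f (pvt S p g)) = 1 := by
      rw [hfq, hfp, one_smul]
      exact SimpleGraph.dist_eq_one_iff_adj.2 hg
    rw [hli, SimpleGraph.dist_eq_one_iff_adj, cg_adj] at h6
    obtain ⟨g', e, ⟨ha, hb⟩ | ⟨hb, ha⟩⟩ := h6
    · refine ⟨e, ?_, ?_⟩
      · exact ((qvt_eq S).1 ha).1.symm
      · obtain ⟨hq, v, hv⟩ := (qvt_eq S).1 ha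
        obtain ⟨hp, x, hx⟩ := (pvt_eq S).1 hb
        subst hq
        subst hp
        have e1 : g = S.al (D.fl e) v * S.y e * S.be (D.pc e) x⁻¹ := by
          have : g' = S.al (D.fl e) v := by rw [hv]; group
          rw [← this, map_inv, hx]
          group
        rw [e1, S.rel, mul_smul, h1, mul_smul, h1]
    · exact absurd ha.symm (pvt_ne_qvt S)
  · intro p q g hg
    have h6 : f (pvt S p g) = f (qvt S q 1) := by
      rw [hfp, hfq, hg, one_smul]
    exact pvt_ne_qvt S (hinj _ _ h6)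
  · have h6 : {v | (∃ p, ∃ g : G, g • vp p = v) ∨ ∃ q, ∃ g : G, g • fq q = v} = Set.range f := by
      ext v
      constructor
      · rintro (⟨p, g, rfl⟩ | ⟨q, g, rfl⟩)
        · exact ⟨pvt S p g, hfp p g⟩
        · exact ⟨qvt S q g, hfq q g⟩
      · rintro ⟨a, rfl⟩
        rcases cv_cases S a with ⟨p, g, rfl⟩ | ⟨q, g, rfl⟩
        · exact Or.inl ⟨p, g, (hfp p g).symm⟩
        · exact Or.inr ⟨q, g, (hfq q g).symm⟩
    rw [h6]
    exact li_cvx hC hT f hli

end

end AdmIso
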