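import Pool.Agent.Lib.MP_32d917_al_adm.T01

/-!
# T06: invariant subtrees

Let `X` be a non empty `G`-invariant convex set of vertices. For a vertex `v` let `d v` be the
distance from `v` to `X` (least `T.dist v x`, `x ∈ X`). `d` is invariant under `G`; by `fin` (every vertex is
the end of an edge, as there are at least two vertices: `ne` and `two`) `d` takes finitely many
values. Suppose `d` is not `0` everywhere and let `v` have the largest value. `v` has two different
neighbours (`two` for flats; `adm_hasflat` and `adm_deg` for pieces). At most one neighbour `n` has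
`d n < d v`: if `n, n'` are two of them with the points `x, x' ∈ X` at distance `d v - 1`, then `v` lies on
the geodesic from `x` to `x'` (if the next point after `v` towards `x` is `n` and towards `x'` is `n'`,
`n ≠ n'`, then `Bt T x v x'`: use `st_bt` for `v, n`: `Bt` of ...; or `st_median` of `x, x', v`: the median `m`
is in `X` by convexity, it lies between `v` and `x` and between `v` and `x'`, so if `m ≠ v` the first step from
`v` to `m` is `n = n'` by `st_uniq`), so `v ∈ X` by convexity, contradiction to `d v > 0`. So one neighbour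
`n'` has `d n' ≥ d v`, and `d n' ≠ d v`: for the point `x ∈ X` nearest to `n'` the distances from `x` to `v`
and `n'` differ by one (`st_adj`); if `d n' = d v` then `T.dist v x ≥ d v` gives
`T.dist v x = d v + 1` and for the point `x'` nearest to `v` also `T.dist n' x' = d v + 1`; the median
argument gives a contradiction (`m` of `v, x, x'` is in `X`...). Alternatively use `st_parity` and bipartiteness
only for the final contradiction. So `d n' = d v + 1`, contradiction to the maximality.

A shorter way: let `x ∈ X` be the nearest point to `v`. For every neighbour `n` of `v` with `¬ Bt T v n x` the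
point `x` is also the nearest point of `X` to `n`, and `d n = d v + 1`: for `y ∈ X` the median of `v, x, y`
is in `X`, hence is `x`; so `Bt T v x y`, and `Bt T n v x` gives `Bt T n x y`.
-/

set_option autoImplicit false

namespace AdmIso

open LatIso

section

variable {G : Type} [Group G] {V : Type} [MulAction G V] {T : SimpleGraph V} {Fl : Set V}

theorem t06_nbrs (h : Adm G T Fl) (v : V) : ∃ n n', n ≠ n' ∧ T.Adj v n ∧ T.Adj v n' := by
  by_cases hv : v ∈ Fl
  · exact h.two v hv
  · obtain ⟨f, hf, hfv⟩ := adm_hasflat h hv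
    obtain ⟨f', _, hne, hfv'⟩ := adm_deg h hf hfv
    exact ⟨f', f, hne, hfv'.symm, hfv.symm⟩

theorem adm_min (h : Adm G T Fl) (X : Set V) (hX : X.Nonempty)
    (hinv : ∀ (g : G) (x : V), x ∈ X → g • x ∈ X) (hc : Cvx T X) (v : V) : v ∈ X := by
  classical
  have hT := h.tree
  have hta := adm_ta h
  set d : V → ℕ := fun v => sInf ((fun x => T.dist v x) '' X) with hd
  have hmem : ∀ v, ∃ x ∈ X, T.dist v x = d v := by
    intro v
    have h1 : ((fun x => T.dist v x) '' X).Nonempty := hX.image _
    obtain ⟨x, hx, hx2⟩ := Nat.sInf_mem h1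
    exact ⟨x, hx, hx2⟩
  have hle : ∀ v, ∀ x ∈ X, d v ≤ T.dist v x := by
    intro v x hx
    exact Nat.sInf_le ⟨x, hx, rfl⟩
  have hdg : ∀ (g : G) v, d v ≤ d (g • v) := by
    intro g v
    obtain ⟨x, hx, hx2⟩ := hmem (g • v)
    have h1 := hle v (g⁻¹ • x) (hinv _ _ hx)
    rw [← ta_dist hta g, smul_inv_smul, hx2] at h1
    exact h1
  obtain ⟨F, hF⟩ := h.fin
  have hB : ∀ v, d v ≤ F.sup fun p => d p.1 := by
    intro v
    obtain ⟨n, _, _, hn, _⟩ := t06_nbrs h v
    obtain ⟨g, hg⟩ := hF v n hn
    exact (hdg g v).trans (Finset.le_sup (f := fun p : V × V => d p.1) hg)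
  by_contra hv
  have h0 : ∀ v, d v = 0 → v ∈ X := by
    intro v h1
    obtain ⟨x, hx, hx2⟩ := hmem v
    rw [h1] at hx2
    rw [st1_eq hT hx2]
    exact hx
  have hstep : ∀ v, 0 < d v → ∃ n, d v + 1 ≤ d n := by
    intro v hv
    obtain ⟨x, hx, hx2⟩ := hmem v
    obtain ⟨n, n', hnn, hn, hn'⟩ := t06_nbrs h v
    have hex : ∃ n, T.Adj v n ∧ ¬ Bt T v n x := by
      by_contra hcon
      push Not at hcon
      exact hnn (st_uniq hT hn hn' (hcon n hn) (hcon n' hn'))
    obtain ⟨m, hm, hmb⟩ := hex
    have e1 := st1_one hm
    have c1 : T.dist x m = T.dist m x := SimpleGraph.dist_comm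
    have c2 : T.dist x v = T.dist v x := SimpleGraph.dist_comm
    have c3 : T.dist m v = T.dist v m := SimpleGraph.dist_comm
    have h1 : Bt T m v x := by
      unfold Bt at hmb ⊢
      rcases st_adj hT hm x with h2 | h2
      · omega
      · exfalso
        apply hmb
        omega
    refine ⟨m, ?_⟩
    obtain ⟨y, hy, hy2⟩ := hmem m
    obtain ⟨q, q1, q2, q3⟩ := st_median hT v x y
    have hq : q ∈ X := hc x hx y hy q q2
    have h2 := hle v q hq
    have h3 : q = x := by
      apply st1_eq hT
      unfold Bt at q1
      omega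
    rw [h3] at q3
    have h4 : v ≠ x := by
      rintro rfl
      rw [SimpleGraph.dist_self] at hx2
      omega
    have h5 := st_cat hT h1 q3 h4
    rw [← hy2, h5]
    omega
  have hk : ∀ k : ℕ, ∃ v, k < d v := by
    intro k
    induction k with
    | zero => exact ⟨v, Nat.pos_of_ne_zero fun h1 => hv (h0 v h1)⟩
    | succ k ih =>
      obtain ⟨w, hw⟩ := ih
      obtain ⟨n, hn⟩ := hstep w (by omega)
      exact ⟨n, by omega⟩
  obtain ⟨w, hw⟩ := hk (F.sup fun p => d p.1)
  exact absurd (hB w) (by omega)

end

end AdmIso
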