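import Pool.Agent.Lib.MP_32d917_al_adm.T03
import Pool.Agent.Lib.MP_32d917_al_adm.T05
import Pool.Agent.Lib.MP_32d917_al_adm.T06

/-!
# T07: realisation, first part: the vertices

`S` is a system for the valid data `D` in the group `G`, with injective maps `be p`, and `G` acts
admissibly on `T`.

`exists_vp`: for every `p` the subgroup `H = (S.be p).range` fixes exactly one piece: use `ell` with
`z = S.be p (1, ofAdd 1) ≠ 1` (central in `H`) and the commutators of `fg_nc2` (in the first factor);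
uniqueness is not needed here.

`cen_vp`: if `u` is a piece fixed by `H` then `S.be p (1, t)` is in the centre of its stabiliser
(`cen_of_two` with `fg_nc`).

`cen_al`: for an edge `e` put `u e = S.y e • vp (D.pc e)`. `al (fl e) v` fixes `u e` by `rel`, and
`al (fl e) (ofAdd (m ze)) = y e be(1, m) (y e)⁻¹` is in the centre of the stabiliser of `u e` (`emb_ze`,
`cen_conj`).

`al_inj`: `al q` is injective (there is an edge at `q` by `two`; `rel`, `emb_inj`).

`no_cen`: no piece `u` has `Cen G u (al q v)` for all `v`: for two edges `e ≠ f` at `q` the elements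
`al q (ze e)`, `al q (ze f)` would be commensurable (`cen_cyc`), so `m ze e = n ze f` with `m` or `n` not
`0`, contradiction to `dt (ze e) (ze f) ≠ 0`.

`u_ne`: `u e ≠ u f` for `e ≠ f` at the same flat: otherwise `al q (ze e)` and `al q (ze f)` are both in the
centre of the stabiliser of `u e`, same contradiction.

`exists_fq`: for every `q` there is a flat `f` fixed by all `al q v` and adjacent to `u e` for every edge
`e` at `q`. Let `e ≠ e'` be edges at `q` (`two`), and `f1, u1` as in `adm_next` for `u e, u e'`. All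
`al q v` fix `u e`, `u e'` and all points between. If `u1 ≠ u e'` then they fix two flats at `u1`, so they are all
in the centre for `u1` (`cen1`), contradiction to `no_cen`. So `u1 = u e'` and `f1` is adjacent to `u e` and to
`u e'`. For a third edge `e''` at `q` there is in the same way a flat `f2` adjacent to `u e` and `u e''`, fixed
by all `al q v`; if `f2 ≠ f1` then `cen1` at `u e` gives a contradiction to `no_cen`. So `f1` is adjacent to
all `u e`.
-/

set_option autoImplicit false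

namespace AdmIso

open LatIso

section

variable {P Q E : Type} {D : Dat P Q E} {G : Type} [Group G] {V : Type} [MulAction G V]
  {T : SimpleGraph V} {Fl : Set V}

theorem be_central (S : Sy D G) (p : P) (t : Multiplicative ℤ) (x : FZ (D.rk p)) :
    S.be p (1, t) * S.be p x = S.be p x * S.be p (1, t) := by
  rw [← map_mul, ← map_mul]
  congr 1
  apply Prod.ext
  · show 1 * x.1 = x.1 * 1
    rw [one_mul, mul_one]
  · show t * x.2 = x.2 * t
    exact mul_comm _ _

theorem be_cmr (S : Sy D G) (p : P) (a b : FreeGroup (Fin (D.rk p))) :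
    cmr (S.be p (a, 1)) (S.be p (b, 1)) = S.be p (cmr a b, 1) := by
  unfold cmr
  rw [← map_inv, ← map_inv, ← map_mul, ← map_mul, ← map_mul]
  congr 1

theorem exists_vp (h : Adm G T Fl) (hD : D.Valid) (S : Sy D G)
    (hI : ∀ p, Function.Injective (S.be p)) (p : P) : ∃ u, u ∉ Fl ∧ ∀ x, S.be p x • u = u := by
  obtain ⟨a1, a2, b1, b2, hab⟩ := fg_nc2 (D.rk p) (hD.rk p)
  have key := ell h (S.be p).range (S.be p (1, Multiplicative.ofAdd 1)) ⟨_, rfl⟩
    (by
      intro h1
      have h2 := hI p (h1.trans (map_one (S.be p)).symm)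
      have h3 := congrArg Prod.snd h2
      have h4 : Multiplicative.ofAdd (1 : ℤ) = Multiplicative.ofAdd 0 := h3
      have h5 : (1 : ℤ) = 0 := Multiplicative.ofAdd.injective h4
      omega)
    (by
      rintro g ⟨x, rfl⟩
      exact be_central S p _ x)
    (S.be p (a1, 1)) (S.be p (a2, 1)) (S.be p (b1, 1)) (S.be p (b2, 1)) ⟨_, rfl⟩ ⟨_, rfl⟩ ⟨_, rfl⟩
    ⟨_, rfl⟩
    (by
      rw [be_cmr, be_cmr, ← map_mul, ← map_mul]
      intro h1
      have h2 := congrArg Prod.fst (hI p h1)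
      exact hab h2)
  obtain ⟨u, hu, hu2⟩ := key
  exact ⟨u, hu, fun x => hu2 _ ⟨x, rfl⟩⟩

theorem cen_vp (h : Adm G T Fl) (hD : D.Valid) (S : Sy D G)
    (hI : ∀ p, Function.Injective (S.be p)) (p : P) (u : V) (hu : u ∉ Fl)
    (hf : ∀ x, S.be p x • u = u) (t : Multiplicative ℤ) : Cen G u (S.be p (1, t)) := by
  obtain ⟨a, b, hab⟩ := fg_nc (D.rk p) (hD.rk p)
  refine cen_of_two h hu (hf _) (hf (a, 1)) (hf (b, 1)) ?_ (be_central S p t _)
    (be_central S p t _)
  rw [← map_mul, ← map_mul]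
  intro h1
  exact hab (congrArg Prod.fst (hI p h1))

theorem al_conj (S : Sy D G) (e : E) (v : A2) :
    S.al (D.fl e) v = S.y e * S.be (D.pc e) (D.emb e v) * (S.y e)⁻¹ := by
  rw [← S.rel e v, mul_inv_cancel_right]

theorem al_fix (S : Sy D G) (vp : P → V) (hf : ∀ p x, S.be p x • vp p = vp p) (e : E) (v : A2) :
    S.al (D.fl e) v • (S.y e • vp (D.pc e)) = S.y e • vp (D.pc e) := by
  rw [smul_smul, S.rel e v, ← smul_smul, hf]

theorem al_cen (h : Adm G T Fl) (hD : D.Valid) (S : Sy D G)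
    (hI : ∀ p, Function.Injective (S.be p)) (vp : P → V) (hv : ∀ p, vp p ∉ Fl)
    (hf : ∀ p x, S.be p x • vp p = vp p) (e : E) :
    Cen G (S.y e • vp (D.pc e)) (S.al (D.fl e) (Multiplicative.ofAdd (D.ze e))) := by
  have h1 := cen_conj (S.y e) (cen_vp h hD S hI (D.pc e) (vp (D.pc e)) (hv _) (hf _)
    (Multiplicative.ofAdd 1))
  have h2 := emb_ze D e (hD.det e) 1
  rw [zpow_one] at h2
  rw [al_conj, h2]
  exact h1

theorem al_inj (hD : D.Valid) (S : Sy D G) (hI : ∀ p, Function.Injective (S.be p)) (q : Q) :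
    Function.Injective (S.al q) := by
  obtain ⟨e, f, _, rfl, _⟩ := hD.two q
  intro v v' hvv
  rw [al_conj, al_conj] at hvv
  have h1 := mul_left_cancel (mul_right_cancel hvv)
  exact emb_inj D e (hD.det e) (hD.ne e) (hI _ h1)

theorem dt_zsmul (m : ℤ) (a b : ℤ × ℤ) : dt (m • a) b = m * dt a b := by
  simp only [dt, Prod.smul_fst, Prod.smul_snd, smul_eq_mul]
  ring

theorem dt_zsmul_right (m : ℤ) (a b : ℤ × ℤ) : dt a (m • b) = m * dt a b := by
  simp only [dt, Prod.smul_fst, Prod.smul_snd, smul_eq_mul]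
  ring

theorem dt_self (a : ℤ × ℤ) : dt a a = 0 := by
  simp only [dt]
  ring

theorem two_cen (h : Adm G T Fl) (hD : D.Valid) (S : Sy D G)
    (hI : ∀ p, Function.Injective (S.be p)) (e f : E) (hef : e ≠ f) (hq : D.fl e = D.fl f)
    (u : V) (hu : u ∉ Fl) (hc : Cen G u (S.al (D.fl e) (Multiplicative.ofAdd (D.ze e))))
    (hc' : Cen G u (S.al (D.fl e) (Multiplicative.ofAdd (D.ze f)))) : False := by
  obtain ⟨m, n, hmn, h1⟩ := cen_cyc h hu hc hc'
  have h2 : (Multiplicative.ofAdd (D.ze e) : A2) ^ m = (Multiplicative.ofAdd (D.ze f) : A2) ^ n := by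
    apply al_inj hD S hI (D.fl e)
    rw [map_zpow (S.al (D.fl e)), map_zpow (S.al (D.fl e))]
    exact h1
  have h3 : m • D.ze e = n • D.ze f := by
    rw [← ofAdd_zsmul, ← ofAdd_zsmul] at h2
    exact Multiplicative.ofAdd.injective h2
  have h0 := hD.ind e f hef hq
  have h4 : m * dt (D.ze e) (D.ze f) = 0 := by
    rw [← dt_zsmul, h3, dt_zsmul, dt_self, mul_zero]
  have h5 : n * dt (D.ze e) (D.ze f) = 0 := by
    rw [← dt_zsmul_right, ← h3, dt_zsmul_right, dt_self, mul_zero]
  rcases hmn with hm | hn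
  · exact hm ((mul_eq_zero.mp h4).resolve_right h0)
  · exact hn ((mul_eq_zero.mp h5).resolve_right h0)

theorem no_cen (h : Adm G T Fl) (hD : D.Valid) (S : Sy D G)
    (hI : ∀ p, Function.Injective (S.be p)) (q : Q) (u : V) (hu : u ∉ Fl)
    (hc : ∀ v, Cen G u (S.al q v)) : False := by
  obtain ⟨e, f, hef, rfl, hf⟩ := hD.two q
  exact two_cen h hD S hI e f hef hf.symm u hu (hc _) (hc _)

theorem u_ne (h : Adm G T Fl) (hD : D.Valid) (S : Sy D G)
    (hI : ∀ p, Function.Injective (S.be p)) (vp : P → V) (hv : ∀ p, vp p ∉ Fl)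
    (hf : ∀ p x, S.be p x • vp p = vp p) (e e' : E) (hq : D.fl e = D.fl e')
    (hu : S.y e • vp (D.pc e) = S.y e' • vp (D.pc e')) : e = e' := by
  by_contra hne
  refine two_cen h hD S hI e e' hne hq (S.y e • vp (D.pc e))
    (fun h1 => hv _ ((adm_flat_iff h _ _).mp h1)) (al_cen h hD S hI vp hv hf e) ?_
  rw [hu, hq]
  exact al_cen h hD S hI vp hv hf e'

theorem two_edges (h : Adm G T Fl) (hD : D.Valid) (S : Sy D G)
    (hI : ∀ p, Function.Injective (S.be p)) (vp : P → V) (hv : ∀ p, vp p ∉ Fl)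
    (hf : ∀ p x, S.be p x • vp p = vp p) (e e' : E) (hne : e ≠ e') (hq : D.fl e = D.fl e') :
    ∃ f ∈ Fl, (∀ v, S.al (D.fl e) v • f = f) ∧ T.Adj f (S.y e • vp (D.pc e)) ∧
      T.Adj f (S.y e' • vp (D.pc e')) := by
  have hu : S.y e • vp (D.pc e) ∉ Fl := fun h1 => hv _ ((adm_flat_iff h _ _).mp h1)
  have hu' : S.y e' • vp (D.pc e') ∉ Fl := fun h1 => hv _ ((adm_flat_iff h _ _).mp h1)
  have huu : S.y e • vp (D.pc e) ≠ S.y e' • vp (D.pc e') := fun h1 =>
    hne (u_ne h hD S hI vp hv hf e e' hq h1)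
  have hx : ∀ v, S.al (D.fl e) v • (S.y e • vp (D.pc e)) = S.y e • vp (D.pc e) :=
    fun v => al_fix S vp hf e v
  have hx' : ∀ v, S.al (D.fl e) v • (S.y e' • vp (D.pc e')) = S.y e' • vp (D.pc e') := by
    intro v
    rw [hq]
    exact al_fix S vp hf e' v
  obtain ⟨f1, u1, hf1, hu1, _, ha, ha1, hb, hb1, hor⟩ := adm_next h hu hu' huu
  have hfix1 : ∀ v, S.al (D.fl e) v • f1 = f1 := fun v => adm_fix h _ (hx v) (hx' v) hb
  rcases hor with h1 | ⟨f2, hf2, hf21, ha2, hb2⟩
  · subst h1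
    exact ⟨f1, hf1, hfix1, ha, ha1⟩
  · exfalso
    have hfix2 : ∀ v, S.al (D.fl e) v • f2 = f2 := fun v => adm_fix h _ (hx v) (hx' v) hb2
    exact no_cen h hD S hI (D.fl e) u1 hu1
      (fun v => cen1 h hf1 hf2 hf21.symm ha1 ha2 (hfix1 v) (hfix2 v))

theorem exists_fq (h : Adm G T Fl) (hD : D.Valid) (S : Sy D G)
    (hI : ∀ p, Function.Injective (S.be p)) (vp : P → V) (hv : ∀ p, vp p ∉ Fl)
    (hf : ∀ p x, S.be p x • vp p = vp p) (q : Q) :
    ∃ f ∈ Fl, (∀ v, S.al q v • f = f) ∧ ∀ e, D.fl e = q → T.Adj f (S.y e • vp (D.pc e)) := by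
  obtain ⟨e, e', hne, rfl, he'⟩ := hD.two q
  have hu : S.y e • vp (D.pc e) ∉ Fl := fun h1 => hv _ ((adm_flat_iff h _ _).mp h1)
  obtain ⟨f1, hf1, hfix1, ha, _⟩ := two_edges h hD S hI vp hv hf e e' hne he'.symm
  refine ⟨f1, hf1, hfix1, ?_⟩
  intro e2 he2
  by_cases h2 : e2 = e
  · subst h2
    exact ha
  obtain ⟨f2, hf2, hfix2, ha2, hb2⟩ :=
    two_edges h hD S hI vp hv hf e e2 (fun h3 => h2 h3.symm) he2.symm
  by_cases h3 : f2 = f1
  · subst h3
    exact hb2
  · exfalso
    exact no_cen h hD S hI (D.fl e) _ hu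
      (fun v => cen1 h hf1 hf2 (fun h4 => h3 h4.symm) ha ha2 (hfix1 v) (hfix2 v))

end

end AdmIso
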