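import Pool.Agent.Lib.MP_32d917_al_adm.F02

/-!
# T14: comparison at one edge

`Φ (x, t) = (φ x, τ x + ε t)`, `Ψ` an automorphism of `ℤ × ℤ` with determinant `δ`.

`det_aut`: an additive automorphism of `ℤ × ℤ` is a matrix of determinant `±1`.

`edge_num`: suppose `emb' (Ψ v) = Φ κ * Φ (emb v) * (Φ κ)⁻¹` for all `v`, i.e. with `u = φ κ.1` and
`W = u * φ w * u⁻¹`: (1) `w' ^ dt (Ψ v) ze' = W ^ dt v ze` and
(2) `dt om' (Ψ v) = τ w * dt v ze + ε dt om v`. For `v = om` (1) gives `w' ^ k = W` (`k = dt (Ψ om) ze'`), and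
for `v = Ψ⁻¹ om'` `w' = W ^ l`; so `k l = 1`, `k = ±1` (`w'` has infinite order), and by (1)
`dt (Ψ v) ze' = k dt v ze` for all `v`. As `dt (Ψ v) ze' = δ dt v (Ψ⁻¹ ze')` for all `v`, `Ψ⁻¹ ze' = δ k ze`, so
`Ψ ze = δ k ze'`. Also (2) is `δ dt (Ψ⁻¹ om') v = dt (ε om - τ w ze) v`, so
`Ψ⁻¹ om' = δ (ε om - τ w ze)`. Taking determinants `1 = dt om' ze' = δ dt (Ψ⁻¹ om') (Ψ⁻¹ ze') = δ ε k`, so
`k = δ ε`; hence `Ψ ze = ε ze'` and `Ψ om = δ ε om' + τ w ze'`, and `W = w' ^ (ε δ)`.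

`edge_conv`: the converse computation.

`num_of_psi`: if `Ψ ze_i = ε_i ze'_i`, `Ψ om_i = δ ε_i om'_i + t_i ze'_i` for `i = 1, 2`: expand
`ze_2 = - dt ze_1 ze_2 * om_1 + dt om_1 ze_2 * ze_1` (`vec_eq`), apply `Ψ`, and compare with the expansion of
`ε_2 ze'_2` in the basis `om'_1, ze'_1` (take `dt` with `ze'_1` and with `om'_1`).

`psi_of_num`: given finitely many (an index set `I` with at least two elements) `ze_i, om_i, ze'_i, om'_i, ε_i, t_i`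
with determinants `1`, `dt ze_i ze_j ≠ 0` for `i ≠ j` and the two numerical conditions for all pairs, there
is an automorphism `Ψ` with determinant `δ` and the two vector equations for all `i`. Define `Ψ` by the
equations for one `i`: `Ψ v = (dt v ze_i) (δ ε_i om'_i + t_i ze'_i) + (dt om_i v) ε_i ze'_i`. For
`j ≠ i` the numerical conditions for `(i, j)` give `Ψ ze_j = ε_j ze'_j`. Let `Ψ'` be the map defined by `j`; by
the conditions for `(j, i)` `Ψ' ze_i = ε_i ze'_i`; so `Ψ` and `Ψ'` agree on `ze_i` and `ze_j`, which are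
linearly independent, so they are equal (multiply by `dt ze_i ze_j`), and `Ψ om_j = Ψ' om_j`.
-/

set_option autoImplicit false

namespace AdmIso

theorem um (δ : ℤˣ) : (δ : ℤ) * (δ : ℤ) = 1 := by
  rcases Int.units_eq_one_or δ with rfl | rfl <;> simp

theorem lin_ap (f : (ℤ × ℤ) ≃+ (ℤ × ℤ)) (v : ℤ × ℤ) :
    f v = (v.1 * (f (1, 0)).1 + v.2 * (f (0, 1)).1, v.1 * (f (1, 0)).2 + v.2 * (f (0, 1)).2) := by
  have h : v = v.1 • ((1, 0) : ℤ × ℤ) + v.2 • ((0, 1) : ℤ × ℤ) := by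
    ext <;> simp
  conv_lhs => rw [h]
  rw [map_add, map_zsmul, map_zsmul]
  ext <;> simp

theorem dt_lin (f : (ℤ × ℤ) ≃+ (ℤ × ℤ)) (u v : ℤ × ℤ) :
    dt (f u) (f v) = dt (f (1, 0)) (f (0, 1)) * dt u v := by
  rw [lin_ap f u, lin_ap f v]
  simp only [dt]
  ring

theorem dt_smul_l (a : ℤ) (u v : ℤ × ℤ) : dt (a • u) v = a * dt u v := by
  simp only [dt, Prod.smul_fst, Prod.smul_snd, smul_eq_mul]; ring

theorem dt_smul_r (a : ℤ) (u v : ℤ × ℤ) : dt u (a • v) = a * dt u v := by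
  simp only [dt, Prod.smul_fst, Prod.smul_snd, smul_eq_mul]; ring

theorem dt_add_l (u v w : ℤ × ℤ) : dt (u + v) w = dt u w + dt v w := by
  simp only [dt, Prod.fst_add, Prod.snd_add]; ring

theorem dt_add_r (u v w : ℤ × ℤ) : dt u (v + w) = dt u v + dt u w := by
  simp only [dt, Prod.fst_add, Prod.snd_add]; ring

theorem dt_swap (u v : ℤ × ℤ) : dt u v = - dt v u := by
  simp only [dt]; ring

theorem dt_same (u : ℤ × ℤ) : dt u u = 0 := by
  simp only [dt]; ring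

theorem dt_ext {x y : ℤ × ℤ} (h : ∀ v, dt v x = dt v y) : x = y := by
  have h1 := h (1, 0)
  have h2 := h (0, 1)
  simp only [dt] at h1 h2
  ext <;> linarith

theorem three (a b v : ℤ × ℤ) : dt a b • v = dt v b • a + dt a v • b := by
  ext <;> simp only [dt, Prod.fst_add, Prod.snd_add, Prod.smul_fst, Prod.smul_snd, smul_eq_mul] <;>
    ring

theorem exp_v {om ze : ℤ × ℤ} (h : dt om ze = 1) (v : ℤ × ℤ) :
    v = dt v ze • om + dt om v • ze := by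
  have := three om ze v
  rwa [h, one_smul] at this

theorem det_aut (Ψ : (ℤ × ℤ) ≃+ (ℤ × ℤ)) : ∃ δ : ℤˣ, ∀ u v, dt (Ψ u) (Ψ v) = (δ : ℤ) * dt u v := by
  have h1 : dt (Ψ (1, 0)) (Ψ (0, 1)) * dt (Ψ.symm (1, 0)) (Ψ.symm (0, 1)) = 1 := by
    have := dt_lin Ψ (Ψ.symm (1, 0)) (Ψ.symm (0, 1))
    rw [Ψ.apply_symm_apply, Ψ.apply_symm_apply] at this
    rw [← this]
    simp [dt]
  have hu : IsUnit (dt (Ψ (1, 0)) (Ψ (0, 1))) := IsUnit.of_mul_eq_one _ h1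
  obtain ⟨δ, hδ⟩ := hu
  exact ⟨δ, fun u v => by rw [dt_lin, hδ]⟩

theorem edge_num {n m : ℕ} (φ : FreeGroup (Fin n) ≃* FreeGroup (Fin m))
    (τ : FreeGroup (Fin n) →* Multiplicative ℤ) (ε δ : ℤˣ) (Ψ : (ℤ × ℤ) ≃+ (ℤ × ℤ))
    (hδ : ∀ u v, dt (Ψ u) (Ψ v) = (δ : ℤ) * dt u v) (w : FreeGroup (Fin n))
    (w' : FreeGroup (Fin m)) (ze om ze' om' : ℤ × ℤ) (h : dt om ze = 1) (h' : dt om' ze' = 1)
    (hw : w ≠ 1) (hw' : w' ≠ 1) (u : FreeGroup (Fin m))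
    (h1 : ∀ v, w' ^ dt (Ψ v) ze' = (u * φ w * u⁻¹) ^ dt v ze)
    (h2 : ∀ v, dt om' (Ψ v) = (τ w).toAdd * dt v ze + (ε : ℤ) * dt om v) :
    Ψ ze = (ε : ℤ) • ze' ∧ Ψ om = ((δ * ε : ℤˣ) : ℤ) • om' + (τ w).toAdd • ze' ∧
      u * φ w * u⁻¹ = w' ^ ((ε * δ : ℤˣ) : ℤ) := by
  set W := u * φ w * u⁻¹ with hW
  set k := dt (Ψ om) ze' with hk
  set l := dt (Ψ.symm om') ze with hl
  set T := (τ w).toAdd with hT
  have e1 : w' ^ k = W := by
    have := h1 om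
    rwa [h, zpow_one] at this
  have e2 : w' = W ^ l := by
    have := h1 (Ψ.symm om')
    rwa [Ψ.apply_symm_apply, h', zpow_one] at this
  have inj : ∀ a b : ℤ, w' ^ a = w' ^ b → a = b := by
    intro a b hab
    have : w' ^ (a - b) = 1 := by rw [zpow_sub, hab, mul_inv_cancel]
    have := (IsMulTorsionFree.zpow_eq_one_iff_right hw').1 this
    linarith
  have kl : k * l = 1 := by
    apply inj
    rw [zpow_mul, e1, ← e2, zpow_one]
  have e3 : ∀ v, dt (Ψ v) ze' = k * dt v ze := by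
    intro v
    apply inj
    rw [h1 v, zpow_mul, e1]
  have e4 : Ψ.symm ze' = ((δ : ℤ) * k) • ze := by
    apply dt_ext
    intro v
    have a := hδ v (Ψ.symm ze')
    rw [Ψ.apply_symm_apply, e3 v] at a
    rw [dt_smul_r]
    linear_combination (- (δ : ℤ)) * a + (- dt v (Ψ.symm ze')) * um δ
  have e5 : ze' = ((δ : ℤ) * k) • Ψ ze := by
    have := congrArg Ψ e4
    rwa [Ψ.apply_symm_apply, map_zsmul] at this
  have e6 : dt om' (Ψ ze) = (ε : ℤ) := by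
    rw [h2 ze, dt_same, h]; ring
  have e7 : (δ : ℤ) * k * (ε : ℤ) = 1 := by
    have : dt om' ze' = ((δ : ℤ) * k) * dt om' (Ψ ze) := by
      conv_lhs => rw [e5]
      rw [dt_smul_r]
    rw [h', e6] at this
    exact this.symm
  have ek : k = (ε : ℤ) * (δ : ℤ) := by
    linear_combination (ε : ℤ) * (δ : ℤ) * e7 - k * (ε : ℤ) * (ε : ℤ) * um δ - k * um ε
  have f1 : Ψ ze = (ε : ℤ) • ze' := by
    rw [e5, smul_smul, ek]
    have : (ε : ℤ) * ((δ : ℤ) * ((ε : ℤ) * (δ : ℤ))) = 1 := by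
      linear_combination (ε : ℤ) * (ε : ℤ) * um δ + um ε
    rw [this, one_smul]
  have e8 : Ψ.symm om' = (δ : ℤ) • ((ε : ℤ) • om + (-T) • ze) := by
    apply dt_ext
    intro v
    have a := hδ (Ψ.symm om') v
    rw [Ψ.apply_symm_apply, h2 v] at a
    rw [dt_smul_r, dt_add_r, dt_smul_r, dt_smul_r, dt_swap v (Ψ.symm om'), dt_swap v om]
    linear_combination (δ : ℤ) * a + (dt (Ψ.symm om') v) * um δ
  have e9 : om' = (δ : ℤ) • ((ε : ℤ) • Ψ om + (-T) • Ψ ze) := by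
    have := congrArg Ψ e8
    rwa [Ψ.apply_symm_apply, map_zsmul, map_add, map_zsmul, map_zsmul] at this
  refine ⟨f1, ?_, ?_⟩
  · rw [f1] at e9
    have c1 := congrArg Prod.fst e9
    have c2 := congrArg Prod.snd e9
    simp only [Prod.fst_add, Prod.snd_add, Prod.smul_fst, Prod.smul_snd, smul_eq_mul] at c1 c2
    ext
    · simp only [Prod.fst_add, Prod.smul_fst, smul_eq_mul, Units.val_mul]
      linear_combination (-(δ : ℤ) * (ε : ℤ)) * c1 + (-(ε : ℤ) * ((ε : ℤ) * (Ψ om).1 - T * ((ε : ℤ) * ze'.1))) * um δ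
        + (-((Ψ om).1 - T * ze'.1)) * um ε
    · simp only [Prod.snd_add, Prod.smul_snd, smul_eq_mul, Units.val_mul]
      linear_combination (-(δ : ℤ) * (ε : ℤ)) * c2 + (-(ε : ℤ) * ((ε : ℤ) * (Ψ om).2 - T * ((ε : ℤ) * ze'.2))) * um δ
        + (-((Ψ om).2 - T * ze'.2)) * um ε
  · rw [← e1, ek, Units.val_mul]

theorem edge_conv {n m : ℕ} (φ : FreeGroup (Fin n) ≃* FreeGroup (Fin m))
    (τ : FreeGroup (Fin n) →* Multiplicative ℤ) (ε δ : ℤˣ) (Ψ : (ℤ × ℤ) ≃+ (ℤ × ℤ))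
    (hδ : ∀ u v, dt (Ψ u) (Ψ v) = (δ : ℤ) * dt u v) (w : FreeGroup (Fin n))
    (w' : FreeGroup (Fin m)) (ze om ze' om' : ℤ × ℤ) (h : dt om ze = 1) (h' : dt om' ze' = 1)
    (u : FreeGroup (Fin m)) (h1 : Ψ ze = (ε : ℤ) • ze')
    (h2 : Ψ om = ((δ * ε : ℤˣ) : ℤ) • om' + (τ w).toAdd • ze')
    (h3 : u * φ w * u⁻¹ = w' ^ ((ε * δ : ℤˣ) : ℤ)) (v : ℤ × ℤ) :
    w' ^ dt (Ψ v) ze' = (u * φ w * u⁻¹) ^ dt v ze ∧
      dt om' (Ψ v) = (τ w).toAdd * dt v ze + (ε : ℤ) * dt om v := by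
  have a1 : dt (Ψ v) ze' = (ε : ℤ) * (δ : ℤ) * dt v ze := by
    have := hδ v ze
    rw [h1, dt_smul_r] at this
    linear_combination (ε : ℤ) * this - (dt (Ψ v) ze') * um ε
  refine ⟨?_, ?_⟩
  · rw [h3, ← zpow_mul, Units.val_mul, a1]
  · have := hδ om v
    rw [h2, dt_add_l, dt_smul_l, dt_smul_l, dt_swap ze' (Ψ v), a1, Units.val_mul] at this
    linear_combination (δ : ℤ) * (ε : ℤ) * this
      - (ε : ℤ) * (ε : ℤ) * dt om' (Ψ v) * um δ - dt om' (Ψ v) * um ε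
      + (τ w).toAdd * dt v ze * ((ε : ℤ) * (ε : ℤ) * um δ + um ε)
      + (ε : ℤ) * dt om v * um δ

theorem num_of_psi (Ψ : (ℤ × ℤ) ≃+ (ℤ × ℤ)) (δ ε₁ ε₂ : ℤˣ) (t₁ : ℤ)
    (ze₁ om₁ ze₂ ze₁' om₁' ze₂' : ℤ × ℤ) (h : dt om₁ ze₁ = 1) (h' : dt om₁' ze₁' = 1)
    (h1 : Ψ ze₁ = (ε₁ : ℤ) • ze₁') (h2 : Ψ om₁ = ((δ * ε₁ : ℤˣ) : ℤ) • om₁' + t₁ • ze₁')
    (h3 : Ψ ze₂ = (ε₂ : ℤ) • ze₂') :
    (δ : ℤ) * (ε₁ : ℤ) * dt ze₁ ze₂ = (ε₂ : ℤ) * dt ze₁' ze₂' ∧
      dt ze₁ ze₂ * t₁ = (ε₁ : ℤ) * dt om₁ ze₂ - (ε₂ : ℤ) * dt om₁' ze₂' := by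
  have e : (ε₂ : ℤ) • ze₂' = dt ze₂ ze₁ • (((δ * ε₁ : ℤˣ) : ℤ) • om₁' + t₁ • ze₁') +
      dt om₁ ze₂ • ((ε₁ : ℤ) • ze₁') := by
    rw [← h3, ← h2, ← h1, ← map_zsmul, ← map_zsmul, ← map_add, ← exp_v h ze₂]
  constructor
  · have := congrArg (fun x => dt x ze₁') e
    simp only [dt_smul_l, dt_add_l, dt_same, h', Units.val_mul] at this
    rw [dt_swap ze₂' ze₁', dt_swap ze₂ ze₁] at this
    linear_combination this
  · have := congrArg (fun x => dt om₁' x) e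
    simp only [dt_smul_r, dt_add_r, dt_same, h'] at this
    rw [dt_swap ze₂ ze₁] at this
    linear_combination this

/-- the map of `psi_of_num` -/
def Av (X Y ze om : ℤ × ℤ) (v : ℤ × ℤ) : ℤ × ℤ := dt v ze • X + dt om v • Y

theorem Av_dt {X Y ze om : ℤ × ℤ} (h : dt om ze = 1) (u v : ℤ × ℤ) :
    dt (Av X Y ze om u) (Av X Y ze om v) = dt X Y * dt u v := by
  have : dt (Av X Y ze om u) (Av X Y ze om v) = dt X Y * (dt u v * dt om ze) := by
    simp only [Av, dt, Prod.fst_add, Prod.snd_add, Prod.smul_fst, Prod.smul_snd, smul_eq_mul]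
    ring
  rw [this, h, mul_one]

theorem Av_bij {X Y ze om : ℤ × ℤ} (h : dt om ze = 1) {δ : ℤ} (hδ : δ * δ = 1) (hd : dt X Y = δ) :
    ∃ Ψ : (ℤ × ℤ) ≃+ (ℤ × ℤ), ∀ v, Ψ v = Av X Y ze om v := by
  refine ⟨{ toFun := Av X Y ze om, invFun := fun w => (δ * dt w Y) • om + (δ * dt X w) • ze, left_inv := ?_, right_inv := ?_, map_add' := ?_ }, fun v => rfl⟩
  · intro v
    have a : dt (Av X Y ze om v) Y = dt v ze * δ := by
      simp only [Av, dt_add_l, dt_smul_l, dt_same, hd]; ring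
    have b : dt X (Av X Y ze om v) = dt om v * δ := by
      simp only [Av, dt_add_r, dt_smul_r, dt_same, hd]; ring
    show (δ * dt (Av X Y ze om v) Y) • om + (δ * dt X (Av X Y ze om v)) • ze = v
    rw [a, b]
    have e := exp_v h v
    have c1 : δ * (dt v ze * δ) = dt v ze := by linear_combination dt v ze * hδ
    have c2 : δ * (dt om v * δ) = dt om v := by linear_combination dt om v * hδ
    rw [c1, c2]
    exact e.symm
  · intro w
    have a : dt ((δ * dt w Y) • om + (δ * dt X w) • ze) ze = δ * dt w Y := by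
      rw [dt_add_l, dt_smul_l, dt_smul_l, dt_same, h]; ring
    have b : dt om ((δ * dt w Y) • om + (δ * dt X w) • ze) = δ * dt X w := by
      rw [dt_add_r, dt_smul_r, dt_smul_r, dt_same, h]; ring
    show Av X Y ze om ((δ * dt w Y) • om + (δ * dt X w) • ze) = w
    simp only [Av]
    rw [a, b, mul_smul, mul_smul, ← smul_add, ← three X Y w, hd, smul_smul, hδ, one_smul]
  · intro u v
    simp only [Av, dt_add_l, dt_add_r, add_smul]
    abel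

theorem psi_of_num {I : Type} (i₀ i₁ : I) (hi : i₀ ≠ i₁) (ze om ze' om' : I → ℤ × ℤ) (δ : ℤˣ)
    (ε : I → ℤˣ) (t : I → ℤ) (h : ∀ i, dt (om i) (ze i) = 1) (h' : ∀ i, dt (om' i) (ze' i) = 1)
    (h0 : ∀ i j, i ≠ j → dt (ze i) (ze j) ≠ 0)
    (h1 : ∀ i j, (δ : ℤ) * (ε i : ℤ) * dt (ze i) (ze j) = (ε j : ℤ) * dt (ze' i) (ze' j))
    (h2 : ∀ i j, i ≠ j → dt (ze i) (ze j) * t i =
      (ε i : ℤ) * dt (om i) (ze j) - (ε j : ℤ) * dt (om' i) (ze' j)) :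
    ∃ Ψ : (ℤ × ℤ) ≃+ (ℤ × ℤ), (∀ u v, dt (Ψ u) (Ψ v) = (δ : ℤ) * dt u v) ∧
      ∀ i, Ψ (ze i) = (ε i : ℤ) • ze' i ∧ Ψ (om i) = ((δ * ε i : ℤˣ) : ℤ) • om' i + t i • ze' i := by
  set X : I → ℤ × ℤ := fun i => ((δ * ε i : ℤˣ) : ℤ) • om' i + t i • ze' i with hX
  set Y : I → ℤ × ℤ := fun i => (ε i : ℤ) • ze' i with hY
  have hd : ∀ i, dt (X i) (Y i) = (δ : ℤ) := by
    intro i
    simp only [hX, hY, dt_add_l, dt_smul_l, dt_smul_r, dt_same, h', Units.val_mul]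
    linear_combination (δ : ℤ) * um (ε i)
  have hze : ∀ i j, Av (X i) (Y i) (ze i) (om i) (ze j) = Y j := by
    intro i j
    by_cases hij : i = j
    · subst hij
      simp only [Av, dt_same, h, zero_smul, one_smul, zero_add]
    · have b := exp_v (h' i) (ze' j)
      have c1 := h1 i j
      have c2 := h2 i j hij
      simp only [Av, hX, hY]
      rw [b]
      rw [dt_swap (ze' j) (ze' i), dt_swap (ze j) (ze i)]
      ext
      · simp only [Prod.fst_add, Prod.smul_fst, smul_eq_mul, Units.val_mul]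
        linear_combination (-(om' i).1) * c1 - (ze' i).1 * c2
      · simp only [Prod.snd_add, Prod.smul_snd, smul_eq_mul, Units.val_mul]
        linear_combination (-(om' i).2) * c1 - (ze' i).2 * c2
  have hom : ∀ i, Av (X i) (Y i) (ze i) (om i) (om i) = X i := by
    intro i
    simp only [Av, dt_same, h, zero_smul, one_smul, add_zero]
  obtain ⟨Ψ, hΨ⟩ := Av_bij (h i₀) (um δ) (hd i₀)
  have key : ∀ j, j ≠ i₀ → ∀ v, Ψ v = Av (X j) (Y j) (ze j) (om j) v := by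
    intro j hj v
    obtain ⟨Ψ', hΨ'⟩ := Av_bij (h j) (um δ) (hd j)
    have e := three (ze i₀) (ze j) v
    have e1 := congrArg Ψ e
    have e2 := congrArg Ψ' e
    rw [map_zsmul, map_add, map_zsmul, map_zsmul] at e1 e2
    rw [hΨ (ze i₀), hΨ (ze j), hze, hze] at e1
    rw [hΨ' (ze i₀), hΨ' (ze j), hze, hze] at e2
    have e3 : dt (ze i₀) (ze j) • Ψ v = dt (ze i₀) (ze j) • Ψ' v := by rw [e1, e2]
    have hne := h0 i₀ j (Ne.symm hj)
    have e4 : Ψ v = Ψ' v := by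
      have c1 := congrArg Prod.fst e3
      have c2 := congrArg Prod.snd e3
      simp only [Prod.smul_fst, Prod.smul_snd, smul_eq_mul] at c1 c2
      ext
      · exact mul_left_cancel₀ hne c1
      · exact mul_left_cancel₀ hne c2
    rw [e4, hΨ']
  refine ⟨Ψ, fun u v => ?_, fun i => ⟨?_, ?_⟩⟩
  · rw [hΨ, hΨ, Av_dt (h i₀), hd]
  · rw [hΨ, hze]
  · by_cases hi0 : i = i₀
    · subst hi0
      rw [hΨ, hom]
    · rw [key i hi0, hom]

end AdmIso
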