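import Pool.Agent.Lib.MP_32d917_al_adm.WDefs

/-!
# W01: almost invariant sets

Elementary. `ainv_congr`: `{v | ¬ (v h ∈ E' ↔ v ∈ E')}` is contained in the union of
`{v | ¬ (v h ∈ E ↔ v ∈ E)}`, of `{v | ¬ (v ∈ E ↔ v ∈ E')}` and of the preimage of the latter under
the injective map `v ↦ v h`.
-/

set_option autoImplicit false

namespace AdmIso

open Pool.Agent.Lib.MP_f46d86_al

variable {G H : Type} [Group G] [Group H] {E E' : Set G}

theorem EqF.refl (E : Set G) : EqF E E := by
  unfold EqF
  simp

theorem EqF.symm (h : EqF E E') : EqF E' E := by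
  refine h.subset fun v hv => ?_
  simp only [Set.mem_setOf_eq] at hv ⊢
  tauto

theorem EqF.trans {E'' : Set G} (h : EqF E E') (h' : EqF E' E'') : EqF E E'' := by
  refine (h.union h').subset fun v hv => ?_
  simp only [Set.mem_setOf_eq, Set.mem_union] at hv ⊢
  tauto

theorem EqF.compl (h : EqF E E') : EqF Eᶜ E'ᶜ := by
  refine h.subset fun v hv => ?_
  simp only [Set.mem_setOf_eq, Set.mem_compl_iff] at hv ⊢
  tauto

theorem ainv_compl (h : AInv E) : AInv Eᶜ := fun g => by
  refine (h g).subset fun v hv => ?_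
  simp only [Set.mem_setOf_eq, Set.mem_compl_iff] at hv ⊢
  tauto

theorem ainv_inter (h : AInv E) (h' : AInv E') : AInv (E ∩ E') := fun g => by
  refine ((h g).union (h' g)).subset fun v hv => ?_
  simp only [Set.mem_setOf_eq, Set.mem_union, Set.mem_inter_iff] at hv ⊢
  tauto

theorem ainv_union (h : AInv E) (h' : AInv E') : AInv (E ∪ E') := fun g => by
  refine ((h g).union (h' g)).subset fun v hv => ?_
  simp only [Set.mem_setOf_eq, Set.mem_union] at hv ⊢
  tauto

theorem ainv_diff (h : AInv E) (h' : AInv E') : AInv (E \ E') := fun g => by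
  refine ((h g).union (h' g)).subset fun v hv => ?_
  simp only [Set.mem_setOf_eq, Set.mem_union, Set.mem_diff] at hv ⊢
  tauto

theorem ainv_congr (h : AInv E) (h' : EqF E E') : AInv E' := fun g => by
  have h3 : {v : G | ¬ (v * g ∈ E ↔ v * g ∈ E')}.Finite :=
    Set.Finite.preimage (f := fun v : G => v * g) (mul_left_injective g).injOn h'
  refine (((h g).union h').union h3).subset fun v hv => ?_
  simp only [Set.mem_setOf_eq, Set.mem_union] at hv ⊢
  tauto

theorem ainv_tr (h : AInv E) (g : G) : AInv {v : G | g * v ∈ E} := fun k => by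
  have h3 : {v : G | ¬ (g * v * k ∈ E ↔ g * v ∈ E)}.Finite :=
    Set.Finite.preimage (f := fun v : G => g * v) (mul_right_injective g).injOn (h k)
  refine h3.subset fun v hv => ?_
  simp only [Set.mem_setOf_eq] at hv ⊢
  rw [← mul_assoc] at hv
  exact hv

theorem ainv_map {E : Set H} (h : AInv E) (θ : G ≃* H) : AInv {v : G | θ v ∈ E} := fun k => by
  have h3 : {v : G | ¬ (θ v * θ k ∈ E ↔ θ v ∈ E)}.Finite :=
    Set.Finite.preimage (f := fun v : G => θ v) θ.injective.injOn (h (θ k))
  refine h3.subset fun v hv => ?_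
  simp only [Set.mem_setOf_eq] at hv ⊢
  rw [map_mul] at hv
  exact hv

theorem eqF_tr (h : EqF E E') (g : G) : EqF {v : G | g * v ∈ E} {v : G | g * v ∈ E'} :=
  Set.Finite.preimage (f := fun v : G => g * v) (mul_right_injective g).injOn h

/-- it is enough to check a generating set -/
theorem ainv_of_gen {α : Type} (E : Set (FreeGroup α))
    (h : ∀ p : α × Bool, {v : FreeGroup α | ¬ (v * lval p ∈ E ↔ v ∈ E)}.Finite) : AInv E := by
  intro g
  induction g using FreeGroup.induction_on with
  | C1 => simp
  | of x => exact h (x, true)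
  | inv_of x _ => exact h (x, false)
  | mul a b ha hb =>
    have h3 : {v : FreeGroup α | ¬ (v * a * b ∈ E ↔ v * a ∈ E)}.Finite :=
      Set.Finite.preimage (f := fun v : FreeGroup α => v * a) (mul_left_injective a).injOn hb
    refine (h3.union ha).subset fun v hv => ?_
    simp only [Set.mem_setOf_eq, Set.mem_union] at hv ⊢
    rw [← mul_assoc] at hv
    tauto

end AdmIso
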