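import Pool.Agent.Lib.MP_32d917_al_adm.W01

/-!
# W02: ends of lines

`ed_compl`: for `w = 1` both sides say `g ∉ E`. For `w ≠ 1` the elements `g w ^ k` are pairwise
different (free groups are torsion free), and `g w ^ (k + 1) ∈ E ↔ g w ^ k ∈ E` for all but
finitely many `k`, as `{v | ¬ (v w ∈ E ↔ v ∈ E)}` is finite; so `g w ^ k ∈ E` is eventually constant.

`crs_mul`: `g w w ^ k = g w ^ (k + 1)`, and `g w (w⁻¹) ^ k = g (w⁻¹) ^ (k - 1)` for `k > 0`.

`crsSet_finite`: if `Crs E w g` then the truth value of `g w ^ k ∈ E` (`k ∈ ℤ`) is not constant,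
so some `v = g w ^ k` lies in the finite set `D = {v | ¬ (v w ∈ E ↔ v ∈ E)}` and the coset of
`g` is the coset of `v`; so `crsSet E w` is contained in the image of `D`.
-/

set_option autoImplicit false

namespace AdmIso

open Pool.Agent.Lib.MP_f46d86_al

section Gen

variable {G : Type} [Group G] {E E' : Set G}

theorem ed_inter (w g : G) : Ed (E ∩ E') w g ↔ Ed E w g ∧ Ed E' w g := by
  unfold Ed
  simp only [Set.mem_inter_iff]
  exact Filter.eventually_and

theorem ed_tr (h w g : G) : Ed {v : G | h * v ∈ E} w g ↔ Ed E w (h * g) := by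
  unfold Ed
  simp only [Set.mem_setOf_eq, mul_assoc]

theorem ed_mul (w g : G) : Ed E w (g * w) ↔ Ed E w g := by
  have e : ∀ k : ℕ, g * w * w ^ k = g * w ^ (k + 1) := fun k => by
    rw [mul_assoc, ← pow_succ']
  unfold Ed
  simp only [e]
  have := Filter.map_add_atTop_eq_nat 1
  constructor
  · intro h
    rw [← this]
    exact Filter.eventually_map.2 h
  · intro h
    rw [← this] at h
    exact Filter.eventually_map.1 h

theorem ed_mul_inv (w g : G) : Ed E w (g * w⁻¹) ↔ Ed E w g := by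
  rw [← ed_mul w (g * w⁻¹), inv_mul_cancel_right]

theorem w02_crs_mul (w g : G) : Crs E w (g * w) ↔ Crs E w g := by
  unfold Crs
  have h := ed_mul_inv (E := E) w⁻¹ g
  rw [inv_inv] at h
  rw [ed_mul, h]

theorem w02_crs_mul_inv (w g : G) : Crs E w (g * w⁻¹) ↔ Crs E w g := by
  rw [← w02_crs_mul w (g * w⁻¹), inv_mul_cancel_right]

theorem crs_zpow (w g : G) (n : ℤ) : Crs E w (g * w ^ n) ↔ Crs E w g := by
  induction n using Int.induction_on with
  | zero => simp
  | succ i ih =>
    rw [zpow_add_one, ← mul_assoc, w02_crs_mul, ih]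
  | pred i ih =>
    rw [zpow_sub_one, ← mul_assoc, w02_crs_mul_inv, ih]

theorem mem_crsSet (w g : G) : (g : G ⧸ Subgroup.zpowers w) ∈ crsSet E w ↔ Crs E w g := by
  constructor
  · rintro ⟨g', hg', hc⟩
    rw [QuotientGroup.eq] at hg'
    obtain ⟨n, hn⟩ := Subgroup.mem_zpowers_iff.1 hg'
    have : g = g' * w ^ n := by rw [hn]; group
    rw [this, crs_zpow]
    exact hc
  · intro h
    exact ⟨g, rfl, h⟩

theorem ed_map {H : Type} [Group H] {E : Set H} (θ : G ≃* H) (w g : G) :
    Ed {v : G | θ v ∈ E} w g ↔ Ed E (θ w) (θ g) := by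
  unfold Ed
  simp only [Set.mem_setOf_eq, map_mul, map_pow]

theorem w02_ev {D : Set G} (hD : D.Finite) {w : G} (hw : Function.Injective fun n : ℕ => w ^ n)
    (g : G) : ∀ᶠ k : ℕ in Filter.atTop, g * w ^ k ∉ D := by
  rw [← Nat.cofinite_eq_atTop, Filter.eventually_cofinite]
  simp only [not_not]
  refine Set.Finite.preimage (f := fun k : ℕ => g * w ^ k) ?_ hD
  intro a _ b _ hab
  exact hw (mul_left_cancel hab)

/-- conjugation: the line `g h⁻¹ <h w h⁻¹>` is the line `g <w>`, translated by bounded distance -/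
theorem ed_conj (hE : AInv E) {w : G} (hw : Function.Injective fun n : ℕ => w ^ n) (h g : G) :
    Ed E (h * w * h⁻¹) (g * h⁻¹) ↔ Ed E w g := by
  have e : ∀ k : ℕ, g * h⁻¹ * (h * w * h⁻¹) ^ k = g * w ^ k * h⁻¹ := fun k => by
    rw [conj_pow]
    group
  unfold Ed
  simp only [e]
  have h1 := w02_ev (hE h⁻¹) hw g
  constructor
  · intro h2
    filter_upwards [h1, h2] with k h3 h4
    simp only [Set.mem_setOf_eq, not_not] at h3
    exact h3.1 h4
  · intro h2
    filter_upwards [h1, h2] with k h3 h4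
    simp only [Set.mem_setOf_eq, not_not] at h3
    exact h3.2 h4

end Gen

section Fr

variable {α : Type} {E E' : Set (FreeGroup α)}

theorem pow_inj {w : FreeGroup α} (hw : w ≠ 1) : Function.Injective fun n : ℕ => w ^ n := by
  rw [injective_pow_iff_not_isOfFinOrder]
  intro h
  exact hw ((isOfFinOrder_iff_eq_one w).1 h)

theorem w02_ec {w : FreeGroup α} (hE : AInv E) (hw : w ≠ 1) (g : FreeGroup α) :
    (∀ᶠ k : ℕ in Filter.atTop, g * w ^ k ∈ E) ∨ (∀ᶠ k : ℕ in Filter.atTop, g * w ^ k ∉ E) := by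
  have h1 := w02_ev (hE w) (pow_inj hw) g
  obtain ⟨K, hK⟩ := Filter.eventually_atTop.1 h1
  have h2 : ∀ k, K ≤ k → (g * w ^ k ∈ E ↔ g * w ^ K ∈ E) := by
    intro k hk
    induction k, hk using Nat.le_induction with
    | base => rfl
    | succ k hk ih =>
      have h3 := hK k hk
      simp only [Set.mem_setOf_eq, not_not] at h3
      rw [pow_succ, ← mul_assoc, h3, ih]
  by_cases h4 : g * w ^ K ∈ E
  · left
    exact Filter.eventually_atTop.2 ⟨K, fun k hk => (h2 k hk).2 h4⟩
  · right
    exact Filter.eventually_atTop.2 ⟨K, fun k hk h5 => h4 ((h2 k hk).1 h5)⟩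

theorem ed_compl (hE : AInv E) (w g : FreeGroup α) : Ed Eᶜ w g ↔ ¬ Ed E w g := by
  by_cases hw : w = 1
  · subst hw
    unfold Ed
    simp only [one_pow, mul_one, Set.mem_compl_iff, Filter.eventually_const]
  · unfold Ed
    simp only [Set.mem_compl_iff]
    constructor
    · intro h1 h2
      obtain ⟨k, h3, h4⟩ := (h1.and h2).exists
      exact h3 h4
    · intro h1
      rcases w02_ec hE hw g with h | h
      · exact absurd h h1
      · exact h

theorem ed_congr (h : EqF E E') {w : FreeGroup α} (hw : w ≠ 1) (g : FreeGroup α) :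
    Ed E w g ↔ Ed E' w g := by
  have h1 := w02_ev h (pow_inj hw) g
  unfold Ed
  constructor
  · intro h2
    filter_upwards [h1, h2] with k h3 h4
    simp only [Set.mem_setOf_eq, not_not] at h3
    exact h3.1 h4
  · intro h2
    filter_upwards [h1, h2] with k h3 h4
    simp only [Set.mem_setOf_eq, not_not] at h3
    exact h3.2 h4

theorem crsSet_finite (hE : AInv E) (w : FreeGroup α) : (crsSet E w).Finite := by
  refine ((hE w).image fun v : FreeGroup α => (v : FreeGroup α ⧸ Subgroup.zpowers w)).subset ?_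
  rintro c ⟨g, rfl, hc⟩
  by_contra hcon
  have h1 : ∀ n : ℤ, (g * w ^ n * w ∈ E ↔ g * w ^ n ∈ E) := by
    intro n
    by_contra h2
    apply hcon
    refine ⟨g * w ^ n, h2, ?_⟩
    rw [QuotientGroup.eq]
    exact Subgroup.mem_zpowers_iff.2 ⟨-n, by group⟩
  have h2 : ∀ n : ℤ, (g * w ^ n ∈ E ↔ g ∈ E) := by
    intro n
    induction n using Int.induction_on with
    | zero => simp
    | succ i ih =>
      rw [zpow_add_one, ← mul_assoc, h1, ih]
    | pred i ih =>
      have h3 := h1 (-(i : ℤ) - 1)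
      rw [mul_assoc, ← zpow_add_one, sub_add_cancel] at h3
      rw [← h3, ih]
  apply hc
  have h3 : Ed E w g ↔ g ∈ E := by
    unfold Ed
    have : ∀ k : ℕ, (g * w ^ k ∈ E ↔ g ∈ E) := fun k => by
      have := h2 k
      rwa [zpow_natCast] at this
    simp only [this, Filter.eventually_const]
  have h4 : Ed E w⁻¹ g ↔ g ∈ E := by
    unfold Ed
    have : ∀ k : ℕ, (g * w⁻¹ ^ k ∈ E ↔ g ∈ E) := fun k => by
      have := h2 (-(k : ℤ))
      rwa [zpow_neg, zpow_natCast, ← inv_pow] at this
    simp only [this, Filter.eventually_const]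
  rw [h3, h4]

theorem cap_one (E : Set (FreeGroup α)) : cap E 1 = 0 := by
  have : crsSet E (1 : FreeGroup α) = ∅ := by
    rw [Set.eq_empty_iff_forall_notMem]
    rintro c ⟨g, rfl, hc⟩
    apply hc
    rw [inv_one]
  unfold cap
  rw [this, Set.ncard_empty]

end Fr

end AdmIso
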