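import Pool.Agent.Lib.MP_32d917_al_adm.W02

/-!
# W03: calculus of `cap`

`cap_sub`: by `ed_inter`, `ed_compl` the truth values of the ends with respect to `E ∩ E'` and
`E ∪ E'` are the Boolean combinations of those for `E`, `E'`. For truth values `a, b` (one end) and
`c, d` (other end): `[a∧b ≠ c∧d] + [a∨b ≠ c∨d] ≤ [a≠c] + [b≠d]`. So every coset in
`crsSet (E ∩ E') w ∩ crsSet (E ∪ E') w` is in `crsSet E w ∩ crsSet E' w`, and every coset in
`crsSet (E ∩ E') w ∪ crsSet (E ∪ E') w` is in `crsSet E w ∪ crsSet E' w`; use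
`Set.ncard_union_add_ncard_inter` (finiteness: `crsSet_finite`). `cap_diff` is `cap_sub` for `E` and
the complement of `E'` up to complements.

`cap_tr`: bijection of cosets `g <w> ↦ h g <w>`. `cap_map`: the equivalence of the quotients
induced by `θ`. `cap_conj`: bijection `g <w> ↦ g h⁻¹ <h w h⁻¹>`. `cap_inv`: `<w⁻¹> = <w>`.
-/

set_option autoImplicit false

namespace AdmIso

open Pool.Agent.Lib.MP_f46d86_al

section Gen

variable {G H : Type} [Group G] [Group H]

theorem w03_card (E : Set G) (E' : Set H) (w : G) (w' : H) (F : G → H)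
    (hs : Function.Surjective F)
    (hF : ∀ g g', g⁻¹ * g' ∈ Subgroup.zpowers w ↔ (F g)⁻¹ * F g' ∈ Subgroup.zpowers w')
    (hc : ∀ g, Crs E w g ↔ Crs E' w' (F g)) : cap E w = cap E' w' := by
  unfold cap
  refine Set.ncard_congr (fun c _ => ((F c.out : H) : H ⧸ Subgroup.zpowers w')) ?_ ?_ ?_
  · intro c hc'
    rw [← QuotientGroup.out_eq' c, mem_crsSet, hc] at hc'
    exact (mem_crsSet _ _).2 hc'
  · intro a b _ _ hab
    rw [QuotientGroup.eq, ← hF, ← QuotientGroup.eq, QuotientGroup.out_eq',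
      QuotientGroup.out_eq'] at hab
    exact hab
  · rintro _ ⟨k, rfl, hk⟩
    obtain ⟨g, rfl⟩ := hs k
    refine ⟨(g : G ⧸ Subgroup.zpowers w), (mem_crsSet _ _).2 ((hc g).2 hk), ?_⟩
    rw [QuotientGroup.eq, ← hF, ← QuotientGroup.eq, QuotientGroup.out_eq']

end Gen

variable {α β : Type} {E E' : Set (FreeGroup α)}

theorem w03_crs_compl (hE : AInv E) (w g : FreeGroup α) : Crs Eᶜ w g ↔ Crs E w g := by
  unfold Crs
  rw [ed_compl hE, ed_compl hE]
  tauto

theorem w03_crsSet_compl (hE : AInv E) (w : FreeGroup α) : crsSet Eᶜ w = crsSet E w := by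
  unfold crsSet
  simp only [w03_crs_compl hE]

theorem cap_compl (hE : AInv E) (w : FreeGroup α) : cap Eᶜ w = cap E w := by
  unfold cap
  rw [w03_crsSet_compl hE]

theorem cap_congr (hE : AInv E) (h : EqF E E') (w : FreeGroup α) : cap E w = cap E' w := by
  by_cases hw : w = 1
  · subst hw
    rw [cap_one, cap_one]
  · have hw' : w⁻¹ ≠ 1 := inv_ne_one.2 hw
    have : ∀ g, Crs E w g ↔ Crs E' w g := fun g => by
      unfold Crs
      rw [ed_congr h hw, ed_congr h hw']
    unfold cap crsSet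
    simp only [this]

theorem cap_tr (h w : FreeGroup α) : cap {v : FreeGroup α | h * v ∈ E} w = cap E w := by
  refine w03_card _ _ w w (fun g => h * g) (Group.mulLeft_bijective h).surjective ?_ ?_
  · intro g g'
    have : (h * g)⁻¹ * (h * g') = g⁻¹ * g' := by group
    simp only [this]
  · intro g
    unfold Crs
    rw [ed_tr, ed_tr]

theorem cap_map {E : Set (FreeGroup β)} (θ : FreeGroup α ≃* FreeGroup β) (w : FreeGroup α) :
    cap {v : FreeGroup α | θ v ∈ E} w = cap E (θ w) := by
  refine w03_card _ _ w (θ w) θ θ.surjective ?_ ?_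
  · intro g g'
    rw [← map_inv, ← map_mul, Subgroup.mem_zpowers_iff, Subgroup.mem_zpowers_iff]
    constructor
    · rintro ⟨k, hk⟩
      exact ⟨k, by rw [← map_zpow, hk]⟩
    · rintro ⟨k, hk⟩
      refine ⟨k, θ.injective ?_⟩
      rw [map_zpow, hk]
  · intro g
    unfold Crs
    rw [ed_map, ed_map, map_inv]

theorem cap_conj (hE : AInv E) (h w : FreeGroup α) : cap E (h * w * h⁻¹) = cap E w := by
  have h1 := cap_map (E := E) (MulAut.conj h : FreeGroup α ≃* FreeGroup α) w
  rw [MulAut.conj_apply] at h1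
  rw [← h1]
  have e : {v : FreeGroup α | (MulAut.conj h : FreeGroup α ≃* FreeGroup α) v ∈ E} =
      {v : FreeGroup α | h * v ∈ {u : FreeGroup α | u * h⁻¹ ∈ E}} := by
    ext v
    simp only [Set.mem_setOf_eq, MulAut.conj_apply]
  rw [e, cap_tr]
  symm
  apply cap_congr hE
  refine (hE h⁻¹).subset fun v hv => ?_
  simp only [Set.mem_setOf_eq] at hv ⊢
  tauto

theorem cap_inv (w : FreeGroup α) : cap E w⁻¹ = cap E w := by
  refine w03_card _ _ w⁻¹ w id Function.surjective_id ?_ ?_
  · intro g g'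
    rw [Subgroup.zpowers_inv]
    rfl
  · intro g
    unfold Crs
    rw [inv_inv]
    simp only [id]
    tauto

theorem w03_ed_union (hE : AInv E) (hE' : AInv E') (w g : FreeGroup α) :
    Ed (E ∪ E') w g ↔ Ed E w g ∨ Ed E' w g := by
  have e : E ∪ E' = (Eᶜ ∩ E'ᶜ)ᶜ := by rw [Set.compl_inter, compl_compl, compl_compl]
  rw [e, ed_compl (ainv_inter (ainv_compl hE) (ainv_compl hE')), ed_inter, ed_compl hE,
    ed_compl hE']
  tauto

theorem cap_sub (hE : AInv E) (hE' : AInv E') (w : FreeGroup α) :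
    cap (E ∩ E') w + cap (E ∪ E') w ≤ cap E w + cap E' w := by
  unfold cap
  have f1 := crsSet_finite hE w
  have f2 := crsSet_finite hE' w
  have f3 := crsSet_finite (ainv_inter hE hE') w
  have f4 := crsSet_finite (ainv_union hE hE') w
  rw [← Set.ncard_union_add_ncard_inter _ _ f3 f4, ← Set.ncard_union_add_ncard_inter _ _ f1 f2]
  apply Nat.add_le_add
  · apply Set.ncard_le_ncard _ (f1.union f2)
    rintro c hc
    obtain ⟨g, rfl⟩ := QuotientGroup.mk_surjective c
    simp only [Set.mem_union, mem_crsSet] at hc ⊢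
    unfold Crs at hc ⊢
    rw [ed_inter, ed_inter, w03_ed_union hE hE', w03_ed_union hE hE'] at hc
    tauto
  · apply Set.ncard_le_ncard _ (f1.inter_of_left _)
    rintro c hc
    obtain ⟨g, rfl⟩ := QuotientGroup.mk_surjective c
    simp only [Set.mem_inter_iff, mem_crsSet] at hc ⊢
    unfold Crs at hc ⊢
    rw [ed_inter, ed_inter, w03_ed_union hE hE', w03_ed_union hE hE'] at hc
    tauto

theorem cap_diff (hE : AInv E) (hE' : AInv E') (w : FreeGroup α) :
    cap (E \ E') w + cap (E' \ E) w ≤ cap E w + cap E' w := by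
  have h1 := cap_sub hE (ainv_compl hE') w
  have e1 : E \ E' = E ∩ E'ᶜ := rfl
  have e2 : E' \ E = (E ∪ E'ᶜ)ᶜ := by
    rw [Set.compl_union, compl_compl, Set.inter_comm]
    rfl
  rw [e1, e2, cap_compl (ainv_union hE (ainv_compl hE'))]
  rw [cap_compl hE'] at h1
  exact h1

/-- if `E` separates the ends of the line `g <w>` then `cap` is positive, and conversely -/
theorem cap_pos (hE : AInv E) (w : FreeGroup α) : 0 < cap E w ↔ ∃ g, Crs E w g := by
  unfold cap
  rw [Set.ncard_pos (crsSet_finite hE w)]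
  constructor
  · rintro ⟨c, g, rfl, hc⟩
    exact ⟨g, hc⟩
  · rintro ⟨g, hg⟩
    exact ⟨_, (mem_crsSet w g).2 hg⟩

section Tuple

variable {ι : Type} [Fintype ι]

theorem capW_compl (hE : AInv E) (W : ι → FreeGroup α) : capW Eᶜ W = capW E W :=
  Finset.sum_congr rfl fun i _ => cap_compl hE (W i)

theorem capW_congr (hE : AInv E) (h : EqF E E') (W : ι → FreeGroup α) : capW E W = capW E' W :=
  Finset.sum_congr rfl fun i _ => cap_congr hE h (W i)

theorem capW_tr (h : FreeGroup α) (W : ι → FreeGroup α) :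
    capW {v : FreeGroup α | h * v ∈ E} W = capW E W :=
  Finset.sum_congr rfl fun i _ => cap_tr h (W i)

theorem capW_map {E : Set (FreeGroup β)} (θ : FreeGroup α ≃* FreeGroup β) (W : ι → FreeGroup α) :
    capW {v : FreeGroup α | θ v ∈ E} W = capW E (fun i => θ (W i)) :=
  Finset.sum_congr rfl fun i _ => cap_map θ (W i)

theorem capW_sub (hE : AInv E) (hE' : AInv E') (W : ι → FreeGroup α) :
    capW (E ∩ E') W + capW (E ∪ E') W ≤ capW E W + capW E' W := by
  unfold capW
  rw [← Finset.sum_add_distrib, ← Finset.sum_add_distrib]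
  exact Finset.sum_le_sum fun i _ => cap_sub hE hE' (W i)

theorem capW_diff (hE : AInv E) (hE' : AInv E') (W : ι → FreeGroup α) :
    capW (E \ E') W + capW (E' \ E) W ≤ capW E W + capW E' W := by
  unfold capW
  rw [← Finset.sum_add_distrib, ← Finset.sum_add_distrib]
  exact Finset.sum_le_sum fun i _ => cap_diff hE hE' (W i)

end Tuple

end AdmIso
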