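import Pool.Agent.Lib.MP_32d917_al_adm.W03

/-!
# W04: the lines through the identity vertex

`y` is a periodic reduced sequence of letters, `w = prodTo y m` its first period, so that
`prodTo y (m + n) = w * prodTo y n`. The line of `w` has the vertices `P n`, `n ∈ ℤ`, where
`P n = prodTo y n` for `n ≥ 0` and `P (n - k m) = w ^ (-k) P n`; `P (n + 1) = P n * lval (y n)` with
`y` extended periodically to `ℤ`.

`cap_line`: let `c` be a coset `g <w>`. Choose `n` with `|g P n|` minimal (`|.|` = length of the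
reduced word) and put `v = g P n`. As `v` is of minimal length, neither `v * lval (y n)` nor
`v * (lval (y (n - 1)))⁻¹` is shorter than `v`; so `v.toWord ++ [y n, y (n + 1), ...]` and
`v.toWord ++ [linv (y (n - 1)), linv (y (n - 2)), ...]` are reduced. If `v ≠ 1` then both ends of the
line start with the first letter of `v` and the line is not separated by `hs A`. If `v = 1` the
ends start with `y n` and with `linv (y (n - 1))`, and `g = (P n)⁻¹`. So the coset of `g` is the
coset of `(prodTo y j)⁻¹` with `j < m`, `j = n mod m`; these `m` cosets are pairwise different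
(`prodTo y j = prodTo y i * ...` has the reduced word `seg y 0 j`; if
`(prodTo y j)⁻¹ w ^ k = (prodTo y i)⁻¹` then `prodTo y j = w ^ k * prodTo y i`, compare lengths), and
the coset of `(prodTo y j)⁻¹` is separated iff `¬ (linv (y (j - 1)) ∈ A ↔ y j ∈ A)`. With the index
`i = j - 1` mod `m` this is the formula.
-/

set_option autoImplicit false

namespace AdmIso

open Pool.Agent.Lib.MP_f46d86_al

variable {α : Type} [DecidableEq α]

theorem W04_red_of_len (v : FreeGroup α) (p : α × Bool)
    (h : v.toWord.length ≤ (v * lval p).toWord.length) : FreeGroup.IsReduced (v.toWord ++ [p]) := by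
  rw [isReduced_concat_iff]
  refine ⟨FreeGroup.isReduced_toWord, fun h1 => ?_⟩
  cases hl : v.toWord.getLast? with
  | none => rw [hl] at h1; simp at h1
  | some q =>
    rw [hl] at h1
    simp only [Option.map_some, Option.some.injEq] at h1
    obtain ⟨l, hl'⟩ := List.getLast?_eq_some_iff.mp hl
    have hv : v = FreeGroup.mk l * lval q := by
      have := FreeGroup.mk_toWord (x := v)
      rw [hl'] at this
      rw [← this, ← FreeGroup.mul_mk]
      rfl
    have h2 : v * lval p = FreeGroup.mk l := by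
      rw [h1, lval_linv, hv]; group
    rw [h2] at h
    have h3 : (FreeGroup.mk l).toWord.length ≤ l.length := FreeGroup.norm_mk_le
    rw [hl'] at h
    simp only [List.length_append, List.length_singleton] at h
    omega

theorem W04_ray {b : ℕ → α × Bool} (hred : ∀ i, b (i + 1) ≠ linv (b i)) (l : List (α × Bool))
    (n : ℕ) (h : FreeGroup.IsReduced (l ++ [b n])) (N : ℕ) :
    FreeGroup.IsReduced (l ++ seg b n (N + 1)) := by
  induction N with
  | zero =>
    rw [seg_succ]
    simpa [seg] using h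
  | succ N ih =>
    rw [seg_succ, ← List.append_assoc, isReduced_concat_iff]
    refine ⟨ih, ?_⟩
    rw [seg_succ, ← List.append_assoc, List.getLast?_concat]
    simp only [Option.map_some, ne_eq, Option.some.injEq]
    exact hred (n + N)

theorem W04_head (b : ℕ → α × Bool) (l : List (α × Bool)) (n N : ℕ) :
    (l ++ seg b n (N + 1)).head? = (l ++ [b n]).head? := by
  rw [seg_cons]
  cases l <;> simp

theorem W04_end {b : ℕ → α × Bool} (hred : ∀ i, b (i + 1) ≠ linv (b i)) (A : Set (α × Bool))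
    (v g u : FreeGroup α) (n K0 : ℕ) (h : FreeGroup.IsReduced (v.toWord ++ [b n]))
    (hK : ∀ K, K0 ≤ K → ∃ N, g * u ^ K = v * FreeGroup.mk (seg b n (N + 1))) :
    Ed (hs A) u g ↔ ∃ p ∈ A, (v.toWord ++ [b n]).head? = some p := by
  have h1 : ∀ K, K0 ≤ K → (g * u ^ K ∈ hs A ↔ ∃ p ∈ A, (v.toWord ++ [b n]).head? = some p) := by
    intro K hK1
    obtain ⟨N, hN⟩ := hK K hK1
    have h2 : (v * FreeGroup.mk (seg b n (N + 1))).toWord = v.toWord ++ seg b n (N + 1) := by
      have h3 : v * FreeGroup.mk (seg b n (N + 1)) =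
          FreeGroup.mk (v.toWord ++ seg b n (N + 1)) := by
        rw [← FreeGroup.mul_mk, FreeGroup.mk_toWord]
      rw [h3, toWord_mk_of_reduced (W04_ray hred _ _ h N)]
    show (∃ p ∈ A, (g * u ^ K).toWord.head? = some p) ↔ _
    rw [hN, h2, W04_head]
  have h2 : (∀ᶠ K : ℕ in Filter.atTop, g * u ^ K ∈ hs A) ↔
      ∀ᶠ _K : ℕ in Filter.atTop, ∃ p ∈ A, (v.toWord ++ [b n]).head? = some p := by
    apply Filter.eventually_congr
    filter_upwards [Filter.eventually_ge_atTop K0] with K hK1
    exact h1 K hK1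
  exact h2.trans Filter.eventually_const

section Line

variable (y : ℕ → α × Bool) (m : ℕ) (hm : 0 < m) (hper : ∀ i, y (i + m) = y i)
    (hred : ∀ i, y (i + 1) ≠ linv (y i))

include hper in
theorem W04_pow (a : ℕ) : prodTo y (a * m) = prodTo y m ^ a := by
  have := prodTo_period_pow hper a 0
  simpa [prodTo] using this

/-- the letters backwards -/
def W04_b (n : ℕ) : ℕ → α × Bool := fun i => linv (y (n + (m - 1) * (i + 1)))

include hm hper in
theorem W04_b0 (n : ℕ) : W04_b y m (n + 1) 0 = linv (y n) := by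
  unfold W04_b
  congr 1
  have : n + 1 + (m - 1) * (0 + 1) = n + m := by omega
  rw [this, hper]

include hm hper hred in
theorem W04_b_red (n i : ℕ) : W04_b y m n (i + 1) ≠ linv (W04_b y m n i) := by
  unfold W04_b
  rw [linv_linv]
  have h1 : y (n + (m - 1) * (i + 1)) = y (n + (m - 1) * (i + 1 + 1) + 1) := by
    have : n + (m - 1) * (i + 1 + 1) + 1 = n + (m - 1) * (i + 1) + m := by
      obtain ⟨m', rfl⟩ : ∃ m', m = m' + 1 := ⟨m - 1, by omega⟩
      simp only [Nat.add_sub_cancel]
      ring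
    rw [this, hper]
  rw [h1]
  exact fun h => hred _ h.symm

include hm hper in
theorem W04_back (a n : ℕ) :
    FreeGroup.mk (seg (W04_b y m n) 0 (a * m + n)) = (prodTo y (a * m + n))⁻¹ := by
  rw [prodTo_eq, FreeGroup.inv_mk]
  congr 1
  apply List.ext_getElem
  · simp [length_seg]
  · intro i h1 h2
    rw [length_seg] at h1
    simp only [FreeGroup.invRev, List.getElem_reverse, List.getElem_map, seg, List.getElem_range,
      List.length_map, List.length_range, zero_add, W04_b, linv]
    have h3 : y (n + (m - 1) * (i + 1)) = y (a * m + n - 1 - i) := by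
      rw [← period_mul hper a (n + (m - 1) * (i + 1)),
        ← period_mul hper (i + 1) (a * m + n - 1 - i)]
      congr 1
      obtain ⟨m', rfl⟩ : ∃ m', m = m' + 1 := ⟨m - 1, by omega⟩
      obtain ⟨c, hc⟩ : ∃ c, a * (m' + 1) + n = c + i + 1 := ⟨a * (m' + 1) + n - i - 1, by omega⟩
      have h5 : a * (m' + 1) + n - 1 - i = c := by omega
      rw [h5, Nat.add_sub_cancel]
      nlinarith
    rw [h3]

include hm hper hred in
theorem W04_fwd_end (A : Set (α × Bool)) (g : FreeGroup α) (k : ℤ) (n : ℕ)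
    (h : FreeGroup.IsReduced ((g * prodTo y m ^ k * prodTo y n).toWord ++ [y n])) :
    Ed (hs A) (prodTo y m) g ↔
      ∃ p ∈ A, ((g * prodTo y m ^ k * prodTo y n).toWord ++ [y n]).head? = some p := by
  apply W04_end hred A _ g _ n (k.toNat + n + 1) h
  intro K hK
  obtain ⟨a, ha⟩ : ∃ a : ℕ, (K : ℤ) = k + a := ⟨(K - k).toNat, by omega⟩
  have han : n + 1 ≤ a := by omega
  have ham : n + 1 ≤ a * m := by nlinarith
  refine ⟨a * m - n - 1, ?_⟩
  have e1 : a * m - n - 1 + 1 = a * m - n := by omega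
  rw [e1]
  have e2 : prodTo y n * FreeGroup.mk (seg y n (a * m - n)) = prodTo y m ^ a := by
    rw [← prodTo_add, ← W04_pow y m hper a]
    congr 1
    omega
  rw [mul_assoc, e2, mul_assoc, ← zpow_natCast, ← zpow_natCast, ← zpow_add, ha]

include hm hper hred in
theorem W04_bwd_end (A : Set (α × Bool)) (g : FreeGroup α) (k : ℤ) (n : ℕ)
    (h : FreeGroup.IsReduced
      ((g * prodTo y m ^ k * prodTo y (n + 1)).toWord ++ [linv (y n)])) :
    Ed (hs A) (prodTo y m)⁻¹ g ↔
      ∃ p ∈ A, ((g * prodTo y m ^ k * prodTo y (n + 1)).toWord ++ [linv (y n)]).head? = some p := by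
  have hb := W04_b0 y m hm hper n
  rw [← hb] at h ⊢
  apply W04_end (W04_b_red y m hm hper hred (n + 1)) A _ g _ 0 ((-k).toNat + 1) h
  intro K hK
  obtain ⟨a, ha⟩ : ∃ a : ℕ, (K : ℤ) = a - k := ⟨(K + k).toNat, by omega⟩
  refine ⟨a * m + n, ?_⟩
  have e1 : a * m + n + 1 = a * m + (n + 1) := by ring
  rw [e1, W04_back y m hm hper a (n + 1), prodTo_period_pow hper]
  have e2 : (prodTo y m)⁻¹ ^ K = prodTo y m ^ (k - (a : ℤ)) := by
    rw [← zpow_natCast, inv_zpow', ha]
    congr 1
    ring
  rw [e2, zpow_sub, zpow_natCast]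
  group

include hred in
theorem W04_len (N : ℕ) : (prodTo y N).toWord.length = N := by
  rw [prodTo_eq, toWord_mk_of_reduced (isReduced_seg hred 0 N), length_seg]

include hm hper hred in
theorem W04_inj (i j : ℕ) (hi : i < m) (hj : j < m)
    (h : (((prodTo y (i + 1))⁻¹ : FreeGroup α) : FreeGroup α ⧸ Subgroup.zpowers (prodTo y m)) =
      (((prodTo y (j + 1))⁻¹ : FreeGroup α) : FreeGroup α ⧸ Subgroup.zpowers (prodTo y m))) :
    i = j := by
  rw [QuotientGroup.eq, Subgroup.mem_zpowers_iff] at h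
  obtain ⟨c, hc⟩ := h
  rw [inv_inv] at hc
  have h1 : prodTo y (i + 1) = prodTo y m ^ c * prodTo y (j + 1) := by
    rw [hc]; group
  obtain ⟨a, ha | ha⟩ := Int.eq_nat_or_neg c
  · rw [ha, zpow_natCast, ← prodTo_period_pow hper] at h1
    have h2 := congrArg (fun x => x.toWord.length) h1
    simp only [W04_len y hred] at h2
    rcases Nat.eq_zero_or_pos a with h0 | h0
    · subst h0; omega
    · have : m ≤ a * m := Nat.le_mul_of_pos_left _ h0
      omega
  · rw [ha, zpow_neg, zpow_natCast] at h1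
    have h3 : prodTo y (a * m + (i + 1)) = prodTo y (j + 1) := by
      rw [prodTo_period_pow hper, h1]; group
    have h2 := congrArg (fun x => x.toWord.length) h3
    simp only [W04_len y hred] at h2
    rcases Nat.eq_zero_or_pos a with h0 | h0
    · subst h0; omega
    · have : m ≤ a * m := Nat.le_mul_of_pos_left _ h0
      omega

include hm hper hred in
theorem W04_crs_iff (A : Set (α × Bool)) (i : ℕ) :
    Crs (hs A) (prodTo y m) (prodTo y (i + 1))⁻¹ ↔ ¬ (linv (y i) ∈ A ↔ y (i + 1) ∈ A) := by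
  have hv : (prodTo y (i + 1))⁻¹ * prodTo y m ^ (0 : ℤ) * prodTo y (i + 1) = 1 := by simp
  unfold Crs
  rw [W04_fwd_end y m hm hper hred A _ 0 (i + 1) (by rw [hv]; simp),
    W04_bwd_end y m hm hper hred A _ 0 i (by rw [hv]; simp), hv]
  simp
  tauto

include hm hper hred in
theorem W04_mem (A : Set (α × Bool)) (g : FreeGroup α) (h : Crs (hs A) (prodTo y m) g) :
    ∃ i < m, (((prodTo y (i + 1))⁻¹ : FreeGroup α) :
        FreeGroup α ⧸ Subgroup.zpowers (prodTo y m)) =
      (g : FreeGroup α ⧸ Subgroup.zpowers (prodTo y m)) := by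
  have hne : {L : ℕ | ∃ (k : ℤ) (n : ℕ), (g * prodTo y m ^ k * prodTo y n).toWord.length = L}.Nonempty :=
    ⟨_, 0, 0, rfl⟩
  obtain ⟨k, n, hkn⟩ := Nat.sInf_mem hne
  have hmin : ∀ (k' : ℤ) (n' : ℕ), (g * prodTo y m ^ k * prodTo y n).toWord.length ≤
      (g * prodTo y m ^ k' * prodTo y n').toWord.length := by
    intro k' n'
    rw [hkn]
    exact Nat.sInf_le ⟨k', n', rfl⟩
  -- shift the index so that it is positive
  obtain ⟨n1, hn1⟩ : ∃ n1, n1 + 1 = m + n := ⟨m + n - 1, by omega⟩
  have hv : g * prodTo y m ^ k * prodTo y n = g * prodTo y m ^ (k - 1) * prodTo y (n1 + 1) := by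
    rw [hn1, prodTo_mul_period hper, zpow_sub_one]
    group
  rw [hv] at hmin
  have hr1 : FreeGroup.IsReduced
      ((g * prodTo y m ^ (k - 1) * prodTo y (n1 + 1)).toWord ++ [y (n1 + 1)]) := by
    apply W04_red_of_len
    have hs1 : g * prodTo y m ^ (k - 1) * prodTo y (n1 + 1) * lval (y (n1 + 1)) =
        g * prodTo y m ^ (k - 1) * prodTo y (n1 + 1 + 1) := by
      rw [prodTo_succ (n := n1 + 1)]; group
    rw [hs1]
    exact hmin (k - 1) (n1 + 1 + 1)
  have hr2 : FreeGroup.IsReduced
      ((g * prodTo y m ^ (k - 1) * prodTo y (n1 + 1)).toWord ++ [linv (y n1)]) := by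
    apply W04_red_of_len
    have : g * prodTo y m ^ (k - 1) * prodTo y (n1 + 1) * lval (linv (y n1)) =
        g * prodTo y m ^ (k - 1) * prodTo y n1 := by
      rw [prodTo_succ, lval_linv]; group
    rw [this]
    exact hmin (k - 1) n1
  have hE1 := W04_fwd_end y m hm hper hred A g (k - 1) (n1 + 1) hr1
  have hE2 := W04_bwd_end y m hm hper hred A g (k - 1) n1 hr2
  have hv1 : g * prodTo y m ^ (k - 1) * prodTo y (n1 + 1) = 1 := by
    by_contra hne1
    apply h
    rw [hE1, hE2]
    have hw : (g * prodTo y m ^ (k - 1) * prodTo y (n1 + 1)).toWord ≠ [] := by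
      intro h0
      exact hne1 (FreeGroup.toWord_eq_nil_iff.mp h0)
    rw [List.head?_append_of_ne_nil _ hw, List.head?_append_of_ne_nil _ hw]
  refine ⟨n1 % m, Nat.mod_lt _ hm, ?_⟩
  rw [QuotientGroup.eq, Subgroup.mem_zpowers_iff, inv_inv]
  have hg : g = (prodTo y (n1 + 1))⁻¹ * prodTo y m ^ (-(k - 1)) := by
    rw [zpow_neg]
    calc g = (g * prodTo y m ^ (k - 1) * prodTo y (n1 + 1)) * (prodTo y (n1 + 1))⁻¹ *
          (prodTo y m ^ (k - 1))⁻¹ := by group
      _ = _ := by rw [hv1, one_mul]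
  have hn : prodTo y (n1 + 1) = prodTo y m ^ (n1 / m) * prodTo y (n1 % m + 1) := by
    rw [← prodTo_period_pow hper]
    congr 1
    have := Nat.div_add_mod n1 m
    rw [mul_comm m] at this
    omega
  refine ⟨-((n1 / m : ℕ) : ℤ) + -(k - 1), ?_⟩
  rw [hg, hn, zpow_add, zpow_neg _ ((n1 / m : ℕ) : ℤ), zpow_natCast]
  group

end Line

open Classical in
theorem cap_line (y : ℕ → α × Bool) (m : ℕ) (hm : 0 < m) (hper : ∀ i, y (i + m) = y i)
    (hred : ∀ i, y (i + 1) ≠ linv (y i)) (A : Set (α × Bool)) :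
    cap (hs A) (prodTo y m) =
      ((Finset.range m).filter fun i => ¬ (linv (y i) ∈ A ↔ y (i + 1) ∈ A)).card := by
  have hset : crsSet (hs A) (prodTo y m) =
      (fun i : ℕ => (((prodTo y (i + 1))⁻¹ : FreeGroup α) :
          FreeGroup α ⧸ Subgroup.zpowers (prodTo y m))) ''
        (((Finset.range m).filter fun i => ¬ (linv (y i) ∈ A ↔ y (i + 1) ∈ A) : Finset ℕ) : Set ℕ) := by
    ext c
    constructor
    · rintro ⟨g, rfl, hg⟩
      obtain ⟨i, hi, hig⟩ := W04_mem y m hm hper hred A g hg
      refine ⟨i, ?_, hig⟩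
      rw [Finset.mem_coe, Finset.mem_filter, Finset.mem_range]
      refine ⟨hi, ?_⟩
      rw [← W04_crs_iff y m hm hper hred A i, ← mem_crsSet, hig, mem_crsSet]
      exact hg
    · rintro ⟨i, hi, rfl⟩
      rw [Finset.mem_coe, Finset.mem_filter, Finset.mem_range] at hi
      exact ⟨_, rfl, (W04_crs_iff y m hm hper hred A i).mpr hi.2⟩
  unfold cap
  rw [hset, Set.ncard_image_of_injOn, Set.ncard_coe_finset]
  intro i hi j hj hij
  rw [Finset.mem_coe, Finset.mem_filter, Finset.mem_range] at hi hj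
  exact W04_inj y m hm hper hred i j hi.1 hj.1 hij

end AdmIso
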