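import Pool.Agent.Lib.MP_32d917_al_adm.W04

/-!
# W05: letters and cyclic length

`ainv_hs`: use `ainv_of_gen`; for a reduced word `v ≠ 1` of length at least 2 the first letters of
`v` and of `v * lval p` agree. (`α` finite.)

`per_exists`: `w` is conjugate to `mk l` with `l = reduceCyclically w.toWord` cyclically reduced and not
empty; put `y i = l[i % m]`, `m = l.length`.

`cap_letter`: `cap_line` for `A = {p}`: `linv (y i) = p` and `y (i + 1) = p` do not both hold, so the
count is the number of `i < m` with `y i = linv p` plus the number of `i < m` with `y (i + 1) = p`,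
and the latter is the number of `i < m` with `y i = p` by periodicity.

`cap_linv`: both sides are `0` for `w = 1`; otherwise conjugate to a periodic sequence (`cap_conj`).
`clen_per`: every `i < m` is counted for exactly one `x`.
-/

set_option autoImplicit false
set_option linter.unusedSectionVars false

namespace AdmIso

open Pool.Agent.Lib.MP_f46d86_al

variable {α : Type} [DecidableEq α] [Fintype α]

theorem w05_toWord_lval {α : Type} [DecidableEq α] (p : α × Bool) : (lval p).toWord = [p] := by
  show (FreeGroup.mk [p]).toWord = [p]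
  rw [FreeGroup.toWord_mk, FreeGroup.reduce_singleton]

theorem w05_lval_inj {α : Type} {p q : α × Bool} (h : lval p = lval q) : p = q := by
  classical
  have h1 := congrArg FreeGroup.toWord h
  rw [w05_toWord_lval, w05_toWord_lval] at h1
  exact List.singleton_injective h1

theorem w05_head {α : Type} [DecidableEq α] (v : FreeGroup α) (hv : 2 ≤ v.toWord.length)
    (p : α × Bool) : (v * lval p).toWord.head? = v.toWord.head? := by
  by_cases hr : FreeGroup.IsReduced (v.toWord ++ [p])
  · rw [FreeGroup.toWord_mul, w05_toWord_lval, hr.reduce_eq]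
    cases hl : v.toWord with
    | nil => rw [hl] at hv; simp at hv
    | cons a l => rfl
  · rw [isReduced_concat_iff] at hr
    have hlast : some p = v.toWord.getLast?.map linv := by
      by_contra hne
      exact hr ⟨FreeGroup.isReduced_toWord, hne⟩
    rcases List.eq_nil_or_concat v.toWord with hl | ⟨l, z, hl⟩
    · rw [hl] at hv
      simp at hv
    · rw [List.concat_eq_append] at hl
      rw [hl, List.getLast?_concat, Option.map_some, Option.some.injEq] at hlast
      have hv2 : v = FreeGroup.mk l * lval z := by
        rw [← FreeGroup.mk_toWord (x := v), hl, ← FreeGroup.mul_mk]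
        rfl
      have hred : FreeGroup.IsReduced l := by
        have h1 : FreeGroup.IsReduced (l ++ [z]) := by
          rw [← hl]
          exact FreeGroup.isReduced_toWord
        exact List.IsChain.left_of_append h1
      have hvp : v * lval p = FreeGroup.mk l := by
        rw [hv2, hlast, lval_linv, mul_assoc, mul_inv_cancel, mul_one]
      rw [hvp, toWord_mk_of_reduced hred, hl]
      cases l with
      | nil => rw [hl] at hv; simp at hv
      | cons a l => rfl

theorem ainv_hs (A : Set (α × Bool)) : AInv (hs A) := by
  apply ainv_of_gen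
  intro p
  have hfin : {v : FreeGroup α | v.toWord.length ≤ 1}.Finite :=
    (List.finite_length_le (α × Bool) 1).preimage
      (f := FreeGroup.toWord) FreeGroup.toWord_injective.injOn
  refine hfin.subset ?_
  intro v hv
  by_contra hlen
  have h2 : 2 ≤ v.toWord.length := by
    have : ¬ v.toWord.length ≤ 1 := hlen
    omega
  apply hv
  show (∃ q ∈ A, (v * lval p).toWord.head? = some q) ↔ ∃ q ∈ A, v.toWord.head? = some q
  rw [w05_head v h2 p]

theorem w05_per_list {α : Type} (l : List (α × Bool)) (hl : FreeGroup.IsCyclicallyReduced l)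
    (hne : l ≠ []) : ∃ y : ℕ → α × Bool, (∀ i, y (i + l.length) = y i) ∧
    (∀ i, y (i + 1) ≠ linv (y i)) ∧ prodTo y l.length = FreeGroup.mk l := by
  have hm : 0 < l.length := List.length_pos_iff.2 hne
  refine ⟨fun i => l[i % l.length]'(Nat.mod_lt _ hm), ?_, ?_, ?_⟩
  · intro i
    show l[(i + l.length) % l.length]'_ = l[i % l.length]'_
    congr 1
    exact Nat.add_mod_right _ _
  · intro i h
    have h0 : l[(i + 1) % l.length]'(Nat.mod_lt _ hm) =
      linv (l[i % l.length]'(Nat.mod_lt _ hm)) := h
    by_cases hi : i % l.length + 1 < l.length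
    · have e : (i + 1) % l.length = i % l.length + 1 := by
        rw [Nat.add_mod, Nat.mod_eq_of_lt (show 1 < l.length by omega), Nat.mod_eq_of_lt hi]
      have h1 := List.isChain_iff_getElem.1 hl.1 (i % l.length) hi
      have h2 : l[i % l.length + 1]'hi = linv (l[i % l.length]'(Nat.mod_lt _ hm)) := by
        rw [← h0]
        congr 1
        exact e.symm
      rw [h2] at h1
      have h3 := h1 rfl
      revert h3
      show (l[i % l.length]'_).2 = (!(l[i % l.length]'_).2) → False
      cases (l[i % l.length]'(Nat.mod_lt _ hm)).2 <;> simp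
    · have hlt := Nat.mod_lt i hm
      have e1 : i % l.length = l.length - 1 := by omega
      have e : (i + 1) % l.length = 0 := by
        rw [Nat.add_mod, e1]
        rcases Nat.lt_or_ge 1 l.length with h5 | h5
        · rw [Nat.mod_eq_of_lt h5, Nat.sub_add_cancel hm, Nat.mod_self]
        · have : l.length = 1 := by omega
          rw [this]
      have h1 := hl.2 (l[l.length - 1]'(by omega))
        (by rw [List.getLast?_eq_getElem?]; simp) (l[0]'hm)
        (by rw [List.head?_eq_getElem?]; simp)
      have h2 : l[0]'hm = linv (l[l.length - 1]'(by omega)) := by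
        have a1 : l[(i + 1) % l.length]'(Nat.mod_lt _ hm) = l[0]'hm := by
          congr 1
        have a2 : l[i % l.length]'(Nat.mod_lt _ hm) = l[l.length - 1]'(by omega) := by
          congr 1
        rw [← a1, ← a2]
        exact h0
      rw [h2] at h1
      have h3 := h1 rfl
      revert h3
      show (l[l.length - 1]'_).2 = (!(l[l.length - 1]'_).2) → False
      cases (l[l.length - 1]'(by omega : l.length - 1 < l.length)).2 <;> simp
  · rw [prodTo_eq]
    congr 1
    apply List.ext_getElem
    · rw [length_seg]
    · intro n h1 h2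
      simp only [seg, List.getElem_map, List.getElem_range, zero_add]
      congr 1
      exact Nat.mod_eq_of_lt h2

theorem per_exists {α : Type} (w : FreeGroup α) (hw : w ≠ 1) : ∃ (y : ℕ → α × Bool) (m : ℕ), 0 < m ∧
    (∀ i, y (i + m) = y i) ∧ (∀ i, y (i + 1) ≠ linv (y i)) ∧ IsConj w (prodTo y m) := by
  classical
  have hcr := FreeGroup.reduceCyclically.isCyclicallyReduced
    (FreeGroup.isReduced_toWord (x := w))
  have hconj : w = FreeGroup.mk (FreeGroup.reduceCyclically.conjugator w.toWord) *
      FreeGroup.mk (FreeGroup.reduceCyclically w.toWord) *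
      (FreeGroup.mk (FreeGroup.reduceCyclically.conjugator w.toWord))⁻¹ := by
    rw [FreeGroup.inv_mk, FreeGroup.mul_mk, FreeGroup.mul_mk,
      FreeGroup.reduceCyclically.conj_conjugator_reduceCyclically, FreeGroup.mk_toWord]
  have hne : FreeGroup.reduceCyclically w.toWord ≠ [] := by
    intro h
    rw [h, ← FreeGroup.one_eq_mk, mul_one, mul_inv_cancel] at hconj
    exact hw hconj
  obtain ⟨y, h1, h2, h3⟩ := w05_per_list _ hcr hne
  refine ⟨y, _, List.length_pos_iff.2 hne, h1, h2, ?_⟩
  rw [h3]
  apply IsConj.symm
  rw [isConj_iff]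
  exact ⟨_, hconj.symm⟩

theorem w05_shift (y : ℕ → α × Bool) (m : ℕ) (hper : ∀ i, y (i + m) = y i) (p : α × Bool) :
    ((Finset.range m).filter fun i => y (i + 1) = p).card =
      ((Finset.range m).filter fun i => y i = p).card := by
  rw [Finset.card_filter, Finset.card_filter]
  have h1 := Finset.sum_range_succ (fun i => if y i = p then 1 else 0) m
  have h2 := Finset.sum_range_succ' (fun i => if y i = p then 1 else 0) m
  have h3 : y m = y 0 := by
    have := hper 0
    rwa [zero_add] at this
  rw [h3] at h1
  omega

theorem cap_letter (y : ℕ → α × Bool) (m : ℕ) (hm : 0 < m) (hper : ∀ i, y (i + m) = y i)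
    (hred : ∀ i, y (i + 1) ≠ linv (y i)) (p : α × Bool) :
    cap (hs {p}) (prodTo y m) = ((Finset.range m).filter fun i => y i = p ∨ y i = linv p).card := by
  classical
  rw [cap_line y m hm hper hred {p}]
  have hlin : ∀ q : α × Bool, linv q = p ↔ q = linv p := by
    intro q
    constructor
    · intro h
      rw [← h, linv_linv]
    · intro h
      rw [h, linv_linv]
  have e1 : ((Finset.range m).filter fun i =>
      ¬ (linv (y i) ∈ ({p} : Set (α × Bool)) ↔ y (i + 1) ∈ ({p} : Set (α × Bool)))) =
      ((Finset.range m).filter fun i => y i = linv p) ∪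
      ((Finset.range m).filter fun i => y (i + 1) = p) := by
    ext i
    simp only [Finset.mem_filter, Finset.mem_union, Set.mem_singleton_iff, hlin]
    have hn : ¬ (y i = linv p ∧ y (i + 1) = p) := by
      rintro ⟨a, b⟩
      apply hred i
      rw [a, b, linv_linv]
    tauto
  have e2 : ((Finset.range m).filter fun i => y i = p ∨ y i = linv p) =
      ((Finset.range m).filter fun i => y i = linv p) ∪
      ((Finset.range m).filter fun i => y i = p) := by
    ext i
    simp only [Finset.mem_filter, Finset.mem_union]
    tauto
  have d1 : Disjoint ((Finset.range m).filter fun i => y i = linv p)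
      ((Finset.range m).filter fun i => y (i + 1) = p) := by
    rw [Finset.disjoint_filter]
    intro i _ a b
    apply hred i
    rw [a, b, linv_linv]
  have d2 : Disjoint ((Finset.range m).filter fun i => y i = linv p)
      ((Finset.range m).filter fun i => y i = p) := by
    rw [Finset.disjoint_filter]
    intro i _ a b
    rw [a] at b
    exact linv_ne p b
  rw [e2, Finset.card_union_of_disjoint d2, ← w05_shift y m hper p,
    ← Finset.card_union_of_disjoint d1, ← e1]
  congr!

theorem w05_cap_conj (E : Set (FreeGroup α)) (hE : AInv E) {w v : FreeGroup α} (h : IsConj w v) :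
    cap E w = cap E v := by
  obtain ⟨c, hc⟩ := isConj_iff.1 h
  rw [← hc, cap_conj hE]

theorem cap_linv (p : α × Bool) (w : FreeGroup α) : cap (hs {linv p}) w = cap (hs {p}) w := by
  by_cases hw : w = 1
  · rw [hw, cap_one, cap_one]
  · obtain ⟨y, m, hm, hper, hred, hc⟩ := per_exists w hw
    rw [w05_cap_conj _ (ainv_hs _) hc, w05_cap_conj _ (ainv_hs _) hc,
      cap_letter y m hm hper hred, cap_letter y m hm hper hred, linv_linv]
    congr 1
    ext i
    simp only [Finset.mem_filter]
    tauto

theorem clen_per (y : ℕ → α × Bool) (m : ℕ) (hm : 0 < m) (hper : ∀ i, y (i + m) = y i)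
    (hred : ∀ i, y (i + 1) ≠ linv (y i)) : clen (prodTo y m) = m := by
  unfold clen
  have h1 : ∀ x : α, cap (hs {(x, true)}) (prodTo y m) =
      ((Finset.range m).filter fun i => (y i).1 = x).card := by
    intro x
    rw [cap_letter y m hm hper hred]
    congr 1
    ext i
    simp only [Finset.mem_filter]
    constructor
    · rintro ⟨h, h2 | h2⟩
      · exact ⟨h, by rw [h2]⟩
      · exact ⟨h, by rw [h2]; rfl⟩
    · rintro ⟨h, h2⟩
      refine ⟨h, ?_⟩
      rcases hb : (y i).2 with _ | _
      · exact Or.inr (Prod.ext h2 hb)
      · exact Or.inl (Prod.ext h2 hb)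
  rw [Finset.sum_congr rfl fun x _ => h1 x,
    ← Finset.card_eq_sum_card_fiberwise (f := fun i => (y i).1) (t := Finset.univ)
      (fun _ _ => Finset.mem_coe.2 (Finset.mem_univ _)), Finset.card_range]

theorem clen_one : clen (1 : FreeGroup α) = 0 := by
  unfold clen
  exact Finset.sum_eq_zero fun x _ => cap_one _

theorem clen_mk (l : List (α × Bool)) (hl : FreeGroup.IsCyclicallyReduced l) :
    clen (FreeGroup.mk l) = l.length := by
  by_cases hne : l = []
  · rw [hne, ← FreeGroup.one_eq_mk, clen_one]
    rfl
  · obtain ⟨y, h1, h2, h3⟩ := w05_per_list l hl hne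
    rw [← h3, clen_per y _ (List.length_pos_iff.2 hne) h1 h2]

theorem clen_conj (g w : FreeGroup α) : clen (g * w * g⁻¹) = clen w := by
  unfold clen
  exact Finset.sum_congr rfl fun x _ => cap_conj (ainv_hs _) g w

theorem clen_inv (w : FreeGroup α) : clen w⁻¹ = clen w := by
  unfold clen
  exact Finset.sum_congr rfl fun x _ => cap_inv w

theorem w05_clen_isConj {w v : FreeGroup α} (h : IsConj w v) : clen w = clen v := by
  obtain ⟨c, hc⟩ := isConj_iff.1 h
  rw [← hc, clen_conj]

theorem clen_eq_zero (w : FreeGroup α) : clen w = 0 ↔ w = 1 := by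
  constructor
  · intro h
    by_contra hw
    obtain ⟨y, m, hm, hper, hred, hc⟩ := per_exists w hw
    rw [w05_clen_isConj hc, clen_per y m hm hper hred] at h
    omega
  · intro h
    rw [h, clen_one]

/-- signed permutations preserve the cyclic length -/
theorem clen_perm (π : FreeGroup α ≃* FreeGroup α) (hπ : IsPerm π) (w : FreeGroup α) :
    clen (π w) = clen w := by
  by_cases hw : w = 1
  · rw [hw, map_one]
  · choose s hs using hπ
    obtain ⟨y, m, hm, hper, hred, hc⟩ := per_exists w hw
    have hσ : ∀ p : α × Bool, ∃ q : α × Bool, π (lval p) = lval q := by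
      rintro ⟨x, b⟩
      cases b
      · exact ⟨linv (s x), by rw [lval_false, map_inv, hs, lval_linv]⟩
      · exact ⟨s x, hs x⟩
    choose σ hσ using hσ
    have hlin : ∀ p, σ (linv p) = linv (σ p) := by
      intro p
      apply w05_lval_inj
      rw [← hσ, lval_linv, lval_linv, map_inv, hσ]
    have hinj : Function.Injective σ := by
      intro p q h
      apply w05_lval_inj
      apply π.injective
      rw [hσ, hσ, h]
    have hprod : ∀ n, π (prodTo y n) = prodTo (fun i => σ (y i)) n := by
      intro n
      induction n with
      | zero => exact map_one π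
      | succ n ih => rw [prodTo_succ, prodTo_succ, map_mul, ih, hσ]
    have hc2 : IsConj (π w) (π (prodTo y m)) := by
      obtain ⟨c, hc⟩ := isConj_iff.1 hc
      rw [isConj_iff]
      exact ⟨π c, by rw [← hc]; simp⟩
    rw [w05_clen_isConj hc2, w05_clen_isConj hc, hprod, clen_per y m hm hper hred,
      clen_per (fun i => σ (y i)) m hm (fun i => by show σ _ = σ _; rw [hper])
        (fun i h => hred i (hinj (by
          rw [hlin]
          exact h)))]

/-- the cut `hs {z⁻¹}ᶜ` is the cut of the edge `z` -/
theorem cap_triv (z : α × Bool) (w : FreeGroup α) : cap (hs {linv z}ᶜ) w = cap (hs {z}) w := by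
  have h1 : EqF (hs {linv z}ᶜ) (hs {linv z} : Set (FreeGroup α))ᶜ := by
    refine (Set.finite_singleton (1 : FreeGroup α)).subset ?_
    intro v hv
    by_contra hne
    apply hv
    constructor
    · rintro ⟨p, hp, hp2⟩ ⟨q, hq, hq2⟩
      rw [hp2] at hq2
      exact hp (by rw [Option.some.inj hq2]; exact hq)
    · intro h
      cases hl : v.toWord with
      | nil => exact absurd (FreeGroup.toWord_eq_nil_iff.1 hl) hne
      | cons a l =>
        refine ⟨a, fun ha => h ⟨a, ha, by rw [hl]; rfl⟩, by rw [hl]; rfl⟩
  rw [cap_congr (ainv_hs _) h1, cap_compl (ainv_hs _), cap_linv]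

/-- one edge has at most the total length -/
theorem cap_le_clen (z : α × Bool) (w : FreeGroup α) : cap (hs {z}) w ≤ clen w := by
  have h1 : cap (hs {z}) w = cap (hs {(z.1, true)}) w := by
    obtain ⟨x, b⟩ := z
    cases b
    · exact cap_linv (x, true) w
    · rfl
  rw [h1]
  unfold clen
  exact Finset.single_le_sum (f := fun x : α => cap (hs {(x, true)}) w)
    (fun _ _ => Nat.zero_le _) (Finset.mem_univ z.1)

/-- the sign count: if a letter has non zero exponent sum in `w`, it occurs -/
theorem cap_of_exp (x : α) (w : FreeGroup α)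
    (h : FreeGroup.lift (fun y => Multiplicative.ofAdd (if y = x then (1 : ℤ) else 0)) w ≠ 1) :
    0 < cap (hs {(x, true)}) w := by
  set φ := FreeGroup.lift (fun y => Multiplicative.ofAdd (if y = x then (1 : ℤ) else 0)) with hφ
  have hw : w ≠ 1 := by
    rintro rfl
    exact h (map_one φ)
  obtain ⟨y, m, hm, hper, hred, hc⟩ := per_exists w hw
  rw [w05_cap_conj _ (ainv_hs _) hc, cap_letter y m hm hper hred]
  have hφw : φ w = φ (prodTo y m) := by
    obtain ⟨c, hc⟩ := isConj_iff.1 hc
    rw [← hc, map_mul, map_mul, map_inv, mul_inv_cancel_comm]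
  rw [hφw] at h
  by_contra hcon
  have h0 : ((Finset.range m).filter fun i => y i = (x, true) ∨ y i = linv (x, true)) = ∅ := by
    rw [← Finset.card_eq_zero]
    omega
  apply h
  have key : ∀ n, n ≤ m → φ (prodTo y n) = 1 := by
    intro n
    induction n with
    | zero => intro _; exact map_one φ
    | succ n ih =>
      intro hn
      rw [prodTo_succ, map_mul, ih (by omega), one_mul]
      have h1 : n ∉ ((Finset.range m).filter fun i => y i = (x, true) ∨ y i = linv (x, true)) := by
        rw [h0]
        exact Finset.notMem_empty n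
      rw [Finset.mem_filter, not_and] at h1
      have h2 := h1 (Finset.mem_range.2 hn)
      push Not at h2
      have h3 : (y n).1 ≠ x := by
        intro h4
        rcases hb : (y n).2 with _ | _
        · exact h2.2 (Prod.ext h4 hb)
        · exact h2.1 (Prod.ext h4 hb)
      rcases hyn : y n with ⟨z, b⟩
      rw [hyn] at h3
      cases b
      · rw [lval_false, map_inv, hφ, FreeGroup.lift_apply_of, if_neg h3]
        rfl
      · rw [lval_true, hφ, FreeGroup.lift_apply_of, if_neg h3]
        rfl
  exact key m le_rfl

end AdmIso
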