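import Pool.Agent.Lib.MP_32d917_al_adm.W05

/-!
# W07: almost invariant sets and finite subtrees

The Cayley tree of the free group, rooted at `1`; `Ch v p` says that `v * lval p` is a child of
`v` (no cancellation). `Sub K`: `K` is a finite subtree containing the root. `Adp K E`: `E` is
constant on the components of the complement of `K` (if `v ∉ K` then no descendant of `v` is in `K`).

`exists_sub`: the set `D` of all `v` such that `v * lval p ∈ E ↔ v ∈ E` fails for some letter `p` is
finite; let `K` be the ball of radius `R` (`v.toWord.length ≤ R`, finite since `α` is finite) with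
`R` larger than all lengths in `D`.

`base`: every `v ≠ 1` with first letter `p` is a descendant of `lval p ∉ {1}`, or equal to it; by
`Adp` and induction on the length of `v`, `v ∈ E ↔ lval p ∈ E`. (The sets agree outside of `{1}`.)

`step`: let `v` be an element of `K` of maximal length, `v = u * lval z`, `z` the last letter. The
children of `v` are not in `K`. The set `{x | u⁻¹ * x ∈ hs {z}}` is the set of all `x` whose reduced
word has the prefix `v.toWord`. The elements `x ≠ v` of it have the prefix `v.toWord ++ [p]` for one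
`p ≠ linv z`, and `x ∈ E ↔ v * lval p ∈ E` by `Adp` and induction; so the sets in `step` agree
outside of `{v}`. `{x | v⁻¹ * x ∈ hs A}` for `linv z ∉ A` is the set of the words with prefix
`v.toWord ++ [p]`, `p ∈ A`.
-/

set_option autoImplicit false

namespace AdmIso

open Pool.Agent.Lib.MP_f46d86_al

variable {α : Type} [DecidableEq α]

/-- `v * lval p` is a child of `v` -/
def Ch (v : FreeGroup α) (p : α × Bool) : Prop := (v * lval p).toWord = v.toWord ++ [p]

/-- finite subtrees containing the root -/
def Sub (K : Finset (FreeGroup α)) : Prop := 1 ∈ K ∧ ∀ v p, Ch v p → v * lval p ∈ K → v ∈ K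

/-- `E` is constant on the components of the complement of `K` -/
def Adp (K : Finset (FreeGroup α)) (E : Set (FreeGroup α)) : Prop :=
  ∀ v p, Ch v p → v ∉ K → (v * lval p ∈ E ↔ v ∈ E)

omit [DecidableEq α] in
theorem w07_red_sub {l m : List (α × Bool)} (h : FreeGroup.IsReduced m) (h' : l <:+: m) :
    FreeGroup.IsReduced l := by
  obtain ⟨s, t, rfl⟩ := h'
  exact List.IsChain.right_of_append (List.IsChain.left_of_append h)

theorem w07_ch_iff (v : FreeGroup α) (p : α × Bool) :
    Ch v p ↔ FreeGroup.IsReduced (v.toWord ++ [p]) := by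
  have h1 : v * lval p = FreeGroup.mk (v.toWord ++ [p]) := by
    rw [← FreeGroup.mul_mk, FreeGroup.mk_toWord]
    rfl
  constructor
  · intro h
    have h2 : (v.toWord ++ [p]) = (v * lval p).toWord := h.symm
    rw [h2]
    exact FreeGroup.isReduced_toWord
  · intro h
    show (v * lval p).toWord = v.toWord ++ [p]
    rw [h1, toWord_mk_of_reduced h]

theorem w07_hs_one (v : FreeGroup α) (p : α × Bool) (hc : Ch v p) (x : FreeGroup α) :
    (v⁻¹ * x).toWord.head? = some p ↔ (v.toWord ++ [p]) <+: x.toWord := by
  have hr := (w07_ch_iff v p).1 hc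
  constructor
  · intro h
    obtain ⟨t, ht⟩ : ∃ t, (v⁻¹ * x).toWord = p :: t := by
      cases hl : (v⁻¹ * x).toWord with
      | nil => rw [hl] at h; simp at h
      | cons a t =>
        rw [hl] at h
        simp only [List.head?_cons, Option.some.injEq] at h
        exact ⟨t, by rw [h]⟩
    have h2 : FreeGroup.IsReduced ([p] ++ t) := by
      have : FreeGroup.IsReduced (v⁻¹ * x).toWord := FreeGroup.isReduced_toWord
      rwa [ht] at this
    have h3 := FreeGroup.IsReduced.append_overlap hr h2 (by simp)
    have h4 : x = FreeGroup.mk (v.toWord ++ [p] ++ t) := by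
      have : x = v * (v⁻¹ * x) := by group
      rw [List.append_assoc, ← FreeGroup.mul_mk, FreeGroup.mk_toWord, List.singleton_append, ← ht,
        FreeGroup.mk_toWord]
      exact this
    rw [h4, toWord_mk_of_reduced h3]
    exact List.prefix_append _ _
  · rintro ⟨t, ht⟩
    have h1 : v⁻¹ * x = FreeGroup.mk (p :: t) := by
      have h2 : x = v * FreeGroup.mk (p :: t) := by
        rw [← FreeGroup.mk_toWord (x := x), ← ht]
        conv_rhs => rw [← FreeGroup.mk_toWord (x := v)]
        rw [FreeGroup.mul_mk]
        simp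
      rw [h2]
      group
    have h3 : FreeGroup.IsReduced (p :: t) := by
      have h4 : FreeGroup.IsReduced x.toWord := FreeGroup.isReduced_toWord
      apply w07_red_sub h4
      refine ⟨v.toWord, [], ?_⟩
      rw [← ht]
      simp
    rw [h1, toWord_mk_of_reduced h3]
    rfl

theorem w07_hs (v : FreeGroup α) (A : Set (α × Bool)) (hA : ∀ p ∈ A, Ch v p) (x : FreeGroup α) :
    v⁻¹ * x ∈ hs A ↔ ∃ p ∈ A, (v.toWord ++ [p]) <+: x.toWord := by
  constructor
  · rintro ⟨p, hp, h⟩
    exact ⟨p, hp, (w07_hs_one v p (hA p hp) x).1 h⟩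
  · rintro ⟨p, hp, h⟩
    exact ⟨p, hp, (w07_hs_one v p (hA p hp) x).2 h⟩

theorem w07_desc (K : Finset (FreeGroup α)) (hK : Sub K) (E : Set (FreeGroup α)) (h : Adp K E)
    (v : FreeGroup α) (hv : v ∉ K) (x : FreeGroup α) (hx : v.toWord <+: x.toWord) :
    x ∉ K ∧ (x ∈ E ↔ v ∈ E) := by
  obtain ⟨t, ht⟩ := hx
  induction t using List.reverseRecOn generalizing x with
  | nil =>
    rw [List.append_nil] at ht
    have := FreeGroup.toWord_injective ht
    subst this
    exact ⟨hv, Iff.rfl⟩
  | append_singleton t p ih =>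
    have hr : FreeGroup.IsReduced (v.toWord ++ t) := by
      have h4 : FreeGroup.IsReduced x.toWord := FreeGroup.isReduced_toWord
      apply w07_red_sub h4
      refine ⟨[], [p], ?_⟩
      rw [← ht]
      simp
    have hw := toWord_mk_of_reduced hr
    obtain ⟨h1, h2⟩ := ih (FreeGroup.mk (v.toWord ++ t)) hw.symm
    have hx : FreeGroup.mk (v.toWord ++ t) * lval p = x := by
      rw [← FreeGroup.mk_toWord (x := x), ← ht]
      show FreeGroup.mk (v.toWord ++ t) * FreeGroup.mk [p] = _
      rw [FreeGroup.mul_mk]
      simp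
    have hch : Ch (FreeGroup.mk (v.toWord ++ t)) p := by
      show (FreeGroup.mk (v.toWord ++ t) * lval p).toWord = _
      rw [hx, hw, ← ht]
      simp
    rw [← hx]
    exact ⟨fun hk => h1 (hK.2 _ _ hch hk), (h _ _ hch h1).trans h2⟩

theorem w07_pow (x : α × Bool) (j : ℕ) : lval x ^ j = FreeGroup.mk (List.replicate j x) := by
  induction j with
  | zero => simp [← FreeGroup.one_eq_mk]
  | succ j ih =>
    rw [pow_succ, ih]
    show FreeGroup.mk _ * FreeGroup.mk [x] = _
    rw [FreeGroup.mul_mk, ← List.replicate_succ']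

theorem w07_red_rep (x : α × Bool) (j : ℕ) : FreeGroup.IsReduced (List.replicate j x) := by
  induction j with
  | zero => simp
  | succ j ih =>
    cases j with
    | zero => simp
    | succ j =>
      rw [List.replicate_succ, List.replicate_succ, FreeGroup.isReduced_cons_cons]
      refine ⟨fun _ => rfl, ?_⟩
      rwa [List.replicate_succ] at ih

theorem w07_toWord_pow (x : α × Bool) (j : ℕ) : (lval x ^ j).toWord = List.replicate j x := by
  rw [w07_pow, toWord_mk_of_reduced (w07_red_rep x j)]

theorem w07_toWord_lval (p : α × Bool) : (lval p).toWord = [p] := by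
  have := w07_toWord_pow p 1
  simpa using this

theorem exists_sub [Fintype α] (E : Set (FreeGroup α)) (hE : AInv E) :
    ∃ K : Finset (FreeGroup α), Sub K ∧ Adp K E := by
  classical
  have hD : (⋃ p : α × Bool, {v : FreeGroup α | ¬ (v * lval p ∈ E ↔ v ∈ E)}).Finite :=
    Set.finite_iUnion fun p => hE (lval p)
  obtain ⟨R, hR⟩ : ∃ R : ℕ, ∀ v ∈ (⋃ p : α × Bool, {v : FreeGroup α | ¬ (v * lval p ∈ E ↔ v ∈ E)}),
      v.toWord.length ≤ R := by
    obtain ⟨R, hR⟩ := (hD.image (fun v : FreeGroup α => v.toWord.length)).bddAbove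
    exact ⟨R, fun v hv => hR ⟨v, hv, rfl⟩⟩
  have hfin : {v : FreeGroup α | v.toWord.length ≤ R}.Finite := by
    have := (List.finite_length_le (α × Bool) R).preimage
      (f := fun v : FreeGroup α => v.toWord) (FreeGroup.toWord_injective.injOn)
    exact this
  refine ⟨hfin.toFinset, ⟨?_, ?_⟩, ?_⟩
  · simp
  · intro v p hc h
    rw [Set.Finite.mem_toFinset, Set.mem_setOf_eq] at h ⊢
    rw [show (v * lval p).toWord = v.toWord ++ [p] from hc] at h
    simp only [List.length_append, List.length_cons, List.length_nil] at h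
    omega
  · intro v p hc h
    by_contra hcon
    apply h
    rw [Set.Finite.mem_toFinset]
    exact hR v (Set.mem_iUnion.2 ⟨p, hcon⟩)

theorem w07_sub_one : Sub ({1} : Finset (FreeGroup α)) := by
  refine ⟨by simp, ?_⟩
  intro v p hc h
  exfalso
  rw [Finset.mem_singleton] at h
  have h1 : (v * lval p).toWord = v.toWord ++ [p] := hc
  rw [h, FreeGroup.toWord_one] at h1
  simp at h1

theorem base (E : Set (FreeGroup α)) (h : Adp {1} E) : EqF E (hs {p | lval p ∈ E}) := by
  apply (Set.finite_singleton (1 : FreeGroup α)).subset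
  intro v hv
  rw [Set.mem_singleton_iff]
  by_contra hv1
  apply hv
  obtain ⟨p, t, ht⟩ : ∃ p t, v.toWord = p :: t := by
    cases hl : v.toWord with
    | nil => exact absurd (FreeGroup.toWord_eq_nil_iff.1 hl) hv1
    | cons a t => exact ⟨a, t, rfl⟩
  have h1 := (w07_desc {1} w07_sub_one E h (lval p) (by
    rw [Finset.mem_singleton]
    intro h2
    have := w07_toWord_lval p
    rw [h2, FreeGroup.toWord_one] at this
    simp at this) v (by rw [w07_toWord_lval, ht]; exact ⟨t, rfl⟩)).2
  rw [h1]
  constructor
  · intro h2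
    exact ⟨p, h2, by rw [ht]; rfl⟩
  · rintro ⟨q, hq, h3⟩
    rw [ht] at h3
    simp only [List.head?_cons, Option.some.injEq] at h3
    rw [h3]
    exact hq

theorem w07_cons (v x : FreeGroup α) (h : v.toWord <+: x.toWord) (hne : x ≠ v) :
    ∃ p, Ch v p ∧ (v.toWord ++ [p]) <+: x.toWord := by
  obtain ⟨t, ht⟩ := h
  cases t with
  | nil =>
    rw [List.append_nil] at ht
    exact absurd (FreeGroup.toWord_injective ht).symm hne
  | cons p t =>
    refine ⟨p, ?_, ⟨t, by rw [← ht]; simp⟩⟩
    rw [w07_ch_iff]
    have h4 : FreeGroup.IsReduced x.toWord := FreeGroup.isReduced_toWord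
    apply w07_red_sub h4
    refine ⟨[], t, ?_⟩
    rw [← ht]
    simp

theorem w07_unique (v x : FreeGroup α) (p q : α × Bool) (h : (v.toWord ++ [p]) <+: x.toWord)
    (h' : (v.toWord ++ [q]) <+: x.toWord) : p = q := by
  have := List.prefix_of_prefix_length_le h h' (by simp)
  have h2 := this.eq_of_length (by simp)
  have h3 := List.append_cancel_left h2
  simpa using h3

theorem w07_part (K : Finset (FreeGroup α)) (hK : Sub K) (v : FreeGroup α) (z : α × Bool)
    (hlast : v.toWord.getLast? = some z)
    (hch : ∀ p, Ch v p → v * lval p ∉ K) (E : Set (FreeGroup α)) (hE : Adp K E) (b : Prop)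
    (x : FreeGroup α) (hxv : x ≠ v) :
    (v.toWord <+: x.toWord ∧ (x ∈ E ↔ b)) ↔
      v⁻¹ * x ∈ hs {p | p ≠ linv z ∧ (v * lval p ∈ E ↔ b)} := by
  have hA : ∀ p ∈ {p | p ≠ linv z ∧ (v * lval p ∈ E ↔ b)}, Ch v p := by
    intro p hp
    rw [w07_ch_iff, isReduced_concat_iff]
    refine ⟨FreeGroup.isReduced_toWord, ?_⟩
    rw [hlast]
    simp only [Option.map_some, ne_eq, Option.some.injEq]
    exact hp.1
  rw [w07_hs v _ hA]
  constructor
  · rintro ⟨h1, h2⟩
    obtain ⟨p, hp, hpx⟩ := w07_cons v x h1 hxv
    refine ⟨p, ⟨?_, ?_⟩, hpx⟩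
    · have := (w07_ch_iff v p).1 hp
      rw [isReduced_concat_iff, hlast] at this
      simpa using this.2
    · have h3 := (w07_desc K hK E hE (v * lval p) (hch p hp) x
        (by rw [show (v * lval p).toWord = v.toWord ++ [p] from hp]; exact hpx)).2
      rw [← h3]
      exact h2
  · rintro ⟨p, hp, hpx⟩
    have hc := hA p hp
    have h3 := (w07_desc K hK E hE (v * lval p) (hch p hc) x
        (by rw [show (v * lval p).toWord = v.toWord ++ [p] from hc]; exact hpx)).2
    refine ⟨(List.prefix_append _ _).trans hpx, ?_⟩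
    rw [h3]
    exact hp.2

theorem step (K : Finset (FreeGroup α)) (hK : Sub K) (hK1 : K ≠ {1}) :
    ∃ (u : FreeGroup α) (z : α × Bool), Ch u z ∧ u * lval z ∈ K ∧ u * lval z ≠ 1 ∧
      (∀ p, Ch (u * lval z) p → u * lval z * lval p ∉ K) ∧ Sub (K.erase (u * lval z)) ∧
      ∀ E : Set (FreeGroup α), Adp K E →
        Adp (K.erase (u * lval z)) (E ∪ {x | u⁻¹ * x ∈ hs {z}}) ∧
        Adp (K.erase (u * lval z)) (E \ {x | u⁻¹ * x ∈ hs {z}}) ∧
        EqF (E ∩ {x | u⁻¹ * x ∈ hs {z}})
          {x | (u * lval z)⁻¹ * x ∈ hs {p | p ≠ linv z ∧ u * lval z * lval p ∈ E}} ∧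
        EqF ({x | u⁻¹ * x ∈ hs {z}} \ E)
          {x | (u * lval z)⁻¹ * x ∈ hs {p | p ≠ linv z ∧ u * lval z * lval p ∉ E}} := by
  classical
  obtain ⟨v, hvK, hvmax⟩ := K.exists_max_image (fun v => v.toWord.length) ⟨1, hK.1⟩
  have hv1 : v ≠ 1 := by
    intro h
    apply hK1
    ext w
    rw [Finset.mem_singleton]
    constructor
    · intro hw
      have := hvmax w hw
      rw [h, FreeGroup.toWord_one] at this
      simp only [List.length_nil, Nat.le_zero] at this
      exact FreeGroup.toWord_eq_nil_iff.1 (List.eq_nil_of_length_eq_zero this)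
    · rintro rfl
      exact hK.1
  have hne : v.toWord ≠ [] := fun h => hv1 (FreeGroup.toWord_eq_nil_iff.1 h)
  obtain ⟨l, z, hlz⟩ : ∃ l z, v.toWord = l ++ [z] :=
    ⟨v.toWord.dropLast, v.toWord.getLast hne, (List.dropLast_append_getLast hne).symm⟩
  have hlr : FreeGroup.IsReduced l := by
    have h4 : FreeGroup.IsReduced v.toWord := FreeGroup.isReduced_toWord
    apply w07_red_sub h4
    exact ⟨[], [z], by rw [hlz]; simp⟩
  have huw : (FreeGroup.mk l).toWord = l := toWord_mk_of_reduced hlr
  have huv : FreeGroup.mk l * lval z = v := by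
    rw [← FreeGroup.mk_toWord (x := v), hlz]
    show FreeGroup.mk l * FreeGroup.mk [z] = _
    rw [FreeGroup.mul_mk]
  have hcu : Ch (FreeGroup.mk l) z := by
    show (FreeGroup.mk l * lval z).toWord = _
    rw [huv, huw, hlz]
  have hlast : v.toWord.getLast? = some z := by rw [hlz]; simp
  have hch : ∀ p, Ch v p → v * lval p ∉ K := by
    intro p hp hk
    have := hvmax _ hk
    rw [show (v * lval p).toWord = v.toWord ++ [p] from hp] at this
    simp at this
  have hH : ∀ x : FreeGroup α, (FreeGroup.mk l)⁻¹ * x ∈ hs {z} ↔ v.toWord <+: x.toWord := by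
    intro x
    rw [w07_hs (FreeGroup.mk l) {z} (by
      intro p hp
      rw [Set.mem_singleton_iff] at hp
      rw [hp]
      exact hcu)]
    simp only [Set.mem_singleton_iff, exists_eq_left]
    rw [huw, hlz]
  have hHs : {x : FreeGroup α | (FreeGroup.mk l)⁻¹ * x ∈ hs {z}} = {x | v.toWord <+: x.toWord} := by
    ext x
    exact hH x
  have hstep : ∀ w p, Ch w p → w ∉ K →
      (v.toWord <+: (w * lval p).toWord ↔ v.toWord <+: w.toWord) := by
    intro w p hc hw
    rw [show (w * lval p).toWord = w.toWord ++ [p] from hc, List.prefix_concat_iff]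
    constructor
    · rintro (h | h)
      · exfalso
        have h2 : v = w * lval p := FreeGroup.toWord_injective (by
          rw [h]
          exact hc.symm)
        exact hw (hK.2 w p hc (h2 ▸ hvK))
      · exact h
    · exact Or.inr
  have hself : ∀ p, Ch v p → v.toWord <+: (v * lval p).toWord := by
    intro p hc
    rw [show (v * lval p).toWord = v.toWord ++ [p] from hc]
    exact List.prefix_append _ _
  refine ⟨FreeGroup.mk l, z, hcu, ?_⟩
  rw [huv, hHs]
  refine ⟨hvK, hv1, hch, ⟨?_, ?_⟩, ?_⟩
  · exact Finset.mem_erase.2 ⟨hv1.symm, hK.1⟩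
  · intro w p hc hw
    rw [Finset.mem_erase] at hw ⊢
    refine ⟨?_, hK.2 w p hc hw.2⟩
    rintro rfl
    exact hch p hc hw.2
  intro E hE
  refine ⟨?_, ?_, ?_, ?_⟩
  · intro w p hc hw
    by_cases hwv : w = v
    · subst hwv
      constructor
      · intro _
        exact Or.inr (List.prefix_refl _)
      · intro _
        exact Or.inr (hself p hc)
    · have hwK : w ∉ K := fun h => hw (Finset.mem_erase.2 ⟨hwv, h⟩)
      simp only [Set.mem_union, Set.mem_setOf_eq]
      rw [hstep w p hc hwK, hE w p hc hwK]
  · intro w p hc hw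
    by_cases hwv : w = v
    · subst hwv
      constructor
      · intro h
        exact absurd (hself p hc) h.2
      · intro h
        exact absurd (List.prefix_refl _) h.2
    · have hwK : w ∉ K := fun h => hw (Finset.mem_erase.2 ⟨hwv, h⟩)
      simp only [Set.mem_diff, Set.mem_setOf_eq]
      rw [hstep w p hc hwK, hE w p hc hwK]
  · apply (Set.finite_singleton v).subset
    intro x hx
    rw [Set.mem_singleton_iff]
    by_contra hxv
    apply hx
    have := w07_part K hK v z hlast hch E hE True x hxv
    simp only [iff_true] at this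
    simp only [Set.mem_inter_iff, Set.mem_setOf_eq]
    rw [← this, and_comm]
  · apply (Set.finite_singleton v).subset
    intro x hx
    rw [Set.mem_singleton_iff]
    by_contra hxv
    apply hx
    have := w07_part K hK v z hlast hch E hE False x hxv
    simp only [iff_false] at this
    simp only [Set.mem_diff, Set.mem_setOf_eq]
    rw [← this]

/-- the ray of powers of a letter: if large powers of the letter `x` lie in the half space, then
the vertex is a power of `x` and the half space is on the ray -/
theorem ray_mem (u : FreeGroup α) (z x : α × Bool) (hc : Ch u z)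
    (h : ∀ᶠ k : ℕ in Filter.atTop, u⁻¹ * lval x ^ k ∈ hs {z}) :
    z = x ∧ ∃ j : ℕ, u * lval z = lval x ^ (j + 1) := by
  obtain ⟨k, hk⟩ := h.exists
  rw [w07_hs u {z} (by
      intro p hp
      rw [Set.mem_singleton_iff] at hp
      rw [hp]
      exact hc)] at hk
  simp only [Set.mem_singleton_iff, exists_eq_left] at hk
  rw [w07_toWord_pow] at hk
  have h1 : ∀ p ∈ u.toWord ++ [z], p = x := by
    intro p hp
    exact List.eq_of_mem_replicate (hk.subset hp)
  have h2 : u.toWord ++ [z] = List.replicate (u.toWord.length + 1) x := by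
    apply List.eq_replicate_iff.2
    exact ⟨by simp, h1⟩
  refine ⟨h1 z (by simp), u.toWord.length, ?_⟩
  apply FreeGroup.toWord_injective
  rw [show (u * lval z).toWord = u.toWord ++ [z] from hc, w07_toWord_pow, h2]

/-- the words of powers of a letter -/
theorem ch_pow (x : α × Bool) (j : ℕ) : Ch (lval x ^ j) x := by
  show (lval x ^ j * lval x).toWord = _
  rw [← pow_succ, w07_toWord_pow, w07_toWord_pow, ← List.replicate_succ']

end AdmIso
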