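import Pool.Agent.Lib.MP_32d917_al_adm.W07

/-!
# W08: the key lemma

If `W` is locally minimal, then every almost invariant `E` which separates the two ends of the
axis of the letter `x` has at least the capacity of the edge `x`.

Proof. Induction on the cardinality of a finite subtree `K` with `Adp K E` (`exists_sub`).
If `K = {1}`: by `base`, `E` is `hs A` up to finitely many elements, `A = {p | lval p ∈ E}`. By `Adp` and
`ch_pow` the powers `lval x ^ (k + 1)` are in `E` iff `lval x ∈ E`; so `x ∈ A`, and in the same way
`linv x ∉ A`; use local minimality and `capW_congr`.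

Otherwise take `u, z` from `step`, `v = u * lval z`, `H = {x | u⁻¹ * x ∈ hs {z}}`;
`capW H W = capW (hs {z}) W` (`capW_tr`).
* If `v * lval z ∈ E`: the set `A = {p | p ≠ linv z ∧ v * lval p ∈ E}` contains `z` and not `linv z`,
  so `capW (E ∩ H) W = capW (hs A) W ≥ capW (hs {z}) W` by local minimality, and `capW_sub` gives
  `capW (E ∪ H) W ≤ capW E W`. Apply the induction hypothesis to `E ∪ H` and `K.erase v`. The end
  `x ^ (+oo)` is in `E ∪ H`. If the end `x ^ (-oo)` were in `E ∪ H` it would be in `H` (`ed_compl`), so
  by `ray_mem` (for `linv x`) `z = linv x` and `v` is a power of `lval z`; all the elements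
  `v * lval z ^ (i + 1)` are not in `K` and by `Adp` are in `E`, since `v * lval z ∈ E`; so the end is
  in `E`, contradiction.
* If `v * lval z ∉ E`: the set `A' = {p | p ≠ linv z ∧ v * lval p ∉ E}` contains `z` and not `linv z`, so
  `capW (H \ E) W ≥ capW (hs {z}) W` and `capW_diff` gives `capW (E \ H) W ≤ capW E W`. Apply the
  induction hypothesis to `E \ H`: if the end `x ^ (+oo)` were in `H` then `z = x` and `v` is a power of
  `lval z`, and the elements `v * lval z ^ (i + 1)` are not in `E`, contradiction.
-/

set_option autoImplicit false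

namespace AdmIso

open Pool.Agent.Lib.MP_f46d86_al

variable {α : Type} [DecidableEq α] [Fintype α] {ι : Type} [Fintype ι]

omit [Fintype α] in
theorem W08_notMem_of_sub {K : Finset (FreeGroup α)} (hK : Sub K) (x : α × Bool) (n0 : ℕ)
    (h : lval x ^ n0 ∉ K) : ∀ n, n0 ≤ n → lval x ^ n ∉ K := by
  intro n hn
  induction n, hn using Nat.le_induction with
  | base => exact h
  | succ n _ ih =>
    intro hmem
    rw [pow_succ] at hmem
    exact ih (hK.2 _ _ (ch_pow x n) hmem)

omit [Fintype α] in
theorem W08_mem_iff {K : Finset (FreeGroup α)} {E : Set (FreeGroup α)} (hA : Adp K E)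
    (x : α × Bool) (n0 : ℕ) (h : ∀ n, n0 ≤ n → lval x ^ n ∉ K) :
    ∀ n, n0 ≤ n → (lval x ^ n ∈ E ↔ lval x ^ n0 ∈ E) := by
  intro n hn
  induction n, hn using Nat.le_induction with
  | base => exact Iff.rfl
  | succ n hn ih =>
    rw [← ih, pow_succ]
    exact hA _ _ (ch_pow x n) (h n hn)

omit [Fintype α] in
theorem W08_lval_pow_ne (x : α × Bool) (n : ℕ) (hn : 0 < n) : lval x ^ n ≠ 1 := by
  intro h
  have hx : (lval x : FreeGroup α) ≠ 1 := by
    intro h1
    have := congrArg FreeGroup.toWord h1
    simp [lval, FreeGroup.toWord_mk, FreeGroup.reduce.cons] at this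
  have h0 := pow_inj hx (a₁ := n) (a₂ := 0) (by simpa using h)
  omega

theorem W08_aux (W : ι → FreeGroup α) (hW : LMin W) (x : α × Bool) (n : ℕ) :
    ∀ (K : Finset (FreeGroup α)) (E : Set (FreeGroup α)), K.card = n → Sub K → Adp K E → AInv E →
      Ed E (lval x) 1 → ¬ Ed E (lval x)⁻¹ 1 → capW (hs {x}) W ≤ capW E W := by
  induction n using Nat.strong_induction_on with
  | _ n ih =>
    intro K E hcard hK hA hE h1 h2
    by_cases hK1 : K = {1}
    · subst hK1
      have hno : ∀ (p : α × Bool) (n : ℕ), 1 ≤ n → lval p ^ n ∉ ({1} : Finset (FreeGroup α)) := by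
        intro p n hn hmem
        exact W08_lval_pow_ne p n hn (Finset.mem_singleton.mp hmem)
      have hb := base E hA
      rw [capW_congr hE hb W]
      apply hW
      · obtain ⟨k, hk1, hk2⟩ := ((h1.and (Filter.eventually_ge_atTop 1)).exists)
        have := (W08_mem_iff hA x 1 (hno x) k hk2).mp (by simpa using hk1)
        simpa using this
      · intro hmem
        apply h2
        have hmem' : lval (linv x) ^ 1 ∈ E := by simpa using hmem
        filter_upwards [Filter.eventually_ge_atTop 1] with k hk
        have := (W08_mem_iff hA (linv x) 1 (hno (linv x)) k hk).mpr hmem'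
        rw [lval_linv] at this
        simpa using this
    · obtain ⟨u, z, hc, hmem, hne, hch, hsub, hst⟩ := step K hK hK1
      obtain ⟨hA1, hA2, hA3, hA4⟩ := hst E hA
      set H : Set (FreeGroup α) := {x | u⁻¹ * x ∈ hs {z}} with hHdef
      have hH : AInv H := ainv_tr (ainv_hs {z}) u⁻¹
      have hcH : capW H W = capW (hs {z}) W := capW_tr u⁻¹ W
      have hlt : (K.erase (u * lval z)).card < n := by
        rw [← hcard]; exact Finset.card_erase_lt_of_mem hmem
      have hCv : ∀ (y : α × Bool) (j : ℕ), z = y → u * lval z = lval y ^ (j + 1) →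
          ∀ n, j + 2 ≤ n → lval y ^ n ∉ K := by
        intro y j hzy huz
        apply W08_notMem_of_sub hK
        subst hzy
        have hC : Ch (u * lval z) z := by rw [huz]; exact ch_pow z (j + 1)
        have := hch z hC
        rwa [huz, ← pow_succ] at this
      by_cases hvz : u * lval z * lval z ∈ E
      · -- first case
        have hzA : z ∈ {p | p ≠ linv z ∧ u * lval z * lval p ∈ E} :=
          ⟨fun h => linv_ne z h.symm, hvz⟩
        have hzA' : linv z ∉ {p | p ≠ linv z ∧ u * lval z * lval p ∈ E} := fun h => h.1 rfl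
        have hl := hW _ z hzA hzA'
        have hEH : AInv (E ∩ H) := ainv_inter hE hH
        have hcI : capW (E ∩ H) W = capW (hs {p | p ≠ linv z ∧ u * lval z * lval p ∈ E}) W := by
          rw [capW_congr hEH hA3 W]
          exact capW_tr (u * lval z)⁻¹ W
        have hs1 := capW_sub hE hH W
        have hle : capW (E ∪ H) W ≤ capW E W := by omega
        refine le_trans (ih _ hlt (K.erase (u * lval z)) (E ∪ H) rfl hsub hA1 (ainv_union hE hH)
          ?_ ?_) hle
        · exact h1.mono fun k hk => Or.inl hk
        · intro h3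
          have h4 : Ed Eᶜ (lval x)⁻¹ 1 := (ed_compl hE _ _).mpr h2
          have h5 : ∀ᶠ k : ℕ in Filter.atTop, u⁻¹ * lval (linv x) ^ k ∈ hs {z} := by
            filter_upwards [h3, h4] with k hk3 hk4
            rcases hk3 with hk3 | hk3
            · exact absurd hk3 hk4
            · rw [lval_linv]
              simpa [hHdef] using hk3
          obtain ⟨hzx, j, hj⟩ := ray_mem u z (linv x) hc h5
          have hnK := hCv (linv x) j hzx hj
          have hvE : lval (linv x) ^ (j + 2) ∈ E := by
            have : u * lval z * lval z = lval (linv x) ^ (j + 2) := by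
              rw [hj, hzx, ← pow_succ]
            rwa [this] at hvz
          apply h2
          filter_upwards [Filter.eventually_ge_atTop (j + 2)] with k hk
          have := (W08_mem_iff hA (linv x) (j + 2) hnK k hk).mpr hvE
          rw [lval_linv] at this
          simpa using this
      · have hzA : z ∈ {p | p ≠ linv z ∧ u * lval z * lval p ∉ E} :=
          ⟨fun h => linv_ne z h.symm, hvz⟩
        have hzA' : linv z ∉ {p | p ≠ linv z ∧ u * lval z * lval p ∉ E} := fun h => h.1 rfl
        have hl := hW _ z hzA hzA'
        have hEH : AInv (H \ E) := ainv_diff hH hE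
        have hcI : capW (H \ E) W = capW (hs {p | p ≠ linv z ∧ u * lval z * lval p ∉ E}) W := by
          rw [capW_congr hEH hA4 W]
          exact capW_tr (u * lval z)⁻¹ W
        have hs1 := capW_diff hE hH W
        have hle : capW (E \ H) W ≤ capW E W := by omega
        refine le_trans (ih _ hlt (K.erase (u * lval z)) (E \ H) rfl hsub hA2 (ainv_diff hE hH)
          ?_ ?_) hle
        · by_cases h3 : Ed H (lval x) 1
          · exfalso
            have h5 : ∀ᶠ k : ℕ in Filter.atTop, u⁻¹ * lval x ^ k ∈ hs {z} := by
              filter_upwards [h3] with k hk3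
              simpa [hHdef] using hk3
            obtain ⟨hzx, j, hj⟩ := ray_mem u z x hc h5
            have hnK := hCv x j hzx hj
            have hvE : lval x ^ (j + 2) ∉ E := by
              have : u * lval z * lval z = lval x ^ (j + 2) := by
                rw [hj, hzx, ← pow_succ]
              rwa [this] at hvz
            obtain ⟨k, hk1, hk2⟩ := ((h1.and (Filter.eventually_ge_atTop (j + 2))).exists)
            exact hvE ((W08_mem_iff hA x (j + 2) hnK k hk2).mp (by simpa using hk1))
          · have h4 : Ed Hᶜ (lval x) 1 := (ed_compl hH _ _).mpr h3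
            filter_upwards [h1, h4] with k hk1 hk4
            exact ⟨hk1, hk4⟩
        · intro h3
          exact h2 (h3.mono fun k hk => hk.1)

theorem key_lemma (W : ι → FreeGroup α) (hW : LMin W) (E : Set (FreeGroup α)) (hE : AInv E)
    (x : α × Bool) (h1 : Ed E (lval x) 1) (h2 : ¬ Ed E (lval x)⁻¹ 1) :
    capW (hs {x}) W ≤ capW E W := by
  obtain ⟨K, hK, hA⟩ := exists_sub E hE
  exact W08_aux W hW x K.card K E rfl hK hA hE h1 h2

/-- translate by `g`; if the ends are in the other order use the complement of `E` -/
theorem key_crs (W : ι → FreeGroup α) (hW : LMin W) (E : Set (FreeGroup α)) (hE : AInv E) (x : α)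
    (g : FreeGroup α) (h : Crs E (FreeGroup.of x) g) : capW (hs {(x, true)}) W ≤ capW E W := by
  have hEg : AInv {v : FreeGroup α | g * v ∈ E} := ainv_tr hE g
  have e1 : ∀ w : FreeGroup α, Ed {v : FreeGroup α | g * v ∈ E} w 1 ↔ Ed E w g := by
    intro w
    have := ed_tr (E := E) g w 1
    rwa [mul_one] at this
  rw [← capW_tr (E := E) g W]
  unfold Crs at h
  by_cases h1 : Ed E (FreeGroup.of x) g
  · have h2 : ¬ Ed E (FreeGroup.of x)⁻¹ g := fun h2 => h ⟨fun _ => h2, fun _ => h1⟩
    apply key_lemma W hW _ hEg (x, true)
    · rw [lval_true, e1]; exact h1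
    · rw [lval_true, e1]; exact h2
  · have h2 : Ed E (FreeGroup.of x)⁻¹ g := by
      by_contra h2
      exact h ⟨fun h => absurd h h1, fun h => absurd h h2⟩
    rw [← capW_compl hEg]
    apply key_lemma W hW _ (ainv_compl hEg) (x, true)
    · rw [lval_true, ed_compl hEg, e1]; exact h1
    · rw [lval_true, ed_compl hEg, e1]; exact fun h3 => h3 h2

end AdmIso
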