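import Pool.Agent.Lib.MP_32d917_al_adm.W06
import Pool.Agent.Lib.MP_32d917_al_adm.W08

/-!
# W09: locally minimal tuples are minimal

`exp_perm`: the integral matrix `M x y = exponent sum of x in θ (of y)` is invertible (the inverse is
given by `θ.symm`), so its determinant is not `0` and some permutation `σ` has a non zero product
`∏ M (σ i) i` (`Matrix.det_apply`); replace `σ` by its inverse.

`descent`: for `x : α` put `E x = {v | θ v ∈ hs {(x, true)}}`. By `exp_perm` and `cap_of_exp` the number
`cap (hs {(x, true)}) (θ (of (σ x)))` is positive, so by `cap_pos` and `ed_map` there is `g` with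
`Crs (E x) (of (σ x)) g`, and by `key_crs` `capW (hs {(σ x, true)}) W ≤ capW (E x) W
= capW (hs {(x, true)}) (θ ∘ W)`. Sum over `x` (and exchange the sums over `x` and over the tuple).

`not_lmin`: if `W` is not minimal, some Whitehead automorphism decreases the length: negate `LMin`,
`P = A \ {z}`, `a = z`, `insert z (A \ {z}) = A`, `tot_wh`.
-/

set_option autoImplicit false

namespace AdmIso

open Pool.Agent.Lib.MP_f46d86_al

variable {α : Type} [DecidableEq α] [Fintype α] {ι : Type} [Fintype ι]

theorem W09_exp_sum (θ : FreeGroup α ≃* FreeGroup α) (x : α) (w : FreeGroup α) :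
    Multiplicative.toAdd (FreeGroup.lift (fun y => Multiplicative.ofAdd (if y = x then (1 : ℤ) else 0))
      (θ w)) = ∑ y : α, Multiplicative.toAdd (FreeGroup.lift
        (fun y => Multiplicative.ofAdd (if y = x then (1 : ℤ) else 0)) (θ (FreeGroup.of y))) *
      Multiplicative.toAdd (FreeGroup.lift
        (fun z => Multiplicative.ofAdd (if z = y then (1 : ℤ) else 0)) w) := by
  set ex : FreeGroup α →* Multiplicative ℤ :=
    FreeGroup.lift (fun y => Multiplicative.ofAdd (if y = x then (1 : ℤ) else 0)) with hex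
  induction w using FreeGroup.induction_on with
  | C1 => simp
  | of z =>
    have : ∀ y : α, Multiplicative.toAdd (FreeGroup.lift
        (fun z => Multiplicative.ofAdd (if z = y then (1 : ℤ) else 0)) (FreeGroup.of z)) =
        if z = y then 1 else 0 := by
      intro y
      rw [FreeGroup.lift_apply_of]
      rfl
    simp only [this]
    simp
  | inv_of z ih =>
    rw [map_inv, map_inv, toAdd_inv, ih, ← Finset.sum_neg_distrib]
    refine Finset.sum_congr rfl fun y _ => ?_
    rw [map_inv, toAdd_inv]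
    ring
  | mul a b iha ihb =>
    rw [map_mul, map_mul, toAdd_mul, iha, ihb, ← Finset.sum_add_distrib]
    refine Finset.sum_congr rfl fun y _ => ?_
    rw [map_mul, toAdd_mul]
    ring

theorem exp_perm (θ : FreeGroup α ≃* FreeGroup α) : ∃ σ : Equiv.Perm α, ∀ x : α,
    FreeGroup.lift (fun y => Multiplicative.ofAdd (if y = x then (1 : ℤ) else 0))
      (θ (FreeGroup.of (σ x))) ≠ 1 := by
  classical
  let M : Matrix α α ℤ := Matrix.of fun x y => Multiplicative.toAdd (FreeGroup.lift
        (fun y => Multiplicative.ofAdd (if y = x then (1 : ℤ) else 0)) (θ (FreeGroup.of y)))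
  let N : Matrix α α ℤ := Matrix.of fun x y => Multiplicative.toAdd (FreeGroup.lift
        (fun y => Multiplicative.ofAdd (if y = x then (1 : ℤ) else 0)) (θ.symm (FreeGroup.of y)))
  have hMN : M * N = 1 := by
    ext x z
    rw [Matrix.mul_apply]
    have := W09_exp_sum θ x (θ.symm (FreeGroup.of z))
    rw [MulEquiv.apply_symm_apply, FreeGroup.lift_apply_of] at this
    have h2 : ∑ j, M x j * N j z = if z = x then (1 : ℤ) else 0 := by
      rw [← toAdd_ofAdd (if z = x then (1 : ℤ) else 0), this]
      rfl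
    rw [h2, Matrix.one_apply]
    by_cases h : z = x
    · simp [h]
    · simp [h, Ne.symm h]
  have hdet : M.det ≠ 0 := by
    intro h0
    have := congrArg Matrix.det hMN
    rw [Matrix.det_mul, h0, zero_mul, Matrix.det_one] at this
    exact zero_ne_one this
  rw [Matrix.det_apply] at hdet
  obtain ⟨σ, -, hσ⟩ := Finset.exists_ne_zero_of_sum_ne_zero hdet
  have hprod : ∏ i, M (σ i) i ≠ 0 := by
    intro h0
    apply hσ
    rw [h0, smul_zero]
  refine ⟨σ⁻¹, fun x => ?_⟩
  have hx : M (σ (σ⁻¹ x)) (σ⁻¹ x) ≠ 0 := by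
    intro h0
    exact hprod (Finset.prod_eq_zero (Finset.mem_univ (σ⁻¹ x)) h0)
  rw [show σ (σ⁻¹ x) = x from σ.apply_symm_apply x] at hx
  intro h1
  apply hx
  change Multiplicative.toAdd (FreeGroup.lift
        (fun y => Multiplicative.ofAdd (if y = x then (1 : ℤ) else 0)) (θ (FreeGroup.of (σ⁻¹ x)))) = 0
  rw [h1]
  rfl

theorem W09_tot_eq (W : ι → FreeGroup α) :
    tot W = ∑ x : α, capW (hs {(x, true)}) W := by
  unfold tot clen capW
  rw [Finset.sum_comm]

theorem descent (W : ι → FreeGroup α) (hW : LMin W) (θ : FreeGroup α ≃* FreeGroup α) :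
    tot W ≤ tot (fun i => θ (W i)) := by
  obtain ⟨σ, hσ⟩ := exp_perm θ
  rw [W09_tot_eq, W09_tot_eq, ← Equiv.sum_comp σ (fun x : α => capW (hs {(x, true)}) W)]
  refine Finset.sum_le_sum fun x _ => ?_
  have hE : AInv {v : FreeGroup α | θ v ∈ hs {(x, true)}} := ainv_map (ainv_hs _) θ
  have h1 : 0 < cap {v : FreeGroup α | θ v ∈ hs {(x, true)}} (FreeGroup.of (σ x)) := by
    rw [cap_map]
    exact cap_of_exp x _ (hσ x)
  obtain ⟨g, hg⟩ := (cap_pos hE _).1 h1
  have h2 := key_crs W hW _ hE (σ x) g hg
  rwa [capW_map] at h2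

theorem not_lmin (W : ι → FreeGroup α) (θ : FreeGroup α ≃* FreeGroup α)
    (h : tot (fun i => θ (W i)) < tot W) :
    ∃ (A : Set (α × Bool)) (z : α × Bool), z ∈ A ∧ linv z ∉ A ∧ capW (hs A) W < capW (hs {z}) W := by
  by_contra hcon
  push Not at hcon
  have hL : LMin W := fun A z hz hz' => hcon A z hz hz'
  exact absurd (descent W hL θ) (not_le.2 h)

theorem lmin_of_min (W : ι → FreeGroup α)
    (h : ∀ θ : FreeGroup α ≃* FreeGroup α, tot W ≤ tot (fun i => θ (W i))) : LMin W := by
  intro A z hz hz'
  have ha : z ∉ A \ {z} := fun hh => hh.2 rfl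
  have ha' : linv z ∉ A \ {z} := fun hh => hz' hh.1
  have h1 := tot_wh ha ha' W
  have h2 : insert z (A \ {z}) = A := by
    rw [Set.insert_sdiff_singleton, Set.insert_eq_of_mem hz]
  rw [h2] at h1
  have h3 := h (wh ha ha')
  omega

end AdmIso
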