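import Pool.Agent.Lib.MP_32d917_al_adm.W05

/-!
# W10: the complete tuple

`cS (p, q) = p⁻¹ q` for all pairs of letters. Its Whitehead graph is the complete graph on the
letters with multiplicity 4.

`cap_cS`: for `p = q` both sides are `0` (`cap_one`). For `p ≠ q` let `y` be the sequence with period 2
and `y 0 = linv p`, `y 1 = q`; it is reduced as `p ≠ q`, and `prodTo y 2 = p⁻¹ q`; by `cap_line` the value
is `[¬ (p ∈ A ↔ q ∈ A)] + [¬ (linv q ∈ A ↔ linv p ∈ A)]`.

`capW_cS`: sum over all pairs: the number of ordered pairs separated by `A` is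
`2 * A.ncard * Aᶜ.ncard`; the second terms give the same number (substitute
`(p, q) ↦ (linv q, linv p)`).

`cS_strict`: with `N = 2 * card α` letters, `4 a (N - a) > 4 (N - 1)` for `2 ≤ a ≤ N - 2`. If
`z ∈ A`, `linv z ∉ A`, then `A ≠ {z}` gives `a ≥ 2` and `A ≠ {linv z}ᶜ` gives `a ≤ N - 2`.
-/

set_option autoImplicit false
set_option linter.unusedSectionVars false

namespace AdmIso

open Pool.Agent.Lib.MP_f46d86_al

variable {α : Type} [DecidableEq α] [Fintype α]

/-- the complete tuple -/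
def cS : (α × Bool) × (α × Bool) → FreeGroup α := fun p => (lval p.1)⁻¹ * lval p.2

open Classical in
theorem cap_cS (A : Set (α × Bool)) (p q : α × Bool) :
    cap (hs A) (cS (p, q)) = (if (p ∈ A ↔ q ∈ A) then 0 else 1) +
      (if (linv p ∈ A ↔ linv q ∈ A) then 0 else 1) := by
  by_cases hpq : p = q
  · subst hpq
    have h1 : cS (p, p) = (1 : FreeGroup α) := by
      show (lval p)⁻¹ * lval p = 1
      exact inv_mul_cancel _
    rw [h1, cap_one]
    simp
  · set y : ℕ → α × Bool := fun i => if i % 2 = 0 then linv p else q with hy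
    have hper : ∀ i, y (i + 2) = y i := by
      intro i
      simp only [hy, Nat.add_mod_right]
    have y0 : y 0 = linv p := by simp [hy]
    have y1 : y 1 = q := by simp [hy]
    have y2 : y 2 = linv p := by simp [hy]
    have hred : ∀ i, y (i + 1) ≠ linv (y i) := by
      intro i h
      rcases Nat.mod_two_eq_zero_or_one i with hi | hi
      · have hi' : (i + 1) % 2 ≠ 0 := by omega
        have a1 : y (i + 1) = q := if_neg hi'
        have a2 : y i = linv p := if_pos hi
        rw [a1, a2, linv_linv] at h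
        exact hpq h.symm
      · have hi' : (i + 1) % 2 = 0 := by omega
        have a1 : y (i + 1) = linv p := if_pos hi'
        have a2 : y i = q := if_neg (by omega)
        rw [a1, a2] at h
        apply hpq
        rw [← linv_linv p, h, linv_linv]
    have hprod : cS (p, q) = prodTo y 2 := by
      have e0 : prodTo y 0 = 1 := by simp [prodTo]
      rw [prodTo_succ, prodTo_succ, e0, y0, y1, lval_linv, one_mul]
      rfl
    rw [hprod, cap_line y 2 (by norm_num) hper hred A]
    have e0 : (linv (y 0) ∈ A ↔ y (0 + 1) ∈ A) ↔ (p ∈ A ↔ q ∈ A) := by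
      rw [y0, linv_linv, zero_add, y1]
    have e1 : (linv (y 1) ∈ A ↔ y (1 + 1) ∈ A) ↔ (linv p ∈ A ↔ linv q ∈ A) := by
      rw [y1, show (1 + 1 : ℕ) = 2 from rfl, y2]
      exact Iff.comm
    rw [Finset.card_filter, Finset.sum_range_succ, Finset.sum_range_succ, Finset.sum_range_zero,
      zero_add]
    congr 1
    · by_cases h : p ∈ A ↔ q ∈ A
      · rw [if_pos h, if_neg (not_not.2 (e0.2 h))]
      · rw [if_neg h, if_pos (fun h' => h (e0.1 h'))]
    · by_cases h : linv p ∈ A ↔ linv q ∈ A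
      · rw [if_pos h, if_neg (not_not.2 (e1.2 h))]
      · rw [if_neg h, if_pos (fun h' => h (e1.1 h'))]

open Classical in
theorem w10_ind (A : Set (α × Bool)) : ∑ p : α × Bool, (if p ∈ A then 1 else 0) = A.ncard := by
  rw [Finset.sum_boole, Set.ncard_eq_toFinset_card']
  simp only [Nat.cast_id]
  congr 1
  ext p
  simp

open Classical in
theorem w10_ind' (A : Set (α × Bool)) : ∑ p : α × Bool, (if p ∈ A then 0 else 1) = Aᶜ.ncard := by
  rw [← w10_ind]
  refine Finset.sum_congr rfl fun p _ => ?_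
  by_cases h : p ∈ A
  · rw [if_pos h, if_neg (fun h' : p ∈ Aᶜ => h' h)]
  · rw [if_neg h, if_pos (show p ∈ Aᶜ from h)]

theorem w10_prod {β : Type} [Fintype β] (f g : β → ℕ) :
    ∑ x : β × β, f x.1 * g x.2 = (∑ p, f p) * ∑ q, g q := by
  rw [Fintype.sum_prod_type, Finset.sum_mul_sum]

open Classical in
theorem w10_pairs (A : Set (α × Bool)) :
    ∑ x : (α × Bool) × (α × Bool), (if (x.1 ∈ A ↔ x.2 ∈ A) then 0 else 1) =
      2 * A.ncard * Aᶜ.ncard := by
  have h1 : ∀ x : (α × Bool) × (α × Bool), (if (x.1 ∈ A ↔ x.2 ∈ A) then 0 else 1) =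
      (if x.1 ∈ A then 1 else 0) * (if x.2 ∈ A then 0 else 1) +
      (if x.1 ∈ A then 0 else 1) * (if x.2 ∈ A then 1 else 0) := by
    intro x
    by_cases a : x.1 ∈ A <;> by_cases b : x.2 ∈ A <;> simp [a, b]
  rw [Finset.sum_congr rfl fun x _ => h1 x, Finset.sum_add_distrib,
    w10_prod (fun p => if p ∈ A then 1 else 0) (fun q => if q ∈ A then 0 else 1),
    w10_prod (fun p => if p ∈ A then 0 else 1) (fun q => if q ∈ A then 1 else 0),
    w10_ind, w10_ind']
  ring

theorem capW_cS (A : Set (α × Bool)) : capW (hs A) (cS (α := α)) = 4 * A.ncard * Aᶜ.ncard := by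
  classical
  unfold capW
  have h1 : ∀ x : (α × Bool) × (α × Bool), cap (hs A) (cS x) =
      (if (x.1 ∈ A ↔ x.2 ∈ A) then 0 else 1) +
      (if (linv x.1 ∈ A ↔ linv x.2 ∈ A) then 0 else 1) := fun x => cap_cS A x.1 x.2
  rw [Finset.sum_congr rfl fun x _ => h1 x, Finset.sum_add_distrib, w10_pairs]
  let e0 : (α × Bool) ≃ (α × Bool) := ⟨linv, linv, linv_linv, linv_linv⟩
  let e : (α × Bool) × (α × Bool) ≃ (α × Bool) × (α × Bool) := e0.prodCongr e0
  have h2 : ∑ x : (α × Bool) × (α × Bool), (if (linv x.1 ∈ A ↔ linv x.2 ∈ A) then 0 else 1) =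
      ∑ x : (α × Bool) × (α × Bool), (if (x.1 ∈ A ↔ x.2 ∈ A) then 0 else 1) :=
    Equiv.sum_comp e (fun x : (α × Bool) × (α × Bool) =>
      (if (x.1 ∈ A ↔ x.2 ∈ A) then 0 else 1 : ℕ))
  rw [h2, w10_pairs]
  ring

theorem w10_ncard (A : Set (α × Bool)) (z : α × Bool) (hz : z ∈ A) (hz' : linv z ∉ A) :
    0 < A.ncard ∧ 0 < Aᶜ.ncard ∧ ({z}ᶜ : Set (α × Bool)).ncard + 1 = A.ncard + Aᶜ.ncard := by
  refine ⟨(Set.ncard_pos).2 ⟨z, hz⟩, (Set.ncard_pos).2 ⟨linv z, hz'⟩, ?_⟩
  have h1 := Set.ncard_add_ncard_compl A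
  have h2 := Set.ncard_add_ncard_compl ({z} : Set (α × Bool))
  rw [Set.ncard_singleton] at h2
  omega

theorem w10_le (A : Set (α × Bool)) (z : α × Bool) (hz : z ∈ A) (hz' : linv z ∉ A) :
    capW (hs {z}) (cS (α := α)) ≤ capW (hs A) cS := by
  obtain ⟨h1, h2, h3⟩ := w10_ncard A z hz hz'
  rw [capW_cS, capW_cS, Set.ncard_singleton]
  generalize A.ncard = a at *
  generalize Aᶜ.ncard = b at *
  generalize ({z}ᶜ : Set (α × Bool)).ncard = c at *
  obtain ⟨a', rfl⟩ := Nat.exists_eq_add_of_lt h1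
  obtain ⟨b', rfl⟩ := Nat.exists_eq_add_of_lt h2
  have hc : c = a' + b' + 1 := by omega
  rw [hc]
  nlinarith [Nat.zero_le (a' * b')]

theorem cS_strict (A : Set (α × Bool)) (z : α × Bool) (hz : z ∈ A) (hz' : linv z ∉ A)
    (h1 : A ≠ {z}) (h2 : A ≠ {linv z}ᶜ) : capW (hs {z}) (cS (α := α)) < capW (hs A) cS := by
  obtain ⟨_, _, h3⟩ := w10_ncard A z hz hz'
  have ha : 1 < A.ncard := by
    rw [Set.one_lt_ncard_iff (Set.toFinite A)]
    by_contra hne
    apply h1
    ext x
    constructor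
    · intro hx
      by_contra hxz
      exact hne ⟨x, z, hx, hz, hxz⟩
    · rintro rfl
      exact hz
  have hb : 1 < Aᶜ.ncard := by
    rw [Set.one_lt_ncard_iff (Set.toFinite Aᶜ)]
    by_contra hne
    apply h2
    ext x
    constructor
    · rintro hx rfl
      exact hz' hx
    · intro hx
      by_contra hxA
      exact hne ⟨x, linv z, hxA, hz', hx⟩
  rw [capW_cS, capW_cS, Set.ncard_singleton]
  generalize A.ncard = a at *
  generalize Aᶜ.ncard = b at *
  generalize ({z}ᶜ : Set (α × Bool)).ncard = c at *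
  obtain ⟨a', rfl⟩ := Nat.exists_eq_add_of_lt ha
  obtain ⟨b', rfl⟩ := Nat.exists_eq_add_of_lt hb
  have hc : c = a' + b' + 3 := by omega
  rw [hc]
  nlinarith [Nat.zero_le (a' * b')]

theorem cS_lmin : LMin (cS (α := α)) := fun A z hz hz' => w10_le A z hz hz'

/-- the complete tuple repeated sufficiently often, together with any element, is locally minimal
(for `A = {z}` and `A = {linv z}ᶜ` there is equality, `cap_triv`; otherwise `cS_strict`) -/
theorem cS_lmin_add (t : FreeGroup α) (N : ℕ) (hN : clen t ≤ N) :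
    LMin (fun i : (Fin N × ((α × Bool) × (α × Bool))) ⊕ Unit =>
      Sum.elim (fun j => cS j.2) (fun _ => t) i) := by
  intro A z hz hz'
  have hsum : ∀ E : Set (FreeGroup α),
      capW E (fun i : (Fin N × ((α × Bool) × (α × Bool))) ⊕ Unit =>
        Sum.elim (fun j => cS j.2) (fun _ => t) i) = N * capW E (cS (α := α)) + cap E t := by
    intro E
    unfold capW
    rw [Fintype.sum_sum_type]
    simp only [Sum.elim_inl, Sum.elim_inr, Finset.univ_unique, Finset.sum_singleton]
    rw [Fintype.sum_prod_type]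
    simp only [Finset.sum_const, Finset.card_univ, Fintype.card_fin, smul_eq_mul]
  by_cases h1 : A = {z}
  · rw [h1]
  by_cases h2 : A = {linv z}ᶜ
  · rw [h2]
    apply le_of_eq
    unfold capW
    refine Finset.sum_congr rfl fun i _ => ?_
    rw [cap_triv]
  · rw [hsum, hsum]
    have h3 := cS_strict A z hz hz' h1 h2
    have h4 := (cap_le_clen z t).trans hN
    calc N * capW (hs {z}) (cS (α := α)) + cap (hs {z}) t
        ≤ N * capW (hs {z}) (cS (α := α)) + N := by omega
      _ = N * (capW (hs {z}) (cS (α := α)) + 1) := by ring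
      _ ≤ N * capW (hs A) (cS (α := α)) := Nat.mul_le_mul_left _ h3
      _ ≤ N * capW (hs A) (cS (α := α)) + cap (hs A) t := Nat.le_add_right _ _

end AdmIso
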