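import Pool.Agent.Lib.MP_32d917_al_adm.W05

/-!
# W11: automorphisms which do not increase cyclic lengths

Let `ψ` be an automorphism with `clen (ψ t) ≤ clen t` for all `t`. Then `ψ (x) = g * π x * g⁻¹` for a signed
permutation `π`.

Proof. `clen (ψ (of x)) = 1` (`≤ 1`, and not `0`), so `ψ (of x)` is conjugate to a letter `y x`
(reduceCyclically of its reduced word has one letter). The map `x ↦ (y x).1` is surjective: if `z` is not
in the image, then the exponent sum of `z` vanishes on the image of `ψ`, which is everything; so it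
is bijective, in particular `y x' ≠ y x, linv (y x)` for `x ≠ x'`. If `α` is empty or has one element
this is all (conjugate). Fix `x0`. Replace `ψ` by a conjugate such that `ψ (of x0) = lval (y0)`,
`y0 = y x0`. For `x ≠ x0` write `ψ (of x) = c * lval (y x) * c⁻¹` with the word
`c.toWord ++ [y x] ++ invRev c.toWord` reduced, and let `c = lval y0 ^ m * c'`, `m : ℤ`, where the first
letter of `c'` (if any) is neither `y0` nor `linv y0`. Then `ψ (of x0 * of x)` is conjugate to
`lval y0 * c' * lval (y x) * c'⁻¹`, whose word is cyclically reduced of length `2 + 2 |c'|` (if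
`c' = 1` it is `y0, y x`, fine); so `c' = 1` because `clen (ψ (of x0 * of x)) ≤ clen (of x0 * of x) = 2`.
So `ψ (of x) = lval y0 ^ m_x * lval (y x) * lval y0 ^ (- m_x)`. For `x, x' ≠ x0` different,
`ψ (of x * of x')` is conjugate to `lval (y x) * lval y0 ^ d * lval (y x') * lval y0 ^ (- d)`,
`d = m_x' - m_x`, cyclically reduced of length `2 + 2 |d|`; so `d = 0`. So all `m_x` are equal to one
`m`, and conjugating by `lval y0 ^ m` gives letters for all generators.
-/

set_option autoImplicit false

namespace AdmIso

open Pool.Agent.Lib.MP_f46d86_al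

variable {α : Type} [DecidableEq α] [Fintype α]

omit [DecidableEq α] [Fintype α] in
theorem w11_chain_append {l₁ l₂ : List (α × Bool)} (h1 : FreeGroup.IsReduced l₁)
    (h2 : FreeGroup.IsReduced l₂) (h : ∀ a ∈ l₁.getLast?, ∀ b ∈ l₂.head?, a.1 ≠ b.1) :
    FreeGroup.IsReduced (l₁ ++ l₂) := by
  unfold FreeGroup.IsReduced at *
  rw [List.isChain_append]
  exact ⟨h1, h2, fun a ha b hb hab => absurd hab (h a ha b hb)⟩

omit [DecidableEq α] [Fintype α] in
theorem w11_single (p : α × Bool) : FreeGroup.IsReduced [p] := by
  unfold FreeGroup.IsReduced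
  exact List.isChain_singleton _

omit [DecidableEq α] [Fintype α] in
theorem w11_inv_head (l : List (α × Bool)) :
    (FreeGroup.invRev l).head? = l.getLast?.map linv := by
  unfold FreeGroup.invRev
  rw [List.head?_reverse, List.getLast?_map]
  rfl

omit [DecidableEq α] [Fintype α] in
theorem w11_inv_last (l : List (α × Bool)) :
    (FreeGroup.invRev l).getLast? = l.head?.map linv := by
  unfold FreeGroup.invRev
  rw [List.getLast?_reverse, List.head?_map]
  rfl

theorem w11_clen_letter (p : α × Bool) : clen (lval p) = 1 := by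
  unfold lval
  rw [clen_mk _ FreeGroup.IsCyclicallyReduced.singleton]
  rfl

theorem w11_clen_isConj {u v : FreeGroup α} (h : IsConj u v) : clen u = clen v := by
  rw [isConj_iff] at h
  obtain ⟨c, hc⟩ := h
  rw [← hc, clen_conj]

/-- an element of cyclic length one is conjugate to a letter -/
theorem w11_letter {w : FreeGroup α} (h : clen w = 1) : ∃ p : α × Bool, IsConj w (lval p) := by
  have hw : w ≠ 1 := by
    rintro rfl
    rw [clen_one] at h
    exact absurd h (by norm_num)
  obtain ⟨y, m, hm, hper, hred, hc⟩ := per_exists w hw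
  have h1 := clen_per y m hm hper hred
  rw [← w11_clen_isConj hc, h] at h1
  subst h1
  refine ⟨y 0, ?_⟩
  have h2 : prodTo y 1 = lval (y 0) := by
    rw [prodTo_succ]
    simp [prodTo]
  rwa [h2] at hc

/-- the word of `y0 c p c⁻¹` -/
theorem w11_len (y0 p : α × Bool) (c : FreeGroup α) (hp : p.1 ≠ y0.1)
    (h1 : ∀ q ∈ c.toWord.head?, q.1 ≠ y0.1) (h2 : ∀ q ∈ c.toWord.getLast?, q.1 ≠ p.1) :
    clen (lval y0 * c * lval p * c⁻¹) = 2 + 2 * c.toWord.length := by
  have e : lval y0 * c * lval p * c⁻¹ =
      FreeGroup.mk ([y0] ++ (c.toWord ++ ([p] ++ FreeGroup.invRev c.toWord))) := by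
    rw [← FreeGroup.mul_mk, ← FreeGroup.mul_mk, ← FreeGroup.mul_mk, FreeGroup.mk_toWord,
      ← FreeGroup.inv_mk, FreeGroup.mk_toWord]
    unfold lval
    group
  have hlen : (FreeGroup.invRev c.toWord).length = c.toWord.length := FreeGroup.invRev_length
  rw [e, clen_mk]
  · simp only [List.length_append, List.length_singleton, hlen]
    ring
  · have hc : FreeGroup.IsReduced c.toWord := FreeGroup.isReduced_toWord
    constructor
    · refine w11_chain_append (w11_single _) (w11_chain_append hc
        (w11_chain_append (w11_single _) (isReduced_invRev hc) ?_) ?_) ?_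
      · intro a ha b hb
        rw [w11_inv_head, Option.mem_def, Option.map_eq_some_iff] at hb
        obtain ⟨q, hq, rfl⟩ := hb
        simp only [List.getLast?_singleton, Option.mem_def, Option.some.injEq] at ha
        rw [← ha]
        exact fun h => h2 q hq h.symm
      · intro a ha b hb
        simp only [List.singleton_append, List.head?_cons, Option.mem_def,
          Option.some.injEq] at hb
        rw [← hb]
        exact h2 a ha
      · intro a ha b hb
        simp only [List.getLast?_singleton, Option.mem_def, Option.some.injEq] at ha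
        rw [← ha]
        cases hw : c.toWord with
        | nil =>
          rw [hw] at hb
          simp only [List.nil_append, List.singleton_append, List.head?_cons, Option.mem_def,
            Option.some.injEq] at hb
          rw [← hb]
          exact hp.symm
        | cons q l =>
          rw [hw] at hb h1
          simp only [List.cons_append, List.head?_cons, Option.mem_def,
            Option.some.injEq] at hb
          rw [← hb]
          exact (h1 q rfl).symm
    · intro a ha b hb hab
      exfalso
      simp only [List.singleton_append, List.head?_cons, Option.mem_def,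
          Option.some.injEq] at hb
      rw [← hb] at hab
      cases hw : c.toWord with
      | nil =>
        rw [hw] at ha
        simp [FreeGroup.invRev] at ha
        rw [← ha] at hab
        exact hp hab
      | cons q l =>
        have h3 : (FreeGroup.invRev c.toWord).getLast? = some (linv q) := by
          rw [w11_inv_last, hw]
          rfl
        have h4 : ([y0] ++ (c.toWord ++ ([p] ++ FreeGroup.invRev c.toWord))).getLast? =
            some (linv q) := by
          rw [List.getLast?_append, List.getLast?_append, List.getLast?_append, h3]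
          rfl
        rw [h4, Option.mem_def, Option.some.injEq] at ha
        rw [← ha] at hab
        rw [hw] at h1
        exact h1 q rfl hab

/-- conjugates of a letter with a short product with another letter -/
theorem w11_normal (y0 p : α × Bool) (hp : p.1 ≠ y0.1) (u : FreeGroup α)
    (hu : IsConj u (lval p)) (hc : clen (lval y0 * u) ≤ 2) :
    ∃ m : ℤ, u = lval y0 ^ m * lval p * (lval y0 ^ m)⁻¹ := by
  classical
  have hex : ∃ n : ℕ, ∃ (c : FreeGroup α) (m : ℤ), c.norm = n ∧
      u = lval y0 ^ m * c * lval p * c⁻¹ * (lval y0 ^ m)⁻¹ := by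
    rw [isConj_iff] at hu
    obtain ⟨c, hc⟩ := hu
    refine ⟨_, c⁻¹, 0, rfl, ?_⟩
    rw [← hc]
    simp [mul_assoc]
  obtain ⟨c, m, hn, hum⟩ := Nat.find_spec hex
  have hmin : ∀ (c' : FreeGroup α) (m' : ℤ),
      u = lval y0 ^ m' * c' * lval p * c'⁻¹ * (lval y0 ^ m')⁻¹ → c.norm ≤ c'.norm := by
    intro c' m' h
    rw [hn]
    exact Nat.find_min' hex ⟨c', m', rfl, h⟩
  have hnorm : ∀ l : List (α × Bool), (FreeGroup.mk l).norm ≤ l.length := fun l =>
    FreeGroup.norm_mk_le
  have hcl : ∀ q l, c.toWord = q :: l → c = lval q * FreeGroup.mk l := by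
    intro q l h
    rw [← FreeGroup.mk_toWord (x := c), h]
    unfold lval
    rw [FreeGroup.mul_mk]
    rfl
  have hcr : ∀ q l, c.toWord = l ++ [q] → c = FreeGroup.mk l * lval q := by
    intro q l h
    rw [← FreeGroup.mk_toWord (x := c), h]
    unfold lval
    rw [FreeGroup.mul_mk]
  have h1 : ∀ q ∈ c.toWord.head?, q.1 ≠ y0.1 := by
    intro q hq hqy
    rw [Option.mem_def, List.head?_eq_some_iff] at hq
    obtain ⟨l, hl⟩ := hq
    have hlen : c.norm = l.length + 1 := by
      unfold FreeGroup.norm
      rw [hl]
      rfl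
    have h3 := hcl q l hl
    rcases eq_or_ne q y0 with h4 | h4
    · have := hmin (FreeGroup.mk l) (m + 1) (by
        rw [hum, h3, h4, zpow_add_one]
        group)
      have := hnorm l
      omega
    · have h5 : q = linv y0 := by
        obtain ⟨q1, q2⟩ := q
        obtain ⟨y1, y2⟩ := y0
        simp only at hqy
        subst hqy
        unfold linv
        cases q2 <;> cases y2 <;> simp_all
      have := hmin (FreeGroup.mk l) (m - 1) (by
        rw [hum, h3, h5, lval_linv, zpow_sub_one]
        group)
      have := hnorm l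
      omega
  have h2 : ∀ q ∈ c.toWord.getLast?, q.1 ≠ p.1 := by
    intro q hq hqp
    rw [Option.mem_def, List.getLast?_eq_some_iff] at hq
    obtain ⟨l, hl⟩ := hq
    have hlen : c.norm = l.length + 1 := by
      unfold FreeGroup.norm
      rw [hl]
      simp
    have h3 := hcr q l hl
    have h6 : lval q * lval p * (lval q)⁻¹ = lval p := by
      rcases eq_or_ne q p with h4 | h4
      · rw [h4]
        group
      · have h5 : q = linv p := by
          obtain ⟨q1, q2⟩ := q
          obtain ⟨y1, y2⟩ := p
          simp only at hqp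
          subst hqp
          unfold linv
          cases q2 <;> cases y2 <;> simp_all
        rw [h5, lval_linv]
        group
    have h7 : c * lval p * c⁻¹ = FreeGroup.mk l * lval p * (FreeGroup.mk l)⁻¹ := by
      have : c * lval p * c⁻¹ = FreeGroup.mk l * (lval q * lval p * (lval q)⁻¹) *
          (FreeGroup.mk l)⁻¹ := by
        rw [h3]
        group
      rw [this, h6]
    have := hmin (FreeGroup.mk l) m (by
      have e1 : lval y0 ^ m * c * lval p * c⁻¹ * (lval y0 ^ m)⁻¹ =
        lval y0 ^ m * (c * lval p * c⁻¹) * (lval y0 ^ m)⁻¹ := by group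
      rw [hum, e1, h7]
      group)
    have := hnorm l
    omega
  have h3 := w11_len y0 p c hp h1 h2
  have h4 : lval y0 * u = lval y0 ^ m * (lval y0 * c * lval p * c⁻¹) * (lval y0 ^ m)⁻¹ := by
    rw [hum]
    have : lval y0 * lval y0 ^ m = lval y0 ^ m * lval y0 := (Commute.self_zpow _ m).eq
    calc lval y0 * (lval y0 ^ m * c * lval p * c⁻¹ * (lval y0 ^ m)⁻¹)
        = (lval y0 * lval y0 ^ m) * c * lval p * c⁻¹ * (lval y0 ^ m)⁻¹ := by group
      _ = _ := by rw [this]; group
  rw [h4, clen_conj, h3] at hc
  have h5 : c.toWord = [] := by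
    apply List.eq_nil_of_length_eq_zero
    omega
  rw [FreeGroup.toWord_eq_nil_iff] at h5
  refine ⟨m, ?_⟩
  rw [hum, h5]
  group

omit [DecidableEq α] [Fintype α] in
theorem w11_replicate (s : α × Bool) (k : ℕ) :
    FreeGroup.mk (List.replicate k s) = lval s ^ k := by
  induction k with
  | zero => simp [← FreeGroup.one_eq_mk]
  | succ k ih =>
    rw [List.replicate_succ, pow_succ', ← ih]
    unfold lval
    rw [FreeGroup.mul_mk]
    rfl

omit [Fintype α] in
theorem w11_pow_word (s : α × Bool) (k : ℕ) : (lval s ^ k).toWord = List.replicate k s := by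
  rw [← w11_replicate, FreeGroup.toWord_mk, FreeGroup.reduce_replicate]

theorem w11_comm_nat (s p p' : α × Bool) (hp : p.1 ≠ s.1) (hp' : p'.1 ≠ s.1)
    (hpp : p'.1 ≠ p.1) (k : ℕ)
    (hc : clen (lval p * (lval s ^ k * lval p' * (lval s ^ k)⁻¹)) ≤ 2) : k = 0 := by
  have h1 : ∀ q ∈ (lval s ^ k).toWord.head?, q.1 ≠ p.1 := by
    intro q hq
    rw [w11_pow_word, Option.mem_def] at hq
    cases k with
    | zero => simp at hq
    | succ k =>
      rw [List.replicate_succ, List.head?_cons, Option.some.injEq] at hq
      rw [← hq]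
      exact hp.symm
  have h2 : ∀ q ∈ (lval s ^ k).toWord.getLast?, q.1 ≠ p'.1 := by
    intro q hq
    rw [w11_pow_word, Option.mem_def] at hq
    cases k with
    | zero => simp at hq
    | succ k =>
      rw [List.replicate_succ', List.getLast?_concat, Option.some.injEq] at hq
      rw [← hq]
      exact hp'.symm
  have h3 := w11_len p p' (lval s ^ k) hpp h1 h2
  rw [w11_pow_word, List.length_replicate] at h3
  have e : lval p * (lval s ^ k * lval p' * (lval s ^ k)⁻¹) =
      lval p * lval s ^ k * lval p' * (lval s ^ k)⁻¹ := by group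
  rw [e, h3] at hc
  omega

theorem w11_comm (s p p' : α × Bool) (hp : p.1 ≠ s.1) (hp' : p'.1 ≠ s.1)
    (hpp : p'.1 ≠ p.1) (d : ℤ)
    (hc : clen (lval p * (lval s ^ d * lval p' * (lval s ^ d)⁻¹)) ≤ 2) : d = 0 := by
  obtain ⟨k, rfl | rfl⟩ := d.eq_nat_or_neg
  · rw [zpow_natCast] at hc
    rw [w11_comm_nat s p p' hp hp' hpp k hc]
    rfl
  · have e : lval s ^ (-(k : ℤ)) = lval (linv s) ^ k := by
      rw [lval_linv, zpow_neg, zpow_natCast, inv_pow]
    rw [e] at hc
    rw [w11_comm_nat (linv s) p p' hp hp' hpp k hc]
    rfl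

theorem rigid (ψ : FreeGroup α ≃* FreeGroup α) (h : ∀ t, clen (ψ t) ≤ clen t) :
    ∃ (π : FreeGroup α ≃* FreeGroup α) (g : FreeGroup α), IsPerm π ∧ ψ = π.trans (MulAut.conj g) := by
  classical
  rcases isEmpty_or_nonempty α with hα | ⟨⟨x0⟩⟩
  · refine ⟨ψ, 1, fun x => hα.elim x, ?_⟩
    ext t
    simp
  have hof : ∀ x : α, clen (FreeGroup.of x) = 1 := fun x => by
    rw [← lval_true]
    exact w11_clen_letter _
  have hone : ∀ x, clen (ψ (FreeGroup.of x)) = 1 := by
    intro x
    have h1 := h (FreeGroup.of x)
    rw [hof] at h1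
    have h2 : clen (ψ (FreeGroup.of x)) ≠ 0 := by
      rw [Ne, clen_eq_zero]
      intro h3
      have h4 : FreeGroup.of x = 1 := by
        have := congrArg ψ.symm h3
        simpa using this
      exact FreeGroup.of_ne_one x h4
    omega
  have hlet : ∀ x, ∃ p : α × Bool, IsConj (ψ (FreeGroup.of x)) (lval p) :=
    fun x => w11_letter (hone x)
  choose y hy using hlet
  -- the map on the indices is injective
  have hsurj : Function.Surjective fun x => (y x).1 := by
    intro z
    by_contra hcon
    have hz : ∀ x, (y x).1 ≠ z := fun x hx => hcon ⟨x, hx⟩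
    let e : FreeGroup α →* Multiplicative ℤ :=
      FreeGroup.lift fun t => Multiplicative.ofAdd (if t = z then (1 : ℤ) else 0)
    have he : ∀ x, e (ψ (FreeGroup.of x)) = 1 := by
      intro x
      have h1 := hy x
      rw [isConj_iff] at h1
      obtain ⟨c, hc⟩ := h1
      have h2 : e (lval (y x)) = 1 := by
        have h3 : (y x).1 ≠ z := hz x
        rcases hyx : y x with ⟨i, b⟩
        rw [hyx] at h3
        cases b
        · rw [lval_false, map_inv]
          simp only [e, FreeGroup.lift_apply_of]
          rw [if_neg h3]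
          rfl
        · rw [lval_true]
          simp only [e, FreeGroup.lift_apply_of]
          rw [if_neg h3]
          rfl
      have h4 : e (c * ψ (FreeGroup.of x) * c⁻¹) = e (ψ (FreeGroup.of x)) := by
        rw [map_mul, map_mul, map_inv, mul_comm (e c), mul_inv_cancel_right]
      rw [← h4, hc, h2]
    have he2 : e.comp ψ.toMonoidHom = 1 := by
      apply FreeGroup.ext_hom
      intro x
      exact he x
    have he3 : e (FreeGroup.of z) = 1 := by
      have := DFunLike.congr_fun he2 (ψ.symm (FreeGroup.of z))
      simpa using this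
    simp only [e, FreeGroup.lift_apply_of, if_true] at he3
    exact absurd he3 (by decide)
  have hinj : Function.Injective fun x => (y x).1 := Finite.injective_iff_surjective.mpr hsurj
  -- normalise
  obtain ⟨c0, hc0⟩ := isConj_iff.mp (hy x0)
  set θ : FreeGroup α ≃* FreeGroup α := ψ.trans (MulAut.conj c0) with hθ
  have hθa : ∀ t, θ t = c0 * ψ t * c0⁻¹ := fun t => rfl
  have hθc : ∀ t, clen (θ t) ≤ clen t := fun t => by
    rw [hθa, clen_conj]
    exact h t
  have hθ0 : θ (FreeGroup.of x0) = lval (y x0) := hc0
  have hθy : ∀ x, IsConj (θ (FreeGroup.of x)) (lval (y x)) := by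
    intro x
    refine IsConj.trans ?_ (hy x)
    rw [hθa]
    exact (isConj_iff.mpr ⟨c0, rfl⟩ : IsConj (ψ (FreeGroup.of x)) _).symm
  have hprod : ∀ x x', clen (θ (FreeGroup.of x) * θ (FreeGroup.of x')) ≤ 2 := by
    intro x x'
    rw [← map_mul]
    refine (hθc _).trans ?_
    have e1 : FreeGroup.of x * FreeGroup.of x' = FreeGroup.mk [(x, true), (x', true)] := by
      rw [← lval_true, ← lval_true]
      unfold lval
      rw [FreeGroup.mul_mk]
      rfl
    rw [e1, clen_mk]
    · rfl
    · constructor
      · unfold FreeGroup.IsReduced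
        rw [List.isChain_cons_cons]
        exact ⟨fun _ => rfl, List.isChain_singleton _⟩
      · intro a ha b hb _
        simp only [List.getLast?_cons_cons, List.getLast?_singleton, Option.mem_def,
          Option.some.injEq] at ha
        simp only [List.head?_cons, Option.mem_def, Option.some.injEq] at hb
        rw [← ha, ← hb]
  have hm : ∀ x, ∃ m : ℤ, x ≠ x0 →
      θ (FreeGroup.of x) = lval (y x0) ^ m * lval (y x) * (lval (y x0) ^ m)⁻¹ := by
    intro x
    by_cases hx : x = x0
    · exact ⟨0, fun h => absurd hx h⟩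
    · obtain ⟨m, hm⟩ := w11_normal (y x0) (y x) (fun h => hx (hinj h)) _ (hθy x) (by
        have := hprod x0 x
        rwa [hθ0] at this)
      exact ⟨m, fun _ => hm⟩
  choose m hm using hm
  have hmm : ∀ x x', x ≠ x0 → x' ≠ x0 → x' ≠ x → m x' = m x := by
    intro x x' hx hx' hxx
    have h1 := hprod x x'
    rw [hm x hx, hm x' hx'] at h1
    have e1 : lval (y x0) ^ m x * lval (y x) * (lval (y x0) ^ m x)⁻¹ *
        (lval (y x0) ^ m x' * lval (y x') * (lval (y x0) ^ m x')⁻¹) =
        lval (y x0) ^ m x * (lval (y x) * (lval (y x0) ^ (m x' - m x) * lval (y x') *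
          (lval (y x0) ^ (m x' - m x))⁻¹)) * (lval (y x0) ^ m x)⁻¹ := by
      group
    rw [e1, clen_conj] at h1
    have h2 := w11_comm (y x0) (y x) (y x') (fun h => hx (hinj h)) (fun h => hx' (hinj h))
      (fun h => hxx (hinj h)) _ h1
    omega
  have hM : ∃ M : ℤ, ∀ x, θ (FreeGroup.of x) = lval (y x0) ^ M * lval (y x) * (lval (y x0) ^ M)⁻¹ := by
    have h0 : ∀ M : ℤ, θ (FreeGroup.of x0) =
        lval (y x0) ^ M * lval (y x0) * (lval (y x0) ^ M)⁻¹ := by
      intro M
      rw [hθ0]
      group
    by_cases hx : ∃ x1, x1 ≠ x0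
    · obtain ⟨x1, hx1⟩ := hx
      refine ⟨m x1, fun x => ?_⟩
      by_cases h1 : x = x0
      · rw [h1]
        exact h0 _
      · by_cases h2 : x = x1
        · rw [h2]
          exact hm x1 hx1
        · rw [hm x h1, hmm x1 x hx1 h1 h2]
    · refine ⟨0, fun x => ?_⟩
      have : x = x0 := by
        by_contra h1
        exact hx ⟨x, h1⟩
      rw [this]
      exact h0 _
  obtain ⟨M, hM⟩ := hM
  refine ⟨θ.trans (MulAut.conj (lval (y x0) ^ M)⁻¹), c0⁻¹ * lval (y x0) ^ M, fun x => ⟨y x, ?_⟩, ?_⟩
  · change (lval (y x0) ^ M)⁻¹ * θ (FreeGroup.of x) * ((lval (y x0) ^ M)⁻¹)⁻¹ = _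
    rw [hM x]
    group
  · ext t
    change ψ t = c0⁻¹ * lval (y x0) ^ M * ((lval (y x0) ^ M)⁻¹ * (c0 * ψ t * c0⁻¹) *
      ((lval (y x0) ^ M)⁻¹)⁻¹) * (c0⁻¹ * lval (y x0) ^ M)⁻¹
    group

/-- inverses of signed permutations -/
theorem isPerm_symm (π : FreeGroup α ≃* FreeGroup α) (h : IsPerm π) : IsPerm π.symm := by
  classical
  choose y hy using h
  have hsurj : Function.Surjective fun x => (y x).1 := by
    intro z
    by_contra hcon
    have hz : ∀ x, (y x).1 ≠ z := fun x hx => hcon ⟨x, hx⟩
    let e : FreeGroup α →* Multiplicative ℤ :=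
      FreeGroup.lift fun t => Multiplicative.ofAdd (if t = z then (1 : ℤ) else 0)
    have he : ∀ x, e (π (FreeGroup.of x)) = 1 := by
      intro x
      rw [hy x]
      have h3 : (y x).1 ≠ z := hz x
      rcases hyx : y x with ⟨i, b⟩
      rw [hyx] at h3
      cases b
      · rw [lval_false, map_inv]
        simp only [e, FreeGroup.lift_apply_of]
        rw [if_neg h3]
        rfl
      · rw [lval_true]
        simp only [e, FreeGroup.lift_apply_of]
        rw [if_neg h3]
        rfl
    have he2 : e.comp π.toMonoidHom = 1 := by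
      apply FreeGroup.ext_hom
      intro x
      exact he x
    have he3 : e (FreeGroup.of z) = 1 := by
      have := DFunLike.congr_fun he2 (π.symm (FreeGroup.of z))
      simpa using this
    simp only [e, FreeGroup.lift_apply_of, if_true] at he3
    exact absurd he3 (by decide)
  intro z
  obtain ⟨x, hx⟩ := hsurj z
  simp only at hx
  rcases hyx : y x with ⟨i, b⟩
  rw [hyx] at hx
  simp only at hx
  subst hx
  have h1 := hy x
  rw [hyx] at h1
  cases b
  · refine ⟨(x, false), ?_⟩
    rw [lval_false, ← lval_true, MulEquiv.symm_apply_eq, map_inv, h1, lval_false, inv_inv, lval_true]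
  · refine ⟨(x, true), ?_⟩
    rw [lval_true, MulEquiv.symm_apply_eq, h1, lval_true]

end AdmIso
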