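import Pool.Agent.Lib.MP_32d917_al_adm.W09
import Pool.Agent.Lib.MP_32d917_al_adm.W10
import Pool.Agent.Lib.MP_32d917_al_adm.W11

/-!
# W12: the basis is determined by the length of the complete tuple

Let `t` be arbitrary. By `cS_lmin_add` (`N = clen t`) and `descent` for `θ.symm`:
`N * tot cS + clen t ≤ N * tot (θ.symm ∘ cS) + clen (θ.symm t)`, so `clen t ≤ clen (θ.symm t)` by the
hypothesis. With `t = θ s`: `clen (θ s) ≤ clen s` for all `s`; use `rigid`.
-/

set_option autoImplicit false

namespace AdmIso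

open Pool.Agent.Lib.MP_f46d86_al

variable {α : Type} [DecidableEq α] [Fintype α]

theorem W12_tot (t : FreeGroup α) (N : ℕ) (θ : FreeGroup α ≃* FreeGroup α) :
    tot (fun i : (Fin N × ((α × Bool) × (α × Bool))) ⊕ Unit =>
      θ (Sum.elim (fun j : Fin N × ((α × Bool) × (α × Bool)) => cS j.2) (fun _ => t) i)) =
      N * tot (fun i => θ (cS i)) + clen (θ t) := by
  unfold tot
  rw [Fintype.sum_sum_type, Fintype.sum_prod_type]
  simp

theorem uniq (θ : FreeGroup α ≃* FreeGroup α)
    (h : tot (fun i => θ.symm (cS i)) ≤ tot (cS (α := α))) :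
    ∃ (π : FreeGroup α ≃* FreeGroup α) (g : FreeGroup α), IsPerm π ∧ θ = π.trans (MulAut.conj g) := by
  have key : ∀ t : FreeGroup α, clen t ≤ clen (θ.symm t) := by
    intro t
    have h1 := descent _ (cS_lmin_add t (clen t) le_rfl) θ.symm
    have h2 := W12_tot t (clen t) θ.symm
    have h3 := W12_tot t (clen t) (MulEquiv.refl (FreeGroup α))
    rw [h2] at h1
    simp only [MulEquiv.refl_apply] at h3
    have h4 : tot (fun i : (Fin (clen t) × ((α × Bool) × (α × Bool))) ⊕ Unit =>
        Sum.elim (fun j : Fin (clen t) × ((α × Bool) × (α × Bool)) => cS j.2) (fun _ => t) i) =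
        clen t * tot (cS (α := α)) + clen t := h3
    rw [h4] at h1
    have h5 := Nat.mul_le_mul_left (clen t) h
    omega
  apply rigid
  intro s
  have := key (θ s)
  rwa [MulEquiv.symm_apply_apply] at this

end AdmIso
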