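import Pool.Agent.Lib.MP_32d917_al_adm.W06
import Pool.Agent.Lib.MP_32d917_al_adm.W11

/-!
# W13: calculus of `Rch`

`Rch.symm`: induction. For `θ' = θ.trans ρ` one has `θ'.symm = ρ.symm.trans θ.symm`. The step `ρ.symm` is
again an inner automorphism, a signed permutation (`isPerm_symm`) or a Whitehead automorphism
(`wh_symm`), it maps `ρ θ W` to `θ W`, and `tot (θ W) ≤ M` by `Rch.tot_le`. Then `Rch.trans`.
-/

set_option autoImplicit false

namespace AdmIso

open Pool.Agent.Lib.MP_f46d86_al

variable {α : Type} [DecidableEq α] [Fintype α] {ι : Type} [Fintype ι] {W : ι → FreeGroup α}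
  {M : ℕ} {θ θ' : FreeGroup α ≃* FreeGroup α}

theorem tot_perm (π : FreeGroup α ≃* FreeGroup α) (hπ : IsPerm π) (W : ι → FreeGroup α) :
    tot (fun i => π (W i)) = tot W :=
  Finset.sum_congr rfl fun i _ => clen_perm π hπ (W i)

theorem tot_conj (g : FreeGroup α) (W : ι → FreeGroup α) :
    tot (fun i => MulAut.conj g (W i)) = tot W :=
  Finset.sum_congr rfl fun i _ => by simp only [MulAut.conj_apply]; exact clen_conj g (W i)

theorem Rch.mono {M' : ℕ} (hM : M ≤ M') (h : Rch W M θ) : Rch W M' θ := by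
  induction h with
  | refl => exact Rch.refl
  | inner θ g _ ih => exact Rch.inner θ g ih
  | perm θ π hπ _ ih => exact Rch.perm θ π hπ ih
  | wh θ P a ha ha' _ ht ih => exact Rch.wh θ P a ha ha' ih (ht.trans hM)

theorem Rch.tot_le (hM : tot W ≤ M) (h : Rch W M θ) : tot (fun i => θ (W i)) ≤ M := by
  induction h with
  | refl => exact hM
  | inner θ g _ ih =>
    have h1 := tot_conj g (fun i => θ (W i))
    exact (le_of_eq h1).trans ih
  | perm θ π hπ _ ih =>
    have h1 := tot_perm π hπ (fun i => θ (W i))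
    exact (le_of_eq h1).trans ih
  | wh θ P a ha ha' _ ht ih => exact ht

theorem Rch.trans (h : Rch W M θ) (h' : Rch (fun i => θ (W i)) M θ') : Rch W M (θ.trans θ') := by
  induction h' with
  | refl => exact h
  | inner θ' g _ ih => exact Rch.inner (θ.trans θ') g ih
  | perm θ' π hπ _ ih => exact Rch.perm (θ.trans θ') π hπ ih
  | wh θ' P a ha ha' _ ht ih => exact Rch.wh (θ.trans θ') P a ha ha' ih ht

theorem w13_symm_step {ρ : FreeGroup α ≃* FreeGroup α} (h1 : Rch (fun i => (θ.trans ρ) (W i)) M ρ.symm)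
    (h2 : Rch (fun i => θ (W i)) M θ.symm) :
    Rch (fun i => (θ.trans ρ) (W i)) M (θ.trans ρ).symm := by
  have h3 : (fun i => ρ.symm ((θ.trans ρ) (W i))) = fun i => θ (W i) := by
    funext i
    exact ρ.symm_apply_apply (θ (W i))
  exact h1.trans (by rw [h3]; exact h2)

theorem Rch.symm (hM : tot W ≤ M) (h : Rch W M θ) : Rch (fun i => θ (W i)) M θ.symm := by
  induction h with
  | refl => exact Rch.refl
  | inner θ g hr ih =>
    refine w13_symm_step ?_ ih
    have h1 : (MulAut.conj g : FreeGroup α ≃* FreeGroup α).symm =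
        (MulEquiv.refl (FreeGroup α)).trans (MulAut.conj g⁻¹) := by
      ext x
      rw [MulAut.conj_symm_apply]
      change _ = MulAut.conj g⁻¹ x
      rw [MulAut.conj_apply, inv_inv]
    rw [h1]
    exact Rch.inner _ g⁻¹ Rch.refl
  | perm θ π hπ hr ih =>
    refine w13_symm_step ?_ ih
    exact Rch.perm _ π.symm (isPerm_symm π hπ) Rch.refl
  | wh θ P a ha ha' hr ht ih =>
    refine w13_symm_step ?_ ih
    have h1 : (AdmIso.wh ha ha').symm = (MulEquiv.refl (FreeGroup α)).trans
        (AdmIso.wh (P := P) (a := linv a) ha' (by rwa [linv_linv])) := by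
      ext x
      exact wh_symm ha ha' x
    rw [h1]
    refine Rch.wh _ P (linv a) ha' (by rwa [linv_linv]) Rch.refl ?_
    have h2 : (fun i => AdmIso.wh (P := P) (a := linv a) ha' (by rwa [linv_linv])
        ((MulEquiv.refl (FreeGroup α)) ((θ.trans (AdmIso.wh ha ha')) (W i)))) =
        fun i => θ (W i) := by
      funext i
      have h3 := wh_symm ha ha' (AdmIso.wh ha ha' (θ (W i)))
      rw [MulEquiv.symm_apply_apply] at h3
      exact h3.symm
    rw [h2]
    exact hr.tot_le hM

end AdmIso
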