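import Pool.Agent.Lib.MP_32d917_al_adm.W12
import Pool.Agent.Lib.MP_32d917_al_adm.W13

/-!
# W14: the theorem of Whitehead

`down`: lexicographic induction on `(tot W, tot (θ.symm ∘ cS))`, for all `W` and all minimal `θ`
simultaneously. Put `S' = θ.symm ∘ cS`; `tot (θ ∘ S') = tot cS ≤ tot S'` (`cS_lmin`, `descent`).
* If `tot (θ ∘ W) < tot W`: by `not_lmin` there are `A, z` with `capW (hs A) W < capW (hs {z}) W`; put
  `P = A \ {z}`, `a = z`, `ρ = wh`; `tot (ρ ∘ W) < tot W` by `tot_wh` (`insert z (A \ {z}) = A`). By induction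
  `Rch (ρ W) (tot (ρ W)) (ρ.symm.trans θ)`; so `Rch (ρ W) (tot W) (ρ.symm.trans θ)` by `Rch.mono` and
  `Rch.trans` with `Rch W (tot W) ρ` gives the claim (`ρ.trans (ρ.symm.trans θ) = θ`).
* If `tot (θ ∘ W) = tot W` and `tot cS < tot S'`: let `N = tot S' + 1` and consider the tuple which
  consists of `N` copies of `W` and of `S'`, indexed by `(Fin N × ι) ⊕ _`. `θ` decreases its total
  length, so by `not_lmin` there are `A, z` with
  `N * capW (hs A) W + capW (hs A) S' < N * capW (hs {z}) W + capW (hs {z}) S'`.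
  As `capW (hs {z}) S' ≤ tot S' < N` (`cap_le_clen`), `capW (hs A) W ≤ capW (hs {z}) W`, and as `W` is
  minimal (`lmin_of_min`) there is equality, and `capW (hs A) S' < capW (hs {z}) S'`. The Whitehead
  automorphism `ρ` of `A, z` has `tot (ρ W) = tot W`, `tot (ρ S') < tot S'`, and `ρ S'` is
  `(ρ.symm.trans θ).symm ∘ cS`. Conclude as above by induction.
* Otherwise `tot S' ≤ tot cS` and `uniq` gives `θ = π.trans (conj g)`; use the constructors.

`whitehead`: let `θ0` minimise `tot (θ0 ∘ W)`. `Rch W M θ0` by `down` and `mono`. For `W' = θ ∘ W` the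
automorphism `θ1 = θ.symm.trans θ0` is minimal, so `Rch W' M θ1`, and by `Rch.symm`
`Rch (θ0 ∘ W) M θ1.symm`. Compose: `θ0.trans θ1.symm = θ`.
-/

set_option autoImplicit false

namespace AdmIso

open Pool.Agent.Lib.MP_f46d86_al

variable {α : Type} [DecidableEq α] [Fintype α] {ι : Type} [Fintype ι]

/-- a step of the descent -/
theorem w14_step {W : ι → FreeGroup α} {A : Set (α × Bool)} {z : α × Bool} (hz : z ∈ A)
    (hz' : linv z ∉ A) (hle : capW (hs A) W ≤ capW (hs {z}) W) :
    ∃ (ha : z ∉ A \ {z}) (ha' : linv z ∉ A \ {z}),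
      (∀ {κ : Type} [Fintype κ] (V : κ → FreeGroup α),
        tot (fun i => wh ha ha' (V i)) + capW (hs {z}) V = tot V + capW (hs A) V) ∧
      tot (fun i => wh ha ha' (W i)) ≤ tot W := by
  have ha : z ∉ A \ {z} := fun h => h.2 rfl
  have ha' : linv z ∉ A \ {z} := fun h => hz' h.1
  have hins : insert z (A \ {z}) = A := by
    rw [Set.insert_sdiff_singleton, Set.insert_eq_of_mem hz]
  have h1 : ∀ {κ : Type} [Fintype κ] (V : κ → FreeGroup α),
      tot (fun i => wh ha ha' (V i)) + capW (hs {z}) V = tot V + capW (hs A) V := by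
    intro κ _ V
    have := tot_wh ha ha' V
    rwa [hins] at this
  refine ⟨ha, ha', h1, ?_⟩
  have := h1 W
  omega

theorem w14_capW_sum {κ : Type} [Fintype κ] (E : Set (FreeGroup α)) (N : ℕ)
    (V : κ → FreeGroup α) (W : ι → FreeGroup α) :
    capW E (fun i : (Fin N × ι) ⊕ κ => Sum.elim (fun j => W j.2) V i) =
      N * capW E W + capW E V := by
  unfold capW
  rw [Fintype.sum_sum_type]
  simp only [Sum.elim_inl, Sum.elim_inr]
  rw [Fintype.sum_prod_type]
  simp

theorem w14_tot_sum {κ : Type} [Fintype κ] (N : ℕ)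
    (V : κ → FreeGroup α) (W : ι → FreeGroup α) :
    tot (fun i : (Fin N × ι) ⊕ κ => Sum.elim (fun j => W j.2) V i) =
      N * tot W + tot V := by
  unfold tot
  rw [Fintype.sum_sum_type]
  simp only [Sum.elim_inl, Sum.elim_inr]
  rw [Fintype.sum_prod_type]
  simp

theorem w14_capW_le (z : α × Bool) (W : ι → FreeGroup α) : capW (hs {z}) W ≤ tot W :=
  Finset.sum_le_sum fun i _ => cap_le_clen z (W i)

theorem down (W : ι → FreeGroup α) (θ : FreeGroup α ≃* FreeGroup α)
    (h : ∀ θ' : FreeGroup α ≃* FreeGroup α,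
      tot (fun i => θ (W i)) ≤ tot (fun i => θ' (W i))) : Rch W (tot W) θ := by
  obtain ⟨n, hn⟩ : ∃ n, tot W = n := ⟨_, rfl⟩
  induction n using Nat.strong_induction_on generalizing W θ with
  | _ n ihn =>
  obtain ⟨m, hm⟩ : ∃ m, tot (fun i => θ.symm (cS i)) = m := ⟨_, rfl⟩
  induction m using Nat.strong_induction_on generalizing W θ with
  | _ m ihm =>
  -- the general step
  have step : ∀ (A : Set (α × Bool)) (z : α × Bool), z ∈ A → linv z ∉ A →
      capW (hs A) W ≤ capW (hs {z}) W →
      (capW (hs A) W = capW (hs {z}) W →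
        capW (hs A) (fun i => θ.symm (cS i)) < capW (hs {z}) (fun i => θ.symm (cS i))) →
      Rch W (tot W) θ := by
    intro A z hz hz' hle hlt
    obtain ⟨ha, ha', h1, h2⟩ := w14_step hz hz' hle
    have hmin : ∀ θ' : FreeGroup α ≃* FreeGroup α,
        tot (fun i => ((wh ha ha').symm.trans θ) (wh ha ha' (W i))) ≤
          tot (fun i => θ' (wh ha ha' (W i))) := by
      intro θ'
      have e1 : (fun i => ((wh ha ha').symm.trans θ) (wh ha ha' (W i))) = fun i => θ (W i) := by
        funext i
        simp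
      rw [e1]
      exact h ((wh ha ha').trans θ')
    have hr : Rch (fun i => wh ha ha' (W i)) (tot (fun i => wh ha ha' (W i)))
        ((wh ha ha').symm.trans θ) := by
      rcases hle.lt_or_eq with hc | hc
      · have h3 := h1 W
        exact ihn (tot fun i => wh ha ha' (W i)) (by omega) _ _ hmin rfl
      · have h3 := h1 W
        have h4 : tot (fun i => wh ha ha' (W i)) = n := by omega
        have h5 := h1 (fun i => θ.symm (cS i))
        have h6 := hlt hc
        have h7 : (fun i => ((wh ha ha').symm.trans θ).symm (cS (α := α) i)) =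
            fun i => wh ha ha' (θ.symm (cS i)) := by
          funext i
          rfl
        have h8 : tot (fun i => ((wh ha ha').symm.trans θ).symm (cS (α := α) i)) < m := by
          rw [h7]
          omega
        exact ihm _ h8 (fun i => wh ha ha' (W i)) ((wh ha ha').symm.trans θ) hmin h4 rfl
    have h9 : Rch W (tot W) (wh ha ha') := by
      have := Rch.wh (W := W) (M := tot W) (MulEquiv.refl _) (A \ {z}) z ha ha' Rch.refl h2
      exact this
    have h10 := h9.trans (hr.mono h2)
    have h11 : (wh ha ha').trans ((wh ha ha').symm.trans θ) = θ := by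
      ext x
      simp
    rwa [h11] at h10
  rcases lt_or_ge (tot (fun i => θ (W i))) (tot W) with hc | hc
  · obtain ⟨A, z, hz, hz', hlt⟩ := not_lmin W θ hc
    exact step A z hz hz' hlt.le (fun he => absurd he hlt.ne)
  · rcases lt_or_ge (tot (cS (α := α))) (tot (fun i => θ.symm (cS (α := α) i))) with hc2 | hc2
    · -- W is minimal
      have hWmin : ∀ θ' : FreeGroup α ≃* FreeGroup α, tot W ≤ tot (fun i => θ' (W i)) :=
        fun θ' => hc.trans (h θ')
      have hWl : LMin W := lmin_of_min W hWmin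
      have hWe : tot (fun i => θ (W i)) = tot W := le_antisymm (h (MulEquiv.refl _)) hc
      set S' : ((α × Bool) × (α × Bool)) → FreeGroup α := fun i => θ.symm (cS i) with hS'
      set N := tot S' + 1 with hN
      let V : (Fin N × ι) ⊕ ((α × Bool) × (α × Bool)) → FreeGroup α :=
        fun i => Sum.elim (fun j => W j.2) S' i
      have hV : tot (fun i => θ (V i)) < tot V := by
        have e1 : (fun i => θ (V i)) = fun i : (Fin N × ι) ⊕ ((α × Bool) × (α × Bool)) =>
            Sum.elim (fun j => (fun k => θ (W k)) j.2) (cS (α := α)) i := by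
          funext i
          rcases i with i | i
          · rfl
          · simp [V, hS']
        rw [e1, w14_tot_sum N (cS (α := α)) (fun k => θ (W k)), hWe]
        have e2 : tot V = N * tot W + tot S' := w14_tot_sum N S' W
        rw [e2]
        omega
      obtain ⟨A, z, hz, hz', hlt⟩ := not_lmin V θ hV
      have e3 : capW (hs A) V = N * capW (hs A) W + capW (hs A) S' := w14_capW_sum _ N S' W
      have e4 : capW (hs {z}) V = N * capW (hs {z}) W + capW (hs {z}) S' := w14_capW_sum _ N S' W
      rw [e3, e4] at hlt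
      have h5 : capW (hs {z}) S' ≤ tot S' := w14_capW_le z S'
      have h6 : capW (hs {z}) W ≤ capW (hs A) W := hWl A z hz hz'
      have h7 : capW (hs A) W ≤ capW (hs {z}) W := by
        by_contra hcon
        have hcon := not_le.1 hcon
        have : N * (capW (hs {z}) W + 1) ≤ N * capW (hs A) W := Nat.mul_le_mul_left _ hcon
        rw [mul_add, mul_one] at this
        omega
      refine step A z hz hz' h7 fun he => ?_
      rw [he] at hlt
      exact lt_of_add_lt_add_left hlt
    · obtain ⟨π, g, hπ, hθ⟩ := uniq θ hc2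
      rw [hθ]
      have h1 : Rch W (tot W) ((MulEquiv.refl _).trans π) := Rch.perm _ π hπ Rch.refl
      exact Rch.inner _ g h1

theorem whitehead (W : ι → FreeGroup α) (M : ℕ) (θ : FreeGroup α ≃* FreeGroup α)
    (h1 : tot W ≤ M) (h2 : tot (fun i => θ (W i)) ≤ M) : Rch W M θ := by
  obtain ⟨θ0, h0⟩ : ∃ θ0 : FreeGroup α ≃* FreeGroup α, ∀ θ' : FreeGroup α ≃* FreeGroup α,
      tot (fun i => θ0 (W i)) ≤ tot (fun i => θ' (W i)) := by
    have hne : (Set.range fun θ' : FreeGroup α ≃* FreeGroup α => tot fun i => θ' (W i)).Nonempty :=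
      ⟨_, MulEquiv.refl _, rfl⟩
    obtain ⟨θ0, hθ0⟩ := Nat.sInf_mem hne
    exact ⟨θ0, fun θ' => (le_of_eq hθ0).trans (Nat.sInf_le ⟨θ', rfl⟩)⟩
  have hA : Rch W M θ0 := (down W θ0 h0).mono h1
  have hmin : ∀ θ' : FreeGroup α ≃* FreeGroup α,
      tot (fun i => (θ.symm.trans θ0) (θ (W i))) ≤ tot (fun i => θ' (θ (W i))) := by
    intro θ'
    have e1 : (fun i => (θ.symm.trans θ0) (θ (W i))) = fun i => θ0 (W i) := by
      funext i
      simp
    rw [e1]
    exact h0 (θ.trans θ')
  have hB : Rch (fun i => θ (W i)) M (θ.symm.trans θ0) :=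
    (down (fun i => θ (W i)) (θ.symm.trans θ0) hmin).mono h2
  have hC := hB.symm h2
  have e2 : (fun i => (θ.symm.trans θ0) (θ (W i))) = fun i => θ0 (W i) := by
    funext i
    simp
  rw [e2] at hC
  have hD := hA.trans hC
  have e3 : θ0.trans (θ.symm.trans θ0).symm = θ := by
    ext x
    simp
  rwa [e3] at hD

end AdmIso
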