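import Pool.Agent.Lib.MP_32d917_al_adm.WCDefs
import Pool.Agent.Lib.MP_32d917_al_adm.C02

/-!
# WC01: the elements given by words

`dl_surj`: take the reduced word of `g` and map `Fin n → ℕ`. `dl_map`: induction, `FreeGroup.mul_mk`.
`dl_eq_iff`: write the filtered words as `a'.map (fun p => (p.1.1, p.2))` with `a' : List (Fin n × Bool)`;
the map of free groups is injective (`FreeGroup.map_injective`), and use `FreeGroup.reduce.sound`,
`FreeGroup.reduce.exact`.
-/

set_option autoImplicit false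

namespace AdmIso.WC

open Pool.Agent.Lib.MP_f46d86_al

theorem dl_nil (n : ℕ) : dl n [] = 1 := rfl

theorem dl_cons (n : ℕ) (x : ℕ × Bool) (l : Wd) : dl n (x :: l) = dl n [x] * dl n l := by
  rw [c02_cons, c02_cons n x [], dl_nil, mul_one]

theorem dl_append (n : ℕ) (l l' : Wd) : dl n (l ++ l') = dl n l * dl n l' :=
  AdmIso.dl_append n l l'

theorem dl_li (n : ℕ) (x : ℕ × Bool) : dl n [li x] = (dl n [x])⁻¹ := by
  rw [c02_cons, c02_cons n x [], dl_nil, mul_one, mul_one]
  exact c02_inv n x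

theorem dl_invRev (n : ℕ) (l : Wd) : dl n (FreeGroup.invRev l) = (dl n l)⁻¹ :=
  AdmIso.dl_invRev n l

theorem dl_map (n : ℕ) (l : List (Fin n × Bool)) :
    dl n (l.map fun x => (x.1.1, x.2)) = FreeGroup.mk l := AdmIso.dl_map n l

theorem dl_lt (n : ℕ) (x : Fin n × Bool) : dl n [(x.1.1, x.2)] = lval x := dl_map n [x]

theorem dl_ge (n : ℕ) (x : ℕ × Bool) (h : n ≤ x.1) : dl n [x] = 1 := by
  rw [c02_cons, dl_nil, mul_one]
  unfold c02l
  rw [dif_neg (by omega)]

/-- lists of letters `< n` come from lists of letters of `Fin n` -/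
theorem exists_map (n : ℕ) (l : Wd) (h : ∀ x ∈ l, x.1 < n) :
    ∃ l' : List (Fin n × Bool), l = l'.map fun x => (x.1.1, x.2) := by
  obtain ⟨l', h1, -⟩ := dl_of_lt n l h
  exact ⟨l', h1.symm⟩

theorem dl_surj (n : ℕ) (g : FreeGroup (Fin n)) : ∃ l : Wd, (∀ x ∈ l, x.1 < n) ∧ dl n l = g := by
  obtain ⟨l, h1, h2⟩ := AdmIso.dl_surj n g
  exact ⟨l, h2, h1⟩

theorem dl_filter (n : ℕ) (l : Wd) : dl n (l.filter fun x => decide (x.1 < n)) = dl n l := by
  induction l with
  | nil => rfl
  | cons x l ih =>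
    rw [List.filter_cons]
    by_cases h : x.1 < n
    · rw [if_pos (by simpa using h), dl_cons, ih, ← dl_cons]
    · rw [if_neg (by simpa using h), ih, dl_cons n x l, dl_ge n x (by omega), one_mul]

theorem dl_eq_iff (n : ℕ) (a b : Wd) : dl n a = dl n b ↔
    FreeGroup.reduce (a.filter fun x => decide (x.1 < n)) =
      FreeGroup.reduce (b.filter fun x => decide (x.1 < n)) := by
  have hlt : ∀ a : Wd, ∀ x ∈ a.filter fun x => decide (x.1 < n), x.1 < n := by
    intro a x hx
    rw [List.mem_filter] at hx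
    simpa using hx.2
  obtain ⟨a', ha⟩ := exists_map n _ (hlt a)
  obtain ⟨b', hb⟩ := exists_map n _ (hlt b)
  rw [← dl_filter n a, ← dl_filter n b, ha, hb, dl_map, dl_map]
  have hinj : Function.Injective (FreeGroup.map (fun x : Fin n => x.1)) :=
    FreeGroup.map_injective Fin.val_injective
  constructor
  · intro h
    apply FreeGroup.reduce.sound
    have h1 := congrArg (FreeGroup.map (fun x : Fin n => x.1)) h
    rw [FreeGroup.map.mk, FreeGroup.map.mk] at h1
    exact h1
  · intro h
    apply hinj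
    have h1 := FreeGroup.reduce.exact h
    rw [FreeGroup.map.mk, FreeGroup.map.mk]
    exact h1

/-- substitutions are homomorphisms -/
theorem dl_flatMap (n : ℕ) (f : ℕ × Bool → Wd) (ρ : FreeGroup (Fin n) →* FreeGroup (Fin n))
    (h : ∀ x, dl n (f x) = ρ (dl n [x])) (l : Wd) : dl n (l.flatMap f) = ρ (dl n l) := by
  induction l with
  | nil => rw [List.flatMap_nil, dl_nil, map_one]
  | cons x l ih => rw [List.flatMap_cons, dl_append, ih, h, dl_cons n x l, map_mul]

end AdmIso.WC
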