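import Pool.Agent.Lib.MP_32d917_al_adm.WC01
import Pool.Agent.Lib.MP_32d917_al_adm.W05
import Pool.Agent.Lib.MP_0c2883_lc.All.Conj

/-!
# WC02: cyclically reduced words

`crn_iff`: `CRN n l` says that `l ++ l` is reduced and that all letters are `< n`. `l ++ l` is reduced iff
`l` is reduced and the last letter of `l` is not inverse to the first one
(`FreeGroup.IsReduced` is `List.IsChain`, `List.isChain_append`; `FreeGroup.isReduced_iff_reduce_eq`), i.e.
iff `l` is cyclically reduced; compare with `l'` for `l = l'.map ...` (`List.isChain_map`).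

`conj_rot`: `Pool.Agent.Lib.MP_0c2883_lc.All.Conj.main_aux` (conjugate cyclically reduced words are rotations
of each other, general alphabet), then `List.IsRotated` gives `k` with `l.rotate k = l'`
(`List.isRotated_iff_mod`, `List.getElem_rotate`).

`rot_conj`: `l'` is `l.rotate k`, `l = u ++ v`, `l' = v ++ u`.

`exists_crn`: `FreeGroup.reduceCyclically` of the reduced word and
`FreeGroup.reduceCyclically.conj_conjugator_reduceCyclically`.
-/

set_option autoImplicit false

namespace AdmIso.WC

open Pool.Agent.Lib.MP_f46d86_al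

theorem crn_iff (n : ℕ) (l : List (Fin n × Bool)) :
    CRN n (l.map fun x => (x.1.1, x.2)) ↔ FreeGroup.IsCyclicallyReduced l := AdmIso.crn_iff n l

theorem wc02_rot (l l' : Wd) (k : ℕ) : RotK l l' k ↔ l.rotate k = l' := by
  unfold RotK
  constructor
  · rintro ⟨h1, h2⟩
    apply List.ext_getElem
    · rw [List.length_rotate, h1]
    · intro i hi hi'
      rw [List.getElem_rotate]
      have hl : i < l.length := by omega
      have h3 := h2 i hl
      rw [List.getD_eq_getElem _ _ hi', List.getD_eq_getElem _ _ (Nat.mod_lt _ (by omega))] at h3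
      exact h3.symm
  · rintro rfl
    refine ⟨List.length_rotate _ _, fun i hi => ?_⟩
    have h1 : i < (l.rotate k).length := by rw [List.length_rotate]; exact hi
    rw [List.getD_eq_getElem _ _ h1, List.getD_eq_getElem _ _ (Nat.mod_lt _ (by omega)),
      List.getElem_rotate]

theorem conj_rot (n : ℕ) (l l' : Wd) (h : CRN n l) (h' : CRN n l')
    (hc : IsConj (dl n l) (dl n l')) : ∃ k < l.length + 1, RotK l l' k := by
  obtain ⟨m, rfl⟩ := exists_map n l h.2
  obtain ⟨m', rfl⟩ := exists_map n l' h'.2
  rw [crn_iff] at h h'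
  rw [dl_map, dl_map] at hc
  obtain ⟨c, hc⟩ := isConj_iff.1 hc
  have h1 : m' ~r m := by
    refine Pool.Agent.Lib.MP_0c2883_lc.All.Conj.main_aux c.toWord.length c.toWord m' m rfl
      FreeGroup.isReduced_toWord h' h ?_
    rw [FreeGroup.mk_toWord, hc]
  obtain ⟨k, hk, h2⟩ := List.isRotated_iff_mod.1 h1.symm
  refine ⟨k, ?_, ?_⟩
  · rw [List.length_map]
    omega
  · rw [wc02_rot, ← List.map_rotate, h2]

theorem rot_conj (n : ℕ) (l l' : Wd) (k : ℕ) (h : RotK l l' k) : IsConj (dl n l) (dl n l') := by
  rw [wc02_rot] at h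
  rw [← h, List.rotate_eq_drop_append_take_mod]
  conv_lhs => rw [← List.take_append_drop (k % l.length) l]
  rw [dl_append, dl_append, isConj_iff]
  exact ⟨(dl n (l.take (k % l.length)))⁻¹, by group⟩

theorem exists_crn (n : ℕ) (g : FreeGroup (Fin n)) : ∃ l, CRN n l ∧ IsConj g (dl n l) := by
  refine ⟨(FreeGroup.reduceCyclically g.toWord).map fun x => (x.1.1, x.2), ?_, ?_⟩
  · rw [crn_iff]
    exact FreeGroup.reduceCyclically.isCyclicallyReduced FreeGroup.isReduced_toWord
  · rw [dl_map]
    have hconj : g = FreeGroup.mk (FreeGroup.reduceCyclically.conjugator g.toWord) *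
        FreeGroup.mk (FreeGroup.reduceCyclically g.toWord) *
        (FreeGroup.mk (FreeGroup.reduceCyclically.conjugator g.toWord))⁻¹ := by
      rw [FreeGroup.inv_mk, FreeGroup.mul_mk, FreeGroup.mul_mk,
        FreeGroup.reduceCyclically.conj_conjugator_reduceCyclically, FreeGroup.mk_toWord]
    apply IsConj.symm
    rw [isConj_iff]
    exact ⟨_, hconj.symm⟩

theorem clen_crn (n : ℕ) (l : Wd) (h : CRN n l) : clen (dl n l) = l.length := by
  obtain ⟨m, rfl⟩ := exists_map n l h.2
  rw [crn_iff] at h
  rw [dl_map, clen_mk m h, List.length_map]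

theorem clen_isConj (n : ℕ) (g h : FreeGroup (Fin n)) (hc : IsConj g h) : clen g = clen h :=
  w05_clen_isConj hc

/-- every tuple has a cyclically reduced form -/
theorem exists_crt (n : ℕ) (U : Tup) : ∃ T, CRT n U T := by
  choose f hf using exists_crn n
  refine ⟨U.map fun l => f (dl n l), by rw [List.length_map], fun i hi => ?_⟩
  have h1 : (U.map fun l => f (dl n l)).getD i [] = f (dl n (U.getD i [])) := by
    rw [List.getD_eq_getElem _ _ (by rw [List.length_map]; exact hi), List.getElem_map,
      List.getD_eq_getElem _ _ hi]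
  rw [h1]
  exact hf _

/-- the total length of a cyclically reduced form -/
theorem ltot_crt (n : ℕ) (U T : Tup) (h : CRT n U T) :
    ltot T = tot (fun i : Fin U.length => dl n (U.getD i [])) := by
  obtain ⟨h1, h2⟩ := h
  unfold ltot tot
  rw [← Fin.sum_univ_fun_getElem T List.length]
  refine Fintype.sum_equiv (finCongr h1) _ _ fun i => ?_
  obtain ⟨h3, h4⟩ := h2 i (by have := i.2; omega)
  show T[i.1].length = clen (dl n (U.getD i []))
  rw [clen_isConj n _ _ h4, clen_crn n _ h3, List.getD_eq_getElem _ _ i.2]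

end AdmIso.WC
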