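import Pool.Agent.Lib.MP_32d917_al_adm.WC03
import Pool.Agent.Lib.MP_32d917_al_adm.W11

/-!
# WC04: signed permutations are generated by the moves
-/

set_option autoImplicit false

namespace AdmIso

open Pool.Agent.Lib.MP_f46d86_al WC

theorem gp_trans (n : ℕ) (θ θ' : FreeGroup (Fin n) ≃* FreeGroup (Fin n)) (h : GP n θ)
    (h' : GP n θ') : GP n (θ.trans θ') := by
  induction h' with
  | refl => exact h
  | step θ1 ρ m hm hact hp _ ih => exact GP.step (θ.trans θ1) ρ m hm hact hp ih

theorem wc04_one (n : ℕ) (ρ : FreeGroup (Fin n) ≃* FreeGroup (Fin n)) (m : Mv) (hm : m ∈ mvs n)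
    (h : ∀ x, dl n (fM m x) = ρ (dl n [x])) (hp : IsPerm ρ) : GP n ρ :=
  GP.step (MulEquiv.refl _) ρ m hm (fun l => dl_flatMap n (fM m) ρ.toMonoidHom h l) hp GP.refl

theorem wc04_congr_lval (n : ℕ) (σ : Equiv.Perm (Fin n)) (x : Fin n) (b : Bool) :
    FreeGroup.freeGroupCongr σ (lval (x, b)) = lval (σ x, b) := by
  cases b
  · rw [lval_false, lval_false, map_inv]
    simp
  · rw [lval_true, lval_true]
    simp

theorem gp_swap (n : ℕ) (i j : Fin n) : GP n (FreeGroup.freeGroupCongr (Equiv.swap i j)) := by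
  refine wc04_one n _ (1, [], (0, true), (i, j)) ((mem_mvs n _).2 (Or.inr (Or.inl
    ⟨i, i.2, j, j.2, rfl⟩))) ?_ ?_
  · rintro ⟨x, b⟩
    show dl n (fS i j (x, b)) = _
    by_cases hx : x < n
    · have e0 : dl n [(x, b)] = lval ((⟨x, hx⟩ : Fin n), b) := dl_lt n (⟨x, hx⟩, b)
      rw [e0, wc04_congr_lval]
      by_cases h1 : x = i
      · have hi : (⟨x, hx⟩ : Fin n) = i := Fin.ext h1
        rw [hi, Equiv.swap_apply_left, fS, if_pos h1]
        exact dl_lt n (j, b)
      · by_cases h2 : x = j
        · have hj : (⟨x, hx⟩ : Fin n) = j := Fin.ext h2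
          rw [hj, Equiv.swap_apply_right, fS, if_neg h1, if_pos h2]
          exact dl_lt n (i, b)
        · rw [Equiv.swap_apply_of_ne_of_ne (fun hh => h1 (Fin.ext_iff.1 hh))
            (fun hh => h2 (Fin.ext_iff.1 hh)), fS, if_neg h1, if_neg h2]
          exact e0
    · have h1 : ¬ x = i := fun hh => hx (hh ▸ i.2)
      have h2 : ¬ x = j := fun hh => hx (hh ▸ j.2)
      rw [fS, if_neg h1, if_neg h2, dl_ge n (x, b) (not_lt.1 hx), map_one]
  · intro x
    exact ⟨(Equiv.swap i j x, true), wc04_congr_lval n (Equiv.swap i j) x true⟩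

theorem gp_equiv (n : ℕ) (σ : Equiv.Perm (Fin n)) : GP n (FreeGroup.freeGroupCongr σ) := by
  induction σ using Equiv.Perm.swap_induction_on with
  | one =>
    have : FreeGroup.freeGroupCongr (1 : Equiv.Perm (Fin n)) = MulEquiv.refl _ := by
      ext x
      simp
    rw [this]
    exact GP.refl
  | swap_mul f x y _ ih =>
    have : FreeGroup.freeGroupCongr (Equiv.swap x y * f) =
        (FreeGroup.freeGroupCongr f).trans (FreeGroup.freeGroupCongr (Equiv.swap x y)) := by
      apply MulEquiv.toMonoidHom_injective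
      apply FreeGroup.ext_hom
      intro z
      simp
    rw [this]
    exact gp_trans n _ _ ih (gp_swap n x y)

/-- the automorphism which inverts the generators in `S` -/
theorem wc04_nv (n : ℕ) (S : Finset (Fin n)) : ∃ ρ : FreeGroup (Fin n) ≃* FreeGroup (Fin n),
    ∀ i, ρ (FreeGroup.of i) = if i ∈ S then (FreeGroup.of i)⁻¹ else FreeGroup.of i := by
  let f : FreeGroup (Fin n) →* FreeGroup (Fin n) :=
    FreeGroup.lift fun i => if i ∈ S then (FreeGroup.of i)⁻¹ else FreeGroup.of i
  have hf : f.comp f = MonoidHom.id _ := by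
    apply FreeGroup.ext_hom
    intro i
    show f (f (FreeGroup.of i)) = FreeGroup.of i
    by_cases hi : i ∈ S
    · simp [f, hi]
    · simp [f, hi]
  exact ⟨MonoidHom.toMulEquiv f f hf hf, fun i => by
    show f (FreeGroup.of i) = _
    simp [f]⟩

theorem gp_inv (n : ℕ) (S : Finset (Fin n)) : ∃ ρ : FreeGroup (Fin n) ≃* FreeGroup (Fin n), GP n ρ ∧
    ∀ i, ρ (FreeGroup.of i) = if i ∈ S then (FreeGroup.of i)⁻¹ else FreeGroup.of i := by
  induction S using Finset.induction_on with
  | empty => exact ⟨MulEquiv.refl _, GP.refl, fun i => by simp⟩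
  | insert i S hi ih =>
    obtain ⟨ρ, hρ, hρ'⟩ := ih
    obtain ⟨τ, hτ⟩ := wc04_nv n {i}
    have hl : ∀ (j : Fin n) (b : Bool), τ (lval (j, b)) = if j = i then lval (j, !b) else
        lval (j, b) := by
      intro j b
      cases b
      · rw [lval_false, map_inv, hτ j]
        by_cases hj : j = i
        · simp [hj, lval_true]
        · simp [hj, lval_false]
      · rw [lval_true, hτ j]
        by_cases hj : j = i
        · simp [hj, lval_false]
        · simp [hj, lval_true]
    refine ⟨ρ.trans τ, gp_trans n _ _ hρ ?_, ?_⟩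
    · refine wc04_one n _ (2, [], (0, true), (i, 0)) ((mem_mvs n _).2 (Or.inr (Or.inr
        ⟨i, i.2, rfl⟩))) ?_ ?_
      · rintro ⟨x, b⟩
        show dl n (fI i (x, b)) = _
        by_cases hx : x < n
        · have e0 : dl n [(x, b)] = lval ((⟨x, hx⟩ : Fin n), b) := dl_lt n (⟨x, hx⟩, b)
          rw [e0, hl]
          by_cases h1 : x = i
          · rw [if_pos (Fin.ext h1), fI, if_pos h1]
            exact dl_lt n (⟨x, hx⟩, !b)
          · rw [if_neg (fun hh => h1 (Fin.ext_iff.1 hh)), fI, if_neg h1]
            exact e0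
        · have h1 : ¬ x = i := fun hh => hx (hh ▸ i.2)
          rw [fI, if_neg h1, dl_ge n (x, b) (not_lt.1 hx), map_one]
      · intro j
        have := hl j true
        rw [lval_true] at this
        by_cases hj : j = i
        · exact ⟨(j, false), by rw [this, if_pos hj]; rfl⟩
        · exact ⟨(j, true), by rw [this, if_neg hj]; rfl⟩
    · intro j
      show τ (ρ (FreeGroup.of j)) = _
      rw [hρ' j]
      by_cases hj : j = i
      · subst hj
        rw [if_neg hi, hτ j]
        simp
      · by_cases hjS : j ∈ S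
        · rw [if_pos hjS, map_inv, hτ j]
          simp [hj, hjS]
        · rw [if_neg hjS, hτ j]
          simp [hj, hjS]

theorem wc04_of_ne_inv (n : ℕ) (x y : Fin n) : FreeGroup.of x ≠ (FreeGroup.of y)⁻¹ := by
  intro h
  have := congrArg (FreeGroup.lift fun _ : Fin n => Multiplicative.ofAdd (1 : ℤ)) h
  rw [map_inv, FreeGroup.lift_apply_of, FreeGroup.lift_apply_of, ← ofAdd_neg] at this
  have h2 := Multiplicative.ofAdd.injective this
  omega

theorem gp_perm (n : ℕ) (π : FreeGroup (Fin n) ≃* FreeGroup (Fin n)) (h : IsPerm π) : GP n π := by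
  choose s hs using h
  have hinj : Function.Injective fun x => (s x).1 := by
    intro x y hxy
    have hxy' : (s x).1 = (s y).1 := hxy
    by_cases hb : (s x).2 = (s y).2
    · have : s x = s y := Prod.ext hxy' hb
      have h2 : π (FreeGroup.of x) = π (FreeGroup.of y) := by rw [hs, hs, this]
      exact FreeGroup.of_injective (π.injective h2)
    · exfalso
      have : s x = linv (s y) := by
        refine Prod.ext (show (s x).1 = (s y).1 from hxy') ?_
        show (s x).2 = !(s y).2
        cases h1 : (s x).2 <;> cases h2 : (s y).2 <;> simp_all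
      have h2 : π (FreeGroup.of x) = π (FreeGroup.of y)⁻¹ := by
        rw [hs, this, lval_linv, map_inv, hs]
      exact wc04_of_ne_inv n x y (π.injective h2)
  let σ : Equiv.Perm (Fin n) := Equiv.ofBijective _ (Finite.injective_iff_bijective.1 hinj)
  have hσ : ∀ x, σ x = (s x).1 := fun x => rfl
  obtain ⟨ρ, hρ, hρ'⟩ := gp_inv n (Finset.univ.filter fun y => (s (σ.symm y)).2 = false)
  have hπ : π = (FreeGroup.freeGroupCongr σ).trans ρ := by
    apply MulEquiv.toMonoidHom_injective
    apply FreeGroup.ext_hom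
    intro x
    show π (FreeGroup.of x) = ρ (FreeGroup.freeGroupCongr σ (FreeGroup.of x))
    have e1 : FreeGroup.freeGroupCongr σ (FreeGroup.of x) = FreeGroup.of (σ x) := by simp
    rw [e1, hρ', hs]
    have e2 : s x = (σ x, (s x).2) := rfl
    by_cases hb : (s x).2 = false
    · rw [if_pos (by simp [hb]), e2, hb, lval_false]
    · rw [if_neg (by simp [hb]), e2]
      have : (s x).2 = true := by simpa using hb
      rw [this, lval_true]
  rw [hπ]
  exact gp_trans n _ _ (gp_equiv n σ) hρ

end AdmIso
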