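import Pool.Agent.Lib.MP_32d917_al_adm.WC02
import Pool.Agent.Lib.MP_32d917_al_adm.WC04
import Pool.Agent.Lib.MP_32d917_al_adm.W14

/-!
# WC05: certificates are sound

`Rp n V U`: the tuple of words `U` is cyclically reduced and represents the conjugacy classes of the
tuple `V` of elements. `rp_step`: if `U ∈ L` represents `V`, and the move `m` is the automorphism `ρ`, and
`tot (ρ V) ≤ ltot T0 + ltot T1`, then some `T ∈ L` represents `ρ V`: the form `T` of `act m U` given by `Cert`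
has `ltot T = tot (ρ V)` (`ltot_crt`, `clen_isConj`). `sound`: induction over `Rch` (`whitehead` with
`M = ltot T0 + ltot T1`, `W i = dl n (W.getD i [])`), for signed permutations use `gp_perm` and `tot_perm`;
the result is `U ∈ L` which represents `θ W`, so its components are conjugate to those of `W'`, so to those
of `T1`, and `conj_rot` contradicts `¬ RotT U T1`.
-/

set_option autoImplicit false

namespace AdmIso.WC

open Pool.Agent.Lib.MP_f46d86_al

/-- the cyclically reduced tuple `U` represents `V` -/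
def Rp (n k : ℕ) (V : Fin k → FreeGroup (Fin n)) (U : Tup) : Prop :=
  U.length = k ∧ ∀ i : Fin k, CRN n (U.getD i []) ∧ IsConj (V i) (dl n (U.getD i []))

theorem rp_tot (n k : ℕ) (V : Fin k → FreeGroup (Fin n)) (U : Tup) (h : Rp n k V U) :
    ltot U = tot V := by
  obtain ⟨hl, h⟩ := h
  subst hl
  have h1 : CRT n U U := ⟨rfl, fun i hi => ⟨(h ⟨i, hi⟩).1, IsConj.refl _⟩⟩
  rw [ltot_crt n U U h1]
  unfold tot
  apply Finset.sum_congr rfl
  intro i _
  exact (clen_isConj n _ _ (h i).2).symm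

theorem rp_step (n : ℕ) (W W' : Tup) (L : List Tup) (T0 T1 : Tup) (hC : Cert n W W' L T0 T1)
    (k : ℕ) (V : Fin k → FreeGroup (Fin n)) (U : Tup) (hU : U ∈ L) (h : Rp n k V U) (m : Mv)
    (hm : m ∈ mvs n) (ρ : FreeGroup (Fin n) ≃* FreeGroup (Fin n))
    (hρ : ∀ l, dl n (actw m l) = ρ (dl n l)) (ht : tot (fun i => ρ (V i)) ≤ ltot T0 + ltot T1) :
    ∃ T ∈ L, Rp n k (fun i => ρ (V i)) T := by
  obtain ⟨-, -, -, hcl, -⟩ := hC
  obtain ⟨T, hT, hT2⟩ := hcl U hU m hm
  have hlen : (act m U).length = U.length := by simp [act]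
  have hget : ∀ i < U.length, (act m U).getD i [] = actw m (U.getD i []) := by
    intro i hi
    simp [act, List.getD_eq_getElem?_getD, List.getElem?_map, List.getElem?_eq_getElem hi]
  have hRp : Rp n k (fun i => ρ (V i)) T := by
    refine ⟨by rw [hT.1, hlen, h.1], ?_⟩
    intro i
    have hi : (i : ℕ) < U.length := by rw [h.1]; exact i.2
    have h2 := hT.2 i (by rw [hlen]; exact hi)
    refine ⟨h2.1, ?_⟩
    have h4 : IsConj (ρ (V i)) (ρ (dl n (U.getD i []))) := by
      obtain ⟨c, hc⟩ := isConj_iff.1 (h.2 i).2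
      refine isConj_iff.2 ⟨ρ c, ?_⟩
      rw [← map_inv, ← map_mul, ← map_mul, hc]
    rw [← hρ, ← hget i hi] at h4
    exact h4.trans h2.2
  refine ⟨T, ?_, hRp⟩
  rcases hT2 with h5 | h5
  · exfalso
    rw [rp_tot n k _ T hRp] at h5
    omega
  · exact h5

theorem sound (n : ℕ) (W W' : Tup) (L : List Tup) (T0 T1 : Tup) (hC : Cert n W W' L T0 T1) :
    ¬ AutEq n W W' := by
  rintro ⟨hl, θ, hθ⟩
  obtain ⟨h0, h1, h2, h3, h4⟩ := id hC
  let V : Fin W.length → FreeGroup (Fin n) := fun i => dl n (W.getD i [])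
  have hV0 : Rp n W.length V T0 := ⟨h0.1, fun i => h0.2 i i.2⟩
  have hV1 : Rp n W.length (fun i => θ (V i)) T1 := by
    refine ⟨h1.1.trans hl.symm, fun i => ?_⟩
    have h5 := h1.2 i (by rw [← hl]; exact i.2)
    exact ⟨h5.1, (hθ i i.2).trans h5.2⟩
  have t0 : tot V ≤ ltot T0 + ltot T1 := by
    rw [← rp_tot n _ V T0 hV0]; omega
  have t1 : tot (fun i => θ (V i)) ≤ ltot T0 + ltot T1 := by
    rw [← rp_tot n _ _ T1 hV1]; omega
  have hR := whitehead V (ltot T0 + ltot T1) θ t0 t1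
  have key : ∀ θ : FreeGroup (Fin n) ≃* FreeGroup (Fin n), Rch V (ltot T0 + ltot T1) θ →
      (∃ U ∈ L, Rp n W.length (fun i => θ (V i)) U) ∧ tot (fun i => θ (V i)) ≤ ltot T0 + ltot T1 := by
    intro θ hθ
    induction hθ with
    | refl => exact ⟨⟨T0, h2, hV0⟩, t0⟩
    | inner θ g h ih =>
      obtain ⟨⟨U, hU, hR⟩, ht⟩ := ih
      refine ⟨⟨U, hU, hR.1, fun i => ⟨(hR.2 i).1, ?_⟩⟩, ?_⟩
      · have h6 : IsConj (θ (V i)) ((θ.trans (MulAut.conj g)) (V i)) := isConj_iff.2 ⟨g, rfl⟩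
        exact h6.symm.trans (hR.2 i).2
      · have h6 := tot_conj g (fun i => θ (V i))
        exact (le_of_eq h6).trans ht
    | perm θ π hπ h ih =>
      have aux : ∀ π : FreeGroup (Fin n) ≃* FreeGroup (Fin n), GP n π →
          (∃ U ∈ L, Rp n W.length (fun i => π (θ (V i))) U) ∧
            tot (fun i => π (θ (V i))) ≤ ltot T0 + ltot T1 := by
        intro π hπ
        induction hπ with
        | refl => exact ih
        | step θ' ρ m hm hρ hp _ ih' =>
          obtain ⟨⟨U, hU, hR⟩, ht⟩ := ih'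
          have h6 : tot (fun i => ρ (θ' (θ (V i)))) ≤ ltot T0 + ltot T1 := by
            have h7 := tot_perm ρ hp (fun i => θ' (θ (V i)))
            exact (le_of_eq h7).trans ht
          exact ⟨rp_step n W W' L T0 T1 hC _ (fun i => θ' (θ (V i))) U hU hR m hm ρ hρ h6, h6⟩
      exact aux π (gp_perm n π hπ)
    | wh θ P a ha ha' h ht ih =>
      obtain ⟨⟨U, hU, hR⟩, -⟩ := ih
      obtain ⟨m, hm, hρ⟩ := mv_wh n ha ha'
      exact ⟨rp_step n W W' L T0 T1 hC _ (fun i => θ (V i)) U hU hR m hm (AdmIso.wh ha ha') hρ ht, ht⟩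
  obtain ⟨⟨U, hU, hRU⟩, -⟩ := key θ hR
  apply h4 U hU
  intro i hi
  have hi' : i < W.length := by rw [← hRU.1]; exact hi
  have h5 := hRU.2 ⟨i, hi'⟩
  have h6 := hV1.2 ⟨i, hi'⟩
  exact conj_rot n _ _ h5.1 h6.1 (h5.2.symm.trans h6.2)

end AdmIso.WC
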