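import Mathlib
import Pool.Agent.Lib.MP_f46d86_al.Cut

/-!
# The theorem of Whitehead: definitions

`G` is a group, `E` a subset of `G` which is almost invariant under right multiplication (if `G` is
a free group: a clopen set of ends). For `w : G` the cosets `g <w>` are the translates of the axis
of `w`; `Crs E w g` says that the two ends `g w ^ (+oo)` and `g w ^ (-oo)` of the line `g <w>` are
separated by `E`, and `cap E w` is the number of the lines which are separated.
-/

set_option autoImplicit false

namespace AdmIso

open Pool.Agent.Lib.MP_f46d86_al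

section Ends

variable {G : Type} [Group G]

/-- almost invariance -/
def AInv (E : Set G) : Prop := ∀ h : G, {v : G | ¬ (v * h ∈ E ↔ v ∈ E)}.Finite

/-- equality up to finitely many elements -/
def EqF (E E' : Set G) : Prop := {v : G | ¬ (v ∈ E ↔ v ∈ E')}.Finite

/-- the end `g w ^ (+oo)` belongs to `E` -/
def Ed (E : Set G) (w g : G) : Prop := ∀ᶠ k : ℕ in Filter.atTop, g * w ^ k ∈ E

/-- the two ends of the line `g <w>` are separated by `E` -/
def Crs (E : Set G) (w g : G) : Prop := ¬ (Ed E w g ↔ Ed E w⁻¹ g)

/-- the set of lines separated by `E` -/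
def crsSet (E : Set G) (w : G) : Set (G ⧸ Subgroup.zpowers w) :=
  {c | ∃ g : G, (g : G ⧸ Subgroup.zpowers w) = c ∧ Crs E w g}

/-- number of lines separated by `E` -/
noncomputable def cap (E : Set G) (w : G) : ℕ := (crsSet E w).ncard

end Ends

section Free

variable {α : Type} [DecidableEq α]

/-- the elements whose reduced word starts with a letter in `A` -/
def hs (A : Set (α × Bool)) : Set (FreeGroup α) := {v | ∃ p ∈ A, v.toWord.head? = some p}

/-- cyclic length (length of the cyclically reduced word, see `clen_mk`) -/
noncomputable def clen [Fintype α] (w : FreeGroup α) : ℕ := ∑ x : α, cap (hs {(x, true)}) w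

/-- total cyclic length of a tuple -/
noncomputable def tot [Fintype α] {ι : Type} [Fintype ι] (W : ι → FreeGroup α) : ℕ :=
  ∑ i, clen (W i)

/-- number of lines of a tuple separated by `E` -/
noncomputable def capW {G : Type} [Group G] {ι : Type} [Fintype ι] (E : Set G) (W : ι → G) : ℕ :=
  ∑ i, cap E (W i)

/-- The Whitehead automorphism with `a ↦ a` and `y ↦ a ^ [y ∈ P] * y * a ^ (- [y⁻¹ ∈ P])` for the
letters `y ≠ a, a⁻¹`. -/
noncomputable def wh {P : Set (α × Bool)} {a : α × Bool} (ha : a ∉ P) (ha' : linv a ∉ P) :
    FreeGroup α ≃* FreeGroup α := (whEquiv ha ha').symm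

/-- the automorphism given by a signed permutation of the letters -/
def IsPerm (π : FreeGroup α ≃* FreeGroup α) : Prop := ∀ x : α, ∃ y : α × Bool, π (FreeGroup.of x) = lval y

/-- `W` is locally minimal: no Whitehead automorphism decreases the total length -/
def LMin [Fintype α] {ι : Type} [Fintype ι] (W : ι → FreeGroup α) : Prop :=
  ∀ (A : Set (α × Bool)) (z : α × Bool), z ∈ A → linv z ∉ A → capW (hs {z}) W ≤ capW (hs A) W

/-- Automorphisms which can be reached from the identity by Whitehead automorphisms, signed
permutations and inner automorphisms, such that the total length of the image of `W` never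
exceeds `M`. -/
inductive Rch [Fintype α] {ι : Type} [Fintype ι] (W : ι → FreeGroup α) (M : ℕ) :
    (FreeGroup α ≃* FreeGroup α) → Prop
  | refl : Rch W M (MulEquiv.refl _)
  | inner (θ : FreeGroup α ≃* FreeGroup α) (g : FreeGroup α) :
      Rch W M θ → Rch W M (θ.trans (MulAut.conj g))
  | perm (θ π : FreeGroup α ≃* FreeGroup α) : IsPerm π → Rch W M θ → Rch W M (θ.trans π)
  | wh (θ : FreeGroup α ≃* FreeGroup α) (P : Set (α × Bool)) (a : α × Bool) (ha : a ∉ P)
      (ha' : linv a ∉ P) : Rch W M θ → tot (fun i => wh ha ha' (θ (W i))) ≤ M →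
      Rch W M (θ.trans (wh ha ha'))

end Free

end AdmIso
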