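import Pool.Agent.Lib.MP_32d917_al_adm.CDefs
import Pool.Agent.Lib.MP_32d917_al_adm.WDefs

/-!
# Certificates of non equivalence: definitions

Moves are substitutions of letters: `fW P a` is a Whitehead automorphism, `fS i j` exchanges two
letters, `fI i` inverts a letter. `mvs n` is the finite list of all moves of `FreeGroup (Fin n)`.
-/

set_option autoImplicit false

namespace AdmIso

/-- inverse letter -/
def li (x : ℕ × Bool) : ℕ × Bool := (x.1, !x.2)

/-- substitution for the Whitehead automorphism of `P \ {a, a⁻¹}` and `a` -/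
def fW (P : Wd) (a x : ℕ × Bool) : Wd :=
  if x = a ∨ x = li a then [x] else
    (if x ∈ P then [a] else []) ++ [x] ++ (if li x ∈ P then [li a] else [])

/-- exchange of the generators `i` and `j` -/
def fS (i j : ℕ) (x : ℕ × Bool) : Wd :=
  if x.1 = i then [(j, x.2)] else if x.1 = j then [(i, x.2)] else [x]

/-- inversion of the generator `i` -/
def fI (i : ℕ) (x : ℕ × Bool) : Wd := if x.1 = i then [li x] else [x]

/-- codes of moves: tag, `P`, `a`, `(i, j)` -/
abbrev Mv : Type := ℕ × Wd × (ℕ × Bool) × (ℕ × ℕ)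

/-- the substitution of a move -/
def fM (m : Mv) (x : ℕ × Bool) : Wd :=
  if m.1 = 0 then fW m.2.1 m.2.2.1 x else
    if m.1 = 1 then fS m.2.2.2.1 m.2.2.2.2 x else fI m.2.2.2.1 x

/-- the letters `< n` -/
def lets (n : ℕ) : Wd := (List.range n).flatMap fun i => [(i, true), (i, false)]

/-- all subsets of the letters `< n` -/
def psubs (n : ℕ) : List Wd :=
  Nat.rec [[]] (fun k S => S ++ S.map (fun P => (k, true) :: P) ++ S.map (fun P => (k, false) :: P) ++
    S.map (fun P => (k, true) :: (k, false) :: P)) n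

/-- all moves -/
def mvs (n : ℕ) : List Mv :=
  ((psubs n).flatMap fun P => (lets n).map fun a => ((0, P, a, (0, 0)) : Mv)) ++
  ((List.range n).flatMap fun i => (List.range n).map fun j => ((1, [], (0, true), (i, j)) : Mv)) ++
  ((List.range n).map fun i => ((2, [], (0, true), (i, 0)) : Mv))

/-- a move applied to a word -/
def actw (m : Mv) (l : Wd) : Wd := l.flatMap (fM m)

/-- a move applied to a tuple -/
def act (m : Mv) (U : Tup) : Tup := U.map (actw m)

/-- total length -/
def ltot (T : Tup) : ℕ := (T.map List.length).sum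

/-- `T` is a cyclically reduced form of the tuple `U` -/
def CRT (n : ℕ) (U T : Tup) : Prop :=
  T.length = U.length ∧ ∀ i < U.length, CRN n (T.getD i []) ∧
    IsConj (dl n (U.getD i [])) (dl n (T.getD i []))

/-- all components are rotations -/
def RotT (U T : Tup) : Prop :=
  ∀ i < U.length, ∃ k < (U.getD i []).length + 1, RotK (U.getD i []) (T.getD i []) k

/-- `L` is a certificate: it contains a cyclically reduced form `T0` of `W`, is closed under the
moves up to the length `ltot T0 + ltot T1`, and does not contain the cyclically reduced form `T1`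
of `W'` -/
def Cert (n : ℕ) (W W' : Tup) (L : List Tup) (T0 T1 : Tup) : Prop :=
  CRT n W T0 ∧ CRT n W' T1 ∧ T0 ∈ L ∧
  (∀ U ∈ L, ∀ m ∈ mvs n, ∃ T, CRT n (act m U) T ∧ (ltot T0 + ltot T1 < ltot T ∨ T ∈ L)) ∧
  ∀ U ∈ L, ¬ RotT U T1

/-- automorphisms generated by the moves of tags 1 and 2 -/
inductive GP (n : ℕ) : (FreeGroup (Fin n) ≃* FreeGroup (Fin n)) → Prop
  | refl : GP n (MulEquiv.refl _)
  | step (θ ρ : FreeGroup (Fin n) ≃* FreeGroup (Fin n)) (m : Mv) : m ∈ mvs n →
      (∀ l, dl n (actw m l) = ρ (dl n l)) → IsPerm ρ → GP n θ → GP n (θ.trans ρ)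

end AdmIso
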